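import Pool.Agent.N138.RF.Stm

set_option autoImplicit false
set_option linter.unusedSectionVars false

/-! # Good polynomials: products (job G2) -/

namespace Pool.Agent.N138.RF.G2

open MvPolynomial MeasureTheory
open Pool.Agent.W427.SMC (msZ bsZ mu)
open Pool.Agent.Y230.PT (msK bsK inc inc_emb rr)
open Pool.Agent.Y230.PS (EP)
open Pool.Agent.N138.SU Pool.Agent.N138.SV Pool.Agent.N138.RF

attribute [local instance] msK bsK msZ bsZ

variable {p : ℕ} [Fact p.Prime]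

/-! ## General facts -/

theorem EP_le {m m' : ℂ → ℕ∞} (h : ∀ T, T ≠ 0 → m T ≤ m' T) : EP m ≤ EP m' := by
  unfold EP
  apply Submodule.span_mono
  rintro c ⟨T, hT, k, hk, hc⟩
  exact ⟨T, hT, k, hk.trans (h T hT), hc⟩

theorem gd_mono {Y : Type} [MeasurableSpace Y] {ν : Measure Y} {φ : Y → ℤ_[p]} {m m' : ℂ → ℕ∞}
    (h : ∀ T, T ≠ 0 → m T ≤ m' T) (hg : Gd ν φ m) : Gd ν φ m' :=
  ⟨hg.1, fun χ => EP_le h (hg.2 χ)⟩

theorem gd_equiv {Y Y' : Type} [MeasurableSpace Y] [MeasurableSpace Y'] {ν : Measure Y}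
    {ν' : Measure Y'} (T : Y ≃ᵐ Y') (hT : MeasurePreserving T ν ν') {φ : Y' → ℤ_[p]}
    {m : ℂ → ℕ∞} (h : Gd ν' φ m) : Gd ν (fun y => φ (T y)) m := by
  obtain ⟨⟨N, hN⟩, hE⟩ := h
  refine ⟨⟨N, fun v hv g hg hB => ?_⟩, fun χ => ?_⟩
  · have h1 := hN v hv g hg hB
    rw [← hT.integral_comp' (fun y => g (v * φ y)), ← hT.integral_comp' (fun y => g (φ y))] at h1
    exact h1
  · have h1 := hE χ
    have h2 : (fun e : ℕ => Eh ν (fun y => φ (T y)) χ e) = fun e => Eh ν' φ χ e := by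
      funext e
      unfold Eh Es
      have h3 : ∀ u : ℤ_[p], ∫ y, psi p e (u * φ (T y)) ∂ν = ∫ y, psi p e (u * φ y) ∂ν' := by
        intro u
        exact hT.integral_comp' (fun y => psi p e (u * φ y))
      simp only [h3]
    rw [h2]
    exact h1

theorem gd_swap {Y Y' : Type} [MeasurableSpace Y] [MeasurableSpace Y'] {ν : Measure Y}
    {ν' : Measure Y'} [SFinite ν] [SFinite ν'] {φ : Y' × Y → ℤ_[p]} {m : ℂ → ℕ∞}
    (h : Gd (ν'.prod ν) φ m) : Gd (ν.prod ν') (fun z => φ (z.2, z.1)) m :=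
  gd_equiv (MeasurableEquiv.prodComm (α := Y) (β := Y'))
    (Measure.measurePreserving_swap (μ := ν) (ν := ν')) h

theorem meas_shift {V : Type} [Fintype V] (b : V → ℤ_[p]) (j : ℕ) :
    Measurable fun x : V → ℤ_[p] => fun i => b i + (p : ℤ_[p]) ^ j * x i := by
  have h : Continuous fun x : V → ℤ_[p] => fun i => b i + (p : ℤ_[p]) ^ j * x i := by fun_prop
  exact h.measurable

/-- gluing in the first variable -/
theorem glue1 (L5 : StL5) (Du : StDu) {V : Type} [Fintype V] {Y' : Type} [MeasurableSpace Y']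
    (ν' : Measure Y') [IsProbabilityMeasure ν'] (Φ : (V → ℤ_[p]) × Y' → ℤ_[p])
    (hΦ : Measurable Φ) (j : ℕ) (m : ℂ → ℕ∞)
    (h : ∀ b : V → ℤ_[p], Gd ((Measure.pi fun _ : V => mu p).prod ν')
      (fun z => Φ (fun i => b i + (p : ℤ_[p]) ^ j * z.1 i, z.2)) m) :
    Gd ((Measure.pi fun _ : V => mu p).prod ν') Φ m := by
  obtain ⟨S, hS⟩ := Du p V j
  have hm : ∀ b : V → ℤ_[p], Measurable
      fun z : (V → ℤ_[p]) × Y' => Φ (fun i => b i + (p : ℤ_[p]) ^ j * z.1 i, z.2) := fun b =>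
    hΦ.comp (((meas_shift b j).comp measurable_fst).prodMk measurable_snd)
  refine L5 p _ Φ hΦ (κ := V → ℤ_[p]) (Z := (V → ℤ_[p]) × Y')
    ((Measure.pi fun _ : V => mu p).prod ν') S
    (fun _ => ((p : ℂ)⁻¹) ^ (Fintype.card V * j))
    (fun b z => Φ (fun i => b i + (p : ℤ_[p]) ^ j * z.1 i, z.2)) (fun b _ => hm b) ?_ m
    (fun b _ => h b)
  intro g hg hB0
  obtain ⟨B, hB⟩ := hB0
  have hint : ∀ Ψ : (V → ℤ_[p]) × Y' → ℤ_[p], Measurable Ψ →
      Integrable (fun y => g (Ψ y)) ((Measure.pi fun _ : V => mu p).prod ν') := by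
    intro Ψ hΨ
    exact Integrable.of_bound (hg.comp hΨ).aestronglyMeasurable B
      (Filter.Eventually.of_forall fun y => hB _)
  rw [integral_prod _ (hint Φ hΦ)]
  rw [hS (fun x => ∫ y, g (Φ (x, y)) ∂ν') ?_ ⟨B, fun x => ?_⟩]
  · refine Finset.sum_congr rfl fun b _ => ?_
    congr 1
    rw [integral_prod _ (hint _ (hm b))]
  · exact ((hg.comp hΦ).stronglyMeasurable.integral_prod_right').measurable
  · refine (norm_integral_le_of_norm_le_const (C := B) (Filter.Eventually.of_forall fun y =>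
      hB _)).trans ?_
    simp

/-! ## The functions -/

theorem isM_cont {V : Type} [Fintype V] {F : MvPolynomial V ℚ_[p]} {φ : (V → ℤ_[p]) → ℤ_[p]}
    (h : IsM F φ) : Continuous φ := by
  have h1 : Continuous (fun x => inc p (φ x)) := by
    have : (fun x => inc p (φ x)) = fun x : V → ℤ_[p] =>
        MvPolynomial.eval (fun i => inc p (x i)) F := funext h
    rw [this]
    exact (MvPolynomial.continuous_eval _).comp (continuous_pi fun i =>
      (inc_emb p).continuous.comp (continuous_apply i))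
  exact (inc_emb p).isInducing.continuous_iff.2 h1

theorem bal_meas {V : Type} [Fintype V] {F : MvPolynomial V ℚ_[p]} {φ : (V → ℤ_[p]) → ℤ_[p]}
    (h : IsM F φ) (a : V → ℤ_[p]) (k : ℕ) : Measurable (bal φ a k) :=
  (isM_cont h).measurable.comp (meas_shift a k)

theorem norm_pk (k : ℕ) : ‖(p : ℤ_[p]) ^ k‖ = ((p : ℝ)⁻¹) ^ k := by
  rw [norm_pow, PadicInt.norm_p]

theorem pinv_le : ((p : ℝ)⁻¹) ≤ 1 := by
  have h : (1 : ℝ) ≤ p := by exact_mod_cast (Fact.out : p.Prime).one_lt.le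
  exact inv_le_one_of_one_le₀ h

theorem pinv_pos : 0 < ((p : ℝ)⁻¹) := by
  have h : (0 : ℝ) < p := by exact_mod_cast (Fact.out : p.Prime).pos
  positivity

/-- uniform continuity -/
theorem unif {V : Type} [Fintype V] {φ : (V → ℤ_[p]) → ℤ_[p]} (h : Continuous φ) (ε : ℝ)
    (hε : 0 < ε) : ∃ j : ℕ, ∀ x x' : V → ℤ_[p], (∀ i, ‖x i - x' i‖ ≤ ((p : ℝ)⁻¹) ^ j) →
      ‖φ x - φ x'‖ < ε := by
  have hu : UniformContinuous φ := CompactSpace.uniformContinuous_of_continuous h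
  obtain ⟨δ, hδ, hδ2⟩ := Metric.uniformContinuous_iff.1 hu ε hε
  have hp1 : ((p : ℝ)⁻¹) < 1 := by
    have h : (1 : ℝ) < p := by exact_mod_cast (Fact.out : p.Prime).one_lt
    exact inv_lt_one_of_one_lt₀ h
  obtain ⟨j, hj⟩ := exists_pow_lt_of_lt_one hδ hp1
  refine ⟨j, fun x x' hx => ?_⟩
  have h1 : dist x x' < δ := by
    refine lt_of_le_of_lt ?_ hj
    rw [dist_pi_le_iff (by have := pinv_pos (p := p); positivity)]
    intro i
    rw [dist_eq_norm]
    exact hx i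
  have := hδ2 h1
  rwa [dist_eq_norm] at this

theorem ball_pt {V : Type} {P a y : V → ℤ_[p]} {k0 k : ℕ} (hk : k0 ≤ k)
    (ha : ∀ i, ‖a i - P i‖ ≤ ((p : ℝ)⁻¹) ^ k0) (i : V) :
    ‖(a i + (p : ℤ_[p]) ^ k * y i) - P i‖ ≤ ((p : ℝ)⁻¹) ^ k0 := by
  have h1 : (a i + (p : ℤ_[p]) ^ k * y i) - P i = (a i - P i) + (p : ℤ_[p]) ^ k * y i := by ring
  rw [h1]
  refine (PadicInt.nonarchimedean _ _).trans (max_le (ha i) ?_)
  rw [norm_mul, norm_pk]
  calc ((p : ℝ)⁻¹) ^ k * ‖y i‖ ≤ ((p : ℝ)⁻¹) ^ k * 1 :=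
        mul_le_mul_of_nonneg_left (PadicInt.norm_le_one _) (pow_nonneg pinv_pos.le _)
    _ = ((p : ℝ)⁻¹) ^ k := mul_one _
    _ ≤ ((p : ℝ)⁻¹) ^ k0 := pow_le_pow_of_le_one pinv_pos.le pinv_le hk

theorem norm_eq_of_sub_lt {x l : ℤ_[p]} (h : ‖x - l‖ < ‖l‖) : ‖x‖ = ‖l‖ := by
  have h1 := PadicInt.norm_add_eq_max_of_ne (q := x - l) (r := l) h.ne
  rw [sub_add_cancel, max_eq_right h.le] at h1
  exact h1

theorem bal_bal {V : Type} (φ : (V → ℤ_[p]) → ℤ_[p]) (a b y : V → ℤ_[p]) (k j : ℕ) :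
    bal φ a k (fun i => b i + (p : ℤ_[p]) ^ j * y i) =
      bal φ (fun i => a i + (p : ℤ_[p]) ^ k * b i) (k + j) y := by
  unfold bal
  congr 1
  funext i
  rw [pow_add]
  ring

/-! ## The local statements -/

/-- the result near the point `(P1, P2)` with the multiplicities `m3` -/
def Lo {V W : Type} [Fintype V] [Fintype W] (φF : (V → ℤ_[p]) → ℤ_[p])
    (φG : (W → ℤ_[p]) → ℤ_[p]) (P1 : V → ℤ_[p]) (P2 : W → ℤ_[p]) (m3 : ℂ → ℕ∞) : Prop :=
  ∃ k0 : ℕ, ∀ (a1 : V → ℤ_[p]) (a2 : W → ℤ_[p]) (k : ℕ), k0 ≤ k →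
    (∀ i, ‖a1 i - P1 i‖ ≤ ((p : ℝ)⁻¹) ^ k0) → (∀ i, ‖a2 i - P2 i‖ ≤ ((p : ℝ)⁻¹) ^ k0) →
    Gd ((Measure.pi fun _ : V => mu p).prod (Measure.pi fun _ : W => mu p))
      (fun z => bal φF a1 k z.1 * bal φG a2 k z.2 - φF P1 * φG P2) m3

/-- the hypothesis near the point `P` with the multiplicities `m` -/
def Hy {V : Type} [Fintype V] (φ : (V → ℤ_[p]) → ℤ_[p]) (P : V → ℤ_[p]) (m : ℂ → ℕ∞) : Prop :=
  ∃ k0 : ℕ, ∀ (a : V → ℤ_[p]) (k : ℕ), k0 ≤ k →
    (∀ i, ‖a i - P i‖ ≤ ((p : ℝ)⁻¹) ^ k0) →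
    Gd (Measure.pi fun _ : V => mu p) (fun y => bal φ a k y - φ P) m

theorem lo_swap {V W : Type} [Fintype V] [Fintype W] {φF : (V → ℤ_[p]) → ℤ_[p]}
    {φG : (W → ℤ_[p]) → ℤ_[p]} {P1 : V → ℤ_[p]} {P2 : W → ℤ_[p]} {m3 : ℂ → ℕ∞}
    (h : Lo φG φF P2 P1 m3) : Lo φF φG P1 P2 m3 := by
  obtain ⟨k0, hk0⟩ := h
  refine ⟨k0, fun a1 a2 k hk h1 h2 => ?_⟩
  have h3 := gd_swap (hk0 a2 a1 k hk h2 h1)
  simp only at h3
  have e : (fun z : (V → ℤ_[p]) × (W → ℤ_[p]) =>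
      bal φF a1 k z.1 * bal φG a2 k z.2 - φF P1 * φG P2) =
      fun z => bal φG a2 k z.2 * bal φF a1 k z.1 - φG P2 * φF P1 := by
    funext z
    ring
  rw [e]
  exact h3

theorem hy_mono {V : Type} [Fintype V] {φ : (V → ℤ_[p]) → ℤ_[p]} {P : V → ℤ_[p]}
    {m m' : ℂ → ℕ∞} (h : ∀ T, T ≠ 0 → m T ≤ m' T) (hy : Hy φ P m) : Hy φ P m' := by
  obtain ⟨k0, hk0⟩ := hy
  exact ⟨k0, fun a k hk ha => gd_mono h (hk0 a k hk ha)⟩

/-- the first value is not zero: the common part -/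
theorem lo_ne (L5 : StL5) (Du : StDu) {V W : Type} [Fintype V] [Fintype W]
    {F : MvPolynomial V ℚ_[p]} {G : MvPolynomial W ℚ_[p]} {φF : (V → ℤ_[p]) → ℤ_[p]}
    {φG : (W → ℤ_[p]) → ℤ_[p]} (hF : IsM F φF) (hG : IsM G φG) {P1 : V → ℤ_[p]}
    {P2 : W → ℤ_[p]} {m1 m2 m3 : ℂ → ℕ∞} (hl : φF P1 ≠ 0) (h1 : Hy φF P1 m1)
    (h2 : Hy φG P2 m2)
    (hstep : ∀ (u : (V → ℤ_[p]) → ℤ_[p]) (w : (W → ℤ_[p]) → ℤ_[p]) (c : ℤ_[p]) (N : ℕ),
      Measurable u → Measurable w → c ≠ 0 →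
      (∀ y, ‖u y - c‖ ≤ ‖c‖ * ((p : ℝ)⁻¹) ^ N) →
      LIn (Measure.pi fun _ : W => mu p) (fun y => w y - φG P2) N →
      Gd (Measure.pi fun _ : V => mu p) (fun y => u y - φF P1) m1 →
      Gd (Measure.pi fun _ : W => mu p) (fun y => w y - φG P2) m2 →
      Gd ((Measure.pi fun _ : V => mu p).prod (Measure.pi fun _ : W => mu p))
        (fun z => u z.1 * w z.2 - φF P1 * φG P2) m3) : Lo φF φG P1 P2 m3 := by
  obtain ⟨k1, hk1⟩ := h1
  obtain ⟨k2, hk2⟩ := h2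
  have hlp : 0 < ‖φF P1‖ := norm_pos_iff.2 hl
  obtain ⟨k3, hk3⟩ := unif (isM_cont hF) ‖φF P1‖ hlp
  refine ⟨max k1 (max k2 k3), fun a1 a2 k hk ha1 ha2 => ?_⟩
  have hpow : ∀ {i j : ℕ}, i ≤ j → ((p : ℝ)⁻¹) ^ j ≤ ((p : ℝ)⁻¹) ^ i := fun h =>
    pow_le_pow_of_le_one pinv_pos.le pinv_le h
  have hle1 : k1 ≤ max k1 (max k2 k3) := le_max_left _ _
  have hle2 : k2 ≤ max k1 (max k2 k3) := (le_max_left _ _).trans (le_max_right _ _)
  have hle3 : k3 ≤ max k1 (max k2 k3) := (le_max_right _ _).trans (le_max_right _ _)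
  have hG2 := hk2 a2 k (hle2.trans hk) fun i => (ha2 i).trans (hpow hle2)
  obtain ⟨N, hN⟩ := hG2.1
  obtain ⟨j, hj⟩ := unif (isM_cont hF) (‖φF P1‖ * ((p : ℝ)⁻¹) ^ N)
    (mul_pos hlp (pow_pos pinv_pos _))
  have hmeas : Measurable fun z : (V → ℤ_[p]) × (W → ℤ_[p]) =>
      bal φF a1 k z.1 * bal φG a2 k z.2 - φF P1 * φG P2 := by
    have e1 : Continuous (bal φF a1 k) := (isM_cont hF).comp (by fun_prop)
    have e2 : Continuous (bal φG a2 k) := (isM_cont hG).comp (by fun_prop)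
    have e3 : Continuous fun z : (V → ℤ_[p]) × (W → ℤ_[p]) =>
      bal φF a1 k z.1 * bal φG a2 k z.2 - φF P1 * φG P2 := by fun_prop
    exact e3.measurable
  refine glue1 L5 Du _ _ hmeas j m3 fun b => ?_
  simp only [bal_bal]
  have hcen : ∀ i, ‖(fun i => a1 i + (p : ℤ_[p]) ^ k * b i) i - P1 i‖ ≤
      ((p : ℝ)⁻¹) ^ max k1 (max k2 k3) := fun i => ball_pt hk ha1 i
  have hc : ‖φF (fun i => a1 i + (p : ℤ_[p]) ^ k * b i)‖ = ‖φF P1‖ :=
    norm_eq_of_sub_lt (hk3 _ _ fun i => (hcen i).trans (hpow hle3))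
  refine hstep _ _ (φF fun i => a1 i + (p : ℤ_[p]) ^ k * b i) N (bal_meas hF _ _)
    (bal_meas hG _ _) ?_ ?_ hN ?_ hG2
  · intro h0
    rw [h0, norm_zero] at hc
    exact hlp.ne hc
  · intro y
    rw [hc]
    refine (hj _ _ fun i => ?_).le
    have e : (fun i => a1 i + (p : ℤ_[p]) ^ k * b i) i + (p : ℤ_[p]) ^ (k + j) * y i -
        (fun i => a1 i + (p : ℤ_[p]) ^ k * b i) i = (p : ℤ_[p]) ^ (k + j) * y i := by ring
    rw [e, norm_mul, norm_pk]
    calc ((p : ℝ)⁻¹) ^ (k + j) * ‖y i‖ ≤ ((p : ℝ)⁻¹) ^ (k + j) * 1 :=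
          mul_le_mul_of_nonneg_left (PadicInt.norm_le_one _) (pow_nonneg pinv_pos.le _)
      _ = ((p : ℝ)⁻¹) ^ (k + j) := mul_one _
      _ ≤ ((p : ℝ)⁻¹) ^ j := hpow (Nat.le_add_left _ _)
  · exact hk1 _ (k + j) ((hle1.trans hk).trans (Nat.le_add_right _ _))
      fun i => (hcen i).trans (hpow hle1)

/-- both values are not zero -/
theorem lo_one (L2 : StL2) (L5 : StL5) (Du : StDu) {V W : Type} [Fintype V] [Fintype W]
    {F : MvPolynomial V ℚ_[p]} {G : MvPolynomial W ℚ_[p]} {φF : (V → ℤ_[p]) → ℤ_[p]}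
    {φG : (W → ℤ_[p]) → ℤ_[p]} (hF : IsM F φF) (hG : IsM G φG) {P1 : V → ℤ_[p]}
    {P2 : W → ℤ_[p]} {m1 m2 m3 : ℂ → ℕ∞} (hl : φF P1 ≠ 0) (hm : φG P2 ≠ 0)
    (h1 : Hy φF P1 m1) (h2 : Hy φG P2 m2) (hPC : PC m1 m2 m3) : Lo φF φG P1 P2 m3 := by
  refine lo_ne L5 Du hF hG hl h1 h2 fun u w c N hu hw hc hκ hN g1 g2 => ?_
  have h := L2 p (Measure.pi fun _ : V => mu p) (Measure.pi fun _ : W => mu p)
    (fun y => u y - φF P1) u (fun y => w y - φG P2) (hu.sub_const _) hu (hw.sub_const _)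
    (φG P2) c N hm hc hκ hN m1 m2 m3 hPC g1 g2
  have e : (fun z : (V → ℤ_[p]) × (W → ℤ_[p]) => u z.1 * w z.2 - φF P1 * φG P2) =
      fun z => φG P2 * (u z.1 - φF P1) + u z.1 * (w z.2 - φG P2) := by
    funext z
    ring
  rw [e]
  exact h

/-- the second value is zero -/
theorem lo_two (L3 : StL3) (L5 : StL5) (Du : StDu) {V W : Type} [Fintype V] [Fintype W]
    {F : MvPolynomial V ℚ_[p]} {G : MvPolynomial W ℚ_[p]} {φF : (V → ℤ_[p]) → ℤ_[p]}
    {φG : (W → ℤ_[p]) → ℤ_[p]} (hF : IsM F φF) (hG : IsM G φG) {P1 : V → ℤ_[p]}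
    {P2 : W → ℤ_[p]} {m1 m2 m3 : ℂ → ℕ∞} (hl : φF P1 ≠ 0) (hm : φG P2 = 0)
    (h1 : Hy φF P1 m1) (h2 : Hy φG P2 m2) (h3 : ∀ T, T ≠ 0 → m2 T ≤ m3 T) :
    Lo φF φG P1 P2 m3 := by
  refine lo_ne L5 Du hF hG hl h1 (hy_mono h3 h2) fun u w c N hu hw hc hκ hN g1 g2 => ?_
  simp only [hm, sub_zero, mul_zero] at hN g2 ⊢
  have h := L3 p (Measure.pi fun _ : W => mu p) (Measure.pi fun _ : V => mu p)
    w u hw hu c N hc hκ hN m3 g2
  have h4 := gd_swap h
  have e : (fun z : (V → ℤ_[p]) × (W → ℤ_[p]) => u z.1 * w z.2) =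
      fun z => w z.2 * u z.1 := by
    funext z
    ring
  rw [e]
  exact h4

/-- both values are zero -/
theorem lo_three (L4 : StL4) {V W : Type} [Fintype V] [Fintype W]
    {F : MvPolynomial V ℚ_[p]} {G : MvPolynomial W ℚ_[p]} {φF : (V → ℤ_[p]) → ℤ_[p]}
    {φG : (W → ℤ_[p]) → ℤ_[p]} (hF : IsM F φF) (hG : IsM G φG) {P1 : V → ℤ_[p]}
    {P2 : W → ℤ_[p]} {m1 m2 m3 : ℂ → ℕ∞} (hl : φF P1 = 0) (hm : φG P2 = 0)
    (h1 : Hy φF P1 m1) (h2 : Hy φG P2 m2) (e1 : ∀ T : ℂ, ‖T‖ ≤ 1 → m1 T = 0 ∧ m2 T = 0)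
    (e2 : ∀ T : ℂ, m1 T + m2 T ≤ m3 T) (e3 : m1 (p : ℂ) + m2 (p : ℂ) + 1 ≤ m3 (p : ℂ)) :
    Lo φF φG P1 P2 m3 := by
  obtain ⟨k1, hk1⟩ := h1
  obtain ⟨k2, hk2⟩ := h2
  have hpow : ∀ {i j : ℕ}, i ≤ j → ((p : ℝ)⁻¹) ^ j ≤ ((p : ℝ)⁻¹) ^ i := fun h =>
    pow_le_pow_of_le_one pinv_pos.le pinv_le h
  refine ⟨max k1 k2, fun a1 a2 k hk ha1 ha2 => ?_⟩
  have g1 := hk1 a1 k ((le_max_left _ _).trans hk) fun i => (ha1 i).trans (hpow (le_max_left _ _))
  have g2 := hk2 a2 k ((le_max_right _ _).trans hk)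
    fun i => (ha2 i).trans (hpow (le_max_right _ _))
  simp only [hl, hm, sub_zero, mul_zero] at g1 g2 ⊢
  exact L4 p _ _ _ _ (bal_meas hF a1 k) (bal_meas hG a2 k) m1 m2 m3 e1 e2 e3 g1 g2

/-! ## The multiplicities -/

theorem rr_mul {T1 T2 : ℂ} (h1 : T1 ≠ 0) (h2 : T2 ≠ 0) : rr p (T1 * T2) = rr p T1 + rr p T2 := by
  unfold rr
  rw [norm_mul, Real.log_mul (norm_ne_zero_iff.2 h1) (norm_ne_zero_iff.2 h2)]
  ring

theorem rr_p : rr p (p : ℂ) = -1 := by
  unfold rr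
  have h : (1 : ℝ) < p := by exact_mod_cast (Fact.out : p.Prime).one_lt
  rw [Complex.norm_natCast, neg_div, div_self (Real.log_pos h).ne']

theorem mP_small {τ : Type} (g : MvPolynomial τ ℂ) {T : ℂ} (h : ‖T‖ ≤ 1) : mP p g T = 0 := by
  unfold mP
  rw [if_neg fun h2 => absurd h2.1 (not_lt.2 h)]

theorem mP_mono {τ τ' : Type} {g : MvPolynomial τ ℂ} {g' : MvPolynomial τ' ℂ}
    (h : ∀ e, Per g e → Per g' e) (T : ℂ) : mP p g T ≤ mP p g' T := by
  by_cases h1 : 1 < ‖T‖ ∧ Per g ((rr p T : ℝ) : ℂ)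
  · rw [mP_top h1.1 (h _ h1.2)]
    exact le_top
  · have : mP p g T = 0 := by
      unfold mP
      rw [if_neg h1]
    rw [this]
    exact bot_le

theorem mP_cases {τ : Type} (g : MvPolynomial τ ℂ) (T : ℂ) : mP p g T = 0 ∨ mP p g T = ⊤ := by
  unfold mP
  split_ifs
  · exact Or.inr rfl
  · exact Or.inl rfl

theorem nonconst {V : Type} {F : MvPolynomial V ℚ_[p]} (emb : ℚ_[p] →+* ℂ)
    (h : ∀ c, F ≠ C c) : map emb F ≠ 0 ∧ ¬ IsUnit (map emb F) := by
  classical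
  constructor
  · intro h0
    have h1 : F = 0 := map_injective emb emb.injective (by rw [h0, map_zero])
    exact h 0 (by rw [h1, C_0])
  · intro hu
    obtain ⟨r, -, hr⟩ := isUnit_iff_eq_C_of_isReduced.1 hu
    apply h (coeff 0 F)
    ext s
    rw [coeff_C]
    by_cases hs : 0 = s
    · rw [if_pos hs, hs]
    · rw [if_neg hs]
      have h1 := congrArg (coeff s) hr
      rw [coeff_map, coeff_C, if_neg hs] at h1
      exact (map_eq_zero emb).1 h1

theorem inc_mul (a b : ℤ_[p]) : inc p (a * b) = inc p a * inc p b := by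
  unfold Pool.Agent.Y230.PT.inc
  exact PadicInt.coe_mul a b

theorem inc_zero : inc p (0 : ℤ_[p]) = 0 := by
  unfold Pool.Agent.Y230.PT.inc
  exact PadicInt.coe_zero

theorem per_second (R2 : StR2) (R5 : StR5) {σ τ : Type} (F : MvPolynomial σ ℂ)
    (G : MvPolynomial τ ℂ) (e : ℂ) (h : Per G e) (hF : F ≠ 0) :
    Per (rename Sum.inl F * rename Sum.inr G : MvPolynomial (σ ⊕ τ) ℂ) e := by
  have h1 := R5 (Equiv.sumComm τ σ) _ e (R2 G F e h hF)
  rw [map_mul, rename_rename, rename_rename, mul_comm] at h1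
  exact h1

theorem t (L2 : StL2) (L3 : StL3) (L4 : StL4) (L5 : StL5) (Du : StDu) (R1 : StR1) (R2 : StR2)
    (R3 : StR3) (R5 : StR5) : StG2 := by
  intro p _ emb V W _ _ F G hFc hGc hF hG
  obtain ⟨φF, hφF, hF1⟩ := hF
  obtain ⟨φG, hφG, hG1⟩ := hG
  obtain ⟨hF0, hFu⟩ := nonconst emb hFc
  obtain ⟨hG0, hGu⟩ := nonconst emb hGc
  refine ⟨fun x => φF (fun i => x (Sum.inl i)) * φG (fun i => x (Sum.inr i)), ?_, ?_⟩
  · intro x
    rw [inc_mul, hφF, hφG, map_mul, eval_rename, eval_rename]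
    rfl
  · intro P
    have key : Lo φF φG (fun i => P (Sum.inl i)) (fun i => P (Sum.inr i))
        (mP p (map emb (rename Sum.inl F * rename Sum.inr G) -
          C (emb (inc p (φF (fun i => P (Sum.inl i)) * φG (fun i => P (Sum.inr i))))))) := by
      have h1 : Hy φF (fun i => P (Sum.inl i))
          (mP p (map emb F - C (emb (inc p (φF fun i => P (Sum.inl i)))))) := hF1 _
      have h2 : Hy φG (fun i => P (Sum.inr i))
          (mP p (map emb G - C (emb (inc p (φG fun i => P (Sum.inr i)))))) := hG1 _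
      rw [inc_mul, map_mul, map_mul, map_rename, map_rename]
      by_cases hl : φF (fun i => P (Sum.inl i)) = 0
      · by_cases hm : φG (fun i => P (Sum.inr i)) = 0
        · have z1 : emb (inc p (φF fun i => P (Sum.inl i))) = 0 := by rw [hl, inc_zero, map_zero]
          have z2 : emb (inc p (φG fun i => P (Sum.inr i))) = 0 := by rw [hm, inc_zero, map_zero]
          rw [z1, C_0, sub_zero] at h1
          rw [z2, C_0, sub_zero] at h2
          rw [z1, zero_mul, C_0, sub_zero]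
          refine lo_three L4 hφF hφG hl hm h1 h2 (fun T hT => ⟨mP_small _ hT, mP_small _ hT⟩)
            (fun T => ?_) ?_
          · rcases mP_cases (p := p) (map emb F) T with h | h
            · rw [h, zero_add]
              exact mP_mono (fun e he => per_second R2 R5 _ _ e he hF0) T
            · have h3 := mP_mono (p := p) (fun e he => R2 (map emb F) (map emb G) e he hG0) T
              rw [h] at h3
              rw [top_le_iff.1 h3]
              exact le_top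
          · have hp1 : 1 < ‖(p : ℂ)‖ := by
              rw [Complex.norm_natCast]
              exact_mod_cast (Fact.out : p.Prime).one_lt
            have h3 : Per (rename Sum.inl (map emb F) * rename Sum.inr (map emb G) :
                MvPolynomial (V ⊕ W) ℂ) ((rr p (p : ℂ) : ℝ) : ℂ) := by
              rw [rr_p]
              push_cast
              exact R3 _ _ hF0 hG0 hFu hGu
            rw [mP_top hp1 h3]
            exact le_top
        · refine lo_swap (lo_two L3 L5 Du hφG hφF hm hl h2 h1 fun T _ => ?_)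
          have z1 : emb (inc p (φF fun i => P (Sum.inl i))) = 0 := by rw [hl, inc_zero, map_zero]
          rw [z1, zero_mul]
          simp only [C_0, sub_zero]
          exact mP_mono (fun e he => R2 _ _ e he hG0) T
      · by_cases hm : φG (fun i => P (Sum.inr i)) = 0
        · refine lo_two L3 L5 Du hφF hφG hl hm h1 h2 fun T _ => ?_
          have z2 : emb (inc p (φG fun i => P (Sum.inr i))) = 0 := by rw [hm, inc_zero, map_zero]
          rw [z2, mul_zero]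
          simp only [C_0, sub_zero]
          exact mP_mono (fun e he => per_second R2 R5 _ _ e he hF0) T
        · refine lo_one L2 L5 Du hφF hφG hl hm h1 h2 ?_
          have z1 : emb (inc p (φF fun i => P (Sum.inl i))) ≠ 0 := by
            intro h0
            have h3 : inc p (φF fun i => P (Sum.inl i)) = inc p 0 := by
              rw [inc_zero]
              exact (map_eq_zero emb).1 h0
            exact hl ((inc_emb p).injective h3)
          have z2 : emb (inc p (φG fun i => P (Sum.inr i))) ≠ 0 := by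
            intro h0
            have h3 : inc p (φG fun i => P (Sum.inr i)) = inc p 0 := by
              rw [inc_zero]
              exact (map_eq_zero emb).1 h0
            exact hm ((inc_emb p).injective h3)
          intro T1 T2 hT1 hT2 a b ha hb hm1 hm2
          obtain ⟨n1, p1⟩ := mP_le ha hm1
          obtain ⟨n2, p2⟩ := mP_le hb hm2
          rw [mP_top ?_ ?_]
          · exact le_top
          · rw [norm_mul]
            nlinarith
          · rw [rr_mul hT1 hT2, Complex.ofReal_add]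
            exact R1 _ _ _ _ _ _ z1 z2 p1 p2
    obtain ⟨k0, hk0⟩ := key
    refine ⟨k0, fun a k hk ha => ?_⟩
    have h := hk0 (fun i => a (Sum.inl i)) (fun i => a (Sum.inr i)) k hk
      (fun i => ha (Sum.inl i)) (fun i => ha (Sum.inr i))
    have h2 := gd_equiv (MeasurableEquiv.sumPiEquivProdPi fun _ : V ⊕ W => ℤ_[p])
      (measurePreserving_sumPiEquivProdPi (fun _ : V ⊕ W => mu p)) h
    exact h2

end Pool.Agent.N138.RF.G2
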