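import Pool.Agent.N138.RF.Stm

set_option autoImplicit false
set_option linter.unusedSectionVars false

/-! # Good polynomials: weighted homogeneous polynomials -/

namespace Pool.Agent.N138.RF.G5

open MvPolynomial MeasureTheory
open Pool.Agent.W427.SMC (msZ bsZ mu)
open Pool.Agent.Y230.PT (msK bsK inc)
open Pool.Agent.Y230.PS (EP)
open Pool.Agent.N138.SU Pool.Agent.N138.SV Pool.Agent.N138.RF

section Alg

variable {R : Type} [CommRing R] {τ : Type}

/-- the substitution `x |-> c x + b` -/
noncomputable def sub (c : R) (b : τ → R) (F : MvPolynomial τ R) : MvPolynomial τ R :=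
  aeval (fun j => C c * X j + C (b j)) F

theorem sub_C (c : R) (b : τ → R) (r : R) : sub c b (C r) = C r := by
  unfold sub
  exact aeval_C _ _

theorem eval_sub (c : R) (b : τ → R) (F : MvPolynomial τ R) (x : τ → R) :
    eval x (sub c b F) = eval (fun j => b j + c * x j) F := by
  induction F using MvPolynomial.induction_on with
  | C r => rw [sub_C, eval_C, eval_C]
  | add u v hu hv =>
    have : sub c b (u + v) = sub c b u + sub c b v := by unfold sub; rw [map_add]
    rw [this, map_add, map_add, hu, hv]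
  | mul_X u i hu =>
    have : sub c b (u * X i) = sub c b u * (C c * X i + C (b i)) := by
      unfold sub; rw [map_mul, aeval_X]
    rw [this, map_mul, map_mul, hu]
    simp [add_comm]

theorem pderiv_sub (c : R) (b : τ → R) (F : MvPolynomial τ R) (i : τ) :
    pderiv i (sub c b F) = C c * sub c b (pderiv i F) := by
  classical
  induction F using MvPolynomial.induction_on with
  | C r =>
    rw [sub_C, pderiv_C]
    unfold sub
    rw [map_zero, mul_zero]
  | add u v hu hv =>
    have h1 : ∀ u v, sub c b (u + v) = sub c b u + sub c b v := by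
      intro u v; unfold sub; rw [map_add]
    rw [h1, map_add, map_add, hu, hv, h1, mul_add]
  | mul_X u j hu =>
    have h1 : ∀ u v, sub c b (u + v) = sub c b u + sub c b v := by
      intro u v; unfold sub; rw [map_add]
    have h2 : ∀ u v, sub c b (u * v) = sub c b u * sub c b v := by
      intro u v; unfold sub; rw [map_mul]
    have h3 : sub c b (X j) = C c * X j + C (b j) := by unfold sub; rw [aeval_X]
    rw [h2, h3, pderiv_mul, hu, pderiv_mul, h1, h2, h2, h3, map_add, pderiv_C, pderiv_C_mul,
      pderiv_X]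
    by_cases hij : j = i
    · subst hij
      have h4 : sub c b 1 = 1 := by unfold sub; rw [map_one]
      simp only [Pi.single_eq_same, h4]
      simp
      ring
    · have h4 : sub c b 0 = 0 := by unfold sub; rw [map_zero]
      rw [Pi.single_eq_of_ne hij, h4]
      simp
      ring

theorem sub_mon (c : R) (s : τ →₀ ℕ) (r : R) :
    sub c 0 (monomial s r) = monomial s (r * ∏ i ∈ s.support, c ^ s i) := by
  unfold sub
  rw [aeval_monomial, Finsupp.prod]
  simp only [Pi.zero_apply, map_zero, add_zero, mul_pow, Finset.prod_mul_distrib]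
  rw [monomial_eq, Finsupp.prod, map_mul, map_prod]
  simp only [map_pow, algebraMap_eq]
  ring

theorem sub_wh (c : R) (F : MvPolynomial τ R) (w : τ → ℕ) (D : ℕ)
    (hF : F.IsWeightedHomogeneous w D) : (sub c 0 F).IsWeightedHomogeneous w D := by
  have h1 : sub c 0 F = ∑ s ∈ F.support, sub c 0 (monomial s (coeff s F)) := by
    conv_lhs => rw [F.as_sum]
    unfold sub
    rw [map_sum]
  rw [h1]
  refine (weightedHomogeneousSubmodule R w D).sum_mem fun s hs => ?_
  rw [sub_mon]
  exact isWeightedHomogeneous_monomial _ _ _ (hF (mem_support_iff.1 hs))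

end Alg

section Alg2

variable {R S : Type} [CommRing R] [CommRing S] {τ : Type}

theorem map_sub' (f : R →+* S) (c : R) (b : τ → R) (F : MvPolynomial τ R) :
    map f (sub c b F) = sub (f c) (fun i => f (b i)) (map f F) := by
  induction F using MvPolynomial.induction_on with
  | C r => rw [sub_C, map_C, sub_C]
  | add u v hu hv =>
    have h1 : sub c b (u + v) = sub c b u + sub c b v := by unfold sub; rw [map_add]
    have h2 : ∀ u v, sub (f c) (fun i => f (b i)) (u + v) = sub (f c) (fun i => f (b i)) u +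
      sub (f c) (fun i => f (b i)) v := by intro u v; unfold sub; rw [map_add]
    rw [h1, map_add, map_add, h2, hu, hv]
  | mul_X u j hu =>
    have h1 : sub c b (u * X j) = sub c b u * (C c * X j + C (b j)) := by
      unfold sub; rw [map_mul, aeval_X]
    have h2 : ∀ u, sub (f c) (fun i => f (b i)) (u * X j) = sub (f c) (fun i => f (b i)) u *
      (C (f c) * X j + C (f (b j))) := by intro u; unfold sub; rw [map_mul, aeval_X]
    rw [h1, map_mul, map_mul, map_X, h2, hu, map_add, map_mul, map_C, map_C, map_X]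

end Alg2

section Padic

variable {p : ℕ} [Fact p.Prime]

attribute [local instance] msK bsK msZ bsZ

theorem Gd_mono {Y : Type} [MeasurableSpace Y] {ν : Measure Y} {φ : Y → ℤ_[p]} {m m' : ℂ → ℕ∞}
    (h : ∀ T, T ≠ 0 → m T ≤ m' T) (hG : Gd ν φ m) : Gd ν φ m' :=
  ⟨hG.1, fun χ => Pool.Agent.Y230.TH.EP_mono h (hG.2 χ)⟩

variable {τ : Type} [Fintype τ]

/-- translation -/
theorem Gd_trans (ψ : (τ → ℤ_[p]) → ℤ_[p]) (b : τ → ℤ_[p]) (m : ℂ → ℕ∞)
    (h : Gd (Measure.pi fun _ : τ => mu p) ψ m) :
    Gd (Measure.pi fun _ : τ => mu p) (fun y => ψ (b + y)) m := by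
  have key : ∀ H : (τ → ℤ_[p]) → ℂ, ∫ y, H (b + y) ∂(Measure.pi fun _ : τ => mu p) =
      ∫ y, H y ∂(Measure.pi fun _ : τ => mu p) := fun H =>
    integral_add_left_eq_self (μ := Measure.pi fun _ : τ => mu p) H b
  refine ⟨?_, fun χ => ?_⟩
  · obtain ⟨N, hN⟩ := h.1
    refine ⟨N, fun v hv h0 hm hb => ?_⟩
    have h1 := key (fun y => h0 (v * ψ y))
    have h2 := key (fun y => h0 (ψ y))
    exact h1.trans ((hN v hv h0 hm hb).trans h2.symm)
  · have h1 : ∀ e, Eh (Measure.pi fun _ : τ => mu p) (fun y => ψ (b + y)) χ e =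
        Eh (Measure.pi fun _ : τ => mu p) ψ χ e := by
      intro e
      have h2 : Es (Measure.pi fun _ : τ => mu p) (fun y => ψ (b + y)) e =
          Es (Measure.pi fun _ : τ => mu p) ψ e := by
        funext u
        exact key (fun y => psi p e (u * ψ y))
      unfold Eh
      rw [h2]
    simp only [h1]
    exact h.2 χ

theorem inc_eval (G : MvPolynomial τ ℤ_[p]) (x : τ → ℤ_[p]) : inc p (eval x G) =
    eval (fun i => inc p (x i)) (map (PadicInt.Coe.ringHom (p := p)) G) := by
  rw [eval_map]
  exact eval₂_comp_left (PadicInt.Coe.ringHom (p := p)) (RingHom.id _) x G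

theorem inc_lin (a x : ℤ_[p]) (k : ℕ) : inc p (a + (p : ℤ_[p]) ^ k * x) =
    inc p a + (p : ℚ_[p]) ^ k * inc p x := by
  have h : (PadicInt.Coe.ringHom (p := p)) (a + (p : ℤ_[p]) ^ k * x) =
    (PadicInt.Coe.ringHom (p := p)) a + (p : ℚ_[p]) ^ k * (PadicInt.Coe.ringHom (p := p)) x := by
    rw [map_add, map_mul, map_pow, map_natCast]
  exact h

/-- the balls without critical points -/
theorem noncrit (hS : StS) (G : MvPolynomial τ ℤ_[p])
    (hcr : ∀ z : τ → ℚ_[p], (∀ i, eval z (pderiv i (map (PadicInt.Coe.ringHom (p := p)) G)) = 0) →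
      z = 0) (a : τ → ℤ_[p]) (k : ℕ)
    (ha : ∀ y : τ → ℤ_[p], (fun i => a i + (p : ℤ_[p]) ^ k * y i) ≠ 0) (l : ℤ_[p]) (m : ℂ → ℕ∞) :
    Gd (Measure.pi fun _ : τ => mu p) (fun y => bal (fun x => eval x G) a k y - l) m := by
  have hpk : (p : ℚ_[p]) ^ k ≠ 0 :=
    pow_ne_zero _ (by exact_mod_cast (Fact.out : p.Prime).ne_zero)
  refine Gd_mono (fun T _ => bot_le) (hS p (sub ((p : ℚ_[p]) ^ k) (fun i => inc p (a i))
    (map (PadicInt.Coe.ringHom (p := p)) G)) (bal (fun x => eval x G) a k) ?_ ?_ l)
  · intro x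
    rw [eval_sub]
    unfold bal
    rw [inc_eval]
    congr 2
  · intro x
    by_contra hcon
    push Not at hcon
    apply ha x
    have h1 := hcr (fun i => inc p (a i) + (p : ℚ_[p]) ^ k * inc p (x i)) (fun i => by
      have h2 := hcon i
      rw [pderiv_sub, map_mul, eval_C, eval_sub] at h2
      exact (mul_eq_zero.1 h2).resolve_left hpk)
    funext i
    have h3 := congrFun h1 i
    beta_reduce at h3
    rw [← inc_lin, Pi.zero_apply] at h3
    exact Subtype.ext h3

end Padic

attribute [local instance] msK bsK msZ bsZ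

theorem t (hS : StS) (hWh : StWh) (hR6 : StR6) : StG5 := by
  intro p _ emb τ _ _ G w D hw hD hG hcc hiso
  have hp1 : 1 < p := (Fact.out : p.Prime).one_lt
  have hinv1 : ((p : ℝ)⁻¹) < 1 := inv_lt_one_of_one_lt₀ (by exact_mod_cast hp1)
  have hcr : ∀ z : τ → ℚ_[p],
      (∀ i, eval z (pderiv i (map (PadicInt.Coe.ringHom (p := p)) G)) = 0) → z = 0 := by
    intro z hz
    have h1 := hiso (fun i => emb (z i)) (fun i => by
      rw [← map_map, pderiv_map, eval_map]
      have h2 := eval₂_comp_left emb (RingHom.id _) z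
        (pderiv i (map (PadicInt.Coe.ringHom (p := p)) G))
      have h3 : eval₂ (RingHom.id _) z (pderiv i (map (PadicInt.Coe.ringHom (p := p)) G)) = 0 :=
        hz i
      rw [h3, map_zero] at h2
      exact h2.symm)
    funext i
    exact (map_eq_zero emb).1 (congrFun h1 i)
  have h0 : eval (0 : τ → ℤ_[p]) G = 0 := by
    by_contra hne
    rw [eval_zero, constantCoeff_eq] at hne
    have h1 := hG hne
    rw [map_zero] at h1
    omega
  refine ⟨fun x => eval x G, inc_eval G, fun P => ?_⟩
  by_cases hP : P = 0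
  · refine ⟨0, fun a k _ _ => ?_⟩
    rw [hP]
    by_cases ha : ∀ i, ‖a i‖ ≤ ((p : ℝ)⁻¹) ^ k
    · have hb : ∀ i, ∃ b, a i = (p : ℤ_[p]) ^ k * b := by
        intro i
        have h1 := (PadicInt.norm_le_pow_iff_mem_span_pow (a i) k).1 (by
          rw [zpow_neg, zpow_natCast, ← inv_pow]
          exact ha i)
        exact Ideal.mem_span_singleton.1 h1
      choose b hb using hb
      have hiso2 : ∀ z : τ → ℚ_[p], (∀ i, MvPolynomial.eval₂ PadicInt.Coe.ringHom z
          (MvPolynomial.pderiv i (sub ((p : ℤ_[p]) ^ k) 0 G)) = 0) → z = 0 := by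
        intro z hz
        have hpk : (p : ℚ_[p]) ^ k ≠ 0 :=
          pow_ne_zero _ (by exact_mod_cast (Fact.out : p.Prime).ne_zero)
        have h1 := hcr (fun i => (PadicInt.Coe.ringHom (p := p)) 0 + (p : ℚ_[p]) ^ k * z i) (fun i => by
          have h2 := hz i
          rw [pderiv_sub, ← eval_map, map_mul, map_C, map_mul, eval_C, map_pow, map_natCast,
            map_sub', eval_sub, map_pow, map_natCast] at h2
          rw [pderiv_map]
          exact (mul_eq_zero.1 h2).resolve_left hpk)
        funext i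
        have h3 := congrFun h1 i
        beta_reduce at h3
        rw [map_zero, zero_add, Pi.zero_apply] at h3
        exact (mul_eq_zero.1 h3).resolve_left hpk
      have h2 := Gd_trans _ b _ (hWh p (sub ((p : ℤ_[p]) ^ k) 0 G) w D hw hD
        (sub_wh _ G w D hG) hiso2)
      have e : (fun y => bal (fun x => eval x G) a k y - eval 0 G) =
          fun y => eval (b + y) (sub ((p : ℤ_[p]) ^ k) 0 G) := by
        funext y
        rw [h0, sub_zero, eval_sub]
        unfold bal
        congr 2
        funext i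
        rw [hb i]
        simp only [Pi.zero_apply, Pi.add_apply]
        ring
      rw [e]
      refine Gd_mono (fun T hT => ?_) h2
      by_cases hTD : T ^ D = (p : ℂ) ^ (∑ i, w i)
      · have hn : 1 ≤ ∑ i, w i := Finset.sum_pos (fun i _ => hw i) Finset.univ_nonempty
        have hT1 : 1 < ‖T‖ := by
          by_contra hcon
          exact Pool.Agent.Y230.PT.not_crit_small (not_lt.1 hcon) D _ hn hTD
        have h3 := Pool.Agent.Y230.PT.crit_r hT D _ hTD
        have hD0 : (D : ℂ) ≠ 0 := by exact_mod_cast hD.ne'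
        have h4 : ((Pool.Agent.Y230.PT.rr p T : ℝ) : ℂ) =
            -(((∑ i, w i : ℕ) : ℂ) / (D : ℂ)) := by
          rw [← neg_div, eq_div_iff hD0]
          linear_combination h3
        have h5 : Per (map emb (map (PadicInt.Coe.ringHom (p := p)) G) -
            C (emb (inc p (eval 0 G)))) ((Pool.Agent.Y230.PT.rr p T : ℝ) : ℂ) := by
          have h6 : inc p (0 : ℤ_[p]) = 0 := rfl
          rw [h0, h6, map_zero, C_0, sub_zero, map_map, h4]
          refine hR6 _ w D hw hD ?_ ?_ hiso
          · intro s hs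
            rw [coeff_map] at hs
            exact hG fun h => hs (by rw [h, map_zero])
          · intro i
            rw [pderiv_map, constantCoeff_map, hcc i, map_zero]
        rw [mP_top hT1 h5]
        exact le_top
      · beta_reduce
        rw [if_neg hTD]
        exact bot_le
    · push Not at ha
      obtain ⟨i, hi⟩ := ha
      refine noncrit hS G hcr a k (fun y hy => ?_) _ _
      have h1 := congrFun hy i
      beta_reduce at h1
      rw [Pi.zero_apply] at h1
      have h2 : a i = -((p : ℤ_[p]) ^ k * y i) := eq_neg_of_add_eq_zero_left h1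
      rw [h2, norm_neg, norm_mul, norm_pow, PadicInt.norm_p] at hi
      have h3 : ((p : ℝ)⁻¹) ^ k * ‖y i‖ ≤ ((p : ℝ)⁻¹) ^ k * 1 :=
        mul_le_mul_of_nonneg_left (PadicInt.norm_le_one _) (by positivity)
      linarith
  · obtain ⟨i, hi⟩ := Function.ne_iff.1 hP
    obtain ⟨k0, hk0⟩ := exists_pow_lt_of_lt_one (norm_pos_iff.2 hi) hinv1
    refine ⟨k0, fun a k hk ha => noncrit hS G hcr a k (fun y hy => ?_) _ _⟩
    have h1 := congrFun hy i
    beta_reduce at h1
    rw [Pi.zero_apply] at h1
    have h2 : P i = -(a i - P i) + -((p : ℤ_[p]) ^ k * y i) := by linear_combination h1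
    have h3 : ‖P i‖ ≤ ((p : ℝ)⁻¹) ^ k0 := by
      rw [h2]
      refine (PadicInt.nonarchimedean _ _).trans (max_le ?_ ?_)
      · rw [norm_neg]
        exact ha i
      · rw [norm_neg, norm_mul, norm_pow, PadicInt.norm_p]
        have h3 : ((p : ℝ)⁻¹) ^ k * ‖y i‖ ≤ ((p : ℝ)⁻¹) ^ k * 1 :=
          mul_le_mul_of_nonneg_left (PadicInt.norm_le_one _) (by positivity)
        have h4 : ((p : ℝ)⁻¹) ^ k ≤ ((p : ℝ)⁻¹) ^ k0 :=
          pow_le_pow_of_le_one (by positivity) hinv1.le hk
        linarith
    linarith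

end Pool.Agent.N138.RF.G5
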