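import Pool.Agent.N138.RF.Stm
import Pool.Agent.N138.SU.W4a
import Pool.Agent.N138.SU.W4b

set_option autoImplicit false

/-! # Job R6: periods of weighted homogeneous polynomials with an isolated critical point -/

namespace Pool.Agent.N138.RF.R6

open MvPolynomial
open Pool.Agent.N138.SU Pool.Agent.N138.SV
open Pool.Agent.N138.SU.W4b (comp_mul comp_mul_lt comp_pd)

section

variable {τ : Type} {w : τ → ℕ}

/-- the components of a derivative -/
theorem pd_comp (i : τ) (n : ℕ) (f : MvPolynomial τ ℂ) :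
    pderiv i (weightedHomogeneousComponent w (n + w i) f) =
      weightedHomogeneousComponent w n (pderiv i f) := by
  classical
  ext m
  rw [coeff_pderiv, coeff_weightedHomogeneousComponent, coeff_weightedHomogeneousComponent,
    coeff_pderiv, map_add, Finsupp.weight_single, one_smul]
  by_cases h : Finsupp.weight w m = n
  · rw [if_pos h, if_pos (by rw [h])]
  · rw [if_neg h, if_neg (by omega), zero_mul]

variable [Fintype τ]

/-- Euler's identity and the functional `L` -/
theorem euler {G : MvPolynomial τ ℂ} {D : ℕ} (hG : G.IsWeightedHomogeneous w D)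
    (L : MvPolynomial τ ℂ →ₗ[ℂ] ℂ) (hL : ∀ i h, L (pderiv i h) = L (pderiv i G * h))
    {n : ℕ} {H : MvPolynomial τ ℂ} (hH : H.IsWeightedHomogeneous w n) :
    (D : ℂ) * L (G * H) = (((∑ i, w i : ℕ) : ℂ) + n) * L H := by
  have h1 := hG.sum_weight_X_mul_pderiv
  have h2 := hH.sum_weight_X_mul_pderiv
  have h3 : (D : ℂ) * L (G * H) = L ((D • G) * H) := by
    rw [smul_mul_assoc, map_nsmul, nsmul_eq_mul]
  rw [h3, ← h1, Finset.sum_mul, map_sum]
  have h4 : ∀ i, L (w i • (X i * pderiv i G) * H) = (w i : ℂ) * L H +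
      L (w i • (X i * pderiv i H)) := by
    intro i
    have e1 : w i • (X i * pderiv i G) * H = w i • (pderiv i G * (X i * H)) := by
      rw [smul_mul_assoc]
      congr 1
      ring
    rw [e1, map_nsmul, ← hL i, pderiv_mul, pderiv_X_self, one_mul, map_add, nsmul_add, map_nsmul,
      nsmul_eq_mul, nsmul_eq_mul]
  rw [Finset.sum_congr rfl fun i _ => h4 i, Finset.sum_add_distrib, ← map_sum, h2, map_nsmul,
    nsmul_eq_mul, ← Finset.sum_mul, add_mul, Nat.cast_sum]

end

theorem t' (hb : StW4b) : StR6 := by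
  intro τ _ G w D hw hD hG h0 hz
  obtain ⟨L, hL, hL1⟩ := hb G w D hw hD hG h0 hz
  have hD' : (D : ℂ) ≠ 0 := Nat.cast_ne_zero.2 hD.ne'
  have hw0 : ∀ i, w i ≠ 0 := fun i => (hw i).ne'
  refine ⟨Set.range fun (q : MvPolynomial τ ℂ) (m : ℕ) =>
    L ∘ₗ weightedHomogeneousComponent w (D * m) ∘ₗ LinearMap.mulLeft ℂ q,
    ⟨?_, ?_, ?_, ?_, ?_⟩, _, ⟨1, rfl⟩, ?_⟩
  · rintro _ ⟨q, rfl⟩ h
    show L (weightedHomogeneousComponent w (D * 0) (q * (G * h))) = 0
    rw [mul_left_comm, mul_zero, comp_mul_lt hG hD, map_zero]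
  · rintro _ ⟨q, rfl⟩ m h
    show L (weightedHomogeneousComponent w (D * (m + 1)) (q * (G * h))) =
      ((m : ℂ) - -(((∑ i, w i : ℕ) : ℂ) / (D : ℂ))) *
        L (weightedHomogeneousComponent w (D * m) (q * h))
    have e1 : D * (m + 1) = D + D * m := by ring
    rw [mul_left_comm, e1, comp_mul hG]
    have h1 := euler hG L hL
      (weightedHomogeneousComponent_isWeightedHomogeneous (w := w) (D * m) (q * h))
    apply mul_left_cancel₀ hD'
    rw [h1]
    push_cast
    field_simp
    ring
  · rintro _ ⟨q, rfl⟩ i h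
    show L (weightedHomogeneousComponent w (D * 0) (q * (pderiv i G * h))) = 0
    have e1 : coeff 0 (q * (pderiv i G * h)) = 0 := by
      have : constantCoeff (q * (pderiv i G * h)) = 0 := by
        rw [map_mul, map_mul, h0, zero_mul, mul_zero]
      exact this
    rw [mul_zero, weightedHomogeneousComponent_zero _ hw0, e1, C_0, map_zero]
  · rintro _ ⟨q, rfl⟩ i
    refine ⟨_, ⟨-pderiv i q, rfl⟩, fun m h => ?_⟩
    show L (weightedHomogeneousComponent w (D * m) (q * pderiv i h)) -
      L (weightedHomogeneousComponent w (D * (m + 1)) (q * (pderiv i G * h))) =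
      L (weightedHomogeneousComponent w (D * m) (-pderiv i q * h))
    rw [mul_left_comm q (pderiv i G) h, comp_pd hG (M := D * m + w i) (by ring), ← hL i, pd_comp,
      pderiv_mul, ← map_sub, ← map_sub]
    congr 2
    ring
  · rintro _ ⟨q, rfl⟩ i
    refine ⟨_, ⟨q * X i, rfl⟩, fun m h => ?_⟩
    show L (weightedHomogeneousComponent w (D * m) (q * (X i * h))) =
      L (weightedHomogeneousComponent w (D * m) (q * X i * h))
    rw [mul_assoc]
  · show L (weightedHomogeneousComponent w (D * 0) (1 * 1)) ≠ 0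
    rw [mul_zero, mul_one, weightedHomogeneousComponent_zero _ hw0, coeff_zero_one, C_1, hL1]
    exact one_ne_zero

theorem t : StR6 := t' (Pool.Agent.N138.SU.W4b.t Pool.Agent.N138.SU.W4a.t)

end Pool.Agent.N138.RF.R6
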