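import Pool.Agent.N138.RF.Stm
import Pool.Agent.N138.SV.C0
import Pool.Agent.N138.SV.C1
import Pool.Agent.N138.SV.C2
import Pool.Agent.N138.SV.C3
import Pool.Agent.N138.SV.C4

set_option autoImplicit false
set_option linter.unusedSectionVars false
set_option linter.unusedVariables false

/-! # Plane curves on all small balls (helper771), after SV/C4.lean of helper407 -/

namespace Pool.Agent.N138.RF.C5

open MvPolynomial MeasureTheory Set
open Pool.Agent.W427.SMC (msZ bsZ mu)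
open Pool.Agent.Y230.PT
open Pool.Agent.Y230.RE (A)
open Pool.Agent.N138.SU Pool.Agent.N138.SV Pool.Agent.N138.SV.C4

attribute [local instance] msK bsK msZ bsZ

variable {p : ℕ} [Fact p.Prime]

/-- affine maps -/
theorem aff_Zx (F : CI p) (α c0 c1 : ℚ_[p]) (hα : α ≠ 0) (C : Set (ℚ_[p] × ℚ_[p])) (hC : CO C)
    (s : ℝ) : Zx F C s = ((N p 1 α).toReal : ℂ) * (((N p 1 α).toReal : ℂ) *
      Zx (fun s x => F s (c0 + α * x.1, c1 + α * x.2)) {x | (c0 + α * x.1, c1 + α * x.2) ∈ C} s) := by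
  have h1 := CO_pre hC (shU α hα (fun _ => c0) continuous_const)
  have h2 := CO_swap h1
  have h3 := CO_pre h2 (shU α hα (fun _ => c1) continuous_const)
  rw [Zx_shearU F α hα (fun _ => c0) continuous_const hC s, Zx_swap _ _ h1 s,
    Zx_shearU _ α hα (fun _ => c1) continuous_const h2 s, Zx_swap _ _ h3 s]
  congr 2

/-- integrals over small balls -/
theorem ball_int' (k : ℕ) : ∃ K : ℂ, K ≠ 0 ∧ ∀ (c0 c1 : ℚ_[p]) (F : CI p), Measurable (F 0) →
    Zx F (bx 0 (c0, c1) k) 0 = K * ∫ y : Fin 2 → ℤ_[p],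
      F 0 (c0 + (p : ℚ_[p]) ^ k * inc p (y 0), c1 + (p : ℚ_[p]) ^ k * inc p (y 1))
      ∂(Measure.pi fun _ => mu p) := by
  have hp : (p : ℚ_[p]) ≠ 0 := by exact_mod_cast (Fact.out : p.Prime).ne_zero
  have hα : (p : ℚ_[p]) ^ k ≠ 0 := pow_ne_zero _ hp
  have hN : ((N p 1 ((p : ℚ_[p]) ^ k)).toReal : ℂ) ≠ 0 := by
    rw [N1_toNN]
    exact_mod_cast norm_ne_zero_iff.2 hα
  refine ⟨((N p 1 ((p : ℚ_[p]) ^ k)).toReal : ℂ) * ((N p 1 ((p : ℚ_[p]) ^ k)).toReal : ℂ),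
    mul_ne_zero hN hN, fun c0 c1 F hF => ?_⟩
  have hset : {x : ℚ_[p] × ℚ_[p] | (c0 + (p : ℚ_[p]) ^ k * x.1, c1 + (p : ℚ_[p]) ^ k * x.2) ∈
      bx 0 (c0, c1) k} = bx 0 (0, 0) 0 := by
    have hq : 0 < qr p ^ k := pow_pos qr_pos k
    have hn : ∀ c z : ℚ_[p], ‖c + (p : ℚ_[p]) ^ k * z - c‖ ≤ qr p ^ k ↔ ‖z - 0‖ ≤ 1 := by
      intro c z
      rw [add_sub_cancel_left, sub_zero, norm_mul, norm_pow, Padic.norm_p]
      change qr p ^ k * ‖z‖ ≤ qr p ^ k ↔ _
      exact mul_le_iff_le_one_right hq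
    ext x
    change (c0 + (p : ℚ_[p]) ^ k * x.1, c1 + (p : ℚ_[p]) ^ k * x.2) ∈ bx 0 (c0, c1) k ↔ _
    rw [mem_bx, mem_bx]
    simp only [add_zero, pow_zero]
    rw [hn, hn]
  have hm : Measurable (fun x : Fin 2 → ℤ_[p] => (inc p (x 0), inc p (x 1))) :=
    (((inc_emb p).continuous.measurable).comp (measurable_pi_apply 0)).prodMk
      (((inc_emb p).continuous.measurable).comp (measurable_pi_apply 1))
  have hs : Measurable (fun x : ℚ_[p] × ℚ_[p] =>
      F 0 (c0 + (p : ℚ_[p]) ^ k * x.1, c1 + (p : ℚ_[p]) ^ k * x.2)) :=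
    hF.comp (by fun_prop : Continuous fun x : ℚ_[p] × ℚ_[p] =>
      ((c0 + (p : ℚ_[p]) ^ k * x.1, c1 + (p : ℚ_[p]) ^ k * x.2) : ℚ_[p] × ℚ_[p])).measurable
  rw [aff_Zx F _ c0 c1 hα _ (CO_bx 0 (c0, c1) k) 0, hset, mul_assoc]
  congr 2
  unfold Zx
  rw [← map_box0, integral_map hm.aemeasurable hs.aestronglyMeasurable]

/-- Job C5, from C3 -/
theorem t' (h3 : StC3) : StC5 := by
  intro p _ g φ hφ P
  have hinj : Function.Injective (inc p) := (inc_emb p).injective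
  have hsub : ∀ a b : ℤ_[p], inc p (a - b) = inc p a - inc p b := by
    intro a b; simp [inc]
  have hmul : ∀ a b : ℤ_[p], inc p (a * b) = inc p a * inc p b := by
    intro a b; simp [inc]
  have hadd : ∀ a b : ℤ_[p], inc p (a + b) = inc p a + inc p b := by
    intro a b; simp [inc]
  have hpow : ∀ k : ℕ, inc p ((p : ℤ_[p]) ^ k) = (p : ℚ_[p]) ^ k := by
    intro k; simp [inc]
  obtain ⟨g0, hg0⟩ : ∃ g0 : MvPolynomial (Fin 2) ℚ_[p],
      g0 = aeval (fun i => X i + C (inc p (P i))) g - C (inc p (φ P)) := ⟨_, rfl⟩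
  have hev : ∀ z : Fin 2 → ℚ_[p], eval z g0 = eval (fun i => z i + inc p (P i)) g - inc p (φ P) := by
    intro z
    rw [hg0, map_sub, eval_C]
    congr 1
    rw [aeval_def, eval_eval₂, ← MvPolynomial.eval₂_id]
    · congr 1
      · ext c
        simp
      · funext i
        simp
  have hval : ∀ (a : Fin 2 → ℤ_[p]) (k : ℕ) (y : Fin 2 → ℤ_[p]),
      ev (inc p (a 0 - P 0) + (p : ℚ_[p]) ^ k * inc p (y 0),
        inc p (a 1 - P 1) + (p : ℚ_[p]) ^ k * inc p (y 1)) g0 =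
      inc p (bal φ a k y - φ P) := by
    intro a k y
    unfold ev bal
    rw [hev, hsub (φ (fun i => a i + (p : ℤ_[p]) ^ k * y i)) (φ P),
      hφ (fun i => a i + (p : ℤ_[p]) ^ k * y i)]
    congr 2
    congr 1
    funext i
    rw [hadd, hmul, hpow]
    fin_cases i
    · change inc p (a 0 - P 0) + (p : ℚ_[p]) ^ k * inc p (y 0) + inc p (P 0) =
        inc p (a 0) + (p : ℚ_[p]) ^ k * inc p (y 0)
      rw [hsub]
      ring
    · change inc p (a 1 - P 1) + (p : ℚ_[p]) ^ k * inc p (y 1) + inc p (P 1) =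
        inc p (a 1) + (p : ℚ_[p]) ^ k * inc p (y 1)
      rw [hsub]
      ring
  by_cases h0 : g0 = 0
  · refine ⟨0, fun a k _ _ => ⟨0, fun v _ h _ _ => ?_⟩⟩
    have h1 : ∀ y : Fin 2 → ℤ_[p], bal φ a k y - φ P = 0 := by
      intro y
      apply hinj
      rw [← hval a k y, h0, map_zero]
      simp [inc]
    simp only [h1, mul_zero]
  have hcc : constantCoeff g0 = 0 := by
    rw [← eval_zero, hev, hφ, sub_eq_zero]
    congr 1
    congr 1
    funext i
    simp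
  obtain ⟨U, hU, h0U, hN⟩ := h3 p g0 h0 hcc
  obtain ⟨ε, hε, hεU⟩ := Metric.isOpen_iff.1 hU _ h0U
  obtain ⟨k0, hk0⟩ := exists_pow_lt_of_lt_one (half_pos hε) (qr_lt_one (p := p))
  refine ⟨k0, fun a k hk ha => ?_⟩
  have hbU : bx 0 (inc p (a 0 - P 0), inc p (a 1 - P 1)) k ⊆ U := by
    refine (bx_sub_ball 0 _ k).trans (fun x hx => hεU ?_)
    rw [Metric.mem_closedBall] at hx
    rw [Metric.mem_ball]
    have e1 : dist ((inc p (a 0 - P 0), inc p (a 1 - P 1)) : ℚ_[p] × ℚ_[p]) (0, 0) ≤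
        qr p ^ k0 := by
      rw [Prod.dist_eq, dist_zero_right, dist_zero_right]
      exact max_le (ha 0) (ha 1)
    have e2 : qr p ^ k ≤ qr p ^ k0 := pow_le_pow_of_le_one qr_pos.le qr_lt_one.le hk
    have e3 := dist_triangle x ((inc p (a 0 - P 0), inc p (a 1 - P 1)) : ℚ_[p] × ℚ_[p]) (0, 0)
    linarith
  obtain ⟨N, hN⟩ := hN _ (CO_bx 0 _ k) hbU
  refine ⟨N, fun v hv h hm hb => ?_⟩
  have hv' : ‖inc p v - 1‖ ≤ ((p : ℝ)⁻¹) ^ N := by
    have e : inc p v - 1 = inc p (v - 1) := by simp [inc]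
    rw [e]
    exact hv
  obtain ⟨B, hB⟩ := hb
  -- the extension of `h`
  set H : ℚ_[p] → ℂ := Function.extend (inc p) h (fun _ => 0) with hH
  have hHm : Measurable H := (inc_meas p).measurable_extend hm measurable_const
  have hHi : ∀ z : ℤ_[p], H (inc p z) = h z := fun z => hinj.extend_apply _ _ _
  have hHb : ∃ B : ℝ, ∀ z, ‖H z‖ ≤ B := by
    refine ⟨B, fun z => ?_⟩
    by_cases hz : ∃ a, inc p a = z
    · obtain ⟨a, rfl⟩ := hz
      rw [hHi]
      exact hB a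
    · rw [hH, Function.extend_apply' _ _ _ hz, norm_zero]
      exact (norm_nonneg _).trans (hB 0)
  have h1 := hN (inc p v) hv' H hHm hHb
  obtain ⟨K, hK, hKF⟩ := ball_int' (p := p) k
  have hmeas : ∀ L : ℚ_[p] → ℂ, Measurable L → Measurable (Hh L g0 0 1 0 1 0) := by
    intro L hL
    have hc : Continuous (fun x : ℚ_[p] × ℚ_[p] => x.1 ^ 0 * x.2 ^ 0 * ev x g0) :=
      ((continuous_fst.pow 0).mul (continuous_snd.pow 0)).mul (ev_cont g0)
    exact (hL.comp hc.measurable).mul (((nx_meas.comp measurable_fst).pow_const _).mul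
      ((nx_meas.comp measurable_snd).pow_const _))
  rw [hKF _ _ _ (hmeas (fun z => H (inc p v * z)) (hHm.comp (measurable_const_mul _))),
    hKF _ _ _ (hmeas _ hHm)] at h1
  have h2 := mul_left_cancel₀ hK h1
  have hval2 : ∀ (L : ℚ_[p] → ℂ) (y : Fin 2 → ℤ_[p]), Hh L g0 0 1 0 1 0
      (inc p (a 0 - P 0) + (p : ℚ_[p]) ^ k * inc p (y 0),
        inc p (a 1 - P 1) + (p : ℚ_[p]) ^ k * inc p (y 1)) =
      L (inc p (bal φ a k y - φ P)) := by
    intro L y
    unfold Hh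
    rw [pow_zero, pow_zero, one_mul, one_mul, Nat.sub_self, pow_zero, pow_zero, mul_one, mul_one,
      hval]
  simp only [hval2, ← hmul, hHi] at h2
  exact h2

/-- Job C5 -/
theorem t : StC5 :=
  t' (Pool.Agent.N138.SV.C3.t (Pool.Agent.N138.SV.C1.t Pool.Agent.N138.SV.C0.t)
    (Pool.Agent.N138.SV.C2.t Pool.Agent.N138.SV.C0.t))

end Pool.Agent.N138.RF.C5
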