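import Pool.Agent.N138.RF.Stm

set_option autoImplicit false

/-! # Job D of project RF: the decomposition of `ℤ_p ^ V` into balls (after `SV/D3.lean`, `n = 2`) -/

namespace Pool.Agent.N138.RF.D

open MeasureTheory
open Pool.Agent.W427.SMC (msZ bsZ mu sm lintegral_sm)

attribute [local instance] msZ bsZ

set_option linter.unusedSectionVars false

variable {p : ℕ} [Fact p.Prime] {V : Type} [Fintype V] [DecidableEq V]

/-- the affine map -/
noncomputable def aff (P : V → ℤ_[p]) (k : ℕ) (y : V → ℤ_[p]) : V → ℤ_[p] :=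
  fun i => P i + (p : ℤ_[p]) ^ k * y i

theorem aff_meas (P : V → ℤ_[p]) (k : ℕ) : Measurable (aff P k) := by
  refine measurable_pi_lambda _ fun i => ?_
  exact (Pool.Agent.W427.SMC.meas_aff p k (P i)).comp (measurable_pi_apply i)

theorem mu_sm (l : ℕ) (s : Set ℤ_[p]) (hs : MeasurableSet s) :
    mu p s = ∑ w : ZMod (p ^ l), ((p : ENNReal)⁻¹) ^ l *
      mu p ((fun z => (w.val : ℤ_[p]) + (p : ℤ_[p]) ^ l * z) ⁻¹' s) := by
  have h := lintegral_sm p l (s.indicator 1) (measurable_one.indicator hs)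
  rw [lintegral_indicator_one hs] at h
  rw [h, sm]
  refine Finset.sum_congr rfl fun w _ => ?_
  congr 1
  have hm := (Pool.Agent.W427.SMC.meas_aff p l (w.val : ℤ_[p])) hs
  rw [← lintegral_indicator_one hm]
  rfl

theorem pi_sm (l : ℕ) [NeZero (p ^ l)] : (Measure.pi fun _ : V => mu p) =
    ∑ w : V → ZMod (p ^ l), ((p : ENNReal)⁻¹) ^ (Fintype.card V * l) •
      (Measure.pi fun _ : V => mu p).map (aff (fun i => ((w i).val : ℤ_[p])) l) := by
  refine Measure.pi_eq fun s hs => ?_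
  rw [Measure.finsetSum_apply]
  have h1 : ∀ i : V, mu p (s i) = ∑ w : ZMod (p ^ l), ((p : ENNReal)⁻¹) ^ l *
      mu p ((fun z => (w.val : ℤ_[p]) + (p : ℤ_[p]) ^ l * z) ⁻¹' (s i)) := fun i => mu_sm l _ (hs i)
  rw [Finset.prod_congr rfl fun i _ => h1 i, Finset.prod_univ_sum, Fintype.piFinset_univ]
  refine Finset.sum_congr rfl fun w _ => ?_
  rw [Measure.smul_apply, Measure.map_apply (aff_meas _ _) (MeasurableSet.univ_pi hs)]
  have h2 : (aff (fun i => ((w i).val : ℤ_[p])) l) ⁻¹' (Set.pi Set.univ s) =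
      Set.pi Set.univ (fun i => (fun z => ((w i).val : ℤ_[p]) + (p : ℤ_[p]) ^ l * z) ⁻¹' (s i)) := by
    ext y
    simp [aff, Set.mem_pi]
  rw [h2, Measure.pi_pi, smul_eq_mul, Finset.prod_mul_distrib, Finset.prod_const, Finset.card_univ,
    ← pow_mul, mul_comm l]

/-- the integral of `h (P + p ^ k y)` -/
noncomputable def I2 (h : (V → ℤ_[p]) → ℂ) (P : V → ℤ_[p]) (k : ℕ) : ℂ :=
  ∫ y, h (aff P k y) ∂(Measure.pi fun _ => mu p)

theorem aff_aff (P Q : V → ℤ_[p]) (k l : ℕ) (y : V → ℤ_[p]) :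
    aff P k (aff Q l y) = aff (aff P k Q) (k + l) y := by
  funext i
  simp only [aff]
  ring

theorem int_of_bdd {h : (V → ℤ_[p]) → ℂ} (hm : Measurable h) (hb : ∃ B : ℝ, ∀ z, ‖h z‖ ≤ B)
    (ν : Measure (V → ℤ_[p])) [IsFiniteMeasure ν] : Integrable h ν := by
  obtain ⟨B, hB⟩ := hb
  exact Integrable.of_bound hm.aestronglyMeasurable B (Filter.Eventually.of_forall hB)

theorem I2_split (h : (V → ℤ_[p]) → ℂ) (hm : Measurable h) (hb : ∃ B : ℝ, ∀ z, ‖h z‖ ≤ B)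
    (P : V → ℤ_[p]) (k l : ℕ) [NeZero (p ^ l)] :
    I2 h P k = ∑ w : V → ZMod (p ^ l), ((p : ℂ)⁻¹) ^ (Fintype.card V * l) *
      I2 h (aff P k (fun i => ((w i).val : ℤ_[p]))) (k + l) := by
  have h0 : Measurable fun y => h (aff P k y) := hm.comp (aff_meas P k)
  have hb0 : ∃ B : ℝ, ∀ z, ‖h (aff P k z)‖ ≤ B := by
    obtain ⟨B, hB⟩ := hb
    exact ⟨B, fun z => hB _⟩
  have key : ∫ y, h (aff P k y) ∂(Measure.pi fun _ : V => mu p) =
      ∫ y, h (aff P k y) ∂(∑ w : V → ZMod (p ^ l), ((p : ENNReal)⁻¹) ^ (Fintype.card V * l) •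
      (Measure.pi fun _ : V => mu p).map (aff (fun i => ((w i).val : ℤ_[p])) l)) := by
    rw [← pi_sm]
  have hfin : ((p : ENNReal)⁻¹) ^ (Fintype.card V * l) ≠ ⊤ := by
    refine ENNReal.pow_ne_top (ENNReal.inv_ne_top.2 ?_)
    exact_mod_cast (Fact.out : p.Prime).ne_zero
  have hint : ∀ w : V → ZMod (p ^ l), Integrable (fun y => h (aff P k y))
      (((p : ENNReal)⁻¹) ^ (Fintype.card V * l) •
      (Measure.pi fun _ : V => mu p).map (aff (fun i => ((w i).val : ℤ_[p])) l)) := by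
    intro w
    refine Integrable.smul_measure ?_ hfin
    have : IsFiniteMeasure ((Measure.pi fun _ : V => mu p).map
        (aff (fun i => ((w i).val : ℤ_[p])) l)) := inferInstance
    exact int_of_bdd h0 hb0 _
  unfold I2
  rw [key, integral_finsetSum_measure fun w _ => hint w]
  refine Finset.sum_congr rfl fun w _ => ?_
  rw [integral_smul_measure, integral_map (aff_meas _ _).aemeasurable h0.aestronglyMeasurable]
  have e1 : (((p : ENNReal)⁻¹) ^ (Fintype.card V * l)).toReal =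
      ((p : ℝ)⁻¹) ^ (Fintype.card V * l) := by
    rw [ENNReal.toReal_pow, ENNReal.toReal_inv, ENNReal.toReal_natCast]
  rw [e1]
  simp only [aff_aff]
  rw [Complex.real_smul]
  push_cast
  rfl

theorem I2_trans (h : (V → ℤ_[p]) → ℂ) (P Q : V → ℤ_[p]) (k : ℕ)
    (hPQ : ∀ i, (p : ℤ_[p]) ^ k ∣ Q i - P i) : I2 h Q k = I2 h P k := by
  choose c hc using hPQ
  unfold I2
  rw [← integral_add_left_eq_self (μ := Measure.pi fun _ : V => mu p)
    (fun y => h (aff P k y)) c]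
  refine integral_congr_ae (Filter.Eventually.of_forall fun y => ?_)
  show h _ = h _
  congr 1
  funext i
  simp only [aff, Pi.add_apply]
  linear_combination hc i

/-- decompositions of the ball `P + p ^ k` -/
def Good (k0 : (V → ℤ_[p]) → ℕ) (P : V → ℤ_[p]) (k : ℕ) : Prop :=
  ∃ S : Finset ((V → ℤ_[p]) × ℕ), (∀ a ∈ S, k0 a.1 ≤ a.2 ∧
    ∀ i, (p : ℤ_[p]) ^ k ∣ a.1 i - P i) ∧
  ∀ h : (V → ℤ_[p]) → ℂ, Measurable h → (∃ B : ℝ, ∀ z, ‖h z‖ ≤ B) →
  ((p : ℂ)⁻¹) ^ (Fintype.card V * k) * I2 h P k = ∑ a ∈ S, ((p : ℂ)⁻¹) ^ (Fintype.card V * a.2) * I2 h a.1 a.2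

theorem good_self (k0 : (V → ℤ_[p]) → ℕ) (P Q : V → ℤ_[p])
    (hPQ : ∀ i, (p : ℤ_[p]) ^ (k0 P) ∣ P i - Q i) : Good k0 Q (k0 P) := by
  refine ⟨{(P, k0 P)}, ?_, ?_⟩
  · intro a ha
    rw [Finset.mem_singleton] at ha
    subst ha
    exact ⟨le_rfl, hPQ⟩
  · intro h _ _
    rw [Finset.sum_singleton, I2_trans h Q P (k0 P) hPQ]

theorem good_children (k0 : (V → ℤ_[p]) → ℕ) (P : V → ℤ_[p]) (k : ℕ)
    (hc : ∀ Q : V → ℤ_[p], (∀ i, (p : ℤ_[p]) ^ k ∣ Q i - P i) → Good k0 Q (k + 1)) :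
    Good k0 P k := by
  classical
  have hp : NeZero (p ^ 1) := ⟨pow_ne_zero _ (Fact.out : p.Prime).ne_zero⟩
  have h1 : ∀ w : V → ZMod (p ^ 1), Good k0 (aff P k (fun i => ((w i).val : ℤ_[p]))) (k + 1) := by
    intro w
    refine hc _ fun i => ?_
    exact ⟨((w i).val : ℤ_[p]), by simp only [aff]; ring⟩
  choose S hS1 hS2 using h1
  refine ⟨Finset.univ.biUnion S, ?_, ?_⟩
  · intro a ha
    obtain ⟨w, _, hw⟩ := Finset.mem_biUnion.1 ha
    refine ⟨(hS1 w a hw).1, fun i => ?_⟩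
    have h2 := (hS1 w a hw).2 i
    have h3 : a.1 i - P i = (a.1 i - aff P k (fun i => ((w i).val : ℤ_[p])) i) +
        (p : ℤ_[p]) ^ k * ((w i).val : ℤ_[p]) := by
      simp only [aff]; ring
    rw [h3]
    exact dvd_add (dvd_trans (pow_dvd_pow _ (Nat.le_succ k)) h2) (dvd_mul_right _ _)
  · intro h hm hb
    rw [Finset.sum_biUnion]
    · rw [I2_split h hm hb P k 1, Finset.mul_sum]
      refine Finset.sum_congr rfl fun w _ => ?_
      rw [← hS2 w h hm hb]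
      ring
    · intro w _ w' _ hne
      refine Finset.disjoint_left.2 fun a ha ha' => hne ?_
      have e1 := (hS1 w a ha).2
      have e2 := (hS1 w' a ha').2
      funext i
      have h3 := dvd_sub (e2 i) (e1 i)
      have h4 : (a.1 i - aff P k (fun i => ((w' i).val : ℤ_[p])) i) -
          (a.1 i - aff P k (fun i => ((w i).val : ℤ_[p])) i) =
          (p : ℤ_[p]) ^ k * (((w i).val : ℤ_[p]) - ((w' i).val : ℤ_[p])) := by
        simp only [aff]; ring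
      rw [h4, pow_succ] at h3
      have hp0 : (p : ℤ_[p]) ^ k ≠ 0 := pow_ne_zero _ (by exact_mod_cast (Fact.out : p.Prime).ne_zero)
      have h5 := (mul_dvd_mul_iff_left hp0).1 h3
      have h6 : ((w i).val : ℤ_[p]) - ((w' i).val : ℤ_[p]) ∈
          RingHom.ker (PadicInt.toZModPow 1 : ℤ_[p] →+* ZMod (p ^ 1)) := by
        rw [PadicInt.ker_toZModPow, Ideal.mem_span_singleton, pow_one]
        exact h5
      rw [RingHom.mem_ker, map_sub, map_natCast, map_natCast, ZMod.natCast_zmod_val,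
        ZMod.natCast_zmod_val] at h6
      exact sub_eq_zero.1 h6

theorem cover (k0 : (V → ℤ_[p]) → ℕ) : ∃ K : ℕ, ∀ Q : V → ℤ_[p], ∃ P, k0 P ≤ K ∧
    ∀ i, (p : ℤ_[p]) ^ (k0 P) ∣ P i - Q i := by
  have hopen : ∀ P : V → ℤ_[p], IsOpen {Q : V → ℤ_[p] | ∀ i, (p : ℤ_[p]) ^ (k0 P) ∣ P i - Q i} := by
    intro P
    have h1 : {Q : V → ℤ_[p] | ∀ i, (p : ℤ_[p]) ^ (k0 P) ∣ P i - Q i} =
        ⋂ i, {Q : V → ℤ_[p] | (p : ℤ_[p]) ^ (k0 P) ∣ P i - Q i} := by
      ext Q; simp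
    rw [h1]
    refine isOpen_iInter_of_finite fun i => ?_
    have h2 : {Q : V → ℤ_[p] | (p : ℤ_[p]) ^ (k0 P) ∣ P i - Q i} =
        (fun Q : V → ℤ_[p] => Q i) ⁻¹' (Metric.ball (P i) ((p : ℝ) ^ (-(k0 P : ℤ) + 1))) := by
      ext Q
      simp only [Set.mem_ofPred_eq, Set.mem_preimage, Metric.mem_ball]
      rw [← Ideal.mem_span_singleton, ← PadicInt.norm_le_pow_iff_mem_span_pow,
        PadicInt.norm_le_pow_iff_norm_lt_pow_add_one, dist_eq_norm, norm_sub_rev]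
    rw [h2]
    exact Metric.isOpen_ball.preimage (continuous_apply i)
  obtain ⟨t, ht⟩ := (isCompact_univ : IsCompact (Set.univ : Set (V → ℤ_[p]))).elim_finite_subcover
    (fun P => {Q : V → ℤ_[p] | ∀ i, (p : ℤ_[p]) ^ (k0 P) ∣ P i - Q i}) hopen
    (fun Q _ => Set.mem_iUnion.2 ⟨Q, fun i => by simp⟩)
  refine ⟨t.sup k0, fun Q => ?_⟩
  obtain ⟨P, hP⟩ := Set.mem_iUnion.1 (ht (Set.mem_univ Q))
  obtain ⟨hPt, hP⟩ := Set.mem_iUnion.1 hP
  exact ⟨P, Finset.le_sup hPt, hP⟩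

theorem good_all (k0 : (V → ℤ_[p]) → ℕ) (K : ℕ)
    (hK : ∀ Q : V → ℤ_[p], ∃ P, k0 P ≤ K ∧ ∀ i, (p : ℤ_[p]) ^ (k0 P) ∣ P i - Q i) :
    ∀ j k : ℕ, k + j = K → ∀ Q : V → ℤ_[p], (∃ P, k0 P < k ∧
      ∀ i, (p : ℤ_[p]) ^ (k0 P) ∣ P i - Q i) ∨ Good k0 Q k := by
  intro j
  induction j with
  | zero =>
    intro k hk Q
    obtain ⟨P, hP, hd⟩ := hK Q
    rcases hP.lt_or_eq with h | h
    · exact Or.inl ⟨P, by omega, hd⟩
    · right
      have : k = k0 P := by omega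
      subst this
      exact good_self k0 P Q hd
  | succ j ih =>
    intro k hk Q
    by_cases h : ∃ P, k0 P ≤ k ∧ ∀ i, (p : ℤ_[p]) ^ (k0 P) ∣ P i - Q i
    · obtain ⟨P, hP, hd⟩ := h
      rcases hP.lt_or_eq with h | h
      · exact Or.inl ⟨P, h, hd⟩
      · right
        subst h
        exact good_self k0 P Q hd
    · right
      refine good_children k0 Q k fun Q' hQ' => ?_
      rcases ih (k + 1) (by omega) Q' with ⟨P, hP, hd⟩ | hg
      · exfalso
        refine h ⟨P, by omega, fun i => ?_⟩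
        have e1 := dvd_add (hd i) (dvd_trans (pow_dvd_pow (p : ℤ_[p]) (show k0 P ≤ k by omega)) (hQ' i))
        have e2 : P i - Q' i + (Q' i - Q i) = P i - Q i := by ring
        rwa [e2] at e1
      · exact hg

theorem d3 (k0 : (V → ℤ_[p]) → ℕ) :
  ∃ S : Finset ((V → ℤ_[p]) × ℕ), (∀ a ∈ S, k0 a.1 ≤ a.2) ∧
  ∀ h : (V → ℤ_[p]) → ℂ, Measurable h → (∃ B : ℝ, ∀ z, ‖h z‖ ≤ B) →
  ∫ x, h x ∂(Measure.pi fun _ => mu p) = ∑ a ∈ S, ((p : ℂ)⁻¹) ^ (Fintype.card V * a.2) *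
    ∫ y, h (fun i => a.1 i + (p : ℤ_[p]) ^ a.2 * y i) ∂(Measure.pi fun _ => mu p) := by
  obtain ⟨K, hK⟩ := cover k0
  rcases good_all k0 K hK K 0 (by omega) 0 with ⟨P, hP, _⟩ | ⟨S, hS, hS2⟩
  · omega
  · refine ⟨S, fun a ha => (hS a ha).1, fun h hm hb => ?_⟩
    have e := hS2 h hm hb
    rw [mul_zero, pow_zero, one_mul] at e
    have e0 : I2 h 0 0 = ∫ x, h x ∂(Measure.pi fun _ => mu p) := by
      unfold I2
      refine integral_congr_ae (Filter.Eventually.of_forall fun y => ?_)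
      show h _ = h _
      congr 1
      funext i
      simp [aff]
    rw [← e0, e]
    rfl

theorem t : StD := fun p _ V _ k0 => by
  classical
  exact d3 (p := p) k0

theorem du (V : Type) [Fintype V] (j : ℕ) :
  ∃ S : Finset (V → ℤ_[p]),
  ∀ h : (V → ℤ_[p]) → ℂ, Measurable h → (∃ B : ℝ, ∀ z, ‖h z‖ ≤ B) →
  ∫ x, h x ∂(Measure.pi fun _ => mu p) = ∑ a ∈ S, ((p : ℂ)⁻¹) ^ (Fintype.card V * j) *
    ∫ y, h (fun i => a i + (p : ℤ_[p]) ^ j * y i) ∂(Measure.pi fun _ => mu p) := by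
  classical
  have hp : NeZero (p ^ j) := ⟨pow_ne_zero _ (Fact.out : p.Prime).ne_zero⟩
  refine ⟨Finset.univ.image fun w : V → ZMod (p ^ j) => fun i => ((w i).val : ℤ_[p]),
    fun h hm hb => ?_⟩
  have hinj : Function.Injective fun w : V → ZMod (p ^ j) => fun i => ((w i).val : ℤ_[p]) := by
    intro w w' hw
    funext i
    have h1 : ((w i).val : ℤ_[p]) = ((w' i).val : ℤ_[p]) := congrFun hw i
    exact ZMod.val_injective _ (by exact_mod_cast h1)
  rw [Finset.sum_image fun w _ w' _ hw => hinj hw]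
  have e := I2_split h hm hb 0 0 j
  have e0 : I2 h 0 0 = ∫ x, h x ∂(Measure.pi fun _ => mu p) := by
    unfold I2
    refine integral_congr_ae (Filter.Eventually.of_forall fun y => ?_)
    show h _ = h _
    congr 1
    funext i
    simp [aff]
  rw [← e0, e]
  refine Finset.sum_congr rfl fun w _ => ?_
  congr 1
  have e2 : aff (0 : V → ℤ_[p]) 0 (fun i => ((w i).val : ℤ_[p])) = fun i => ((w i).val : ℤ_[p]) := by
    funext i
    simp [aff]
  rw [e2, zero_add]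
  rfl

end Pool.Agent.N138.RF.D

namespace Pool.Agent.N138.RF.Du

theorem t : Pool.Agent.N138.RF.StDu := fun p _ V _ j => Pool.Agent.N138.RF.D.du (p := p) V j

end Pool.Agent.N138.RF.Du
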