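import Pool.Agent.N138.RF.Defs

set_option autoImplicit false

/-! # Statements for the read-once formulas over plane curves -/

namespace Pool.Agent.N138.RF

open MvPolynomial MeasureTheory
open Pool.Agent.W427.SMC (msZ bsZ mu)
open Pool.Agent.Y230.PT (msK bsK inc)
open Pool.Agent.Y230.PS (EP)
open Pool.Agent.N138.SU Pool.Agent.N138.SV

/-! ## Periods -/

/-- Job R0: periods of a sum in disjoint sets of variables. -/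
def StR0 : Prop := ∀ {σ τ : Type} (F : MvPolynomial σ ℂ) (G : MvPolynomial τ ℂ) (e1 e2 : ℂ),
  Per F e1 → Per G e2 →
  Per (rename Sum.inl F + rename Sum.inr G : MvPolynomial (σ ⊕ τ) ℂ) (e1 + e2)

/-- Job R1: periods of a product near `F = l`, `G = m`, with `l, m ≠ 0`. -/
def StR1 : Prop := ∀ {σ τ : Type} (F : MvPolynomial σ ℂ) (G : MvPolynomial τ ℂ) (l m e1 e2 : ℂ),
  l ≠ 0 → m ≠ 0 → Per (F - C l) e1 → Per (G - C m) e2 →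
  Per (rename Sum.inl F * rename Sum.inr G - C (l * m) : MvPolynomial (σ ⊕ τ) ℂ) (e1 + e2)

/-- Job R2: periods of a product, from the periods of a factor. -/
def StR2 : Prop := ∀ {σ τ : Type} (F : MvPolynomial σ ℂ) (G : MvPolynomial τ ℂ) (e : ℂ),
  Per F e → G ≠ 0 → Per (rename Sum.inl F * rename Sum.inr G : MvPolynomial (σ ⊕ τ) ℂ) e

/-- Job R3: the exponent `-1` of a product. -/
def StR3 : Prop := ∀ {σ τ : Type} (F : MvPolynomial σ ℂ) (G : MvPolynomial τ ℂ),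
  F ≠ 0 → G ≠ 0 → ¬ IsUnit F → ¬ IsUnit G →
  Per (rename Sum.inl F * rename Sum.inr G : MvPolynomial (σ ⊕ τ) ℂ) (-1)

/-- Job R4: periods of `F ^ k U(F)`. -/
def StR4 : Prop := ∀ {σ : Type} (F : MvPolynomial σ ℂ) (e : ℂ) (k : ℕ) (U : Polynomial ℂ),
  Per F e → e.re < 0 → 1 ≤ k → U.eval 0 ≠ 0 →
  Per (Polynomial.aeval F (Polynomial.X ^ k * U)) (e / k)

/-- Job R4b: the exponent `-1 / k` of `F ^ k U(F)`. -/
def StR4b : Prop := ∀ {σ : Type} (F : MvPolynomial σ ℂ) (k : ℕ) (U : Polynomial ℂ),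
  F ≠ 0 → ¬ IsUnit F → 2 ≤ k → U.eval 0 ≠ 0 →
  Per (Polynomial.aeval F (Polynomial.X ^ k * U)) (-1 / k)

/-- Job R5: renaming the variables. -/
def StR5 : Prop := ∀ {σ τ : Type} (i : σ ≃ τ) (F : MvPolynomial σ ℂ) (e : ℂ), Per F e →
  Per (rename i F) e

/-- Job R6: weighted homogeneous polynomials with an isolated critical point. -/
def StR6 : Prop := ∀ {τ : Type} [Fintype τ] (G : MvPolynomial τ ℂ) (w : τ → ℕ) (D : ℕ),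
  (∀ i, 0 < w i) → 0 < D → G.IsWeightedHomogeneous w D →
  (∀ i, constantCoeff (pderiv i G) = 0) →
  (∀ z : τ → ℂ, (∀ i, eval z (pderiv i G) = 0) → z = 0) →
  Per G (-(((∑ i, w i : ℕ) : ℂ) / (D : ℂ)))

attribute [local instance] msK bsK msZ bsZ

/-! ## Distributions -/

/-- Job L1: sums. -/
def StL1 : Prop := ∀ (p : ℕ) [Fact p.Prime] {Y Y' : Type} [MeasurableSpace Y] [MeasurableSpace Y']
  (ν : Measure Y) (ν' : Measure Y') [IsProbabilityMeasure ν] [IsProbabilityMeasure ν']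
  (φ : Y → ℤ_[p]) (ρ : Y' → ℤ_[p]), Measurable φ → Measurable ρ → ∀ m1 m2 m3 : ℂ → ℕ∞,
  PC m1 m2 m3 → Gd ν φ m1 → Gd ν' ρ m2 →
  Gd (ν.prod ν') (fun y : Y × Y' => φ y.1 + ρ y.2) m3

/-- Job L2: products near nonzero values. -/
def StL2 : Prop := ∀ (p : ℕ) [Fact p.Prime] {Y Y' : Type} [MeasurableSpace Y] [MeasurableSpace Y']
  (ν : Measure Y) (ν' : Measure Y') [IsProbabilityMeasure ν] [IsProbabilityMeasure ν']
  (φ κ : Y → ℤ_[p]) (ρ : Y' → ℤ_[p]), Measurable φ → Measurable κ → Measurable ρ →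
  ∀ (a b : ℤ_[p]) (N : ℕ), a ≠ 0 → b ≠ 0 → (∀ y, ‖κ y - b‖ ≤ ‖b‖ * ((p : ℝ)⁻¹) ^ N) →
  LIn ν' ρ N → ∀ m1 m2 m3 : ℂ → ℕ∞, PC m1 m2 m3 → Gd ν φ m1 → Gd ν' ρ m2 →
  Gd (ν.prod ν') (fun y : Y × Y' => a * φ y.1 + κ y.1 * ρ y.2) m3

/-- Job L3: products, near a zero of the first factor. -/
def StL3 : Prop := ∀ (p : ℕ) [Fact p.Prime] {Y Y' : Type} [MeasurableSpace Y] [MeasurableSpace Y']
  (ν : Measure Y) (ν' : Measure Y') [IsProbabilityMeasure ν] [IsProbabilityMeasure ν']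
  (φ : Y → ℤ_[p]) (κ : Y' → ℤ_[p]), Measurable φ → Measurable κ →
  ∀ (b : ℤ_[p]) (N : ℕ), b ≠ 0 → (∀ y, ‖κ y - b‖ ≤ ‖b‖ * ((p : ℝ)⁻¹) ^ N) →
  LIn ν φ N → ∀ m : ℂ → ℕ∞, Gd ν φ m → Gd (ν.prod ν') (fun y : Y × Y' => φ y.1 * κ y.2) m

/-- Job L4: products, near a zero of both factors. -/
def StL4 : Prop := ∀ (p : ℕ) [Fact p.Prime] {Y Y' : Type} [MeasurableSpace Y] [MeasurableSpace Y']
  (ν : Measure Y) (ν' : Measure Y') [IsProbabilityMeasure ν] [IsProbabilityMeasure ν']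
  (φ : Y → ℤ_[p]) (ρ : Y' → ℤ_[p]), Measurable φ → Measurable ρ → ∀ m1 m2 m3 : ℂ → ℕ∞,
  (∀ T : ℂ, ‖T‖ ≤ 1 → m1 T = 0 ∧ m2 T = 0) → (∀ T : ℂ, m1 T + m2 T ≤ m3 T) →
  m1 (p : ℂ) + m2 (p : ℂ) + 1 ≤ m3 (p : ℂ) → Gd ν φ m1 → Gd ν' ρ m2 →
  Gd (ν.prod ν') (fun y : Y × Y' => φ y.1 * ρ y.2) m3

/-- Job L5: gluing. -/
def StL5 : Prop := ∀ (p : ℕ) [Fact p.Prime] {Y : Type} [MeasurableSpace Y] (ν : Measure Y)
  [IsProbabilityMeasure ν] (φ : Y → ℤ_[p]), Measurable φ → ∀ {κ Z : Type} [MeasurableSpace Z]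
  (μ : Measure Z) [IsProbabilityMeasure μ] (S : Finset κ) (w : κ → ℂ) (ψ : κ → Z → ℤ_[p]),
  (∀ a ∈ S, Measurable (ψ a)) →
  (∀ h : ℤ_[p] → ℂ, Measurable h → (∃ B : ℝ, ∀ z, ‖h z‖ ≤ B) →
    ∫ y, h (φ y) ∂ν = ∑ a ∈ S, w a * ∫ z, h (ψ a z) ∂μ) →
  ∀ m : ℂ → ℕ∞, (∀ a ∈ S, Gd μ (ψ a) m) → Gd ν φ m

/-- Job L6: the distribution of `W(φ)`, `W = X ^ k U`. -/
def StL6 : Prop := ∀ (p : ℕ) [Fact p.Prime] (k : ℕ) (U : Polynomial ℤ_[p]), 1 ≤ k →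
  U.eval 0 ≠ 0 → ∃ r : ℕ, ∀ {Y : Type} [MeasurableSpace Y] (ν : Measure Y)
  [IsProbabilityMeasure ν] (φ : Y → ℤ_[p]), Measurable φ → (∀ y, ‖φ y‖ ≤ ((p : ℝ)⁻¹) ^ r) →
  (∃ N, LIn ν φ N) → ∃ N, LIn ν (fun y => φ y ^ k * U.eval (φ y)) N

/-- Job L7: the exponential sums of `W(φ)`, `W = X ^ k U`. -/
def StL7 : Prop := ∀ (p : ℕ) [Fact p.Prime] (k : ℕ) (U : Polynomial ℤ_[p]), 1 ≤ k →
  U.eval 0 ≠ 0 → ∃ r : ℕ, ∀ {Y : Type} [MeasurableSpace Y] (ν : Measure Y)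
  [IsProbabilityMeasure ν] (φ : Y → ℤ_[p]), Measurable φ → (∀ y, ‖φ y‖ ≤ ((p : ℝ)⁻¹) ^ r) →
  ∀ m1 m3 : ℂ → ℕ∞, (∀ T : ℂ, ‖T‖ ≤ 1 → m1 T = 0) → (∀ T : ℂ, m1 (T ^ k) ≤ m3 T) →
  (2 ≤ k → ∀ T : ℂ, T ^ k = (p : ℂ) → m1 (p : ℂ) + 1 ≤ m3 T) →
  (∀ χ : UC p, (fun e : ℕ => Eh ν φ χ e) ∈ EP m1) →
  ∀ χ : UC p, (fun e : ℕ => Eh ν (fun y => φ y ^ k * U.eval (φ y)) χ e) ∈ EP m3

/-! ## Polynomials -/

/-- Job S: polynomials without critical points in `ℤ_p ^ n`. -/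
def StS : Prop := ∀ (p : ℕ) [Fact p.Prime] {V : Type} [Fintype V] (F : MvPolynomial V ℚ_[p])
  (φ : (V → ℤ_[p]) → ℤ_[p]), IsM F φ →
  (∀ x : V → ℤ_[p], ∃ i, eval (fun i => inc p (x i)) (pderiv i F) ≠ 0) →
  ∀ l : ℤ_[p], Gd (Measure.pi fun _ : V => mu p) (fun y => φ y - l) 0

/-- Job W: weighted homogeneous polynomials with an isolated critical point. -/
def StWh : Prop := ∀ (p : ℕ) [Fact p.Prime] {τ : Type} [Fintype τ] (G : MvPolynomial τ ℤ_[p])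
  (w : τ → ℕ) (D : ℕ), (∀ i, 0 < w i) → 0 < D → G.IsWeightedHomogeneous w D →
  (∀ z : τ → ℚ_[p], (∀ i, MvPolynomial.eval₂ PadicInt.Coe.ringHom z (MvPolynomial.pderiv i G) = 0) →
    z = 0) →
  Gd (Measure.pi fun _ : τ => mu p) (fun y => MvPolynomial.eval y G)
    (fun T => open Classical in if T ^ D = (p : ℂ) ^ (∑ i, w i) then 1 else 0)

/-- Job C: plane curves, all small balls. -/
def StC5 : Prop := ∀ (p : ℕ) [Fact p.Prime] (g : MvPolynomial (Fin 2) ℚ_[p])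
  (φ : (Fin 2 → ℤ_[p]) → ℤ_[p]), IsM g φ → ∀ P : Fin 2 → ℤ_[p], ∃ k0 : ℕ,
  ∀ (a : Fin 2 → ℤ_[p]) (k : ℕ), k0 ≤ k → (∀ i, ‖a i - P i‖ ≤ ((p : ℝ)⁻¹) ^ k0) →
  ∃ N, LIn (Measure.pi fun _ : Fin 2 => mu p) (fun y => bal φ a k y - φ P) N

/-- Job D: the decomposition into balls. -/
def StD : Prop := ∀ (p : ℕ) [Fact p.Prime] {V : Type} [Fintype V] (k0 : (V → ℤ_[p]) → ℕ),
  ∃ S : Finset ((V → ℤ_[p]) × ℕ), (∀ a ∈ S, k0 a.1 ≤ a.2) ∧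
  ∀ h : (V → ℤ_[p]) → ℂ, Measurable h → (∃ B : ℝ, ∀ z, ‖h z‖ ≤ B) →
  ∫ x, h x ∂(Measure.pi fun _ => mu p) = ∑ a ∈ S, ((p : ℂ)⁻¹) ^ (Fintype.card V * a.2) *
    ∫ y, h (fun i => a.1 i + (p : ℤ_[p]) ^ a.2 * y i) ∂(Measure.pi fun _ => mu p)

/-- Job D': the decomposition into balls of the same radius. -/
def StDu : Prop := ∀ (p : ℕ) [Fact p.Prime] (V : Type) [Fintype V] (j : ℕ),
  ∃ S : Finset (V → ℤ_[p]),
  ∀ h : (V → ℤ_[p]) → ℂ, Measurable h → (∃ B : ℝ, ∀ z, ‖h z‖ ≤ B) →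
  ∫ x, h x ∂(Measure.pi fun _ => mu p) = ∑ a ∈ S, ((p : ℂ)⁻¹) ^ (Fintype.card V * j) *
    ∫ y, h (fun i => a i + (p : ℤ_[p]) ^ j * y i) ∂(Measure.pi fun _ => mu p)

/-! ## Good polynomials -/

/-- Job G1: sums. -/
def StG1 : Prop := ∀ (p : ℕ) [Fact p.Prime] (emb : ℚ_[p] →+* ℂ) {V W : Type} [Fintype V]
  [Fintype W] (F : MvPolynomial V ℚ_[p]) (G : MvPolynomial W ℚ_[p]), GI emb F → GI emb G →
  GI emb (rename Sum.inl F + rename Sum.inr G : MvPolynomial (V ⊕ W) ℚ_[p])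

/-- Job G2: products. -/
def StG2 : Prop := ∀ (p : ℕ) [Fact p.Prime] (emb : ℚ_[p] →+* ℂ) {V W : Type} [Fintype V]
  [Fintype W] (F : MvPolynomial V ℚ_[p]) (G : MvPolynomial W ℚ_[p]), (∀ c, F ≠ C c) →
  (∀ c, G ≠ C c) → GI emb F → GI emb G →
  GI emb (rename Sum.inl F * rename Sum.inr G : MvPolynomial (V ⊕ W) ℚ_[p])

/-- Job G3: compositions with polynomials in one variable. -/
def StG3 : Prop := ∀ (p : ℕ) [Fact p.Prime] (emb : ℚ_[p] →+* ℂ) {V : Type} [Fintype V]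
  (F : MvPolynomial V ℚ_[p]) (P : Polynomial ℤ_[p]), (∀ c, F ≠ C c) → 1 ≤ P.natDegree →
  GI emb F → GI emb (Polynomial.aeval F (P.map (PadicInt.Coe.ringHom (p := p))))

/-- Job G4: plane curves. -/
def StG4 : Prop := ∀ (p : ℕ) [Fact p.Prime] (emb : ℚ_[p] →+* ℂ) (F : MvPolynomial (Fin 2) ℚ_[p])
  (φ : (Fin 2 → ℤ_[p]) → ℤ_[p]), IsM F φ → (∀ c, F ≠ C c) → GI emb F

/-- Job G5: weighted homogeneous polynomials with an isolated critical point. -/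
def StG5 : Prop := ∀ (p : ℕ) [Fact p.Prime] (emb : ℚ_[p] →+* ℂ) {τ : Type} [Fintype τ]
  [Nonempty τ] (G : MvPolynomial τ ℤ_[p]) (w : τ → ℕ) (D : ℕ), (∀ i, 0 < w i) → 0 < D →
  G.IsWeightedHomogeneous w D → (∀ i, constantCoeff (pderiv i G) = 0) →
  (∀ z : τ → ℂ, (∀ i, eval z (pderiv i (map (emb.comp PadicInt.Coe.ringHom) G)) = 0) → z = 0) →
  GI emb (map PadicInt.Coe.ringHom G)

end Pool.Agent.N138.RF
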