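import Pool.Agent.N138.RF.Gen
import Pool.Agent.N138.RF.Stm

set_option autoImplicit false
set_option linter.unusedSectionVars false

/-! # Good polynomials: sums -/

namespace Pool.Agent.N138.RF.G1

open MvPolynomial MeasureTheory
open Pool.Agent.W427.SMC (msZ bsZ mu)
open Pool.Agent.Y230.PT (msK bsK inc inc_emb rr)
open Pool.Agent.Y230.PS (EP)
open Pool.Agent.N138.SU Pool.Agent.N138.SV Pool.Agent.N138.RF

attribute [local instance] msK bsK msZ bsZ

/-- **Job G1**: sums -/
theorem t (hL1 : StL1) (hR0 : StR0) : StG1 := by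
  intro p _ emb V W _ _ F G hF hG
  obtain ⟨φF, hφF, hF⟩ := hF
  obtain ⟨φG, hφG, hG⟩ := hG
  refine ⟨fun x => φF (fun i => x (Sum.inl i)) + φG (fun i => x (Sum.inr i)),
    (hφF.rename_inl (W := W)).add (hφG.rename_inr (V := V)), ?_⟩
  intro P
  obtain ⟨k1, h1⟩ := hF (fun i => P (Sum.inl i))
  obtain ⟨k2, h2⟩ := hG (fun i => P (Sum.inr i))
  refine ⟨max k1 k2, ?_⟩
  intro a k hk ha
  have hA := h1 (fun i => a (Sum.inl i)) k ((le_max_left _ _).trans hk)
    fun i => (ha (Sum.inl i)).trans (inv_p_pow_le p (le_max_left _ _))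
  have hB := h2 (fun i => a (Sum.inr i)) k ((le_max_right _ _).trans hk)
    fun i => (ha (Sum.inr i)).trans (inv_p_pow_le p (le_max_right _ _))
  have e3 : map emb (rename Sum.inl F + rename Sum.inr G : MvPolynomial (V ⊕ W) ℚ_[p]) -
      C (emb (inc p (φF (fun i => P (Sum.inl i)) + φG (fun i => P (Sum.inr i))))) =
      rename Sum.inl (map emb F - C (emb (inc p (φF (fun i => P (Sum.inl i)))))) +
      rename Sum.inr (map emb G - C (emb (inc p (φG (fun i => P (Sum.inr i)))))) := by
    have e4 : inc p (φF (fun i => P (Sum.inl i)) + φG (fun i => P (Sum.inr i))) =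
        inc p (φF (fun i => P (Sum.inl i))) + inc p (φG (fun i => P (Sum.inr i))) :=
      PadicInt.coe_add _ _
    rw [e4]
    simp only [map_add, map_sub, map_rename, rename_C]
    ring
  have hPC : PC (mP p (map emb F - C (emb (inc p (φF (fun i => P (Sum.inl i)))))))
      (mP p (map emb G - C (emb (inc p (φG (fun i => P (Sum.inr i)))))))
      (mP p (map emb (rename Sum.inl F + rename Sum.inr G : MvPolynomial (V ⊕ W) ℚ_[p]) -
        C (emb (inc p (φF (fun i => P (Sum.inl i)) + φG (fun i => P (Sum.inr i))))))) := by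
    apply PC_mP
    intro e1 e2 he1 he2
    rw [e3]
    exact hR0 _ _ e1 e2 he1 he2
  have h3 := hL1 p (Measure.pi fun _ : V => mu p) (Measure.pi fun _ : W => mu p) _ _
    ((bal_meas hφF.meas (fun i => a (Sum.inl i)) k).sub_const _)
    ((bal_meas hφG.meas (fun i => a (Sum.inr i)) k).sub_const _) _ _ _ hPC hA hB
  rw [← Gd_sumPi] at h3
  have e5 : (fun y : V ⊕ W → ℤ_[p] => bal (fun x => φF (fun i => x (Sum.inl i)) +
      φG (fun i => x (Sum.inr i))) a k y -
      (φF (fun i => P (Sum.inl i)) + φG (fun i => P (Sum.inr i)))) =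
      fun y : V ⊕ W → ℤ_[p] =>
        (bal φF (fun i => a (Sum.inl i)) k (fun i => y (Sum.inl i)) - φF (fun i => P (Sum.inl i))) +
        (bal φG (fun i => a (Sum.inr i)) k (fun i => y (Sum.inr i)) - φG (fun i => P (Sum.inr i))) := by
    funext y
    unfold bal
    ring
  beta_reduce
  rw [e5]
  exact h3

end Pool.Agent.N138.RF.G1
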