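import Pool.Agent.N138.RF.Stm

set_option autoImplicit false
set_option linter.unusedSectionVars false

/-! # Good polynomials: compositions with polynomials in one variable -/

namespace Pool.Agent.N138.RF.G3

open MvPolynomial MeasureTheory
open Pool.Agent.W427.SMC (msZ bsZ mu)
open Pool.Agent.Y230.PT (msK bsK inc inc_emb rr)
open Pool.Agent.Y230.PS (EP)
open Pool.Agent.N138.SU Pool.Agent.N138.SV Pool.Agent.N138.RF

attribute [local instance] msK bsK msZ bsZ

variable {p : ℕ} [Fact p.Prime]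

/-- the factorization of `P(l + t) - P(l)` -/
theorem fac {R : Type} [CommRing R] [IsDomain R] (P : Polynomial R) (hP : 1 ≤ P.natDegree) (l : R) :
    ∃ (k : ℕ) (U : Polynomial R), 1 ≤ k ∧ U.eval 0 ≠ 0 ∧
      P.comp (Polynomial.X + Polynomial.C l) - Polynomial.C (P.eval l) = Polynomial.X ^ k * U := by
  set Q := P.comp (Polynomial.X + Polynomial.C l) - Polynomial.C (P.eval l) with hQ
  have hQ0 : Q ≠ 0 := by
    intro h
    rw [hQ, sub_eq_zero] at h
    have h1 := congrArg Polynomial.natDegree h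
    rw [Polynomial.natDegree_comp, Polynomial.natDegree_X_add_C, Polynomial.natDegree_C,
      mul_one] at h1
    omega
  have hQe : Q.eval 0 = 0 := by
    rw [hQ, Polynomial.eval_sub, Polynomial.eval_comp, Polynomial.eval_add, Polynomial.eval_X,
      Polynomial.eval_C, Polynomial.eval_C, zero_add, sub_self]
  obtain ⟨U, hU1, hU2⟩ := Polynomial.exists_eq_pow_rootMultiplicity_mul_and_not_dvd Q hQ0 0
  refine ⟨Q.rootMultiplicity 0, U, ?_, ?_, ?_⟩
  · exact (Polynomial.rootMultiplicity_pos hQ0).mpr hQe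
  · intro h
    exact hU2 (Polynomial.dvd_iff_isRoot.mpr h)
  · rw [Polynomial.C_0, sub_zero] at hU1
    exact hU1

theorem cont {V : Type} [Fintype V] {F : MvPolynomial V ℚ_[p]} {φ : (V → ℤ_[p]) → ℤ_[p]}
    (hφ : IsM F φ) : Continuous φ := by
  have h1 : Continuous (fun x => inc p (φ x)) := by
    have : (fun x => inc p (φ x)) = fun x : V → ℤ_[p] =>
        MvPolynomial.eval (fun i => inc p (x i)) F := funext hφ
    rw [this]
    exact (MvPolynomial.continuous_eval _).comp (continuous_pi fun i =>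
      (inc_emb p).continuous.comp (continuous_apply i))
  exact (inc_emb p).isInducing.continuous_iff.2 h1

theorem near {V : Type} [Fintype V] {φ : (V → ℤ_[p]) → ℤ_[p]} (hc : Continuous φ)
    (P0 : V → ℤ_[p]) (r : ℕ) : ∃ N : ℕ, ∀ x : V → ℤ_[p],
      (∀ i, ‖x i - P0 i‖ ≤ ((p : ℝ)⁻¹) ^ N) → ‖φ x - φ P0‖ ≤ ((p : ℝ)⁻¹) ^ r := by
  have hp : (1 : ℝ) < p := by exact_mod_cast (Fact.out : p.Prime).one_lt
  have hp0 : (0 : ℝ) < (p : ℝ)⁻¹ := inv_pos.mpr (by linarith)
  have hp1 : (p : ℝ)⁻¹ < 1 := inv_lt_one_of_one_lt₀ hp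
  obtain ⟨δ, hδ, h⟩ := Metric.continuous_iff.mp hc P0 (((p : ℝ)⁻¹) ^ r) (by positivity)
  obtain ⟨N, hN⟩ := exists_pow_lt_of_lt_one hδ hp1
  refine ⟨N, fun x hx => ?_⟩
  have h1 : dist x P0 < δ := by
    refine lt_of_le_of_lt ?_ hN
    rw [dist_pi_le_iff (by positivity)]
    intro i
    rw [dist_eq_norm]
    exact hx i
  have h2 := h x h1
  rw [dist_eq_norm] at h2
  exact h2.le

theorem mP_zero {τ : Type} {g : MvPolynomial τ ℂ} {T : ℂ}
    (h : ¬ (1 < ‖T‖ ∧ Per g ((rr p T : ℝ) : ℂ))) : mP p g T = 0 := by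
  unfold mP
  rw [if_neg h]

theorem rr_pow (T : ℂ) (k : ℕ) : rr p (T ^ k) = k * rr p T := by
  unfold rr
  rw [norm_pow, Real.log_pow]
  ring

theorem t (h6 : StL6) (h7 : StL7) (h4 : StR4) (h4b : StR4b) : StG3 := by
  intro p _ emb V _ F P hF hP hG
  obtain ⟨φ, hφ, hloc⟩ := hG
  have hc : Continuous φ := cont hφ
  set ρ : ℤ_[p] →+* ℂ := emb.comp (PadicInt.Coe.ringHom (p := p)) with hρ
  refine ⟨fun x => P.eval (φ x), ?_, ?_⟩
  · intro x
    have h1 := Polynomial.eval₂_at_apply (p := P) (PadicInt.Coe.ringHom (p := p)) (φ x)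
    have h2 : MvPolynomial.eval (fun i => inc p (x i))
        (Polynomial.aeval F (P.map (PadicInt.Coe.ringHom (p := p)))) =
        (P.map (PadicInt.Coe.ringHom (p := p))).eval
          (MvPolynomial.eval (fun i => inc p (x i)) F) := by
      rw [Polynomial.aeval_def, Polynomial.hom_eval₂]
      have h3 : (MvPolynomial.eval (fun i => inc p (x i))).comp
          (algebraMap ℚ_[p] (MvPolynomial V ℚ_[p])) = RingHom.id _ := by
        ext c
        simp [MvPolynomial.algebraMap_eq]
      rw [h3, Polynomial.eval₂_id]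
    rw [h2, ← hφ x, Polynomial.eval_map]
    exact h1.symm
  intro P0
  set l : ℤ_[p] := φ P0 with hl
  obtain ⟨k, U, hk, hU, hfac⟩ := fac P hP l
  obtain ⟨r6, hr6⟩ := h6 p k U hk hU
  obtain ⟨r7, hr7⟩ := h7 p k U hk hU
  obtain ⟨k1, hk1⟩ := hloc P0
  obtain ⟨N, hN⟩ := near hc P0 (max r6 r7)
  have hp : (1 : ℝ) < p := by exact_mod_cast (Fact.out : p.Prime).one_lt
  have hp0 : (0 : ℝ) ≤ (p : ℝ)⁻¹ := inv_nonneg.mpr (by linarith)
  have hp1 : (p : ℝ)⁻¹ ≤ 1 := inv_le_one_of_one_le₀ hp.le
  refine ⟨max k1 N, ?_⟩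
  intro a j hj ha
  have hmono : ∀ {u v : ℕ}, u ≤ v → ((p : ℝ)⁻¹) ^ v ≤ ((p : ℝ)⁻¹) ^ u :=
    fun h => pow_le_pow_of_le_one hp0 hp1 h
  have hgd := hk1 a j (le_trans (le_max_left _ _) hj)
    (fun i => (ha i).trans (hmono (le_max_left _ _)))
  set ψ : (V → ℤ_[p]) → ℤ_[p] := fun y => bal φ a j y - l with hψ
  have hψr : ∀ y, ‖ψ y‖ ≤ ((p : ℝ)⁻¹) ^ (max r6 r7) := by
    intro y
    refine hN _ fun i => ?_
    have h1 : a i + (p : ℤ_[p]) ^ j * y i - P0 i = (a i - P0 i) + (p : ℤ_[p]) ^ j * y i := by ring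
    rw [h1]
    refine (PadicInt.nonarchimedean _ _).trans (max_le ?_ ?_)
    · exact (ha i).trans (hmono (le_max_right _ _))
    · rw [norm_mul, norm_pow, PadicInt.norm_p]
      refine (mul_le_of_le_one_right (pow_nonneg hp0 _) (PadicInt.norm_le_one _)).trans ?_
      exact hmono (le_trans (le_max_right _ _) hj)
  have hψc : Continuous ψ := by
    refine (hc.comp (continuous_pi fun i => ?_)).sub continuous_const
    exact continuous_const.add (continuous_const.mul (continuous_apply i))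
  have hψm : Measurable ψ := hψc.measurable
  have hfun : (fun y => bal (fun x => P.eval (φ x)) a j y - P.eval (φ P0)) =
      fun y => ψ y ^ k * U.eval (ψ y) := by
    funext y
    have h1 := congrArg (Polynomial.eval (ψ y)) hfac
    rw [Polynomial.eval_sub, Polynomial.eval_comp, Polynomial.eval_add, Polynomial.eval_X,
      Polynomial.eval_C, Polynomial.eval_C, Polynomial.eval_mul, Polynomial.eval_pow,
      Polynomial.eval_X] at h1
    rw [← h1]
    have h2 : ψ y + l = bal φ a j y := by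
      simp only [hψ]
      ring
    rw [h2]
    rfl
  -- the polynomials over the complex numbers
  set F1 : MvPolynomial V ℂ := MvPolynomial.map emb F - MvPolynomial.C (emb (inc p l)) with hF1
  have hF3 : MvPolynomial.map emb (Polynomial.aeval F (P.map (PadicInt.Coe.ringHom (p := p)))) -
      MvPolynomial.C (emb (inc p (P.eval l))) =
      Polynomial.aeval F1 (Polynomial.X ^ k * U.map ρ) := by
    have h1 := congrArg (Polynomial.map ρ) hfac
    rw [Polynomial.map_sub, Polynomial.map_comp, Polynomial.map_add, Polynomial.map_X,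
      Polynomial.map_C, Polynomial.map_C, Polynomial.map_mul, Polynomial.map_pow,
      Polynomial.map_X] at h1
    rw [← h1, map_sub, Polynomial.aeval_comp, map_add, Polynomial.aeval_X, Polynomial.aeval_C,
      Polynomial.aeval_C]
    have h2 : F1 + algebraMap ℂ (MvPolynomial V ℂ) (ρ l) = MvPolynomial.map emb F := by
      rw [MvPolynomial.algebraMap_eq, hF1]
      exact sub_add_cancel _ _
    rw [h2]
    have h3 := Polynomial.map_aeval_eq_aeval_map (S := MvPolynomial V ℚ_[p])
      (U := MvPolynomial V ℂ) (φ := emb) (ψ := MvPolynomial.map emb) (by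
        ext c
        simp [MvPolynomial.algebraMap_eq]) (P.map (PadicInt.Coe.ringHom (p := p))) F
    rw [h3, Polynomial.map_map, MvPolynomial.algebraMap_eq]
    rfl
  have hU' : (U.map ρ).eval 0 ≠ 0 := by
    rw [Polynomial.eval_map, show (0 : ℂ) = ρ 0 by rw [map_zero], Polynomial.eval₂_at_apply,
      map_zero]
    intro h
    apply hU
    have h2 : emb (inc p (U.eval 0)) = 0 := h
    rw [map_eq_zero] at h2
    exact Subtype.ext h2
  have hF1ne : F1 ≠ 0 := by
    rw [hF1, Ne, sub_eq_zero]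
    intro h
    apply hF (inc p l)
    apply MvPolynomial.map_injective emb emb.injective
    rw [h, MvPolynomial.map_C]
  have hF1u : ¬ IsUnit F1 := by
    intro h
    have h1 := h.map (MvPolynomial.eval fun i => emb (inc p (P0 i)))
    have h2 : MvPolynomial.eval (fun i => emb (inc p (P0 i))) F1 = 0 := by
      rw [hF1, map_sub, MvPolynomial.eval_C, MvPolynomial.eval_map,
        show (fun i => emb (inc p (P0 i))) = emb ∘ (fun i => inc p (P0 i)) from rfl,
        ← MvPolynomial.eval₂_comp, ← hφ P0, sub_self]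
    rw [h2] at h1
    exact not_isUnit_zero h1
  have hkC : (k : ℂ) ≠ 0 := by
    have : k ≠ 0 := by omega
    exact_mod_cast this
  have hkR : (k : ℝ) ≠ 0 := by
    have : k ≠ 0 := by omega
    exact_mod_cast this
  rw [hfun]
  change Gd _ _ (mP p (MvPolynomial.map emb (Polynomial.aeval F
    (P.map (PadicInt.Coe.ringHom (p := p)))) - MvPolynomial.C (emb (inc p (P.eval l)))))
  rw [hF3]
  refine ⟨hr6 _ ψ hψm (fun y => (hψr y).trans (hmono (le_max_left _ _))) hgd.1, ?_⟩
  refine hr7 _ ψ hψm (fun y => (hψr y).trans (hmono (le_max_right _ _))) (mP p F1) _ ?_ ?_ ?_ hgd.2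
  · intro T hT
    exact mP_zero fun h => absurd h.1 (not_lt.mpr hT)
  · intro T
    by_cases h : 1 < ‖T ^ k‖ ∧ Per F1 ((rr p (T ^ k) : ℝ) : ℂ)
    · obtain ⟨h1, h2⟩ := h
      have hT : 1 < ‖T‖ := by
        by_contra hcon
        rw [norm_pow] at h1
        exact absurd h1 (not_lt.mpr (pow_le_one₀ (norm_nonneg _) (not_lt.mp hcon)))
      have h3 := h4 F1 _ k (U.map ρ) h2 (by
        rw [Complex.ofReal_re]
        exact Pool.Agent.Y230.PS.rr_neg _ h1) hk hU'
      rw [rr_pow] at h3
      have h5 : (((k : ℝ) * rr p T : ℝ) : ℂ) / (k : ℂ) = ((rr p T : ℝ) : ℂ) := by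
        push_cast
        field_simp
      rw [h5] at h3
      rw [mP_top hT h3]
      exact le_top
    · rw [mP_zero h]
      exact bot_le
  · intro hk2 T hT
    have hn : ‖T‖ ^ k = p := by
      rw [← norm_pow, hT]
      simp
    have hT1 : 1 < ‖T‖ := by
      by_contra hcon
      have := pow_le_one₀ (n := k) (norm_nonneg T) (not_lt.mp hcon)
      linarith
    have h3 := h4b F1 k (U.map ρ) hF1ne hF1u hk2 hU'
    have h5 : (-1 : ℂ) / (k : ℂ) = ((rr p T : ℝ) : ℂ) := by
      have h6 : rr p T = -1 / k := by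
        unfold rr
        have h7 : Real.log p = k * Real.log ‖T‖ := by
          rw [← hn, Real.log_pow]
        have h8 : Real.log ‖T‖ ≠ 0 := (Real.log_pos hT1).ne'
        rw [h7]
        field_simp
      rw [h6]
      push_cast
      rfl
    rw [h5] at h3
    rw [mP_top hT1 h3]
    exact le_top

end Pool.Agent.N138.RF.G3
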