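import Pool.Agent.N138.RF.Stm
import Pool.Agent.N138.SV.Fin

set_option autoImplicit false
set_option linter.unusedSectionVars false

/-! # Good polynomials: plane curves -/

namespace Pool.Agent.N138.RF.G4

open MvPolynomial MeasureTheory
open Pool.Agent.W427.SMC (msZ bsZ mu)
open Pool.Agent.Y230.PT (msK bsK inc)
open Pool.Agent.Y230.PS (EP)
open Pool.Agent.N138.SU Pool.Agent.N138.SV Pool.Agent.N138.RF

attribute [local instance] msK bsK msZ bsZ

theorem t (hC5 : StC5) : StG4 := by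
  intro p _ emb F φ hφ hF
  refine ⟨φ, hφ, fun P => ?_⟩
  obtain ⟨k0, hk0⟩ := hC5 p F φ hφ P
  refine ⟨k0, fun a k hk ha => ⟨hk0 a k hk ha, fun χ => ?_⟩⟩
  have hv : ∀ x : Fin 2 → ℤ_[p], inc p (bal φ a k x - φ P) =
      MvPolynomial.eval (fun i => inc p (x i)) (locP F (inc p (φ P)) (a, k)) := by
    intro x
    rw [eval_locP, inc_sub]
    unfold bal
    rw [hφ (fun i => a i + (p : ℤ_[p]) ^ k * x i)]
    congr 1
  have h1 := cu_Eh hy.a5 hy.a6 emb (locP F (inc p (φ P)) (a, k)) (locP_ne F hF _ (a, k))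
    (fun y => bal φ a k y - φ P) hv χ
  refine Pool.Agent.Y230.TH.EP_mono (fun T hT => ?_) h1
  by_cases h : 1 < ‖T‖ ∧ Per (Pool.Agent.Y230.PT.mp emb (locP F (inc p (φ P)) (a, k)))
      ((Pool.Agent.Y230.PT.rr p T : ℝ) : ℂ)
  · have h2 : mP p (map emb F - C (emb (inc p (φ P)))) T = ⊤ :=
      mP_top h.1 (locP_per hy.a3 emb F _ (a, k) _ h.2)
    rw [h2]
    exact le_top
  · refine le_trans (le_of_eq ?_) bot_le
    unfold mP
    rw [if_neg h]
    rfl

end Pool.Agent.N138.RF.G4
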