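import Pool.Agent.N138.RF.Stm
import Pool.Agent.N138.SV.D1
import Pool.Agent.N138.SV.B6
import Pool.Agent.N138.SU.W2

set_option autoImplicit false
set_option linter.unusedSectionVars false

/-! # Job L1: good distributions, sums (helper769) -/

namespace Pool.Agent.N138.RF.L1

open MvPolynomial MeasureTheory
open Pool.Agent.W427.SMC (msZ bsZ mu)
open Pool.Agent.Y230.PT (msK bsK inc)
open Pool.Agent.Y230.PS (EP)
open Pool.Agent.N138.SU Pool.Agent.N138.SV

attribute [local instance] msK bsK msZ bsZ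

variable {p : ℕ} [Fact p.Prime]

theorem inv_le_one : ((p : ℝ)⁻¹) ≤ 1 := by
  have h : (1 : ℝ) ≤ p := by exact_mod_cast (Fact.out : p.Prime).one_lt.le
  exact inv_le_one_of_one_le₀ h

theorem inv_nn : 0 ≤ ((p : ℝ)⁻¹) := by positivity

/-- the invariance is monotone in `N` -/
theorem LIn_mono {Y : Type} [MeasurableSpace Y] {ν : Measure Y} {φ : Y → ℤ_[p]} {N M : ℕ}
    (h : LIn ν φ N) (hNM : N ≤ M) : LIn ν φ M := fun v hv =>
  h v (hv.trans (pow_le_pow_of_le_one inv_nn inv_le_one hNM))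

/-- the exponential sums are locally constant -/
theorem LC_of_LIn {Y : Type} [MeasurableSpace Y] {ν : Measure Y} {φ : Y → ℤ_[p]} {N : ℕ}
    (h : LIn ν φ N) : LC N (fun (e : ℕ) (u : ℤ_[p]) => Es ν φ e u) := by
  intro e u v hv
  have h1 := h v hv (fun z => psi p e (u * z))
    ((Pool.Agent.N138.SU.B3.psi_meas e).comp (measurable_const.mul measurable_id))
    ⟨1, fun z => (Pool.Agent.N138.SU.B3.psi_norm e _).le⟩
  show ∫ y, psi p e (u * v * φ y) ∂ν = ∫ y, psi p e (u * φ y) ∂ν
  simp only [mul_assoc]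
  exact h1

/-- Job L1 -/
theorem t : StL1 := by
  intro p _ Y Y' _ _ ν ν' _ _ φ ρ hφ hρ m1 m2 m3 hPC h1 h2
  obtain ⟨⟨N1, hN1⟩, hE1⟩ := h1
  obtain ⟨⟨N2, hN2⟩, hE2⟩ := h2
  have hL1 : LIn ν φ (max N1 N2 + 1) := LIn_mono hN1 (by omega)
  have hL2 : LIn ν' ρ (max N1 N2 + 1) := LIn_mono hN2 (by omega)
  constructor
  · refine ⟨max N1 N2 + 1, ?_⟩
    intro v hv h hh hB
    obtain ⟨B, hB⟩ := hB
    -- integrability of the functions of two variables
    have hint : ∀ f : Y × Y' → ℤ_[p], Measurable f →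
        Integrable (fun y => h (f y)) (ν.prod ν') := fun f hf =>
      Integrable.of_bound (C := B) (hh.comp hf).aestronglyMeasurable
        (Filter.Eventually.of_forall fun y => hB _)
    have m1' : Measurable fun y : Y × Y' => v * (φ y.1 + ρ y.2) :=
      measurable_const.mul ((hφ.comp measurable_fst).add (hρ.comp measurable_snd))
    have m2' : Measurable fun y : Y × Y' => v * φ y.1 + ρ y.2 :=
      (measurable_const.mul (hφ.comp measurable_fst)).add (hρ.comp measurable_snd)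
    have m3' : Measurable fun y : Y × Y' => φ y.1 + ρ y.2 :=
      (hφ.comp measurable_fst).add (hρ.comp measurable_snd)
    rw [integral_prod _ (hint _ m1')]
    have e1 : ∀ x : Y, ∫ y, h (v * (φ x + ρ y)) ∂ν' = ∫ y, h (v * φ x + ρ y) ∂ν' := by
      intro x
      have := hL2 v hv (fun z => h (v * φ x + z)) (hh.comp (measurable_const.add measurable_id))
        ⟨B, fun z => hB _⟩
      simp only [mul_add]
      exact this
    simp only [e1]
    have e2 : ∫ x, ∫ y, h (v * φ x + ρ y) ∂ν' ∂ν =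
        ∫ y, ∫ x, h (v * φ x + ρ y) ∂ν ∂ν' :=
      integral_integral_swap (f := fun x y => h (v * φ x + ρ y)) (hint _ m2')
    rw [e2]
    have e3 : ∀ y : Y', ∫ x, h (v * φ x + ρ y) ∂ν = ∫ x, h (φ x + ρ y) ∂ν := by
      intro y
      exact hL1 v hv (fun z => h (z + ρ y)) (hh.comp (measurable_id.add measurable_const))
        ⟨B, fun z => hB _⟩
    simp only [e3]
    have e4 : ∫ x, ∫ y, h (φ x + ρ y) ∂ν' ∂ν =
        ∫ y, ∫ x, h (φ x + ρ y) ∂ν ∂ν' :=
      integral_integral_swap (f := fun x y => h (φ x + ρ y)) (hint _ m3')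
    rw [← e4, ← integral_prod _ (hint _ m3')]
  · intro χ
    have h3 := Pool.Agent.N138.SV.D1.t p (max N1 N2 + 1) (by omega)
      (fun e u => Es ν φ e u) (fun e u => Es ν' ρ e u) (LC_of_LIn hL1) (LC_of_LIn hL2)
      m1 m2 m3 hPC hE1 hE2 χ
    have h4 : (fun e : ℕ => Eh (ν.prod ν') (fun y : Y × Y' => φ y.1 + ρ y.2) χ e) =
        fun e => hat (fun e u => Es ν φ e u * Es ν' ρ e u) χ e := by
      funext e
      unfold Eh hat
      simp only [Pool.Agent.N138.SU.W2.Es_prod]
    rw [h4]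
    exact h3

end Pool.Agent.N138.RF.L1
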