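import Pool.Agent.N138.RF.Stm
import Pool.Agent.N138.SV.D1
import Pool.Agent.N138.SU.B1
import Pool.Agent.N138.SU.B2C

set_option autoImplicit false
set_option linter.unusedSectionVars false

/-! # Job L2 (helper456): good distributions, products near nonzero values -/

namespace Pool.Agent.N138.RF.L2

open MeasureTheory
open Pool.Agent.W427.SMC (msZ bsZ mu)
open Pool.Agent.Y230.PS (EP)
open Pool.Agent.N138.SU Pool.Agent.N138.SV Pool.Agent.N138.RF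

attribute [local instance] msZ bsZ

variable {p : ℕ} [Fact p.Prime]

/-- the same distribution -/
def SD {Y Y' : Type} [MeasurableSpace Y] [MeasurableSpace Y'] (ν : Measure Y) (ν' : Measure Y')
    (φ : Y → ℤ_[p]) (ψ : Y' → ℤ_[p]) : Prop :=
  ∀ h : ℤ_[p] → ℂ, Measurable h → (∃ B : ℝ, ∀ z, ‖h z‖ ≤ B) →
    ∫ y, h (φ y) ∂ν = ∫ y, h (ψ y) ∂ν'

theorem psi_m (e : ℕ) : Measurable (psi p e) := (B2C.continuous_psi e).measurable

theorem mulm (b : ℤ_[p]) : Measurable fun z : ℤ_[p] => b * z :=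
  (continuous_const.mul continuous_id).measurable

theorem Gd_congr {Y Y' : Type} [MeasurableSpace Y] [MeasurableSpace Y'] {ν : Measure Y}
    {ν' : Measure Y'} {φ : Y → ℤ_[p]} {ψ : Y' → ℤ_[p]} (hs : SD ν ν' φ ψ) {m : ℂ → ℕ∞}
    (h : Gd ν φ m) : Gd ν' ψ m := by
  obtain ⟨⟨N, hN⟩, hE⟩ := h
  refine ⟨⟨N, fun v hv h hm hB => ?_⟩, fun χ => ?_⟩
  · have h1 := hs (fun z => h (v * z)) (hm.comp (mulm v)) (by
      obtain ⟨B, hB⟩ := hB
      exact ⟨B, fun z => hB _⟩)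
    rw [← h1, hN v hv h hm hB]
    exact hs h hm hB
  · refine (congrArg (· ∈ EP m) (funext fun e => ?_)).mp (hE χ)
    unfold Eh
    have h1 : ∀ u : ℤ_[p], Es ν φ e u = Es ν' ψ e u := by
      intro u
      exact hs (fun z => psi p e (u * z)) ((psi_m e).comp (mulm u))
        ⟨1, fun z => (B2C.norm_psi e _).le⟩
    simp only [h1]

/-- scaling -/
theorem Gd_smul {Y : Type} [MeasurableSpace Y] (ν : Measure Y) [IsProbabilityMeasure ν]
    {φ : Y → ℤ_[p]} (hφ : Measurable φ) {b : ℤ_[p]} (hb : b ≠ 0) {m : ℂ → ℕ∞}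
    (h : Gd ν φ m) : Gd ν (fun y => b * φ y) m := by
  obtain ⟨⟨N, hN⟩, hE⟩ := h
  refine ⟨⟨N, fun v hv h hm hB => ?_⟩, fun χ => ?_⟩
  · have h1 := hN v hv (fun z => h (b * z)) (hm.comp (mulm b)) (by
      obtain ⟨B, hB⟩ := hB
      exact ⟨B, fun z => hB _⟩)
    rw [← h1]
    refine integral_congr_ae (Filter.Eventually.of_forall fun y => ?_)
    beta_reduce
    rw [mul_left_comm]
  · obtain ⟨k, hk⟩ := B1.norm_eq_pow b hb
    obtain ⟨b0, hb0, hb1⟩ := B1.eq_pow_mul b k hk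
    refine B1.EP_of_shift m k _ ?_
    have h1 := Submodule.smul_mem _ (χ.X (b0 : ℚ_[p])) (hE χ)
    refine (congrArg (· ∈ EP m) (funext fun e => ?_)).mp h1
    rw [Pi.smul_apply, smul_eq_mul, B1.fub ν φ hφ, B1.fub ν (fun y => b * φ y) ((mulm b).comp hφ),
      ← integral_const_mul]
    refine integral_congr_ae (Filter.Eventually.of_forall fun y => ?_)
    beta_reduce
    rw [← B1.G_mul χ e (φ y) b0 hb0]
    unfold B1.G
    refine integral_congr_ae (Filter.Eventually.of_forall fun u => ?_)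
    beta_reduce
    rw [← B2C.psi_pow e k, hb1]
    congr 2
    ring

/-- the division by `b` -/
theorem div_ex (b x : ℤ_[p]) (hb : b ≠ 0) (N : ℕ) (h : ‖x - b‖ ≤ ‖b‖ * ((p : ℝ)⁻¹) ^ N) :
    ∃ v : ℤ_[p], ‖v - 1‖ ≤ ((p : ℝ)⁻¹) ^ N ∧ x = b * v := by
  have hb0 : (b : ℚ_[p]) ≠ 0 := by
    intro h0
    exact hb (Subtype.ext h0)
  have hbn : 0 < ‖(b : ℚ_[p])‖ := norm_pos_iff.2 hb0
  have hp1 : ((p : ℝ)⁻¹) ≤ 1 := inv_le_one_of_one_le₀ (by
    exact_mod_cast (Fact.out : p.Prime).one_lt.le)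
  have h1 : ‖((x - b : ℤ_[p]) : ℚ_[p]) / (b : ℚ_[p])‖ ≤ ((p : ℝ)⁻¹) ^ N := by
    rw [norm_div, div_le_iff₀ hbn, mul_comm]
    exact h
  have h2 : ((p : ℝ)⁻¹) ^ N ≤ 1 := pow_le_one₀ (inv_nonneg.2 (Nat.cast_nonneg _)) hp1
  refine ⟨1 + ⟨((x - b : ℤ_[p]) : ℚ_[p]) / (b : ℚ_[p]), h1.trans h2⟩, ?_, ?_⟩
  · rw [add_sub_cancel_left]
    exact h1
  · apply Subtype.ext
    change (x : ℚ_[p]) = ((b * (1 + ⟨((x - b : ℤ_[p]) : ℚ_[p]) / (b : ℚ_[p]), h1.trans h2⟩) :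
      ℤ_[p]) : ℚ_[p])
    rw [PadicInt.coe_mul, PadicInt.coe_add, PadicInt.coe_one]
    change (x : ℚ_[p]) = (b : ℚ_[p]) * (1 + ((x - b : ℤ_[p]) : ℚ_[p]) / (b : ℚ_[p]))
    rw [PadicInt.coe_sub, mul_add, mul_one, mul_div_cancel₀ _ hb0]
    ring

section Prod

variable {Y Y' : Type} [MeasurableSpace Y] [MeasurableSpace Y'] (ν : Measure Y) (ν' : Measure Y')
  [IsProbabilityMeasure ν] [IsProbabilityMeasure ν']

theorem fub1 {H : Y × Y' → ℂ} (hH : Measurable H) (hB : ∃ B : ℝ, ∀ z, ‖H z‖ ≤ B) :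
    ∫ z, H z ∂(ν.prod ν') = ∫ y, ∫ y', H (y, y') ∂ν' ∂ν := by
  obtain ⟨B, hB⟩ := hB
  exact integral_prod H (Integrable.of_bound hH.aestronglyMeasurable B
    (Filter.Eventually.of_forall hB))

theorem fub2 {H : Y × Y' → ℂ} (hH : Measurable H) (hB : ∃ B : ℝ, ∀ z, ‖H z‖ ≤ B) :
    ∫ z, H z ∂(ν.prod ν') = ∫ y', ∫ y, H (y, y') ∂ν ∂ν' := by
  obtain ⟨B, hB⟩ := hB
  exact integral_prod_symm H (Integrable.of_bound hH.aestronglyMeasurable B
    (Filter.Eventually.of_forall hB))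

theorem LIn_mono {φ : Y → ℤ_[p]} {N M : ℕ} (hNM : N ≤ M) (h : LIn ν φ N) : LIn ν φ M := by
  intro v hv
  refine h v (hv.trans (pow_le_pow_of_le_one (inv_nonneg.2 (Nat.cast_nonneg _)) ?_ hNM))
  exact inv_le_one_of_one_le₀ (by exact_mod_cast (Fact.out : p.Prime).one_lt.le)

theorem LC_of {φ : Y → ℤ_[p]} {N : ℕ} (h : LIn ν φ N) : LC N (Es ν φ) := by
  intro e u v hv
  have h1 := h v hv (fun z => psi p e (u * z)) ((psi_m e).comp (mulm u))
    ⟨1, fun z => (B2C.norm_psi e _).le⟩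
  unfold Es
  rw [← h1]
  refine integral_congr_ae (Filter.Eventually.of_forall fun y => ?_)
  beta_reduce
  rw [mul_assoc]

/-- sums -/
theorem Gd_add {φ : Y → ℤ_[p]} {ρ : Y' → ℤ_[p]} (hφ : Measurable φ) (hρ : Measurable ρ)
    {m1 m2 m3 : ℂ → ℕ∞} (hm : PC m1 m2 m3) (h1 : Gd ν φ m1) (h2 : Gd ν' ρ m2) :
    Gd (ν.prod ν') (fun y : Y × Y' => φ y.1 + ρ y.2) m3 := by
  obtain ⟨⟨N1, hN1⟩, hE1⟩ := h1
  obtain ⟨⟨N2, hN2⟩, hE2⟩ := h2
  have hs : Measurable fun y : Y × Y' => φ y.1 + ρ y.2 :=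
    (hφ.comp measurable_fst).add (hρ.comp measurable_snd)
  have M1 : LIn ν φ (max N1 N2 + 1) :=
    LIn_mono ν ((le_max_left _ _).trans (Nat.le_succ _)) hN1
  have M2 : LIn ν' ρ (max N1 N2 + 1) :=
    LIn_mono ν' ((le_max_right _ _).trans (Nat.le_succ _)) hN2
  refine ⟨⟨max N1 N2 + 1, fun v hv h hmh hB => ?_⟩, fun χ => ?_⟩
  · obtain ⟨B, hB⟩ := hB
    rw [fub1 ν ν' (H := fun y : Y × Y' => h (v * (φ y.1 + ρ y.2)))
      ((hmh.comp (mulm v)).comp hs) ⟨B, fun z => hB _⟩]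
    have e1 : ∀ y : Y, ∫ y', h (v * (φ y + ρ y')) ∂ν' = ∫ y', h (v * φ y + ρ y') ∂ν' := by
      intro y
      rw [← M2 v hv (fun z => h (v * φ y + z)) (hmh.comp (measurable_const_add _))
        ⟨B, fun z => hB _⟩]
      refine integral_congr_ae (Filter.Eventually.of_forall fun y' => ?_)
      beta_reduce
      rw [mul_add]
    simp only [e1]
    have hs2 : Measurable fun y : Y × Y' => v * φ y.1 + ρ y.2 :=
      (((mulm v).comp hφ).comp measurable_fst).add (hρ.comp measurable_snd)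
    rw [← fub1 ν ν' (H := fun y : Y × Y' => h (v * φ y.1 + ρ y.2)) (hmh.comp hs2)
      ⟨B, fun z => hB _⟩, fub2 ν ν' (H := fun y : Y × Y' => h (v * φ y.1 + ρ y.2)) (hmh.comp hs2)
      ⟨B, fun z => hB _⟩, fub2 ν ν' (H := fun y : Y × Y' => h (φ y.1 + ρ y.2)) (hmh.comp hs)
      ⟨B, fun z => hB _⟩]
    refine integral_congr_ae (Filter.Eventually.of_forall fun y' => ?_)
    exact M1 v hv (fun z => h (z + ρ y')) (hmh.comp (measurable_add_const _))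
      ⟨B, fun z => hB _⟩
  · have h3 := Pool.Agent.N138.SV.D1.t p (max N1 N2 + 1) (Nat.succ_le_succ (Nat.zero_le _))
      (Es ν φ) (Es ν' ρ) (LC_of ν M1) (LC_of ν' M2) m1 m2 m3 hm hE1 hE2 χ
    refine (congrArg (· ∈ EP m3) (funext fun e => ?_)).mp h3
    unfold hat Eh
    refine integral_congr_ae (Filter.Eventually.of_forall fun u => ?_)
    beta_reduce
    congr 1
    unfold Es
    rw [← integral_prod_mul]
    refine integral_congr_ae (Filter.Eventually.of_forall fun y => ?_)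
    beta_reduce
    rw [mul_add, B2C.psi_add]

end Prod

/-- Job L2 -/
theorem t : StL2 := by
  intro p _ Y Y' _ _ ν ν' _ _ φ κ ρ hφ hκ hρ a b N ha hb hκb hN m1 m2 m3 hm h1 h2
  have h3 : Gd (ν.prod ν') (fun y : Y × Y' => a * φ y.1 + b * ρ y.2) m3 :=
    Gd_add ν ν' ((mulm a).comp hφ) ((mulm b).comp hρ) hm (Gd_smul ν hφ ha h1) (Gd_smul ν' hρ hb h2)
  refine Gd_congr ?_ h3
  intro h hmh hB
  obtain ⟨B, hB⟩ := hB
  have hs1 : Measurable fun y : Y × Y' => a * φ y.1 + b * ρ y.2 :=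
    (((mulm a).comp hφ).comp measurable_fst).add (((mulm b).comp hρ).comp measurable_snd)
  have hs2 : Measurable fun y : Y × Y' => a * φ y.1 + κ y.1 * ρ y.2 :=
    (((mulm a).comp hφ).comp measurable_fst).add
      ((hκ.comp measurable_fst).mul (hρ.comp measurable_snd))
  rw [fub1 ν ν' (H := fun y : Y × Y' => h (a * φ y.1 + b * ρ y.2)) (hmh.comp hs1)
    ⟨B, fun z => hB _⟩, fub1 ν ν' (H := fun y : Y × Y' => h (a * φ y.1 + κ y.1 * ρ y.2))
    (hmh.comp hs2) ⟨B, fun z => hB _⟩]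
  refine integral_congr_ae (Filter.Eventually.of_forall fun y => ?_)
  beta_reduce
  obtain ⟨v, hv, hκv⟩ := div_ex b (κ y) hb N (hκb y)
  have h4 := hN v hv (fun z => h (a * φ y + b * z))
    (hmh.comp ((measurable_const_add _).comp (mulm b))) ⟨B, fun z => hB _⟩
  rw [← h4]
  refine integral_congr_ae (Filter.Eventually.of_forall fun y' => ?_)
  beta_reduce
  rw [hκv, mul_assoc]

end Pool.Agent.N138.RF.L2
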