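import Pool.Agent.N138.RF.L2

set_option autoImplicit false
set_option linter.unusedSectionVars false

/-! # Job L3 (helper456): good distributions, products near a zero of the first factor -/

namespace Pool.Agent.N138.RF.L3

open MeasureTheory
open Pool.Agent.W427.SMC (msZ bsZ mu)
open Pool.Agent.Y230.PS (EP)
open Pool.Agent.N138.SU Pool.Agent.N138.SV Pool.Agent.N138.RF Pool.Agent.N138.RF.L2

attribute [local instance] msZ bsZ

/-- Job L3 -/
theorem t : StL3 := by
  intro p _ Y Y' _ _ ν ν' _ _ φ κ hφ hκ b N hb hκb hN m h1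
  refine Gd_congr ?_ (Gd_smul ν hφ hb h1)
  intro h hmh hB
  obtain ⟨B, hB⟩ := hB
  have hs2 : Measurable fun y : Y × Y' => φ y.1 * κ y.2 :=
    (hφ.comp measurable_fst).mul (hκ.comp measurable_snd)
  rw [fub2 ν ν' (H := fun y : Y × Y' => h (φ y.1 * κ y.2)) (hmh.comp hs2) ⟨B, fun z => hB _⟩]
  have h2 : ∀ y' : Y', ∫ y, h (φ y * κ y') ∂ν = ∫ y, h (b * φ y) ∂ν := by
    intro y'
    obtain ⟨v, hv, hκv⟩ := div_ex b (κ y') hb N (hκb y')
    rw [← hN v hv (fun z => h (b * z)) (hmh.comp (mulm b)) ⟨B, fun z => hB _⟩]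
    refine integral_congr_ae (Filter.Eventually.of_forall fun y => ?_)
    beta_reduce
    rw [hκv]
    congr 1
    ring
  simp only [h2, integral_const, probReal_univ, one_smul]

end Pool.Agent.N138.RF.L3
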