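import Pool.Agent.N138.RF.Stm
import Pool.Agent.N138.SU.G
import Pool.Agent.N138.SU.VP
import Pool.Agent.N138.SU.EP
import Pool.Agent.N138.SU.B1
import Pool.Agent.N138.SU.B1T

set_option autoImplicit false

/-! # Job L4: good distributions, products near a zero of both factors (helper674) -/

namespace Pool.Agent.N138.RF.L4

open MeasureTheory Polynomial
open Pool.Agent.W427.SMC (msZ bsZ mu)
open Pool.Agent.Y230.PS (EP sft sft_apply sft_mem ser coeff_ser EP_rat rat_EP)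
open Pool.Agent.N138.SU

attribute [local instance] msZ bsZ

/-! ## Sequences -/

theorem ep_sft (m : ℂ → ℕ∞) (c : ℕ → ℂ) (h : c ∈ EP m) : sft c ∈ EP m := by
  induction h using Submodule.span_induction with
  | mem c h =>
    obtain ⟨T, hT, n, hn, hc⟩ := h
    exact Submodule.subset_span ⟨T, hT, n, hn, sft_mem _ _ _ hc⟩
  | zero => rw [map_zero]; exact Submodule.zero_mem _
  | add c d _ _ h h' => rw [map_add]; exact Submodule.add_mem _ h h'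
  | smul a c _ h => rw [map_smul]; exact Submodule.smul_mem _ _ h

theorem ep_shift (m : ℂ → ℕ∞) (k : ℕ) : ∀ c : ℕ → ℂ, c ∈ EP m → (fun e => c (e + k)) ∈ EP m := by
  induction k with
  | zero => exact fun c h => h
  | succ k ih =>
    intro c h
    have h1 := ih _ (ep_sft m c h)
    refine (congrArg (· ∈ EP m) (funext fun e => ?_)).mp h1
    rw [sft_apply]
    congr 1

theorem ser_D (a : ℂ) (U : ℕ → ℂ) (h : U 0 = 1) :
    (PowerSeries.X : PowerSeries ℂ) * ser (fun e => a * U (e + 1) - U e) =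
      (PowerSeries.C a - PowerSeries.X) * ser U - PowerSeries.C a := by
  ext e
  rcases e with _ | e
  · rw [PowerSeries.coeff_zero_X_mul, sub_mul, map_sub, map_sub, PowerSeries.coeff_C_mul,
      PowerSeries.coeff_zero_X_mul, coeff_ser, h, PowerSeries.coeff_zero_C]
    ring
  · rw [PowerSeries.coeff_succ_X_mul, sub_mul, map_sub, map_sub, PowerSeries.coeff_C_mul,
      PowerSeries.coeff_succ_X_mul, coeff_ser, coeff_ser, coeff_ser, PowerSeries.coeff_C,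
      if_neg (Nat.succ_ne_zero e)]
    ring

theorem ser_V (U : ℕ → ℂ) (h : U 0 = 1) :
    (PowerSeries.X : PowerSeries ℂ) * ser (fun e => U e - U (e + 1)) =
      (PowerSeries.X - 1) * ser U + 1 := by
  ext e
  rcases e with _ | e
  · rw [PowerSeries.coeff_zero_X_mul, sub_mul, map_add, map_sub, one_mul,
      PowerSeries.coeff_zero_X_mul, coeff_ser, h, PowerSeries.coeff_zero_one]
    ring
  · rw [PowerSeries.coeff_succ_X_mul, sub_mul, map_add, map_sub, one_mul,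
      PowerSeries.coeff_succ_X_mul, coeff_ser, coeff_ser, coeff_ser, PowerSeries.coeff_one,
      if_neg (Nat.succ_ne_zero e)]
    ring

/-- the algebra: products of distributions -/
theorem alg (a : ℂ) (U1 U2 U3 : ℕ → ℂ) (h1 : U1 0 = 1) (h2 : U2 0 = 1) (h3 : U3 0 = 1)
    (hV : ∀ k, U3 k - U3 (k + 1) = ∑ i ∈ Finset.range (k + 1),
      (U1 i - U1 (i + 1)) * (U2 (k - i) - U2 (k - i + 1))) (m1 m2 m3 : ℂ → ℕ∞)
    (h12 : ∀ T : ℂ, m1 T + m2 T ≤ m3 T) (hp : m1 a + m2 a + 1 ≤ m3 a)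
    (hD1 : (fun e => a * U1 (e + 1) - U1 e) ∈ EP m1)
    (hD2 : (fun e => a * U2 (e + 1) - U2 e) ∈ EP m2) :
    (fun e => a * U3 (e + 1) - U3 e) ∈ EP m3 := by
  obtain ⟨Q1, P1, q1, e1, r1⟩ := EP_rat m1 _ hD1
  obtain ⟨Q2, P2, q2, e2, r2⟩ := EP_rat m2 _ hD2
  have sD1 := ser_D a U1 h1
  have sD2 := ser_D a U2 h2
  have sD3 := ser_D a U3 h3
  have sV1 := ser_V U1 h1
  have sV2 := ser_V U2 h2
  have sV3 := ser_V U3 h3
  have hv3 : ser (fun e => U3 e - U3 (e + 1)) =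
      ser (fun e => U1 e - U1 (e + 1)) * ser (fun e => U2 e - U2 (e + 1)) := by
    rw [← Pool.Agent.N138.SU.EP.ser_cauchy]
    congr 1
    funext k
    exact hV k
  obtain ⟨d1, hd1⟩ : ∃ d, d = ser (fun e => a * U1 (e + 1) - U1 e) := ⟨_, rfl⟩
  obtain ⟨d2, hd2⟩ : ∃ d, d = ser (fun e => a * U2 (e + 1) - U2 e) := ⟨_, rfl⟩
  obtain ⟨d3, hd3⟩ : ∃ d, d = ser (fun e => a * U3 (e + 1) - U3 e) := ⟨_, rfl⟩
  obtain ⟨v1, hv1⟩ : ∃ d, d = ser (fun e => U1 e - U1 (e + 1)) := ⟨_, rfl⟩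
  obtain ⟨v2, hv2⟩ : ∃ d, d = ser (fun e => U2 e - U2 (e + 1)) := ⟨_, rfl⟩
  obtain ⟨v3, hv3'⟩ : ∃ d, d = ser (fun e => U3 e - U3 (e + 1)) := ⟨_, rfl⟩
  obtain ⟨s1, hs1⟩ : ∃ d, d = ser U1 := ⟨_, rfl⟩
  obtain ⟨s2, hs2⟩ : ∃ d, d = ser U2 := ⟨_, rfl⟩
  obtain ⟨s3, hs3⟩ : ∃ d, d = ser U3 := ⟨_, rfl⟩
  rw [← hd1] at e1 sD1
  rw [← hd2] at e2 sD2
  rw [← hd3] at sD3
  rw [← hv1, ← hs1] at sV1
  rw [← hv2, ← hs2] at sV2
  rw [← hv3', ← hs3] at sV3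
  rw [← hv1, ← hv2, ← hv3'] at hv3
  rw [← hs1] at sD1
  rw [← hs2] at sD2
  rw [← hs3] at sD3
  obtain ⟨x, hx⟩ : ∃ x, x = (PowerSeries.X : PowerSeries ℂ) := ⟨_, rfl⟩
  obtain ⟨α, hα⟩ : ∃ α, α = (PowerSeries.C a : PowerSeries ℂ) := ⟨_, rfl⟩
  rw [← hx, ← hα] at sD1 sD2 sD3
  rw [← hx] at sV1 sV2 sV3
  obtain ⟨c1, hc1⟩ : ∃ c, c = (Q1 : PowerSeries ℂ) := ⟨_, rfl⟩
  obtain ⟨c2, hc2⟩ : ∃ c, c = (Q2 : PowerSeries ℂ) := ⟨_, rfl⟩
  obtain ⟨b1, hb1⟩ : ∃ c, c = (P1 : PowerSeries ℂ) := ⟨_, rfl⟩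
  obtain ⟨b2, hb2⟩ : ∃ c, c = (P2 : PowerSeries ℂ) := ⟨_, rfl⟩
  rw [← hc1, ← hb1] at e1
  rw [← hc2, ← hb2] at e2
  have hA1 : (α - x) * c1 * s1 = x * b1 + α * c1 := by linear_combination x * e1 - c1 * sD1
  have hA2 : (α - x) * c2 * s2 = x * b2 + α * c2 := by linear_combination x * e2 - c2 * sD2
  have hE1 : x * (α - x) * c1 * v1 = (x - 1) * (x * b1 + α * c1) + (α - x) * c1 := by
    linear_combination (α - x) * c1 * sV1 + (x - 1) * hA1
  have hE2 : x * (α - x) * c2 * v2 = (x - 1) * (x * b2 + α * c2) + (α - x) * c2 := by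
    linear_combination (α - x) * c2 * sV2 + (x - 1) * hA2
  have hEE : (x * (α - x) * c1 * v1) * (x * (α - x) * c2 * v2) =
      ((x - 1) * (x * b1 + α * c1) + (α - x) * c1) *
      ((x - 1) * (x * b2 + α * c2) + (α - x) * c2) := by rw [hE1, hE2]
  have hF : (x - 1) * (x * (α - x) ^ 2 * c1 * c2 * s3) =
      ((x - 1) * (x * b1 + α * c1) + (α - x) * c1) *
      ((x - 1) * (x * b2 + α * c2) + (α - x) * c2) - x * (α - x) ^ 2 * c1 * c2 := by
    linear_combination hEE - x * (α - x) ^ 2 * c1 * c2 * sV3 +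
      x ^ 2 * (α - x) ^ 2 * c1 * c2 * hv3
  obtain ⟨F, hFd⟩ : ∃ F : ℂ[X], F = ((X - 1) * (X * P1 + C a * Q1) + (C a - X) * Q1) *
      ((X - 1) * (X * P2 + C a * Q2) + (C a - X) * Q2) - X * (C a - X) ^ 2 * Q1 * Q2 := ⟨_, rfl⟩
  have hF1 : F.IsRoot 1 := by
    rw [IsRoot, hFd]
    simp only [eval_sub, eval_mul, eval_add, eval_X, eval_one, eval_C, eval_pow]
    ring
  obtain ⟨F', hF'⟩ := dvd_iff_isRoot.2 hF1
  have hFc : (F : PowerSeries ℂ) = ((x - 1) * (x * b1 + α * c1) + (α - x) * c1) *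
      ((x - 1) * (x * b2 + α * c2) + (α - x) * c2) - x * (α - x) ^ 2 * c1 * c2 := by
    rw [hFd, hc1, hc2, hb1, hb2, hx, hα]
    simp only [Polynomial.coe_mul, Polynomial.coe_add, Polynomial.coe_sub, Polynomial.coe_X,
      Polynomial.coe_C, Polynomial.coe_one, Polynomial.coe_pow]
  have hF'c : (F : PowerSeries ℂ) = (x - 1) * (F' : PowerSeries ℂ) := by
    rw [hF', hx]
    simp only [Polynomial.coe_mul, Polynomial.coe_sub, Polynomial.coe_X, map_one, Polynomial.coe_one]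
  have hx1 : x - 1 ≠ 0 := by
    intro h0
    have h4 := congrArg (PowerSeries.coeff 0) h0
    rw [hx, map_sub, PowerSeries.coeff_zero_X, PowerSeries.coeff_zero_one, map_zero] at h4
    norm_num at h4
  have h5 : x * (α - x) ^ 2 * c1 * c2 * s3 = (F' : PowerSeries ℂ) := by
    refine mul_left_cancel₀ hx1 ?_
    rw [hF, ← hFc, hF'c]
  have hD3 : (X ^ 2 * ((X - C a) * (Q1 * Q2)) : ℂ[X]) ≠ 0 :=
    mul_ne_zero (pow_ne_zero _ X_ne_zero) (mul_ne_zero (X_sub_C_ne_zero a) (mul_ne_zero q1 q2))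
  refine rat_EP m3 (X ^ 2 * ((X - C a) * (Q1 * Q2))) hD3 _
    (C a * X * (C a - X) * Q1 * Q2 - F') ?_ ?_
  · rw [← hd3]
    simp only [Polynomial.coe_mul, Polynomial.coe_sub, Polynomial.coe_X,
      Polynomial.coe_C, Polynomial.coe_pow]
    rw [← hc1, ← hc2, ← hx, ← hα]
    linear_combination x * (x - α) * c1 * c2 * sD3 - h5
  · intro T hT
    rw [rootMultiplicity_mul hD3, rootMultiplicity_mul (right_ne_zero_of_mul hD3),
      rootMultiplicity_mul (mul_ne_zero q1 q2)]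
    have h6 : (X ^ 2 : ℂ[X]).rootMultiplicity T = 0 := by
      apply rootMultiplicity_eq_zero
      rw [IsRoot, eval_pow, eval_X]
      exact pow_ne_zero _ hT
    have h7 := add_le_add (r1 T hT) (r2 T hT)
    rw [h6, zero_add]
    push_cast
    by_cases h8 : T = a
    · have h9 : (X - C a : ℂ[X]).rootMultiplicity T = 1 := by
        rw [h8, rootMultiplicity_X_sub_C_self]
      rw [h9, h8]
      rw [h8] at h7
      rw [Nat.cast_one, add_comm]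
      exact (add_le_add_left h7 1).trans hp
    · have h9 : (X - C a : ℂ[X]).rootMultiplicity T = 0 := by
        apply rootMultiplicity_eq_zero
        rw [IsRoot, eval_sub, eval_X, eval_C]
        exact sub_ne_zero.2 h8
      rw [h9, Nat.cast_zero, zero_add]
      exact h7.trans (h12 T)

/-! ## Distributions -/

section

variable {p : ℕ} [Fact p.Prime] {Y Y' : Type} [MeasurableSpace Y] [MeasurableSpace Y']
  (ν : Measure Y) (ν' : Measure Y') [IsProbabilityMeasure ν] [IsProbabilityMeasure ν']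
  (φ : Y → ℤ_[p]) (ρ : Y' → ℤ_[p])

theorem lin_prod (hφ : Measurable φ) (hρ : Measurable ρ) {N : ℕ} (h : LIn ν φ N) :
    LIn (ν.prod ν') (fun y : Y × Y' => φ y.1 * ρ y.2) N := by
  intro v hv g hg hB
  obtain ⟨B, hB⟩ := hB
  have h1 : ∀ f : Y × Y' → ℤ_[p], Measurable f →
      ∫ z, g (f z) ∂(ν.prod ν') = ∫ y', ∫ y, g (f (y, y')) ∂ν ∂ν' := by
    intro f hf
    refine integral_prod_symm (fun z => g (f z)) ?_
    exact Integrable.of_bound (hg.comp hf).aestronglyMeasurable B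
      (Filter.Eventually.of_forall fun z => hB _)
  have hm : Measurable fun y : Y × Y' => φ y.1 * ρ y.2 :=
    (hφ.comp measurable_fst).mul (hρ.comp measurable_snd)
  have e1 := h1 (fun y : Y × Y' => v * (φ y.1 * ρ y.2)) (measurable_const.mul hm)
  have e2 := h1 (fun y : Y × Y' => φ y.1 * ρ y.2) hm
  refine (e1.trans ?_).trans e2.symm
  refine integral_congr_ae (Filter.Eventually.of_forall fun y' => ?_)
  have h2 := h v hv (fun z => g (z * ρ y')) (hg.comp (measurable_id.mul measurable_const))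
    ⟨B, fun z => hB _⟩
  refine Eq.trans (integral_congr_ae (Filter.Eventually.of_forall fun y => ?_)) h2
  simp only [mul_assoc]

theorem Uo_zero : Uo ν φ 0 = 1 := by
  unfold Uo
  have : {y | ‖φ y‖ ≤ ((p : ℝ)⁻¹) ^ 0} = Set.univ := by
    ext y
    simp only [pow_zero, Set.mem_ofPred_eq, Set.mem_univ, iff_true]
    exact PadicInt.norm_le_one _
  rw [this, measure_univ, ENNReal.toReal_one, Complex.ofReal_one]

theorem ppos' : (0 : ℝ) < (p : ℝ)⁻¹ := inv_pos.2 (by exact_mod_cast (Fact.out : p.Prime).pos)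

theorem plt' : (p : ℝ)⁻¹ < 1 := inv_lt_one_of_one_lt₀ (by
  exact_mod_cast (Fact.out : p.Prime).one_lt)

omit [MeasurableSpace Y] in
theorem set_eq (k : ℕ) : {y | ‖φ y‖ = ((p : ℝ)⁻¹) ^ k} =
    {y | ‖φ y‖ ≤ ((p : ℝ)⁻¹) ^ k} \ {y | ‖φ y‖ ≤ ((p : ℝ)⁻¹) ^ (k + 1)} := by
  have hp0 : (0 : ℝ) < (p : ℝ)⁻¹ := ppos'
  have hp1 : (p : ℝ)⁻¹ < 1 := plt'
  ext y
  simp only [Set.mem_ofPred_eq, Set.mem_sdiff]
  constructor
  · intro h
    rw [h]
    exact ⟨le_rfl, not_le.2 (pow_lt_pow_right_of_lt_one₀ hp0 hp1 (Nat.lt_succ_self k))⟩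
  · rintro ⟨h1, h2⟩
    have h0 : φ y ≠ 0 := by
      intro h0
      rw [h0, norm_zero] at h2
      exact h2 (pow_pos hp0 _).le
    obtain ⟨j, hj⟩ := Pool.Agent.N138.SU.B1.norm_eq_pow (φ y) h0
    rw [hj] at h1 h2 ⊢
    have h3 : k ≤ j := (pow_le_pow_iff_right_of_lt_one₀ hp0 hp1).1 h1
    have h4 : ¬ k + 1 ≤ j := fun h5 => h2 ((pow_le_pow_iff_right_of_lt_one₀ hp0 hp1).2 h5)
    have h5 : j = k := by omega
    rw [h5]

theorem X_tr (χ : UC p) (hχ : χ.IsTr) (x : ℤ_[p]) (k : ℕ) (hx : ‖x‖ = ((p : ℝ)⁻¹) ^ k) :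
    χ.X (x : ℚ_[p]) = 1 := by
  obtain ⟨t0, h0, rfl⟩ := Pool.Agent.N138.SU.B1.eq_pow_mul x k hx
  rw [PadicInt.coe_mul, PadicInt.coe_pow, PadicInt.coe_natCast, map_mul, map_pow, χ.one, one_pow,
    one_mul]
  exact hχ _ (by rw [← PadicInt.norm_def]; exact h0)

theorem Vx_tr (hφ : Measurable φ) (χ : UC p) (hχ : χ.IsTr) (k : ℕ) :
    Vx ν φ χ k = Uo ν φ k - Uo ν φ (k + 1) := by
  have hms : MeasurableSet {y | ‖φ y‖ = ((p : ℝ)⁻¹) ^ k} := Pool.Agent.N138.SU.VP.meas_set hφ k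
  have hle : ∀ j : ℕ, MeasurableSet {y | ‖φ y‖ ≤ ((p : ℝ)⁻¹) ^ j} := fun j =>
    measurableSet_le (continuous_norm.measurable.comp hφ) measurable_const
  have h1 : Vx ν φ χ k = ∫ y in {y | ‖φ y‖ = ((p : ℝ)⁻¹) ^ k}, (1 : ℂ) ∂ν := by
    unfold Vx
    exact setIntegral_congr_fun hms fun y hy => X_tr χ hχ (φ y) k hy
  have hsub : {y | ‖φ y‖ ≤ ((p : ℝ)⁻¹) ^ (k + 1)} ⊆ {y | ‖φ y‖ ≤ ((p : ℝ)⁻¹) ^ k} := by
    intro y hy
    exact le_trans hy (pow_le_pow_of_le_one ppos'.le plt'.le (Nat.le_succ k))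
  rw [h1, setIntegral_const, set_eq, measureReal_sdiff hsub (hle (k + 1))]
  unfold Uo
  simp only [Complex.real_smul, mul_one, Complex.ofReal_sub]
  rfl

/-- the trivial character -/
theorem exists_triv (p : ℕ) [Fact p.Prime] : ∃ χ : UC p, χ.IsTr := by
  classical
  refine ⟨⟨⟨⟨fun x => if x = 0 then 0 else 1, by simp⟩, by simp, fun x y => ?_⟩, ?_, 1, le_rfl,
    fun x hx => ?_⟩, fun u hu => ?_⟩
  · by_cases hx : x = 0 <;> by_cases hy : y = 0 <;> simp [hx, hy]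
  · have : (p : ℚ_[p]) ≠ 0 := by exact_mod_cast (Fact.out : p.Prime).ne_zero
    simp [this]
  · have : x ≠ 0 := by
      rintro rfl
      rw [zero_sub, norm_neg, norm_one, pow_one] at hx
      have hp1 : (p : ℝ)⁻¹ < 1 := plt'
      linarith
    simp [this]
  · have : u ≠ 0 := by
      rintro rfl
      rw [norm_zero] at hu
      exact zero_ne_one hu
    simp [this]

/-- from the exponential sums to the volumes -/
theorem D_mem (hφ : Measurable φ) (m : ℂ → ℕ∞)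
    (h : ∀ χ : UC p, (fun e : ℕ => Eh ν φ χ e) ∈ EP m) :
    (fun e : ℕ => (p : ℂ) * Uo ν φ (e + 1) - Uo ν φ e) ∈ EP m := by
  obtain ⟨χ, hχ⟩ := exists_triv p
  have h1 := Submodule.smul_mem _ (p : ℂ) (ep_shift m 1 _ (h χ))
  refine (congrArg (· ∈ EP m) (funext fun e => ?_)).mp h1
  rw [Pi.smul_apply, smul_eq_mul]
  exact Pool.Agent.N138.SU.B1T.t p ν φ hφ χ hχ e

/-- from the exponential sums to the integrals of the characters -/
theorem Vx_mem' (hφ : Measurable φ) (m : ℂ → ℕ∞) (χ : UC p) (hχ : ¬ χ.IsTr)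
    (h : (fun e : ℕ => Eh ν φ χ e) ∈ EP m) : (fun k : ℕ => Vx ν φ χ k) ∈ EP m := by
  obtain ⟨c, G, hG, h1⟩ := Pool.Agent.N138.SU.G.t p χ hχ
  have h2 := Submodule.smul_mem _ G⁻¹ (ep_shift m c _ h)
  refine (congrArg (· ∈ EP m) (funext fun e => ?_)).mp h2
  rw [Pi.smul_apply, smul_eq_mul]
  rw [h1 ν φ hφ e, inv_mul_cancel_left₀ hG]

end

theorem t : StL4 := by
  intro p _ Y Y' _ _ ν ν' _ _ φ ρ hφ hρ m1 m2 m3 _ h12 hp h1 h2
  obtain ⟨⟨N, hN⟩, hE1⟩ := h1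
  obtain ⟨-, hE2⟩ := h2
  have hm : Measurable fun y : Y × Y' => φ y.1 * ρ y.2 :=
    (hφ.comp measurable_fst).mul (hρ.comp measurable_snd)
  refine ⟨⟨N, lin_prod ν ν' φ ρ hφ hρ hN⟩, ?_⟩
  refine Pool.Agent.N138.SU.B1.t Pool.Agent.N138.SU.B1T.t p (ν.prod ν') (fun y : Y × Y' => φ y.1 * ρ y.2) hm m3 ?_ ?_
  · obtain ⟨χ, hχ⟩ := exists_triv p
    refine alg (p : ℂ) (fun e => Uo ν φ e) (fun e => Uo ν' ρ e)
      (fun e => Uo (ν.prod ν') (fun y : Y × Y' => φ y.1 * ρ y.2) e) (Uo_zero ν φ) (Uo_zero ν' ρ)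
      (Uo_zero _ _) (fun k => ?_) m1 m2 m3 h12 hp (D_mem ν φ hφ m1 hE1) (D_mem ν' ρ hρ m2 hE2)
    have h3 := Pool.Agent.N138.SU.VP.t p ν ν' φ ρ hφ hρ χ k
    rw [Vx_tr (ν.prod ν') _ hm χ hχ] at h3
    refine h3.trans (Finset.sum_congr rfl fun i _ => ?_)
    rw [Vx_tr ν φ hφ χ hχ, Vx_tr ν' ρ hρ χ hχ]
  · intro χ hχ
    have h3 := Pool.Agent.N138.SU.EP.t m1 m2 m3 _ _ (fun T _ => h12 T) (Vx_mem' ν φ hφ m1 χ hχ (hE1 χ))
      (Vx_mem' ν' ρ hρ m2 χ hχ (hE2 χ))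
    refine (congrArg (· ∈ EP m3) (funext fun k => ?_)).mp h3
    exact (Pool.Agent.N138.SU.VP.t p ν ν' φ ρ hφ hρ χ k).symm

end Pool.Agent.N138.RF.L4
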