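import Pool.Agent.N138.RF.L1

set_option autoImplicit false
set_option linter.unusedSectionVars false

/-! # Job L5: good distributions, gluing (helper769) -/

namespace Pool.Agent.N138.RF.L5

open MvPolynomial MeasureTheory
open Pool.Agent.W427.SMC (msZ bsZ mu)
open Pool.Agent.Y230.PT (msK bsK inc)
open Pool.Agent.Y230.PS (EP)
open Pool.Agent.N138.SU Pool.Agent.N138.SV
open Pool.Agent.N138.RF.L1 (LIn_mono)

attribute [local instance] msK bsK msZ bsZ

/-- Job L5 -/
theorem t : StL5 := by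
  intro p _ Y _ ν _ φ hφ κ Z _ μ _ S w ψ hψ hdec m hG
  classical
  constructor
  · have hN : ∀ a ∈ S, ∃ N, LIn μ (ψ a) N := fun a ha => (hG a ha).1
    choose! Nf hNf using hN
    refine ⟨S.sup Nf, ?_⟩
    intro v hv h hh hB
    obtain ⟨B, hB⟩ := hB
    have h1 := hdec (fun z => h (v * z)) (hh.comp (measurable_const.mul measurable_id))
      ⟨B, fun z => hB _⟩
    rw [h1, hdec h hh ⟨B, hB⟩]
    refine Finset.sum_congr rfl fun a ha => ?_
    congr 1
    exact LIn_mono (hNf a ha) (Finset.le_sup ha) v hv h hh ⟨B, hB⟩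
  · intro χ
    have h1 : ∀ (e : ℕ) (u : ℤ_[p]), Es ν φ e u = ∑ a ∈ S, w a * Es μ (ψ a) e u := by
      intro e u
      exact hdec (fun z => psi p e (u * z))
        ((Pool.Agent.N138.SU.B3.psi_meas e).comp (measurable_const.mul measurable_id))
        ⟨1, fun z => (Pool.Agent.N138.SU.B3.psi_norm e _).le⟩
    have h2 : (fun e : ℕ => Eh ν φ χ e) =
        ∑ a ∈ S, w a • (fun e : ℕ => Eh μ (ψ a) χ e) := by
      funext e
      have h3 := hat_sum S w (fun a e u => Es μ (ψ a) e u) e
        (fun a ha => Es_meas μ (ψ a) (hψ a ha) e) (fun a _ u => Es_norm μ (ψ a) e u) χ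
      have h4 : Eh ν φ χ e = hat (fun e u => ∑ a ∈ S, w a * Es μ (ψ a) e u) χ e := by
        unfold Eh hat
        simp only [h1]
      rw [h4, h3, Finset.sum_apply]
      rfl
    rw [h2]
    exact Submodule.sum_mem _ fun a ha => Submodule.smul_mem _ _ ((hG a ha).2 χ)

end Pool.Agent.N138.RF.L5
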