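import Pool.Agent.N138.RF.Stm
import Pool.Agent.N82.RF_L6c

set_option autoImplicit false

/-! # Job L6: the distribution of `W(φ)` (helper82) -/

namespace Pool.Agent.N138.RF.L6

theorem t : StL6 := by
  intro p _ k U hk hU
  obtain ⟨r, hr⟩ := Pool.Agent.N82.RF.core p k U hk hU
  exact ⟨r, fun ν _ φ h1 h2 h3 => hr ν φ h1 h2 h3⟩

end Pool.Agent.N138.RF.L6
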