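import Pool.Agent.Y230.PS.Had

/-!
# Job L7, algebra: spread sequences (helper521)
-/

set_option autoImplicit false

namespace Pool.Agent.N138.RF.L7

open Polynomial
open Pool.Agent.Y230.PS

/-- the spread sequence -/
def sp (k : ℕ) (c : ℕ → ℂ) : ℕ → ℂ := fun n => if k ∣ n then c (n / k) else 0

theorem ser_sp {k : ℕ} (hk : k ≠ 0) (c : ℕ → ℂ) :
    ser (sp k c) = PowerSeries.expand k hk (ser c) := by
  ext n
  rw [PowerSeries.coeff_expand, coeff_ser, coeff_ser]
  rfl

theorem coe_expand {k : ℕ} (hk : k ≠ 0) (D : ℂ[X]) :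
    ((Polynomial.expand ℂ k D : ℂ[X]) : PowerSeries ℂ) =
      PowerSeries.expand k hk (D : PowerSeries ℂ) := by
  ext n
  rw [PowerSeries.coeff_expand, Polynomial.coeff_coe, Polynomial.coeff_coe,
    Polynomial.coeff_expand (Nat.pos_of_ne_zero hk)]

theorem rm_expand {k : ℕ} (hk : k ≠ 0) (D : ℂ[X]) (hD : D ≠ 0) (T : ℂ) (hT : T ≠ 0) :
    rootMultiplicity T (Polynomial.expand ℂ k D) ≤ rootMultiplicity (T ^ k) D := by
  obtain ⟨D1, h1, hnd⟩ := exists_eq_pow_rootMultiplicity_mul_and_not_dvd D hD (T ^ k)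
  set μ := rootMultiplicity (T ^ k) D with hμ
  have hD1 : D1 ≠ 0 := by
    rintro rfl
    exact hnd (dvd_zero _)
  have e1 : Polynomial.expand ℂ k D =
      (X ^ k - C (T ^ k)) ^ μ * Polynomial.expand ℂ k D1 := by
    conv_lhs => rw [h1]
    rw [map_mul, map_pow, map_sub, Polynomial.expand_X, Polynomial.expand_C]
  have hA : (X ^ k - C (T ^ k) : ℂ[X]) ≠ 0 := X_pow_sub_C_ne_zero (Nat.pos_of_ne_zero hk) _
  have hB : Polynomial.expand ℂ k D1 ≠ 0 := (Polynomial.expand_ne_zero (Nat.pos_of_ne_zero hk)).2 hD1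
  have hAB : (X ^ k - C (T ^ k) : ℂ[X]) ^ μ * Polynomial.expand ℂ k D1 ≠ 0 :=
    mul_ne_zero (pow_ne_zero _ hA) hB
  have h2 : rootMultiplicity T (Polynomial.expand ℂ k D1) = 0 := by
    rw [rootMultiplicity_eq_zero]
    rw [IsRoot, Polynomial.expand_eval]
    intro h3
    exact hnd (dvd_iff_isRoot.2 h3)
  have h3 : rootMultiplicity T (X ^ k - C (T ^ k) : ℂ[X]) ≤ 1 :=
    rootMultiplicity_le_one_of_separable (separable_X_pow_sub_C (T ^ k)
      (by exact_mod_cast hk) (pow_ne_zero k hT)) T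
  rw [e1, rootMultiplicity_mul hAB, h2, add_zero, ← count_roots, roots_pow, Multiset.count_nsmul,
    count_roots]
  calc μ * rootMultiplicity T (X ^ k - C (T ^ k) : ℂ[X]) ≤ μ * 1 := Nat.mul_le_mul_left _ h3
    _ = μ := Nat.mul_one _

theorem EP_sp {k : ℕ} (hk : k ≠ 0) (m m' : ℂ → ℕ∞) (h : ∀ T, T ≠ 0 → m (T ^ k) ≤ m' T)
    (c : ℕ → ℂ) (hc : c ∈ EP m) : sp k c ∈ EP m' := by
  obtain ⟨D, P, hD, hP, hm⟩ := EP_rat m c hc
  refine rat_EP m' (Polynomial.expand ℂ k D)
    ((Polynomial.expand_ne_zero (Nat.pos_of_ne_zero hk)).2 hD) _ (Polynomial.expand ℂ k P) ?_ ?_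
  · rw [ser_sp hk, coe_expand hk, coe_expand hk, ← map_mul, hP]
  · intro T hT
    have h1 : ((rootMultiplicity T (Polynomial.expand ℂ k D) : ℕ) : ℕ∞) ≤
        ((rootMultiplicity (T ^ k) D : ℕ) : ℕ∞) := by exact_mod_cast rm_expand hk D hD T hT
    exact h1.trans ((hm _ (pow_ne_zero k hT)).trans (h T hT))

theorem EP_mono (m m' : ℂ → ℕ∞) (h : ∀ T, T ≠ 0 → m T ≤ m' T) (c : ℕ → ℂ) (hc : c ∈ EP m) :
    c ∈ EP m' := by
  refine Submodule.span_mono ?_ hc
  rintro d ⟨T, hT, n, hn, hd⟩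
  exact ⟨T, hT, n, hn.trans (h T hT), hd⟩

theorem EP_inv (m : ℂ → ℕ∞) (T0 : ℂ) (c d : ℕ → ℂ) (hd : d ∈ EP m)
    (h : ∀ e, d e = T0 * c (e + 1) - c e) :
    c ∈ EP (fun T => m T + if T = T0 then 1 else 0) := by
  obtain ⟨D, P, hD, hP, hm⟩ := EP_rat m d hd
  refine rat_EP _ (D * (X - C T0)) (mul_ne_zero hD (X_sub_C_ne_zero T0)) c
    (-(X * P + D * C (T0 * c 0))) ?_ ?_
  · have h1 : (PowerSeries.C T0 - PowerSeries.X) * ser c =
        PowerSeries.X * ser d + PowerSeries.C (T0 * c 0) := by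
      ext n
      rw [sub_mul, map_sub, map_add, PowerSeries.coeff_C_mul, coeff_ser]
      rcases n with _ | n
      · rw [PowerSeries.coeff_zero_X_mul, PowerSeries.coeff_zero_X_mul, PowerSeries.coeff_zero_C]
        ring
      · rw [PowerSeries.coeff_succ_X_mul, PowerSeries.coeff_succ_X_mul, coeff_ser, coeff_ser,
          PowerSeries.coeff_C, if_neg (Nat.succ_ne_zero n), h n]
        ring
    have h2 : (((D * (X - C T0)) : ℂ[X]) : PowerSeries ℂ) * ser c =
        -((D : PowerSeries ℂ) * ((PowerSeries.C T0 - PowerSeries.X) * ser c)) := by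
      rw [Polynomial.coe_mul, coe_XC]
      ring
    rw [h2, h1, Polynomial.coe_neg, Polynomial.coe_add, Polynomial.coe_mul, Polynomial.coe_mul,
      Polynomial.coe_X, Polynomial.coe_C, ← hP]
    ring
  · intro T hT
    rw [rootMultiplicity_mul (mul_ne_zero hD (X_sub_C_ne_zero T0)), Nat.cast_add]
    refine add_le_add (hm T hT) ?_
    rw [rootMultiplicity_X_sub_C]
    split_ifs <;> simp

theorem EP_sft' (m : ℂ → ℕ∞) (c : ℕ → ℂ) (hc : c ∈ EP m) : sft c ∈ EP m := by
  have h : EP m ≤ (EP m).comap sft := by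
    refine Submodule.span_le.2 ?_
    rintro d ⟨T, hT, n, hn, hd⟩
    exact Submodule.subset_span ⟨T, hT, n, hn, sft_mem _ _ _ hd⟩
  exact h hc

theorem EP_shift' (m : ℂ → ℕ∞) (r : ℕ) : ∀ c : ℕ → ℂ, c ∈ EP m → (fun e => c (e + r)) ∈ EP m := by
  induction r with
  | zero => exact fun c h => h
  | succ r ih =>
    intro c h
    have h1 := ih _ (EP_sft' m c h)
    refine (congrArg (· ∈ EP m) (funext fun e => ?_)).mp h1
    rw [sft_apply]
    congr 1

theorem EP_ceil {k : ℕ} (hk : k ≠ 0) (U : ℕ → ℂ) (m' : ℂ → ℕ∞) (h : sp k U ∈ EP m') :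
    (fun a => U ((a + k - 1) / k)) ∈ EP m' := by
  have hk0 : 0 < k := Nat.pos_of_ne_zero hk
  have h1 : (fun a => U ((a + k - 1) / k)) = ∑ r ∈ Finset.range k, fun e => sp k U (e + r) := by
    funext a
    rw [Finset.sum_apply]
    have h2 := Nat.div_add_mod (a + k - 1) k
    have h3 := Nat.mod_lt (a + k - 1) hk0
    set q := (a + k - 1) / k with hq
    set s := (a + k - 1) % k with hs
    have hkq : a ≤ k * q := by omega
    rw [Finset.sum_eq_single (k * q - a)]
    · unfold sp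
      have e1 : a + (k * q - a) = k * q := by omega
      rw [e1, if_pos (dvd_mul_right _ _), Nat.mul_div_cancel_left _ hk0]
    · intro r hr hne
      rw [Finset.mem_range] at hr
      unfold sp
      rw [if_neg]
      rintro ⟨j, hj⟩
      rcases Nat.lt_trichotomy j q with h4 | h4 | h4
      · have h5 : k * (j + 1) ≤ k * q := Nat.mul_le_mul_left k h4
        rw [Nat.mul_add, Nat.mul_one] at h5
        omega
      · subst h4
        omega
      · have h5 : k * (q + 1) ≤ k * j := Nat.mul_le_mul_left k h4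
        rw [Nat.mul_add, Nat.mul_one] at h5
        omega
    · intro hcon
      exact absurd (Finset.mem_range.2 (by omega)) hcon
  rw [h1]
  exact Submodule.sum_mem _ fun r _ => EP_shift' m' r _ h

end Pool.Agent.N138.RF.L7
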