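import Pool.Agent.N138.RF.Stm
import Pool.Agent.N138.RF.L7A
import Pool.Agent.N138.SU.Cls1
import Pool.Agent.N138.SU.G

/-!
# Job L7: the exponential sums of `W(φ)`, `W = X ^ k U` (helper521)
-/

set_option autoImplicit false

namespace Pool.Agent.N138.RF.L7

open MeasureTheory
open Pool.Agent.W427.SMC (msZ bsZ mu)
open Pool.Agent.Y230.PS (EP ser sft)
open Pool.Agent.N138.SU
open Pool.Agent.N138.SU.B1 (norm_eq_pow eq_pow_mul)
open Pool.Agent.N316.SU (ppos plt norm_p norm_le_iff)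

attribute [local instance] msZ bsZ

variable {p : ℕ} [Fact p.Prime]

/-- powers of characters -/
noncomputable def pw (χ : UC p) (k : ℕ) (hk : k ≠ 0) : UC p where
  X :=
    { toFun := fun x => χ.X x ^ k
      map_zero' := by rw [map_zero, zero_pow hk]
      map_one' := by rw [map_one, one_pow]
      map_mul' := fun x y => by rw [map_mul, mul_pow] }
  one := by
    change χ.X (p : ℚ_[p]) ^ k = 1
    rw [χ.one, one_pow]
  c := χ.c
  hc := χ.hc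
  tr := fun x hx => by
    change χ.X x ^ k = 1
    rw [χ.tr x hx, one_pow]

theorem pw_X (χ : UC p) (k : ℕ) (hk : k ≠ 0) (x : ℚ_[p]) : (pw χ k hk).X x = χ.X x ^ k := rfl

theorem pinv_le {a b : ℕ} : ((p : ℝ)⁻¹) ^ a ≤ ((p : ℝ)⁻¹) ^ b ↔ b ≤ a :=
  pow_le_pow_iff_right_of_lt_one₀ ppos plt

theorem pinv_inj {a b : ℕ} : ((p : ℝ)⁻¹) ^ a = ((p : ℝ)⁻¹) ^ b ↔ a = b :=
  ⟨fun h => le_antisymm (pinv_le.1 h.ge) (pinv_le.1 h.le), fun h => by rw [h]⟩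

theorem U_near (U : Polynomial ℤ_[p]) (z : ℤ_[p]) : ‖U.eval z - U.eval 0‖ ≤ ‖z‖ := by
  obtain ⟨q, hq⟩ := Polynomial.sub_dvd_eval_sub z 0 U
  rw [hq, norm_mul, sub_zero]
  exact mul_le_of_le_one_right (norm_nonneg _) (PadicInt.norm_le_one _)

theorem U_norm (U : Polynomial ℤ_[p]) (v0 : ℕ) (h0 : ‖U.eval 0‖ = ((p : ℝ)⁻¹) ^ v0) (z : ℤ_[p])
    (hz : ‖z‖ ≤ ((p : ℝ)⁻¹) ^ (v0 + 1)) : ‖U.eval z‖ = ((p : ℝ)⁻¹) ^ v0 := by
  have h1 := U_near U z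
  have h2 : ‖U.eval z + -U.eval 0‖ < ‖-U.eval 0‖ := by
    rw [norm_neg, ← sub_eq_add_neg, h0]
    exact (h1.trans hz).trans_lt (pow_lt_pow_right_of_lt_one₀ ppos plt (Nat.lt_succ_self _))
  rw [PadicInt.norm_eq_of_norm_add_lt_right h2, norm_neg, h0]

theorem W_norm (U : Polynomial ℤ_[p]) (v0 : ℕ) (h0 : ‖U.eval 0‖ = ((p : ℝ)⁻¹) ^ v0) (k : ℕ)
    (z : ℤ_[p]) (hz : ‖z‖ ≤ ((p : ℝ)⁻¹) ^ (v0 + 1)) :
    ‖z ^ k * U.eval z‖ = ‖z‖ ^ k * ((p : ℝ)⁻¹) ^ v0 := by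
  rw [norm_mul, norm_pow, U_norm U v0 h0 z hz]

theorem W_le (U : Polynomial ℤ_[p]) (v0 : ℕ) (h0 : ‖U.eval 0‖ = ((p : ℝ)⁻¹) ^ v0) (k : ℕ)
    (hk : k ≠ 0) (z : ℤ_[p]) (hz : ‖z‖ ≤ ((p : ℝ)⁻¹) ^ (v0 + 1)) (a : ℕ) :
    ‖z ^ k * U.eval z‖ ≤ ((p : ℝ)⁻¹) ^ (a + v0) ↔ ‖z‖ ≤ ((p : ℝ)⁻¹) ^ ((a + k - 1) / k) := by
  have hk0 : 0 < k := Nat.pos_of_ne_zero hk
  rw [W_norm U v0 h0 k z hz, pow_add, mul_le_mul_iff_left₀ (pow_pos ppos v0)]
  rcases eq_or_ne z 0 with h1 | h1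
  · rw [h1, norm_zero, zero_pow hk]
    exact ⟨fun _ => (pow_pos ppos _).le, fun _ => (pow_pos ppos _).le⟩
  · obtain ⟨n, hn⟩ := norm_eq_pow z h1
    rw [hn, ← pow_mul, pinv_le, pinv_le]
    have h2 := Nat.div_add_mod (a + k - 1) k
    have h3 := Nat.mod_lt (a + k - 1) hk0
    set q := (a + k - 1) / k with hq
    constructor
    · intro h4
      by_contra h5
      push Not at h5
      have h6 : k * (n + 1) ≤ k * q := Nat.mul_le_mul_left k h5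
      rw [Nat.mul_add, Nat.mul_one, Nat.mul_comm k n] at h6
      omega
    · intro h4
      have h6 : k * q ≤ k * n := Nat.mul_le_mul_left k h4
      rw [Nat.mul_comm k n] at h6
      omega

theorem W_eq (U : Polynomial ℤ_[p]) (v0 : ℕ) (h0 : ‖U.eval 0‖ = ((p : ℝ)⁻¹) ^ v0) (k : ℕ)
    (hk : k ≠ 0) (z : ℤ_[p]) (hz : ‖z‖ ≤ ((p : ℝ)⁻¹) ^ (v0 + 1)) (n : ℕ) :
    ‖z ^ k * U.eval z‖ = ((p : ℝ)⁻¹) ^ (n + v0) ↔ k ∣ n ∧ ‖z‖ = ((p : ℝ)⁻¹) ^ (n / k) := by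
  have hk0 : 0 < k := Nat.pos_of_ne_zero hk
  rw [W_norm U v0 h0 k z hz, pow_add, mul_left_inj' (pow_pos ppos v0).ne']
  rcases eq_or_ne z 0 with h1 | h1
  · rw [h1, norm_zero, zero_pow hk]
    constructor
    · intro h
      exact absurd h (pow_pos ppos n).ne
    · rintro ⟨-, h⟩
      exact absurd h (pow_pos ppos _).ne
  · obtain ⟨j, hj⟩ := norm_eq_pow z h1
    rw [hj, ← pow_mul, pinv_inj, pinv_inj]
    constructor
    · rintro rfl
      exact ⟨dvd_mul_left _ _, (Nat.mul_div_cancel _ hk0).symm⟩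
    · rintro ⟨h, rfl⟩
      exact Nat.div_mul_cancel h

theorem chi_W (χ : UC p) (U : Polynomial ℤ_[p]) (v0 : ℕ) (h0 : ‖U.eval 0‖ = ((p : ℝ)⁻¹) ^ v0)
    (k : ℕ) (z : ℤ_[p]) (j : ℕ) (hj : χ.c + v0 ≤ j) (hz : ‖z‖ = ((p : ℝ)⁻¹) ^ j) :
    χ.X ((z ^ k * U.eval z : ℤ_[p]) : ℚ_[p]) =
      χ.X ((U.eval 0 : ℤ_[p]) : ℚ_[p]) * χ.X (z : ℚ_[p]) ^ k := by
  have hU0 : ((U.eval 0 : ℤ_[p]) : ℚ_[p]) ≠ 0 := by
    intro h
    have h1 : ‖((U.eval 0 : ℤ_[p]) : ℚ_[p])‖ = 0 := by rw [h, norm_zero]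
    rw [PadicInt.padic_norm_e_of_padicInt, h0] at h1
    exact (pow_pos ppos v0).ne' h1
  have hw : χ.X (((U.eval z : ℤ_[p]) : ℚ_[p]) / ((U.eval 0 : ℤ_[p]) : ℚ_[p])) = 1 := by
    apply χ.tr
    have h1 : ((U.eval z : ℤ_[p]) : ℚ_[p]) / ((U.eval 0 : ℤ_[p]) : ℚ_[p]) - 1 =
        ((U.eval z - U.eval 0 : ℤ_[p]) : ℚ_[p]) / ((U.eval 0 : ℤ_[p]) : ℚ_[p]) := by
      rw [PadicInt.coe_sub, sub_div, div_self hU0]
    rw [h1, norm_div, PadicInt.padic_norm_e_of_padicInt, PadicInt.padic_norm_e_of_padicInt, h0,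
      div_le_iff₀ (pow_pos ppos v0), ← pow_add]
    refine (U_near U z).trans ?_
    rw [hz, pinv_le]
    exact hj
  have h2 : ((U.eval z : ℤ_[p]) : ℚ_[p]) = ((U.eval 0 : ℤ_[p]) : ℚ_[p]) *
      (((U.eval z : ℤ_[p]) : ℚ_[p]) / ((U.eval 0 : ℤ_[p]) : ℚ_[p])) := by
    rw [mul_div_cancel₀ _ hU0]
  rw [PadicInt.coe_mul, PadicInt.coe_pow, map_mul, map_pow, h2, map_mul, hw, mul_one, mul_comm]

section

variable {Y : Type} [MeasurableSpace Y] (ν : Measure Y) [IsProbabilityMeasure ν] (φ : Y → ℤ_[p])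

theorem meas_le (hφ : Measurable φ) (r : ℝ) : MeasurableSet {y | ‖φ y‖ ≤ r} :=
  (continuous_norm.measurable.comp hφ) measurableSet_Iic

theorem meas_eq (hφ : Measurable φ) (r : ℝ) : MeasurableSet {y | ‖φ y‖ = r} :=
  (continuous_norm.measurable.comp hφ) (measurableSet_singleton r)

theorem Vx_tr (hφ : Measurable φ) (χ : UC p) (hχ : χ.IsTr) (j : ℕ) :
    Vx ν φ χ j = Uo ν φ j - Uo ν φ (j + 1) := by
  have h1 : Vx ν φ χ j = ∫ y in {y | ‖φ y‖ = ((p : ℝ)⁻¹) ^ j}, (1 : ℂ) ∂ν := by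
    unfold Vx
    refine setIntegral_congr_fun (meas_eq φ hφ _) fun y hy => ?_
    obtain ⟨t0, ht0, ht⟩ := eq_pow_mul (φ y) j hy
    rw [ht, PadicInt.coe_mul, PadicInt.coe_pow, map_mul, map_pow, PadicInt.coe_natCast, χ.one,
      one_pow, one_mul]
    exact hχ _ (by rw [PadicInt.padic_norm_e_of_padicInt]; exact ht0)
  have h2 : {y | ‖φ y‖ ≤ ((p : ℝ)⁻¹) ^ j} =
      {y | ‖φ y‖ = ((p : ℝ)⁻¹) ^ j} ∪ {y | ‖φ y‖ ≤ ((p : ℝ)⁻¹) ^ (j + 1)} := by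
    ext y
    simp only [Set.mem_union, Set.mem_ofPred_eq]
    rcases eq_or_ne (φ y) 0 with h3 | h3
    · rw [h3, norm_zero]
      exact ⟨fun _ => Or.inr (pow_pos ppos _).le, fun _ => (pow_pos ppos _).le⟩
    · obtain ⟨n, hn⟩ := norm_eq_pow (φ y) h3
      rw [hn, pinv_le, pinv_inj, pinv_le]
      omega
  have h3 : Disjoint {y | ‖φ y‖ = ((p : ℝ)⁻¹) ^ j} {y | ‖φ y‖ ≤ ((p : ℝ)⁻¹) ^ (j + 1)} := by
    rw [Set.disjoint_left]
    intro y hy hy2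
    simp only [Set.mem_ofPred_eq] at hy hy2
    rw [hy, pinv_le] at hy2
    omega
  have h4 : ν.real {y | ‖φ y‖ ≤ ((p : ℝ)⁻¹) ^ j} = ν.real {y | ‖φ y‖ = ((p : ℝ)⁻¹) ^ j} +
      ν.real {y | ‖φ y‖ ≤ ((p : ℝ)⁻¹) ^ (j + 1)} := by
    rw [h2]
    exact measureReal_union h3 (meas_le φ hφ _)
  rw [h1, setIntegral_const]
  have h5 : ∀ e, Uo ν φ e = ((ν.real {y | ‖φ y‖ ≤ ((p : ℝ)⁻¹) ^ e} : ℝ) : ℂ) := fun e => rfl
  rw [h5, h5, h4, Complex.ofReal_add, add_sub_cancel_right, Complex.real_smul, mul_one]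

end

/-- **Job L7.** -/
theorem t : StL7 := by
  intro p _ k U hk hU
  obtain ⟨v0, h0⟩ := norm_eq_pow (U.eval 0) hU
  refine ⟨v0 + 1, ?_⟩
  intro Y _ ν _ φ hφ hr m1 m3 hm0 hm1 hm2 hE
  have hk0 : k ≠ 0 := by omega
  set W : Y → ℤ_[p] := fun y => φ y ^ k * U.eval (φ y) with hW
  have hWm : Measurable W :=
    ((continuous_pow k).mul U.continuous).measurable.comp hφ
  -- the volumes
  have hD := D_of_Eh ν φ hφ m1 hE
  set mU : ℂ → ℕ∞ := fun T => m1 T + if T = (p : ℂ) then 1 else 0 with hmU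
  have hUo : (fun e => Uo ν φ e) ∈ EP mU :=
    EP_inv m1 (p : ℂ) (fun e => Uo ν φ e) _ hD fun e => rfl
  have hmm : 2 ≤ k → ∀ T : ℂ, T ≠ 0 → mU (T ^ k) ≤ m3 T := by
    intro h2 T _
    rw [hmU]
    simp only
    split_ifs with h3
    · rw [h3]
      exact hm2 h2 T h3
    · rw [add_zero]
      exact hm1 T
  have hUW : ∀ a, Uo ν W (a + v0) = Uo ν φ ((a + k - 1) / k) := by
    intro a
    unfold Uo
    congr 3
    ext y
    exact W_le U v0 h0 k hk0 (φ y) (hr y) a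
  -- the integrals of the characters
  have hV : ∀ χ : UC p, ¬ χ.IsTr → (fun j : ℕ => Vx ν W χ j) ∈ EP m3 := by
    intro χ hχ
    set j0 := χ.c + v0 with hj0
    set V : ℕ → ℂ := fun j => Vx ν φ (pw χ k hk0) j with hVdef
    have hspV : sp k V ∈ EP m3 := by
      by_cases htr : (pw χ k hk0).IsTr
      · have hk2 : 2 ≤ k := by
          by_contra hcon
          have hk1 : k = 1 := by omega
          apply hχ
          intro u hu
          have h3 := htr u hu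
          rw [pw_X, hk1, pow_one] at h3
          exact h3
        refine EP_sp hk0 mU m3 (hmm hk2) V ?_
        have h3 : V = (fun e => Uo ν φ e) - sft (fun e => Uo ν φ e) := by
          funext j
          exact Vx_tr ν φ hφ _ htr j
        rw [h3]
        exact Submodule.sub_mem _ hUo (EP_sft' _ _ hUo)
      · refine EP_sp hk0 m1 m3 (fun T _ => hm1 T) V ?_
        obtain ⟨c, G, hG, hGe⟩ := G.t p (pw χ k hk0) htr
        have h3 := Submodule.smul_mem _ G⁻¹ (EP_shift' m1 c _ (hE (pw χ k hk0)))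
        refine (congrArg (· ∈ EP m1) (funext fun j => ?_)).mp h3
        rw [Pi.smul_apply, smul_eq_mul, hGe ν φ hφ j, inv_mul_cancel_left₀ hG]
    have hval : ∀ n, k * j0 ≤ n → Vx ν W χ (n + v0) =
        χ.X ((U.eval 0 : ℤ_[p]) : ℚ_[p]) * sp k V n := by
      intro n hn
      unfold sp
      split_ifs with hd
      · have hset : {y | ‖W y‖ = ((p : ℝ)⁻¹) ^ (n + v0)} =
            {y | ‖φ y‖ = ((p : ℝ)⁻¹) ^ (n / k)} := by
          ext y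
          exact (W_eq U v0 h0 k hk0 (φ y) (hr y) n).trans (and_iff_right hd)
        rw [hVdef]
        simp only
        unfold Vx
        rw [hset, ← integral_const_mul]
        refine setIntegral_congr_fun (meas_eq φ hφ _) fun y hy => ?_
        have hjn : j0 ≤ n / k := (Nat.le_div_iff_mul_le (by omega)).2 (by
          rw [Nat.mul_comm]
          exact hn)
        exact chi_W χ U v0 h0 k (φ y) (n / k) hjn hy
      · have hset : {y | ‖W y‖ = ((p : ℝ)⁻¹) ^ (n + v0)} = ∅ := by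
          ext y
          simp only [Set.mem_empty_iff_false, iff_false, Set.mem_ofPred_eq]
          intro h3
          exact hd ((W_eq U v0 h0 k hk0 (φ y) (hr y) n).1 h3).1
        unfold Vx
        rw [hset, Measure.restrict_empty, integral_zero_measure, mul_zero]
    refine B1.EP_of_shift m3 (k * j0 + v0) _ ?_
    have h3 := Submodule.smul_mem _ (χ.X ((U.eval 0 : ℤ_[p]) : ℚ_[p]))
      (EP_shift' m3 (k * j0) _ hspV)
    refine (congrArg (· ∈ EP m3) (funext fun e => ?_)).mp h3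
    rw [Pi.smul_apply, smul_eq_mul, ← Nat.add_assoc, hval _ (Nat.le_add_left _ _)]
  refine stB1 p ν W hWm m3 ?_ hV
  by_cases hk1 : k = 1
  · refine B1.EP_of_shift m3 v0 _ ?_
    have h3 := EP_mono m1 m3 (fun T _ => by
      have := hm1 T
      rwa [hk1, pow_one] at this) _ hD
    refine (congrArg (· ∈ EP m3) (funext fun e => ?_)).mp h3
    have e1 : e + v0 + 1 = (e + 1) + v0 := by omega
    rw [e1, hUW, hUW, hk1, Nat.div_one, Nat.div_one, Nat.add_sub_cancel, Nat.add_sub_cancel]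
  · have hk2 : 2 ≤ k := by omega
    have h3 : (fun e => Uo ν W e) ∈ EP m3 := by
      refine B1.EP_of_shift m3 v0 _ ?_
      refine (congrArg (· ∈ EP m3) (funext fun e => ?_)).mp
        (EP_ceil hk0 _ m3 (EP_sp hk0 mU m3 (hmm hk2) _ hUo))
      exact (hUW e).symm
    exact Submodule.sub_mem _ (Submodule.smul_mem _ (p : ℂ) (EP_sft' _ _ h3)) h3

end Pool.Agent.N138.RF.L7
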