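import Pool.Agent.N138.RF.Stm
import Pool.Agent.N138.SV.A2

set_option autoImplicit false

/-! # Project RF (helper138), job R0 (helper985): periods of a sum in disjoint sets of variables -/

namespace Pool.Agent.N138.RF.R0

open MvPolynomial
open Pool.Agent.N138.SV Pool.Agent.N138.SV.A2

variable {σ τ : Type}

/-- the tensor product of two linear maps to power series -/
theorem ex_tens (l1 : MvPolynomial σ ℂ →ₗ[ℂ] PowerSeries ℂ)
    (l2 : MvPolynomial τ ℂ →ₗ[ℂ] PowerSeries ℂ) :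
    ∃ L : MvPolynomial (σ ⊕ τ) ℂ →ₗ[ℂ] PowerSeries ℂ, ∀ u v,
      L (rename Sum.inl u * rename Sum.inr v) = l1 u * l2 v := by
  refine ⟨gs fun m => ∑ p ∈ Finset.HasAntidiagonal.antidiagonal m,
    tens (cf l1 p.1) (cf l2 p.2), fun u v => ?_⟩
  ext m
  rw [gs_coeff, PowerSeries.coeff_mul, LinearMap.sum_apply]
  refine Finset.sum_congr rfl fun p _ => ?_
  rw [tens_apply, cf_apply, cf_apply]

/-- induction: products and sums -/
theorem prodInd {p : MvPolynomial (σ ⊕ τ) ℂ → Prop}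
    (h1 : ∀ (u : MvPolynomial σ ℂ) (v : MvPolynomial τ ℂ),
      p (rename Sum.inl u * rename Sum.inr v))
    (h2 : ∀ a b, p a → p b → p (a + b)) (H : MvPolynomial (σ ⊕ τ) ℂ) : p H := by
  induction H using MvPolynomial.induction_on' with
  | add a b ha hb => exact h2 a b ha hb
  | monomial s r =>
    have h3 := prod_mon (s.comapDomain Sum.inl Sum.inl_injective.injOn)
      (s.comapDomain Sum.inr Sum.inr_injective.injOn)
    have h4 : Finsupp.sumElim (s.comapDomain Sum.inl Sum.inl_injective.injOn)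
        (s.comapDomain Sum.inr Sum.inr_injective.injOn) = s := by
      ext i
      rcases i with i | i <;> simp
    rw [h4] at h3
    have h5 : (monomial s r : MvPolynomial (σ ⊕ τ) ℂ) =
        rename Sum.inl (r • monomial (s.comapDomain Sum.inl Sum.inl_injective.injOn) (1 : ℂ)) *
          rename Sum.inr (monomial (s.comapDomain Sum.inr Sum.inr_injective.injOn) (1 : ℂ)) := by
      rw [map_smul, smul_mul_assoc, h3, smul_monomial, smul_eq_mul, mul_one]
    rw [h5]
    exact h1 _ _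

theorem pd_ll (i : σ) (u : MvPolynomial σ ℂ) :
    pderiv (Sum.inl i : σ ⊕ τ) (rename Sum.inl u) = rename Sum.inl (pderiv i u) :=
  pderiv_rename Sum.inl_injective i u

theorem pd_rr (i : τ) (u : MvPolynomial τ ℂ) :
    pderiv (Sum.inr i : σ ⊕ τ) (rename Sum.inr u) = rename Sum.inr (pderiv i u) :=
  pderiv_rename Sum.inr_injective i u

theorem pd_lr (i : σ) (u : MvPolynomial τ ℂ) :
    pderiv (Sum.inl i : σ ⊕ τ) (rename Sum.inr u) = 0 := by
  classical
  refine pderiv_eq_zero_of_notMem_vars fun h => ?_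
  obtain ⟨u, -, hu⟩ := Finset.mem_image.1 (vars_rename _ _ h)
  simp at hu

theorem pd_rl (i : τ) (u : MvPolynomial σ ℂ) :
    pderiv (Sum.inr i : σ ⊕ τ) (rename Sum.inl u) = 0 := by
  classical
  refine pderiv_eq_zero_of_notMem_vars fun h => ?_
  obtain ⟨u, -, hu⟩ := Finset.mem_image.1 (vars_rename _ _ h)
  simp at hu

/-- the family of the products -/
def Fam (T1 : Set (MvPolynomial σ ℂ →ₗ[ℂ] PowerSeries ℂ))
    (T2 : Set (MvPolynomial τ ℂ →ₗ[ℂ] PowerSeries ℂ)) :
    Set (MvPolynomial (σ ⊕ τ) ℂ →ₗ[ℂ] PowerSeries ℂ) :=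
  {L | ∃ l1 ∈ T1, ∃ l2 ∈ T2, ∀ u v, L (rename Sum.inl u * rename Sum.inr v) = l1 u * l2 v}

theorem mull (a u : MvPolynomial σ ℂ) (v : MvPolynomial τ ℂ) :
    (rename Sum.inl a * (rename Sum.inl u * rename Sum.inr v) : MvPolynomial (σ ⊕ τ) ℂ) =
      rename Sum.inl (a * u) * rename Sum.inr v := by
  rw [map_mul, mul_assoc]

theorem mulr (a v : MvPolynomial τ ℂ) (u : MvPolynomial σ ℂ) :
    (rename Sum.inr a * (rename Sum.inl u * rename Sum.inr v) : MvPolynomial (σ ⊕ τ) ℂ) =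
      rename Sum.inl u * rename Sum.inr (a * v) := by
  rw [map_mul, mul_left_comm]

theorem pdl (i : σ) (u : MvPolynomial σ ℂ) (v : MvPolynomial τ ℂ) :
    pderiv (Sum.inl i : σ ⊕ τ) (rename Sum.inl u * rename Sum.inr v) =
      rename Sum.inl (pderiv i u) * rename Sum.inr v := by
  rw [Derivation.leibniz, pd_lr, pd_ll, smul_zero, zero_add, smul_eq_mul, mul_comm]

theorem pdr (i : τ) (u : MvPolynomial σ ℂ) (v : MvPolynomial τ ℂ) :
    pderiv (Sum.inr i : σ ⊕ τ) (rename Sum.inl u * rename Sum.inr v) =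
      rename Sum.inl u * rename Sum.inr (pderiv i v) := by
  rw [Derivation.leibniz, pd_rl, pd_rr, smul_zero, add_zero, smul_eq_mul]

theorem main (F : MvPolynomial σ ℂ) (G : MvPolynomial τ ℂ) (e1 e2 : ℂ)
    (T1 : Set (MvPolynomial σ ℂ →ₗ[ℂ] PowerSeries ℂ))
    (T2 : Set (MvPolynomial τ ℂ →ₗ[ℂ] PowerSeries ℂ)) (h1 : IsS F e1 T1) (h2 : IsS G e2 T2) :
    IsS (rename Sum.inl F + rename Sum.inr G : MvPolynomial (σ ⊕ τ) ℂ) (e1 + e2) (Fam T1 T2) := by
  refine ⟨?_, ?_, ?_⟩
  · rintro L ⟨l1, hl1, l2, hl2, hL⟩ H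
    refine prodInd (p := fun H => L ((rename Sum.inl F + rename Sum.inr G) * H) =
      PowerSeries.X * (th (L H) - (e1 + e2) • L H)) ?_ ?_ H
    · intro u v
      rw [add_mul, mull, mulr, map_add, hL, hL, hL, h1.e l1 hl1, h2.e l2 hl2, Derivation.leibniz]
      simp only [smul_eq_mul, Algebra.smul_def, map_add]
      ring
    · intro a b ha hb
      rw [mul_add, map_add, ha, hb, map_add, map_add, smul_add]
      ring
  · rintro L ⟨l1, hl1, l2, hl2, hL⟩ (i | i)
    · obtain ⟨l1', hl1', h3⟩ := h1.d l1 hl1 i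
      obtain ⟨L', hL'⟩ := ex_tens l1' l2
      refine ⟨L', ⟨l1', hl1', l2, hl2, hL'⟩, fun H => ?_⟩
      rw [map_add, pd_ll, pd_lr, add_zero]
      refine prodInd (p := fun H => PowerSeries.X * L (pderiv (Sum.inl i : σ ⊕ τ) H) -
        L (rename Sum.inl (pderiv i F) * H) = PowerSeries.X * L' H) ?_ ?_ H
      · intro u v
        rw [pdl, mull, hL, hL, hL']
        linear_combination l2 v * h3 u
      · intro a b ha hb
        rw [map_add (pderiv (Sum.inl i : σ ⊕ τ)), map_add L, mul_add, mul_add, map_add L,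
          map_add L']
        linear_combination ha + hb
    · obtain ⟨l2', hl2', h3⟩ := h2.d l2 hl2 i
      obtain ⟨L', hL'⟩ := ex_tens l1 l2'
      refine ⟨L', ⟨l1, hl1, l2', hl2', hL'⟩, fun H => ?_⟩
      rw [map_add, pd_rl, pd_rr, zero_add]
      refine prodInd (p := fun H => PowerSeries.X * L (pderiv (Sum.inr i : σ ⊕ τ) H) -
        L (rename Sum.inr (pderiv i G) * H) = PowerSeries.X * L' H) ?_ ?_ H
      · intro u v
        rw [pdr, mulr, hL, hL, hL']
        linear_combination l1 u * h3 v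
      · intro a b ha hb
        rw [map_add (pderiv (Sum.inr i : σ ⊕ τ)), map_add L, mul_add, mul_add, map_add L,
          map_add L']
        linear_combination ha + hb
  · rintro L ⟨l1, hl1, l2, hl2, hL⟩ (i | i)
    · obtain ⟨l1', hl1', h3⟩ := h1.mu l1 hl1 i
      obtain ⟨L', hL'⟩ := ex_tens l1' l2
      refine ⟨L', ⟨l1', hl1', l2, hl2, hL'⟩, fun H => ?_⟩
      have e1 : (X (Sum.inl i) : MvPolynomial (σ ⊕ τ) ℂ) = rename Sum.inl (X i) := by
        rw [rename_X]
      rw [e1]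
      refine prodInd (p := fun H => L (rename Sum.inl (X i) * H) = L' H) ?_ ?_ H
      · intro u v
        rw [mull, hL, hL', h3]
      · intro a b ha hb
        rw [mul_add, map_add, map_add, ha, hb]
    · obtain ⟨l2', hl2', h3⟩ := h2.mu l2 hl2 i
      obtain ⟨L', hL'⟩ := ex_tens l1 l2'
      refine ⟨L', ⟨l1, hl1, l2', hl2', hL'⟩, fun H => ?_⟩
      have e1 : (X (Sum.inr i) : MvPolynomial (σ ⊕ τ) ℂ) = rename Sum.inr (X i) := by
        rw [rename_X]
      rw [e1]
      refine prodInd (p := fun H => L (rename Sum.inr (X i) * H) = L' H) ?_ ?_ H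
      · intro u v
        rw [mulr, hL, hL', h3]
      · intro a b ha hb
        rw [mul_add, map_add, map_add, ha, hb]

/-- **Periods of a sum in disjoint sets of variables.** -/
theorem t : StR0 := by
  intro σ τ F G e1 e2 h1 h2
  obtain ⟨S1, hS1, c1, hc1, h01⟩ := h1
  obtain ⟨S2, hS2, c2, hc2, h02⟩ := h2
  refine ⟨_, ofS (main F G e1 e2 _ _ (toS hS1) (toS hS2)), ?_⟩
  obtain ⟨L, hL⟩ := ex_tens (gs c1) (gs c2)
  refine ⟨cf L, ⟨L, ⟨gs c1, ⟨c1, hc1, rfl⟩, gs c2, ⟨c2, hc2, rfl⟩, hL⟩, rfl⟩, ?_⟩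
  have e : (1 : MvPolynomial (σ ⊕ τ) ℂ) = rename Sum.inl 1 * rename Sum.inr 1 := by
    rw [map_one, map_one, one_mul]
  rw [cf_apply, e, hL, PowerSeries.coeff_zero_eq_constantCoeff_apply, map_mul]
  refine mul_ne_zero ?_ ?_
  · rw [← PowerSeries.coeff_zero_eq_constantCoeff_apply, gs_coeff]
    exact h01
  · rw [← PowerSeries.coeff_zero_eq_constantCoeff_apply, gs_coeff]
    exact h02

end Pool.Agent.N138.RF.R0
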