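import Pool.Agent.N138.RF.Stm

set_option autoImplicit false

/-! # Job R2: periods of a product, from the periods of a factor (helper803) -/

namespace Pool.Agent.N138.RF.R2

open MvPolynomial

section

variable {σ τ : Type}

theorem ext' {A B : MvPolynomial (σ ⊕ τ) ℂ →ₗ[ℂ] ℂ}
    (h : ∀ (u : MvPolynomial σ ℂ) (v : MvPolynomial τ ℂ),
      A (rename Sum.inl u * rename Sum.inr v) = B (rename Sum.inl u * rename Sum.inr v))
    (q : MvPolynomial (σ ⊕ τ) ℂ) : A q = B q :=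
  LinearMap.congr_fun (tens_ext h) q

theorem mul4 (F u : MvPolynomial σ ℂ) (G v : MvPolynomial τ ℂ) :
    (rename Sum.inl F * rename Sum.inr G) * (rename Sum.inl u * rename Sum.inr v) =
      (rename Sum.inl (F * u) * rename Sum.inr (G * v) : MvPolynomial (σ ⊕ τ) ℂ) := by
  rw [map_mul, map_mul]
  ring

theorem pd_zero_l (i : σ) (v : MvPolynomial τ ℂ) :
    pderiv (Sum.inl i) (rename Sum.inr v : MvPolynomial (σ ⊕ τ) ℂ) = 0 := by
  classical
  apply pderiv_eq_zero_of_notMem_vars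
  intro h
  have h1 := vars_rename (Sum.inr : τ → σ ⊕ τ) v h
  rw [Finset.mem_image] at h1
  obtain ⟨j, -, hj⟩ := h1
  exact absurd hj (by simp)

theorem pd_zero_r (j : τ) (u : MvPolynomial σ ℂ) :
    pderiv (Sum.inr j) (rename Sum.inl u : MvPolynomial (σ ⊕ τ) ℂ) = 0 := by
  classical
  apply pderiv_eq_zero_of_notMem_vars
  intro h
  have h1 := vars_rename (Sum.inl : σ → σ ⊕ τ) u h
  rw [Finset.mem_image] at h1
  obtain ⟨j, -, hj⟩ := h1
  exact absurd hj (by simp)

theorem pd_l (i : σ) (u : MvPolynomial σ ℂ) (v : MvPolynomial τ ℂ) :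
    pderiv (Sum.inl i) (rename Sum.inl u * rename Sum.inr v : MvPolynomial (σ ⊕ τ) ℂ) =
      rename Sum.inl (pderiv i u) * rename Sum.inr v := by
  rw [Derivation.leibniz, pd_zero_l, smul_zero, zero_add, smul_eq_mul,
    pderiv_rename Sum.inl_injective, mul_comm]

theorem pd_r (j : τ) (u : MvPolynomial σ ℂ) (v : MvPolynomial τ ℂ) :
    pderiv (Sum.inr j) (rename Sum.inl u * rename Sum.inr v : MvPolynomial (σ ⊕ τ) ℂ) =
      rename Sum.inl u * rename Sum.inr (pderiv j v) := by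
  rw [Derivation.leibniz, pd_zero_r, smul_zero, add_zero, smul_eq_mul,
    pderiv_rename Sum.inr_injective]

theorem ext_mul (c B : MvPolynomial (σ ⊕ τ) ℂ →ₗ[ℂ] ℂ) (g : MvPolynomial (σ ⊕ τ) ℂ)
    (H : ∀ (u : MvPolynomial σ ℂ) (v : MvPolynomial τ ℂ),
      c (g * (rename Sum.inl u * rename Sum.inr v)) = B (rename Sum.inl u * rename Sum.inr v))
    (h : MvPolynomial (σ ⊕ τ) ℂ) : c (g * h) = B h := by
  have h1 := ext' (A := c.comp (LinearMap.mulLeft ℂ g)) (B := B) (fun u v => by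
    rw [LinearMap.comp_apply, LinearMap.mulLeft_apply]
    exact H u v) h
  rw [LinearMap.comp_apply, LinearMap.mulLeft_apply] at h1
  exact h1

theorem ext_zero (c : MvPolynomial (σ ⊕ τ) ℂ →ₗ[ℂ] ℂ) (g : MvPolynomial (σ ⊕ τ) ℂ)
    (H : ∀ (u : MvPolynomial σ ℂ) (v : MvPolynomial τ ℂ),
      c (g * (rename Sum.inl u * rename Sum.inr v)) = 0)
    (h : MvPolynomial (σ ⊕ τ) ℂ) : c (g * h) = 0 := by
  have h1 := ext_mul c 0 g (fun u v => by rw [H, LinearMap.zero_apply]) h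
  rwa [LinearMap.zero_apply] at h1

theorem ext_smul (c B : MvPolynomial (σ ⊕ τ) ℂ →ₗ[ℂ] ℂ) (a : ℂ) (g : MvPolynomial (σ ⊕ τ) ℂ)
    (H : ∀ (u : MvPolynomial σ ℂ) (v : MvPolynomial τ ℂ),
      c (g * (rename Sum.inl u * rename Sum.inr v)) = a * B (rename Sum.inl u * rename Sum.inr v))
    (h : MvPolynomial (σ ⊕ τ) ℂ) : c (g * h) = a * B h := by
  have h1 := ext_mul c (a • B) g (fun u v => by
    rw [H, LinearMap.smul_apply, smul_eq_mul]) h
  rwa [LinearMap.smul_apply, smul_eq_mul] at h1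

theorem ext_pd (c c₁ B : MvPolynomial (σ ⊕ τ) ℂ →ₗ[ℂ] ℂ) (k : σ ⊕ τ)
    (g : MvPolynomial (σ ⊕ τ) ℂ)
    (H : ∀ (u : MvPolynomial σ ℂ) (v : MvPolynomial τ ℂ),
      c (pderiv k (rename Sum.inl u * rename Sum.inr v)) -
        c₁ (g * (rename Sum.inl u * rename Sum.inr v)) =
      B (rename Sum.inl u * rename Sum.inr v))
    (h : MvPolynomial (σ ⊕ τ) ℂ) : c (pderiv k h) - c₁ (g * h) = B h := by
  have h1 := ext' (A := c.comp (pderiv k).toLinearMap - c₁.comp (LinearMap.mulLeft ℂ g))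
    (B := B) (fun u v => by
      rw [LinearMap.sub_apply, LinearMap.comp_apply, LinearMap.comp_apply,
        LinearMap.mulLeft_apply, Derivation.coeFn_coe]
      exact H u v) h
  rw [LinearMap.sub_apply, LinearMap.comp_apply, LinearMap.comp_apply,
    LinearMap.mulLeft_apply, Derivation.coeFn_coe] at h1
  exact h1

end

theorem t : StR2 := by
  intro σ τ F G e hF hG
  obtain ⟨S, hS, c₀, hc₀, hc₁⟩ := hF
  -- a point with `G ≠ 0`
  obtain ⟨Q, hQ⟩ : ∃ Q : τ → ℂ, eval Q G ≠ 0 := by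
    by_contra hcon
    push Not at hcon
    exact hG (MvPolynomial.funext fun Q => by rw [hcon Q, map_zero])
  refine ⟨{c' | ∃ c ∈ S, ∃ L : ℕ → MvPolynomial τ ℂ →ₗ[ℂ] ℂ, (∀ n q, L (n + 1) (G * q) = L n q) ∧
    c' = fun n => tens (c n) (L n)}, ⟨?_, ?_, ?_, ?_, ?_⟩, ?_⟩
  · -- e1
    rintro _ ⟨c, hc, L, hL, rfl⟩ h
    refine ext_zero _ _ (fun u v => ?_) h
    rw [mul4, tens_apply, hS.e1 c hc, zero_mul]
  · -- e2
    rintro _ ⟨c, hc, L, hL, rfl⟩ m h
    refine ext_smul _ _ _ _ (fun u v => ?_) h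
    rw [mul4, tens_apply, tens_apply, hS.e2 c hc, hL]
    ring
  · -- d1
    rintro _ ⟨c, hc, L, hL, rfl⟩ i h
    rcases i with i | j
    · refine ext_zero _ _ (fun u v => ?_) h
      rw [pd_l, mul4, tens_apply, hS.d1 c hc, zero_mul]
    · refine ext_zero _ _ (fun u v => ?_) h
      rw [pd_r, mul4, tens_apply, hS.e1 c hc, zero_mul]
  · -- d2
    rintro _ ⟨c, hc, L, hL, rfl⟩ i
    rcases i with i | j
    · obtain ⟨c', hc', h1⟩ := hS.d2 c hc i
      refine ⟨_, ⟨c', hc', L, hL, rfl⟩, fun m h => ?_⟩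
      refine ext_pd _ _ _ _ _ (fun u v => ?_) h
      rw [pd_l, pd_l, mul4, tens_apply, tens_apply, tens_apply, hL, ← h1]
      ring
    · obtain ⟨L', hL'⟩ : ∃ L' : ℕ → MvPolynomial τ ℂ →ₗ[ℂ] ℂ, ∀ m q, L' m q =
          L m (pderiv j q) - ((m : ℂ) - e) * L (m + 1) (pderiv j G * q) := by
        refine ⟨fun m => (L m).comp (pderiv j).toLinearMap -
          ((m : ℂ) - e) • (L (m + 1)).comp (LinearMap.mulLeft ℂ (pderiv j G)), fun m q => ?_⟩
        rw [LinearMap.sub_apply, LinearMap.smul_apply, LinearMap.comp_apply,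
          LinearMap.comp_apply, LinearMap.mulLeft_apply, Derivation.coeFn_coe, smul_eq_mul]
      refine ⟨_, ⟨c, hc, L', fun n q => ?_, rfl⟩, fun m h => ?_⟩
      · rw [hL', hL']
        have h1 : pderiv j (G * q) = G * pderiv j q + pderiv j G * q := by
          rw [Derivation.leibniz, smul_eq_mul, smul_eq_mul, mul_comm q]
        have h2 : pderiv j G * (G * q) = G * (pderiv j G * q) := by ring
        rw [h1, map_add, hL, h2, hL]
        push_cast
        ring
      · refine ext_pd _ _ _ _ _ (fun u v => ?_) h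
        rw [pd_r, pd_r, mul4, tens_apply, tens_apply, tens_apply, hS.e2 c hc, hL']
        ring
  · -- mu
    rintro _ ⟨c, hc, L, hL, rfl⟩ i
    rcases i with i | j
    · obtain ⟨c', hc', h1⟩ := hS.mu c hc i
      refine ⟨_, ⟨c', hc', L, hL, rfl⟩, fun m h => ?_⟩
      refine ext_mul _ _ _ (fun u v => ?_) h
      have h2 : (X (Sum.inl i) * (rename Sum.inl u * rename Sum.inr v) :
          MvPolynomial (σ ⊕ τ) ℂ) = rename Sum.inl (X i * u) * rename Sum.inr v := by
        rw [map_mul, rename_X, mul_assoc]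
      rw [h2, tens_apply, tens_apply, h1]
    · obtain ⟨L', hL'⟩ : ∃ L' : ℕ → MvPolynomial τ ℂ →ₗ[ℂ] ℂ, ∀ m q, L' m q =
          L m (X j * q) := by
        refine ⟨fun m => (L m).comp (LinearMap.mulLeft ℂ (X j)), fun m q => ?_⟩
        rw [LinearMap.comp_apply, LinearMap.mulLeft_apply]
      refine ⟨_, ⟨c, hc, L', fun n q => ?_, rfl⟩, fun m h => ?_⟩
      · have h2 : X j * (G * q) = G * (X j * q) := by ring
        rw [hL', hL', h2, hL]
      · refine ext_mul _ _ _ (fun u v => ?_) h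
        have h2 : (X (Sum.inr j) * (rename Sum.inl u * rename Sum.inr v) :
            MvPolynomial (σ ⊕ τ) ℂ) = rename Sum.inl u * rename Sum.inr (X j * v) := by
          rw [map_mul, rename_X]
          ring
        rw [h2, tens_apply, tens_apply, hL']
  · -- a nonzero value
    obtain ⟨L, hL⟩ : ∃ L : ℕ → MvPolynomial τ ℂ →ₗ[ℂ] ℂ, ∀ n q, L n q =
        ((eval Q G) ^ n)⁻¹ * eval Q q := by
      refine ⟨fun n => ((eval Q G) ^ n)⁻¹ • (aeval Q).toLinearMap, fun n q => ?_⟩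
      rw [LinearMap.smul_apply, smul_eq_mul, AlgHom.toLinearMap_apply, aeval_eq_eval]
    refine ⟨_, ⟨c₀, hc₀, L, fun n q => ?_, rfl⟩, ?_⟩
    · rw [hL, hL, map_mul, pow_succ]
      field_simp
    · have h2 : (1 : MvPolynomial (σ ⊕ τ) ℂ) = rename Sum.inl 1 * rename Sum.inr 1 := by
        rw [map_one, map_one, mul_one]
      have h3 : tens (c₀ 0) (L 0) 1 = c₀ 0 1 * L 0 1 := by
        rw [h2, tens_apply]
      have h4 : L 0 1 = 1 := by
        rw [hL, pow_zero, inv_one, one_mul, map_one]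
      intro h5
      apply hc₁
      have h6 : tens (c₀ 0) (L 0) 1 = 0 := h5
      rwa [h3, h4, mul_one] at h6

end Pool.Agent.N138.RF.R2
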