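import Pool.Agent.N138.RF.Stm

/-! # Job R3: the exponent `-1` of a product -/

set_option autoImplicit false

namespace Pool.Agent.N138.RF.R3

open MvPolynomial
open Pool.Agent.N138.SV (IsPer Per)

/-- the compatible sequences of functionals -/
def Sq {σ : Type} (F : MvPolynomial σ ℂ) (A : ℕ → MvPolynomial σ ℂ →ₗ[ℂ] ℂ) : Prop :=
  (∀ u, A 0 (F * u) = 0) ∧ ∀ n u, A (n + 1) (F * u) = A n u

theorem sq_ex {σ : Type} (F : MvPolynomial σ ℂ) (hF : F ≠ 0) (hu : ¬ IsUnit F) :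
    ∃ A, Sq F A ∧ A 0 1 ≠ 0 := by
  have hinj : Function.Injective (LinearMap.mulLeft ℂ F) := by
    intro a b h
    exact mul_left_cancel₀ hF h
  obtain ⟨L, hL⟩ := LinearMap.exists_leftInverse_of_injective (LinearMap.mulLeft ℂ F)
    (LinearMap.ker_eq_bot.2 hinj)
  have h1 : (1 : MvPolynomial σ ℂ) ∉ LinearMap.range (LinearMap.mulLeft ℂ F) := by
    rintro ⟨u, hu'⟩
    exact hu (IsUnit.of_mul_eq_one u hu')
  obtain ⟨A0, hA1, hA2⟩ := Submodule.exists_le_ker_of_notMem h1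
  refine ⟨fun n => A0 ∘ₗ (L ^ n), ⟨fun u => ?_, fun n u => ?_⟩, ?_⟩
  · have h2 : LinearMap.mulLeft ℂ F u ∈ LinearMap.range (LinearMap.mulLeft ℂ F) := ⟨u, rfl⟩
    have h3 := hA2 h2
    rw [LinearMap.mem_ker] at h3
    simpa using h3
  · have h2 : L (F * u) = u := by
      have := LinearMap.congr_fun hL u
      simpa using this
    rw [LinearMap.comp_apply, LinearMap.comp_apply, pow_succ, Module.End.mul_apply, h2]
  · simpa using hA1

theorem sq_mul {σ : Type} {F : MvPolynomial σ ℂ} {A : ℕ → MvPolynomial σ ℂ →ₗ[ℂ] ℂ}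
    (hA : Sq F A) (w : MvPolynomial σ ℂ) :
    Sq F (fun n => A n ∘ₗ LinearMap.mulLeft ℂ w) := by
  refine ⟨fun u => ?_, fun n u => ?_⟩
  · rw [LinearMap.comp_apply, LinearMap.mulLeft_apply, mul_left_comm, hA.1]
  · rw [LinearMap.comp_apply, LinearMap.mulLeft_apply, mul_left_comm, hA.2]
    rfl

/-- the derived sequence -/
noncomputable def Dv {σ : Type} (F : MvPolynomial σ ℂ) (i : σ)
    (A : ℕ → MvPolynomial σ ℂ →ₗ[ℂ] ℂ) (n : ℕ) : MvPolynomial σ ℂ →ₗ[ℂ] ℂ :=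
  A n ∘ₗ (pderiv i : Derivation ℂ (MvPolynomial σ ℂ) (MvPolynomial σ ℂ)).toLinearMap -
    ((n : ℂ) + 1) • (A (n + 1) ∘ₗ LinearMap.mulLeft ℂ (pderiv i F))

theorem dv_apply {σ : Type} (F : MvPolynomial σ ℂ) (i : σ)
    (A : ℕ → MvPolynomial σ ℂ →ₗ[ℂ] ℂ) (n : ℕ) (u : MvPolynomial σ ℂ) :
    Dv F i A n u = A n (pderiv i u) - ((n : ℂ) + 1) * A (n + 1) (pderiv i F * u) := by
  simp [Dv]

theorem sq_dv {σ : Type} {F : MvPolynomial σ ℂ} {A : ℕ → MvPolynomial σ ℂ →ₗ[ℂ] ℂ}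
    (hA : Sq F A) (i : σ) : Sq F (Dv F i A) := by
  have e : ∀ u : MvPolynomial σ ℂ, pderiv i (F * u) = pderiv i F * u + F * pderiv i u := by
    intro u
    rw [pderiv_mul]
  refine ⟨fun u => ?_, fun n u => ?_⟩
  · rw [dv_apply, e, map_add, hA.1, mul_left_comm, hA.2]
    simp
  · rw [dv_apply, dv_apply, e, map_add, hA.2, mul_left_comm, hA.2]
    push_cast
    ring

/-- the family -/
def Fam {σ τ : Type} (F : MvPolynomial σ ℂ) (G : MvPolynomial τ ℂ) :
    Set (ℕ → MvPolynomial (σ ⊕ τ) ℂ →ₗ[ℂ] ℂ) :=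
  {c | ∃ A B, Sq F A ∧ Sq G B ∧ ∀ n, c n = (n.factorial : ℂ) • tens (A n) (B n)}

theorem c_apply {σ τ : Type} {A : ℕ → MvPolynomial σ ℂ →ₗ[ℂ] ℂ}
    {B : ℕ → MvPolynomial τ ℂ →ₗ[ℂ] ℂ} {c : ℕ → MvPolynomial (σ ⊕ τ) ℂ →ₗ[ℂ] ℂ}
    (hc : ∀ n, c n = (n.factorial : ℂ) • tens (A n) (B n)) (n : ℕ) (u : MvPolynomial σ ℂ)
    (v : MvPolynomial τ ℂ) :
    c n (rename Sum.inl u * rename Sum.inr v) = (n.factorial : ℂ) * (A n u * B n v) := by
  rw [hc, LinearMap.smul_apply, tens_apply, smul_eq_mul]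

theorem lin_ext {σ τ : Type} (a b : MvPolynomial (σ ⊕ τ) ℂ →ₗ[ℂ] ℂ)
    (h : ∀ (u : MvPolynomial σ ℂ) (v : MvPolynomial τ ℂ),
      a (rename Sum.inl u * rename Sum.inr v) = b (rename Sum.inl u * rename Sum.inr v))
    (x : MvPolynomial (σ ⊕ τ) ℂ) : a x = b x := by
  rw [tens_ext h]

theorem pd_inl {σ τ : Type} (i : σ) (u : MvPolynomial σ ℂ) :
    pderiv (Sum.inl i) (rename (Sum.inl : σ → σ ⊕ τ) u) = rename Sum.inl (pderiv i u) :=
  pderiv_rename Sum.inl_injective i u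

theorem pd_inr {σ τ : Type} (i : τ) (u : MvPolynomial τ ℂ) :
    pderiv (Sum.inr i) (rename (Sum.inr : τ → σ ⊕ τ) u) = rename Sum.inr (pderiv i u) :=
  pderiv_rename Sum.inr_injective i u

theorem pd_inl' {σ τ : Type} (i : σ) (v : MvPolynomial τ ℂ) :
    pderiv (Sum.inl i) (rename (Sum.inr : τ → σ ⊕ τ) v) = 0 := by
  classical
  refine pderiv_eq_zero_of_notMem_vars ?_
  intro h
  have := vars_rename (Sum.inr : τ → σ ⊕ τ) v h
  simp at this

theorem pd_inr' {σ τ : Type} (i : τ) (v : MvPolynomial σ ℂ) :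
    pderiv (Sum.inr i) (rename (Sum.inl : σ → σ ⊕ τ) v) = 0 := by
  classical
  refine pderiv_eq_zero_of_notMem_vars ?_
  intro h
  have := vars_rename (Sum.inl : σ → σ ⊕ τ) v h
  simp at this

theorem pp_inl {σ τ : Type} (i : σ) (u : MvPolynomial σ ℂ) (v : MvPolynomial τ ℂ) :
    pderiv (Sum.inl i) (rename Sum.inl u * rename Sum.inr v) =
      (rename Sum.inl (pderiv i u) * rename Sum.inr v : MvPolynomial (σ ⊕ τ) ℂ) := by
  rw [pderiv_mul, pd_inl, pd_inl', mul_zero, add_zero]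

theorem pp_inr {σ τ : Type} (i : τ) (u : MvPolynomial σ ℂ) (v : MvPolynomial τ ℂ) :
    pderiv (Sum.inr i) (rename Sum.inl u * rename Sum.inr v) =
      (rename Sum.inl u * rename Sum.inr (pderiv i v) : MvPolynomial (σ ⊕ τ) ℂ) := by
  rw [pderiv_mul, pd_inr, pd_inr', zero_mul, zero_add]

theorem dlin {σ : Type} (i : σ) (u : MvPolynomial σ ℂ) :
    (pderiv i : Derivation ℂ (MvPolynomial σ ℂ) (MvPolynomial σ ℂ)).toLinearMap u = pderiv i u :=
  rfl

theorem mm {σ τ : Type} (u u' : MvPolynomial σ ℂ) (v v' : MvPolynomial τ ℂ) :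
    (rename Sum.inl u * rename Sum.inr v) * (rename Sum.inl u' * rename Sum.inr v') =
      (rename Sum.inl (u * u') * rename Sum.inr (v * v') : MvPolynomial (σ ⊕ τ) ℂ) := by
  rw [map_mul, map_mul]
  ring

theorem isPer {σ τ : Type} (F : MvPolynomial σ ℂ) (G : MvPolynomial τ ℂ) :
    IsPer (rename Sum.inl F * rename Sum.inr G : MvPolynomial (σ ⊕ τ) ℂ) (-1) (Fam F G) where
  e1 := by
    rintro c ⟨A, B, hA, hB, hc⟩ h
    refine lin_ext (c 0 ∘ₗ LinearMap.mulLeft ℂ (rename Sum.inl F * rename Sum.inr G)) 0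
      (fun u v => ?_) h
    rw [LinearMap.comp_apply, LinearMap.mulLeft_apply, mm, c_apply hc, hA.1]
    simp
  e2 := by
    rintro c ⟨A, B, hA, hB, hc⟩ m h
    have := lin_ext (c (m + 1) ∘ₗ LinearMap.mulLeft ℂ (rename Sum.inl F * rename Sum.inr G))
      (((m : ℂ) - (-1)) • c m) (fun u v => ?_) h
    · exact this
    · rw [LinearMap.comp_apply, LinearMap.mulLeft_apply, mm, c_apply hc, hA.2, hB.2,
        LinearMap.smul_apply, c_apply hc, Nat.factorial_succ, smul_eq_mul]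
      push_cast
      ring
  d1 := by
    rintro c ⟨A, B, hA, hB, hc⟩ i h
    refine lin_ext (c 0 ∘ₗ LinearMap.mulLeft ℂ (pderiv i (rename Sum.inl F * rename Sum.inr G))) 0
      (fun u v => ?_) h
    rw [LinearMap.comp_apply, LinearMap.mulLeft_apply]
    rcases i with i | i
    · rw [pp_inl, mm, c_apply hc, hB.1]
      simp
    · rw [pp_inr, mm, c_apply hc, hA.1]
      simp
  d2 := by
    rintro c ⟨A, B, hA, hB, hc⟩ i
    rcases i with i | i
    · refine ⟨fun n => (n.factorial : ℂ) • tens (Dv F i A n) (B n),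
        ⟨Dv F i A, B, sq_dv hA i, hB, fun n => rfl⟩, fun m h => ?_⟩
      have := lin_ext (c m ∘ₗ (pderiv (Sum.inl i) : Derivation ℂ (MvPolynomial (σ ⊕ τ) ℂ)
        (MvPolynomial (σ ⊕ τ) ℂ)).toLinearMap - c (m + 1) ∘ₗ
        LinearMap.mulLeft ℂ (pderiv (Sum.inl i) (rename Sum.inl F * rename Sum.inr G)))
        ((m.factorial : ℂ) • tens (Dv F i A m) (B m)) (fun u v => ?_) h
      · exact this
      · rw [LinearMap.sub_apply, LinearMap.comp_apply, LinearMap.comp_apply,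
          LinearMap.mulLeft_apply, dlin, pp_inl,
          pp_inl, mm, c_apply hc, c_apply hc, hB.2, LinearMap.smul_apply, tens_apply, dv_apply,
          Nat.factorial_succ, smul_eq_mul]
        push_cast
        ring
    · refine ⟨fun n => (n.factorial : ℂ) • tens (A n) (Dv G i B n),
        ⟨A, Dv G i B, hA, sq_dv hB i, fun n => rfl⟩, fun m h => ?_⟩
      have := lin_ext (c m ∘ₗ (pderiv (Sum.inr i) : Derivation ℂ (MvPolynomial (σ ⊕ τ) ℂ)
        (MvPolynomial (σ ⊕ τ) ℂ)).toLinearMap - c (m + 1) ∘ₗ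
        LinearMap.mulLeft ℂ (pderiv (Sum.inr i) (rename Sum.inl F * rename Sum.inr G)))
        ((m.factorial : ℂ) • tens (A m) (Dv G i B m)) (fun u v => ?_) h
      · exact this
      · rw [LinearMap.sub_apply, LinearMap.comp_apply, LinearMap.comp_apply,
          LinearMap.mulLeft_apply, dlin, pp_inr,
          pp_inr, mm, c_apply hc, c_apply hc, hA.2, LinearMap.smul_apply, tens_apply, dv_apply,
          Nat.factorial_succ, smul_eq_mul]
        push_cast
        ring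
  mu := by
    rintro c ⟨A, B, hA, hB, hc⟩ i
    rcases i with i | i
    · refine ⟨fun n => (n.factorial : ℂ) • tens (A n ∘ₗ LinearMap.mulLeft ℂ (X i)) (B n),
        ⟨_, B, sq_mul hA (X i), hB, fun n => rfl⟩, fun m h => ?_⟩
      refine lin_ext (c m ∘ₗ LinearMap.mulLeft ℂ (X (Sum.inl i))) _ (fun u v => ?_) h
      have e : (X (Sum.inl i) : MvPolynomial (σ ⊕ τ) ℂ) * (rename Sum.inl u * rename Sum.inr v) =
          rename Sum.inl (X i * u) * rename Sum.inr v := by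
        rw [map_mul, rename_X, mul_assoc]
      rw [LinearMap.comp_apply, LinearMap.mulLeft_apply, e, c_apply hc, LinearMap.smul_apply,
        tens_apply, smul_eq_mul]
      rfl
    · refine ⟨fun n => (n.factorial : ℂ) • tens (A n) (B n ∘ₗ LinearMap.mulLeft ℂ (X i)),
        ⟨A, _, hA, sq_mul hB (X i), fun n => rfl⟩, fun m h => ?_⟩
      refine lin_ext (c m ∘ₗ LinearMap.mulLeft ℂ (X (Sum.inr i))) _ (fun u v => ?_) h
      have e : (X (Sum.inr i) : MvPolynomial (σ ⊕ τ) ℂ) * (rename Sum.inl u * rename Sum.inr v) =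
          rename Sum.inl u * rename Sum.inr (X i * v) := by
        rw [map_mul, rename_X, mul_left_comm]
      rw [LinearMap.comp_apply, LinearMap.mulLeft_apply, e, c_apply hc, LinearMap.smul_apply,
        tens_apply, smul_eq_mul]
      rfl

theorem t : StR3 := by
  intro σ τ F G hF hG huF huG
  obtain ⟨A, hA, hA1⟩ := sq_ex F hF huF
  obtain ⟨B, hB, hB1⟩ := sq_ex G hG huG
  refine ⟨Fam F G, isPer F G, fun n => (n.factorial : ℂ) • tens (A n) (B n),
    ⟨A, B, hA, hB, fun n => rfl⟩, ?_⟩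
  have h := c_apply (A := A) (B := B) (c := fun n => (n.factorial : ℂ) • tens (A n) (B n))
    (fun n => rfl) 0 1 1
  rw [map_one, map_one, mul_one] at h
  rw [h]
  simpa using ⟨hA1, hB1⟩

end Pool.Agent.N138.RF.R3
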