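import Pool.Agent.N138.RF.Stm

set_option autoImplicit false

/-! # Job R4: periods of `F ^ k U(F)` -/

namespace Pool.Agent.N138.RF.R4

open MvPolynomial
open Pool.Agent.N138.SV

/-! ## The power series -/

/-- the coefficients of the solution of `y' = g y`, `y(0) = 1` -/
noncomputable def sol (g : ℕ → ℂ) : ℕ → ℂ
  | 0 => 1
  | n + 1 => (∑ j : Fin (n + 1), g (n - j) * sol g j) / ((n : ℂ) + 1)
decreasing_by exact j.2

theorem exists_ode (G : PowerSeries ℂ) : ∃ V : PowerSeries ℂ, PowerSeries.coeff 0 V = 1 ∧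
    PowerSeries.derivative ℂ V = G * V := by
  refine ⟨PowerSeries.mk (sol fun n => PowerSeries.coeff n G), ?_, ?_⟩
  · rw [PowerSeries.coeff_mk, sol]
  · ext n
    rw [PowerSeries.coeff_derivative, PowerSeries.coeff_mk, PowerSeries.coeff_mul, sol,
      Finset.Nat.sum_antidiagonal_eq_sum_range_succ_mk, ← Finset.sum_range_reflect,
      div_mul_cancel₀ _ (by exact_mod_cast Nat.succ_ne_zero n),
      Fin.sum_univ_eq_sum_range (fun j => PowerSeries.coeff (n - j) G *
        sol (fun n => PowerSeries.coeff n G) j)]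
    refine Finset.sum_congr rfl fun j hj => ?_
    have hj' : j ≤ n := Nat.lt_succ_iff.1 (Finset.mem_range.1 hj)
    have e1 : n + 1 - 1 - j = n - j := by omega
    have e2 : n - (n - j) = j := by omega
    simp only [e1, e2, PowerSeries.coeff_mk]

/-- the series `U ^ (E - m)` -/
theorem exists_phi (U : PowerSeries ℂ) (hU : PowerSeries.constantCoeff U ≠ 0) (E : ℂ) :
    ∃ φ : ℕ → PowerSeries ℂ, PowerSeries.coeff 0 (φ 0) ≠ 0 ∧ (∀ m, U * φ (m + 1) = φ m) ∧
      ∀ m : ℕ, PowerSeries.derivative ℂ (φ m) =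
        PowerSeries.C (E - m) * (PowerSeries.derivative ℂ U * φ (m + 1)) := by
  have hU0 : U ≠ 0 := by
    rintro rfl
    exact hU (map_zero _)
  have hi : U * U⁻¹ = 1 := PowerSeries.mul_inv_cancel U hU
  obtain ⟨V, hV0, hV⟩ := exists_ode (PowerSeries.C E * PowerSeries.derivative ℂ U * U⁻¹)
  have hs : ∀ m : ℕ, U * (V * U⁻¹ ^ (m + 1)) = V * U⁻¹ ^ m := by
    intro m
    calc U * (V * U⁻¹ ^ (m + 1)) = (U * U⁻¹) * (V * U⁻¹ ^ m) := by ring
      _ = V * U⁻¹ ^ m := by rw [hi, one_mul]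
  refine ⟨fun m => V * U⁻¹ ^ m, ?_, hs, ?_⟩
  · simp only [pow_zero, mul_one, hV0]
    exact one_ne_zero
  · intro m
    induction m with
    | zero =>
      simp only [pow_zero, mul_one, hV, Nat.cast_zero, sub_zero, zero_add, pow_one]
      ring
    | succ m ih =>
      simp only at ih ⊢
      apply mul_left_cancel₀ hU0
      have h1 : PowerSeries.derivative ℂ (V * U⁻¹ ^ m) =
          U * PowerSeries.derivative ℂ (V * U⁻¹ ^ (m + 1)) +
            (V * U⁻¹ ^ (m + 1)) * PowerSeries.derivative ℂ U := by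
        conv_lhs => rw [← hs m]
        rw [Derivation.leibniz, smul_eq_mul, smul_eq_mul]
      have h2 : U * PowerSeries.derivative ℂ (V * U⁻¹ ^ (m + 1)) =
          PowerSeries.C (E - m) * (PowerSeries.derivative ℂ U * (V * U⁻¹ ^ (m + 1))) -
            (V * U⁻¹ ^ (m + 1)) * PowerSeries.derivative ℂ U := by
        rw [← ih, h1]
        ring
      have h3 : (PowerSeries.C (E - ((m + 1 : ℕ) : ℂ)) : PowerSeries ℂ) =
          PowerSeries.C (E - m) - 1 := by
        rw [← map_one (PowerSeries.C (R := ℂ)), ← map_sub]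
        congr 1
        push_cast
        ring
      rw [h2, h3]
      have h4 := hs (m + 1)
      calc PowerSeries.C (E - m) * (PowerSeries.derivative ℂ U * (V * U⁻¹ ^ (m + 1))) -
            (V * U⁻¹ ^ (m + 1)) * PowerSeries.derivative ℂ U
          = (PowerSeries.C (E - m) - 1) * (PowerSeries.derivative ℂ U *
              (V * U⁻¹ ^ (m + 1))) := by ring
        _ = (PowerSeries.C (E - m) - 1) * (PowerSeries.derivative ℂ U *
              (U * (V * U⁻¹ ^ (m + 1 + 1)))) := by rw [h4]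
        _ = _ := by ring

/-! ## The series of a family -/

section Ser

variable {σ : Type}

/-- the normalising factors -/
noncomputable def pf (e : ℂ) (n : ℕ) : ℂ := ∏ j ∈ Finset.range n, ((j : ℂ) - e)

theorem pf_succ (e : ℂ) (n : ℕ) : pf e (n + 1) = pf e n * ((n : ℂ) - e) :=
  Finset.prod_range_succ _ _

theorem pf_zero (e : ℂ) : pf e 0 = 1 := Finset.prod_range_zero _

theorem fac_ne {e : ℂ} (he : e.re < 0) (n : ℕ) : (n : ℂ) - e ≠ 0 := by
  intro h
  have h1 := congrArg Complex.re h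
  simp at h1
  have h2 : (0 : ℝ) ≤ n := Nat.cast_nonneg n
  linarith

theorem pf_ne {e : ℂ} (he : e.re < 0) (n : ℕ) : pf e n ≠ 0 :=
  Finset.prod_ne_zero_iff.2 fun j _ => fac_ne he j

/-- the generating series of a sequence of functionals -/
noncomputable def ser (e : ℂ) (c : ℕ → MvPolynomial σ ℂ →ₗ[ℂ] ℂ) :
    MvPolynomial σ ℂ →ₗ[ℂ] PowerSeries ℂ where
  toFun u := PowerSeries.mk fun n => (pf e n)⁻¹ * c n u
  map_add' u v := by
    ext n
    simp [mul_add]
  map_smul' a u := by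
    ext n
    simp
    ring

theorem coeff_ser (e : ℂ) (c : ℕ → MvPolynomial σ ℂ →ₗ[ℂ] ℂ) (u : MvPolynomial σ ℂ) (n : ℕ) :
    PowerSeries.coeff n (ser e c u) = (pf e n)⁻¹ * c n u :=
  PowerSeries.coeff_mk n (fun n => (pf e n)⁻¹ * c n u)

theorem ser_mul {e : ℂ} (he : e.re < 0) {c : ℕ → MvPolynomial σ ℂ →ₗ[ℂ] ℂ}
    {F : MvPolynomial σ ℂ} (h1 : ∀ h, c 0 (F * h) = 0)
    (h2 : ∀ (m : ℕ) h, c (m + 1) (F * h) = ((m : ℂ) - e) * c m h) (h : MvPolynomial σ ℂ) :
    ser e c (F * h) = PowerSeries.X * ser e c h := by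
  ext n
  rcases n with _ | n
  · rw [coeff_ser, h1, mul_zero, PowerSeries.coeff_zero_X_mul]
  · rw [coeff_ser, h2, PowerSeries.coeff_succ_X_mul, coeff_ser, pf_succ, mul_inv,
      mul_assoc, inv_mul_cancel_left₀ (fac_ne he n)]

theorem ser_pow {e : ℂ} (he : e.re < 0) {c : ℕ → MvPolynomial σ ℂ →ₗ[ℂ] ℂ}
    {F : MvPolynomial σ ℂ} (h1 : ∀ h, c 0 (F * h) = 0)
    (h2 : ∀ (m : ℕ) h, c (m + 1) (F * h) = ((m : ℂ) - e) * c m h) (n : ℕ)
    (h : MvPolynomial σ ℂ) :
    ser e c (F ^ n * h) = PowerSeries.X ^ n * ser e c h := by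
  induction n with
  | zero => simp
  | succ n ih => rw [pow_succ', mul_assoc, ser_mul he h1 h2, ih, pow_succ', mul_assoc]

theorem ser_aeval {e : ℂ} (he : e.re < 0) {c : ℕ → MvPolynomial σ ℂ →ₗ[ℂ] ℂ}
    {F : MvPolynomial σ ℂ} (h1 : ∀ h, c 0 (F * h) = 0)
    (h2 : ∀ (m : ℕ) h, c (m + 1) (F * h) = ((m : ℂ) - e) * c m h) (Q : Polynomial ℂ)
    (h : MvPolynomial σ ℂ) :
    ser e c (Polynomial.aeval F Q * h) = (Q : PowerSeries ℂ) * ser e c h := by
  induction Q using Polynomial.induction_on' with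
  | add P Q hP hQ => rw [map_add, add_mul, map_add, hP, hQ, Polynomial.coe_add, add_mul]
  | monomial n a =>
    have e1 : Polynomial.aeval F (Polynomial.monomial n a) = a • F ^ n := by
      rw [Polynomial.aeval_monomial, Algebra.smul_def]
    rw [e1, smul_mul_assoc, map_smul, ser_pow he h1 h2, ← Polynomial.C_mul_X_pow_eq_monomial,
      Polynomial.coe_mul, Polynomial.coe_C, Polynomial.coe_pow, Polynomial.coe_X,
      PowerSeries.smul_eq_C_mul, mul_assoc]

theorem ser_ext {e : ℂ} {c c' : ℕ → MvPolynomial σ ℂ →ₗ[ℂ] ℂ} {u v : MvPolynomial σ ℂ}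
    (h : ∀ m, c m u = c' m v) : ser e c u = ser e c' v := by
  ext n
  rw [coeff_ser, coeff_ser, h]

end Ser

/-! ## The new family -/

section New

variable {σ : Type}

/-- the new functionals -/
noncomputable def ct (e : ℂ) (k : ℕ) (φ : ℕ → PowerSeries ℂ)
    (c : ℕ → MvPolynomial σ ℂ →ₗ[ℂ] ℂ) (m : ℕ) : MvPolynomial σ ℂ →ₗ[ℂ] ℂ where
  toFun u := pf (e / k) m * PowerSeries.coeff (k * m) (ser e c u * φ m)
  map_add' u v := by
    rw [map_add, add_mul, map_add, mul_add]
  map_smul' a u := by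
    rw [map_smul, smul_mul_assoc, map_smul]
    simp only [smul_eq_mul, RingHom.id_apply]
    ring

theorem ct_apply (e : ℂ) (k : ℕ) (φ : ℕ → PowerSeries ℂ)
    (c : ℕ → MvPolynomial σ ℂ →ₗ[ℂ] ℂ) (m : ℕ) (u : MvPolynomial σ ℂ) :
    ct e k φ c m u = pf (e / k) m * PowerSeries.coeff (k * m) (ser e c u * φ m) := rfl

theorem coe_der (k : ℕ) (U : Polynomial ℂ) (hk : 1 ≤ k) :
    ((Polynomial.derivative (Polynomial.X ^ k * U) : Polynomial ℂ) : PowerSeries ℂ) =
      PowerSeries.X ^ (k - 1) * (PowerSeries.C (k : ℂ) * (U : PowerSeries ℂ) +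
        PowerSeries.X * PowerSeries.derivative ℂ (U : PowerSeries ℂ)) := by
  obtain ⟨j, rfl⟩ : ∃ j, k = j + 1 := ⟨k - 1, by omega⟩
  rw [Polynomial.derivative_mul, Polynomial.derivative_X_pow, Polynomial.coe_add,
    Polynomial.coe_mul, Polynomial.coe_mul, Polynomial.coe_mul, Polynomial.coe_C,
    Polynomial.coe_pow, Polynomial.coe_pow, Polynomial.coe_X, ← PowerSeries.derivative_coe]
  simp only [Nat.add_sub_cancel]
  ring

/-- Job R4: periods of `F ^ k U(F)`. -/
theorem t : StR4 := by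
  intro σ F e k U hper he hk hU
  obtain ⟨S, hS, c0, hc0, hc0n⟩ := hper
  have hU' : PowerSeries.constantCoeff (U : PowerSeries ℂ) ≠ 0 := by
    rw [Polynomial.constantCoeff_coe, Polynomial.coeff_zero_eq_eval_zero]
    exact hU
  obtain ⟨φ, hφ0, hφs, hφd⟩ := exists_phi (U : PowerSeries ℂ) hU' (e / k)
  have hk0 : (k : ℂ) ≠ 0 := by
    exact_mod_cast (by omega : k ≠ 0)
  have hcoe : ((Polynomial.X ^ k * U : Polynomial ℂ) : PowerSeries ℂ) =
      PowerSeries.X ^ k * (U : PowerSeries ℂ) := by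
    rw [Polynomial.coe_mul, Polynomial.coe_pow, Polynomial.coe_X]
  have hder : ∀ i, pderiv i (Polynomial.aeval F (Polynomial.X ^ k * U)) =
      Polynomial.aeval F (Polynomial.derivative (Polynomial.X ^ k * U)) * pderiv i F := by
    intro i
    rw [Derivation.map_aeval, smul_eq_mul]
  refine ⟨(fun c => ct e k φ c) '' S, ⟨?_, ?_, ?_, ?_, ?_⟩, ct e k φ c0, ⟨c0, hc0, rfl⟩, ?_⟩
  · rintro _ ⟨c, hc, rfl⟩ h
    rw [ct_apply, ser_aeval he (hS.e1 c hc) (hS.e2 c hc), hcoe]
    obtain ⟨j, rfl⟩ : ∃ j, k = j + 1 := ⟨k - 1, by omega⟩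
    have e1 : (PowerSeries.X : PowerSeries ℂ) ^ (j + 1) * (U : PowerSeries ℂ) * ser e c h * φ 0 =
        PowerSeries.X * (PowerSeries.X ^ j * (U : PowerSeries ℂ) * ser e c h * φ 0) := by ring
    rw [mul_zero, e1, PowerSeries.coeff_zero_X_mul, mul_zero]
  · rintro _ ⟨c, hc, rfl⟩ m h
    rw [ct_apply, ct_apply, ser_aeval he (hS.e1 c hc) (hS.e2 c hc), hcoe]
    have e1 : (PowerSeries.X : PowerSeries ℂ) ^ k * (U : PowerSeries ℂ) * ser e c h * φ (m + 1) =
        PowerSeries.X ^ k * (ser e c h * φ m) := by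
      rw [← hφs m]
      ring
    rw [e1, Nat.mul_succ, PowerSeries.coeff_X_pow_mul, pf_succ]
    ring
  · rintro _ ⟨c, hc, rfl⟩ i h
    rw [ct_apply, hder, mul_assoc, ser_aeval he (hS.e1 c hc) (hS.e2 c hc), mul_zero]
    have e1 : PowerSeries.constantCoeff (ser e c (pderiv i F * h)) = 0 := by
      rw [← PowerSeries.coeff_zero_eq_constantCoeff_apply, coeff_ser, hS.d1 c hc, mul_zero]
    rw [PowerSeries.coeff_zero_eq_constantCoeff_apply, map_mul, map_mul, e1]
    ring
  · rintro _ ⟨c, hc, rfl⟩ i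
    obtain ⟨c', hc', hcc'⟩ := hS.d2 c hc i
    refine ⟨ct e k φ c', ⟨c', hc', rfl⟩, ?_⟩
    intro m h
    -- the series `b = X * b1`
    obtain ⟨b1, hb1⟩ : ∃ b1 : PowerSeries ℂ, ser e c (pderiv i F * h) = PowerSeries.X * b1 := by
      have e1 : PowerSeries.constantCoeff (ser e c (pderiv i F * h)) = 0 := by
        rw [← PowerSeries.coeff_zero_eq_constantCoeff_apply, coeff_ser, hS.d1 c hc, mul_zero]
      exact PowerSeries.X_dvd_iff.2 e1
    have hb1c : ∀ n : ℕ, PowerSeries.coeff n b1 = (pf e (n + 1))⁻¹ * c (n + 1) (pderiv i F * h) := by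
      intro n
      rw [← coeff_ser, hb1, PowerSeries.coeff_succ_X_mul]
    have hA : ser e c (pderiv i h) = ser e c' h +
        (PowerSeries.derivative ℂ (PowerSeries.X * b1) - PowerSeries.C (1 + e) * b1) := by
      ext n
      rw [map_add, map_sub, coeff_ser, coeff_ser, PowerSeries.coeff_derivative,
        PowerSeries.coeff_succ_X_mul, PowerSeries.coeff_C_mul, ← hcc' n h, hb1c, pf_succ,
        mul_inv]
      have hp := pf_ne he n
      have hf := fac_ne he n
      field_simp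
      ring
    rw [ct_apply, ct_apply, ct_apply, hder, mul_assoc, ser_aeval he (hS.e1 c hc) (hS.e2 c hc),
      hb1, coe_der k U hk, hA]
    have hs := hφs m
    have hd := hφd m
    set n := k * m with hn
    set β := PowerSeries.coeff n (b1 * φ m) with hβ
    set γ := PowerSeries.coeff n (PowerSeries.X * b1 *
      (PowerSeries.derivative ℂ (U : PowerSeries ℂ) * φ (m + 1))) with hγ
    have k1 : PowerSeries.coeff n (PowerSeries.derivative ℂ (PowerSeries.X * b1) * φ m) =
        ((n : ℂ) + 1) * β - (e / k - m) * γ := by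
      have l1 : PowerSeries.derivative ℂ ((PowerSeries.X * b1) * φ m) =
          (PowerSeries.X * b1) * PowerSeries.derivative ℂ (φ m) +
            φ m * PowerSeries.derivative ℂ (PowerSeries.X * b1) := by
        rw [Derivation.leibniz, smul_eq_mul, smul_eq_mul]
      have l2 := congrArg (PowerSeries.coeff n) l1
      rw [PowerSeries.coeff_derivative, map_add, hd] at l2
      have l3 : PowerSeries.coeff (n + 1) (PowerSeries.X * b1 * φ m) = β := by
        rw [mul_assoc, PowerSeries.coeff_succ_X_mul]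
      have l4 : (PowerSeries.X * b1) * (PowerSeries.C (e / k - m) *
          (PowerSeries.derivative ℂ (U : PowerSeries ℂ) * φ (m + 1))) =
          PowerSeries.C (e / k - m) * (PowerSeries.X * b1 *
            (PowerSeries.derivative ℂ (U : PowerSeries ℂ) * φ (m + 1))) := by ring
      rw [l3, l4, PowerSeries.coeff_C_mul, ← hγ] at l2
      rw [mul_comm (PowerSeries.derivative ℂ (PowerSeries.X * b1)) (φ m)]
      linear_combination -l2
    have k2 : PowerSeries.coeff (k * (m + 1)) (PowerSeries.X ^ (k - 1) *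
        (PowerSeries.C (k : ℂ) * (U : PowerSeries ℂ) +
          PowerSeries.X * PowerSeries.derivative ℂ (U : PowerSeries ℂ)) *
          (PowerSeries.X * b1) * φ (m + 1)) = k * β + γ := by
      have l1 : PowerSeries.X ^ (k - 1) *
        (PowerSeries.C (k : ℂ) * (U : PowerSeries ℂ) +
          PowerSeries.X * PowerSeries.derivative ℂ (U : PowerSeries ℂ)) *
          (PowerSeries.X * b1) * φ (m + 1) = PowerSeries.X ^ k * (PowerSeries.C (k : ℂ) *
          (b1 * φ m) + PowerSeries.X * b1 *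
            (PowerSeries.derivative ℂ (U : PowerSeries ℂ) * φ (m + 1))) := by
        rw [← hs]
        obtain ⟨j, rfl⟩ : ∃ j, k = j + 1 := ⟨k - 1, by omega⟩
        simp only [Nat.add_sub_cancel]
        ring
      rw [l1, Nat.mul_succ, PowerSeries.coeff_X_pow_mul, map_add, PowerSeries.coeff_C_mul]
    have k3 : (ser e c' h + (PowerSeries.derivative ℂ (PowerSeries.X * b1) -
        PowerSeries.C (1 + e) * b1)) * φ m = ser e c' h * φ m +
        (PowerSeries.derivative ℂ (PowerSeries.X * b1) * φ m -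
          PowerSeries.C (1 + e) * (b1 * φ m)) := by ring
    rw [k3, map_add, map_sub, k1, PowerSeries.coeff_C_mul, ← hβ, k2, pf_succ]
    have hnc : (n : ℂ) = k * m := by
      rw [hn]
      push_cast
      ring
    rw [hnc]
    field_simp
    ring
  · rintro _ ⟨c, hc, rfl⟩ i
    obtain ⟨c', hc', hcc'⟩ := hS.mu c hc i
    refine ⟨ct e k φ c', ⟨c', hc', rfl⟩, ?_⟩
    intro m h
    rw [ct_apply, ct_apply, ser_ext (fun m => hcc' m h)]
  · rw [ct_apply, pf_zero, one_mul, mul_zero, PowerSeries.coeff_zero_eq_constantCoeff_apply,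
      map_mul, ← PowerSeries.coeff_zero_eq_constantCoeff_apply,
      ← PowerSeries.coeff_zero_eq_constantCoeff_apply, coeff_ser, pf_zero, inv_one, one_mul]
    exact mul_ne_zero hc0n hφ0

end New

end Pool.Agent.N138.RF.R4
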