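import Pool.Agent.N138.RF.Stm

set_option autoImplicit false

/-! # Periods of `F ^ k U(F)`, the exponent `-1 / k` (job R4b) -/


namespace Pool.Agent.N138.RF.R4b

open MvPolynomial

/-! ### The differential equation `V' U = E U' V` -/

/-- the coefficients of the solution of `V' = W V`, `V(0) = 1` -/
noncomputable def vv (w : ℕ → ℂ) : ℕ → ℂ
  | 0 => 1
  | n + 1 => (∑ j : Fin (n + 1), w (n - j) * vv w j) / ((n : ℂ) + 1)
  decreasing_by exact j.2

theorem vv_zero (w : ℕ → ℂ) : vv w 0 = 1 := by rw [vv]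

theorem vv_succ (w : ℕ → ℂ) (n : ℕ) :
    vv w (n + 1) * ((n : ℂ) + 1) = ∑ j ∈ Finset.range (n + 1), w (n - j) * vv w j := by
  rw [vv, div_mul_cancel₀ _ (by exact_mod_cast Nat.succ_ne_zero n),
    Finset.sum_range fun j => w (n - j) * vv w j]

theorem ode (W : PowerSeries ℂ) : ∃ V : PowerSeries ℂ, PowerSeries.constantCoeff V = 1 ∧
    PowerSeries.derivative ℂ V = W * V := by
  refine ⟨PowerSeries.mk (vv fun n => PowerSeries.coeff n W), ?_, ?_⟩
  · rw [← PowerSeries.coeff_zero_eq_constantCoeff_apply, PowerSeries.coeff_mk, vv_zero]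
  · ext n
    rw [PowerSeries.coeff_derivative, PowerSeries.coeff_mk, vv_succ, mul_comm W,
      PowerSeries.coeff_mul, Finset.Nat.sum_antidiagonal_eq_sum_range_succ_mk]
    refine Finset.sum_congr rfl fun j hj => ?_
    rw [PowerSeries.coeff_mk, mul_comm]

theorem ode2 (E : ℂ) (U : PowerSeries ℂ) (hU : PowerSeries.constantCoeff U ≠ 0) :
    ∃ V : PowerSeries ℂ, PowerSeries.constantCoeff V = 1 ∧
    PowerSeries.derivative ℂ V * U = PowerSeries.C E * PowerSeries.derivative ℂ U * V := by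
  obtain ⟨V, h1, h2⟩ := ode (PowerSeries.C E * PowerSeries.derivative ℂ U * U⁻¹)
  refine ⟨V, h1, ?_⟩
  rw [h2]
  have h : U⁻¹ * U = 1 := PowerSeries.inv_mul_cancel U hU
  linear_combination (PowerSeries.C E * PowerSeries.derivative ℂ U * V) * h


/-! ### Sequences of functionals -/

section

variable {σ : Type}

/-- the sequences `A` with `A_0(F u) = 0` and `A_(n+1)(F u) = A_n(u)` -/
def Sq (F : MvPolynomial σ ℂ) (A : ℕ → MvPolynomial σ ℂ →ₗ[ℂ] ℂ) : Prop :=
  (∀ u, A 0 (F * u) = 0) ∧ ∀ n u, A (n + 1) (F * u) = A n u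

/-- the generating function -/
noncomputable def ps (A : ℕ → MvPolynomial σ ℂ →ₗ[ℂ] ℂ) : MvPolynomial σ ℂ →ₗ[ℂ] PowerSeries ℂ where
  toFun u := PowerSeries.mk fun n => A n u
  map_add' u v := by ext n; simp
  map_smul' r u := by ext n; simp

theorem coeff_ps (A : ℕ → MvPolynomial σ ℂ →ₗ[ℂ] ℂ) (u : MvPolynomial σ ℂ) (n : ℕ) :
    PowerSeries.coeff n (ps A u) = A n u := by
  show PowerSeries.coeff n (PowerSeries.mk fun n => A n u) = A n u
  rw [PowerSeries.coeff_mk]

variable {F : MvPolynomial σ ℂ} {A : ℕ → MvPolynomial σ ℂ →ₗ[ℂ] ℂ}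

theorem ps_F (hA : Sq F A) (u : MvPolynomial σ ℂ) : ps A (F * u) = PowerSeries.X * ps A u := by
  ext n
  rw [coeff_ps]
  cases n with
  | zero => rw [hA.1, PowerSeries.coeff_zero_X_mul]
  | succ n => rw [hA.2, PowerSeries.coeff_succ_X_mul, coeff_ps]

theorem ps_pow (hA : Sq F A) (n : ℕ) (u : MvPolynomial σ ℂ) :
    ps A (F ^ n * u) = PowerSeries.X ^ n * ps A u := by
  induction n with
  | zero => rw [pow_zero, pow_zero, one_mul, one_mul]
  | succ n ih => rw [pow_succ', mul_assoc, ps_F hA, ih, pow_succ', mul_assoc]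

theorem ps_aeval (hA : Sq F A) (Q : Polynomial ℂ) (u : MvPolynomial σ ℂ) :
    ps A (Polynomial.aeval F Q * u) = (Q : PowerSeries ℂ) * ps A u := by
  induction Q using Polynomial.induction_on' with
  | add P Q hP hQ => rw [map_add, add_mul, map_add, hP, hQ, Polynomial.coe_add, add_mul]
  | monomial n r =>
    have h : Polynomial.aeval F (Polynomial.C r * Polynomial.X ^ n) * u = r • (F ^ n * u) := by
      rw [map_mul (Polynomial.aeval F), map_pow, Polynomial.aeval_X, Polynomial.aeval_C, mul_assoc,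
        ← Algebra.smul_def]
    rw [← Polynomial.C_mul_X_pow_eq_monomial, h, map_smul, ps_pow hA,
      Polynomial.coe_mul, Polynomial.coe_C, Polynomial.coe_pow, Polynomial.coe_X,
      PowerSeries.smul_eq_C_mul, mul_assoc]

/-- the derived sequence -/
noncomputable def dA (F : MvPolynomial σ ℂ) (A : ℕ → MvPolynomial σ ℂ →ₗ[ℂ] ℂ) (i : σ) (n : ℕ) :
    MvPolynomial σ ℂ →ₗ[ℂ] ℂ :=
  A n ∘ₗ (pderiv i).toLinearMap -
    ((n : ℂ) + 1) • (A (n + 1) ∘ₗ LinearMap.mulLeft ℂ (pderiv i F))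

theorem dA_apply (i : σ) (n : ℕ) (u : MvPolynomial σ ℂ) :
    dA F A i n u = A n (pderiv i u) - ((n : ℂ) + 1) * A (n + 1) (pderiv i F * u) := rfl

theorem dA_sq (hA : Sq F A) (i : σ) : Sq F (dA F A i) := by
  constructor
  · intro u
    rw [dA_apply, Derivation.leibniz, smul_eq_mul, smul_eq_mul, map_add, hA.1,
      show pderiv i F * (F * u) = F * (pderiv i F * u) by ring, hA.2,
      show u * pderiv i F = pderiv i F * u by ring]
    push_cast
    ring
  · intro n u
    rw [dA_apply, dA_apply, Derivation.leibniz, smul_eq_mul, smul_eq_mul, map_add, hA.2,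
      show pderiv i F * (F * u) = F * (pderiv i F * u) by ring, hA.2,
      show u * pderiv i F = pderiv i F * u by ring]
    push_cast
    ring

theorem ps_dA (i : σ) (u : MvPolynomial σ ℂ) :
    ps (dA F A i) u = ps A (pderiv i u) - PowerSeries.derivative ℂ (ps A (pderiv i F * u)) := by
  ext n
  rw [coeff_ps, dA_apply, map_sub, coeff_ps, PowerSeries.coeff_derivative, coeff_ps]
  ring

/-- multiplication by a variable -/
noncomputable def mA (A : ℕ → MvPolynomial σ ℂ →ₗ[ℂ] ℂ) (i : σ) (n : ℕ) :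
    MvPolynomial σ ℂ →ₗ[ℂ] ℂ := A n ∘ₗ LinearMap.mulLeft ℂ (X i)

theorem mA_apply (i : σ) (n : ℕ) (u : MvPolynomial σ ℂ) : mA A i n u = A n (X i * u) := rfl

theorem mA_sq (hA : Sq F A) (i : σ) : Sq F (mA A i) := by
  constructor
  · intro u
    rw [mA_apply, show X i * (F * u) = F * (X i * u) by ring, hA.1]
  · intro n u
    rw [mA_apply, mA_apply, show X i * (F * u) = F * (X i * u) by ring, hA.2]

theorem ps_mA (i : σ) (u : MvPolynomial σ ℂ) : ps (mA A i) u = ps A (X i * u) := by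
  ext n
  rw [coeff_ps, mA_apply, coeff_ps]

/-- existence of a sequence with `A_0(1) ≠ 0` -/
theorem exA (hF : F ≠ 0) (hu : ¬ IsUnit F) :
    ∃ A : ℕ → MvPolynomial σ ℂ →ₗ[ℂ] ℂ, Sq F A ∧ A 0 1 ≠ 0 := by
  have hinj : LinearMap.ker (LinearMap.mulLeft ℂ F) = ⊥ := by
    rw [LinearMap.ker_eq_bot]
    intro u v h
    exact mul_left_cancel₀ hF h
  obtain ⟨R, hR⟩ := (LinearMap.mulLeft ℂ F).exists_leftInverse_of_injective hinj
  have hR' : ∀ u, R (F * u) = u := fun u => LinearMap.congr_fun hR u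
  have h1 : (1 : MvPolynomial σ ℂ) ∉ LinearMap.range (LinearMap.mulLeft ℂ F) := by
    rintro ⟨u, h⟩
    exact hu (IsUnit.of_mul_eq_one u h)
  obtain ⟨f, hf, hf2⟩ := Submodule.exists_le_ker_of_notMem h1
  refine ⟨fun n => f ∘ₗ (R ^ n), ⟨fun u => ?_, fun n u => ?_⟩, hf⟩
  · exact hf2 ⟨u, rfl⟩
  · show f ((R ^ (n + 1)) (F * u)) = f ((R ^ n) u)
    rw [pow_succ, Module.End.mul_apply, hR']

/-! ### The family -/

variable (E : ℂ) (k : ℕ) (U V : PowerSeries ℂ)

/-- `V U ^ (-m)` -/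
noncomputable def ph (m : ℕ) : PowerSeries ℂ := V * U⁻¹ ^ m

/-- the family of functionals -/
noncomputable def cc (A : ℕ → MvPolynomial σ ℂ →ₗ[ℂ] ℂ) (m : ℕ) : MvPolynomial σ ℂ →ₗ[ℂ] ℂ :=
  (∏ j ∈ Finset.range m, ((j : ℂ) - E)) •
    ((PowerSeries.coeff (k * m) : PowerSeries ℂ →ₗ[ℂ] ℂ) ∘ₗ LinearMap.mulRight ℂ (ph U V m) ∘ₗ ps A)

theorem cc_apply (A : ℕ → MvPolynomial σ ℂ →ₗ[ℂ] ℂ) (m : ℕ) (u : MvPolynomial σ ℂ) :
    cc E k U V A m u = (∏ j ∈ Finset.range m, ((j : ℂ) - E)) *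
      PowerSeries.coeff (k * m) (ps A u * ph U V m) := rfl

variable {U V}

theorem ph_succ (hU : PowerSeries.constantCoeff U ≠ 0) (m : ℕ) :
    U * ph U V (m + 1) = ph U V m := by
  have h : U⁻¹ * U = 1 := PowerSeries.inv_mul_cancel U hU
  unfold ph
  rw [pow_succ]
  linear_combination (V * U⁻¹ ^ m) * h

theorem ph_der {E : ℂ} (hU : PowerSeries.constantCoeff U ≠ 0)
    (hV : PowerSeries.derivative ℂ V * U = PowerSeries.C E * PowerSeries.derivative ℂ U * V)
    (m : ℕ) : PowerSeries.derivative ℂ (ph U V m) =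
      PowerSeries.C (E - m) * (PowerSeries.derivative ℂ U * ph U V (m + 1)) := by
  have hne : U ≠ 0 := by
    rintro rfl
    exact hU (map_zero _)
  induction m with
  | zero =>
    have h := ph_succ (V := V) hU 0
    have h0 : ph U V 0 = V := by unfold ph; rw [pow_zero, mul_one]
    rw [h0] at h ⊢
    refine mul_left_cancel₀ hne ?_
    rw [Nat.cast_zero, sub_zero]
    linear_combination hV - (PowerSeries.C E * PowerSeries.derivative ℂ U) * h
  | succ m ih =>
    have h := ph_succ (V := V) hU m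
    have h2 := ph_succ (V := V) hU (m + 1)
    have h3 : PowerSeries.derivative ℂ (U * ph U V (m + 1)) =
        PowerSeries.derivative ℂ (ph U V m) := by rw [h]
    rw [Derivation.leibniz, smul_eq_mul, smul_eq_mul, ih] at h3
    refine mul_left_cancel₀ hne ?_
    push_cast
    rw [map_sub, map_add, map_one]
    rw [map_sub] at h3
    linear_combination h3 - (PowerSeries.C E - (PowerSeries.C (m : ℂ) + 1)) *
      PowerSeries.derivative ℂ U * h2


/-- the polynomial `X ^ k U` as a power series, and its derivative -/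
theorem coe_Q (k : ℕ) (P : Polynomial ℂ) :
    ((Polynomial.X ^ k * P : Polynomial ℂ) : PowerSeries ℂ) =
      PowerSeries.X ^ k * (P : PowerSeries ℂ) := by
  rw [Polynomial.coe_mul, Polynomial.coe_pow, Polynomial.coe_X]

theorem main_e2 (hA : Sq F A) (P : Polynomial ℂ) (hP : P.eval 0 ≠ 0)
    (m : ℕ) (u : MvPolynomial σ ℂ) :
    PowerSeries.coeff (k * (m + 1)) (ps A (Polynomial.aeval F (Polynomial.X ^ k * P) * u) *
      ph (P : PowerSeries ℂ) V (m + 1)) =
    PowerSeries.coeff (k * m) (ps A u * ph (P : PowerSeries ℂ) V m) := by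
  have hU : PowerSeries.constantCoeff (P : PowerSeries ℂ) ≠ 0 := by
    rwa [Polynomial.constantCoeff_coe, ← Polynomial.coeff_zero_eq_eval_zero] at *
  rw [ps_aeval hA, coe_Q, show (PowerSeries.X ^ k * (P : PowerSeries ℂ) * ps A u *
    ph (P : PowerSeries ℂ) V (m + 1)) = PowerSeries.X ^ k * (ps A u * ((P : PowerSeries ℂ) *
    ph (P : PowerSeries ℂ) V (m + 1))) by ring, ph_succ hU, mul_add, mul_one,
    PowerSeries.coeff_X_pow_mul]


theorem main_d2 {E : ℂ} {U : PowerSeries ℂ} (hU : PowerSeries.constantCoeff U ≠ 0)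
    (hV : PowerSeries.derivative ℂ V * U = PowerSeries.C E * PowerSeries.derivative ℂ U * V)
    (l : ℕ) (hE : ((l : ℂ) + 1) * E = -1) (b : PowerSeries ℂ) (m : ℕ) :
    ((m : ℂ) - E) * PowerSeries.coeff ((l + 1) * (m + 1))
      (PowerSeries.derivative ℂ (PowerSeries.X ^ (l + 1) * U) * b * ph U V (m + 1)) =
    PowerSeries.coeff ((l + 1) * m) (PowerSeries.derivative ℂ b * ph U V m) := by
  have h1 : PowerSeries.derivative ℂ (PowerSeries.X ^ (l + 1) * U) * b * ph U V (m + 1) =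
      PowerSeries.X ^ l * (((l : ℂ) + 1) • (b * ph U V m) +
        PowerSeries.X * (b * (PowerSeries.derivative ℂ U * ph U V (m + 1)))) := by
    have h := ph_succ (V := V) hU m
    rw [Derivation.leibniz, Derivation.leibniz_pow, smul_eq_mul, smul_eq_mul, ← h,
      PowerSeries.smul_eq_C_mul, map_add, map_one, Nat.add_sub_cancel]
    have hX : PowerSeries.derivative ℂ (PowerSeries.X : PowerSeries ℂ) = 1 :=
      PowerSeries.derivative_X
    rw [hX, smul_eq_mul, mul_one, nsmul_eq_mul]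
    have hc : PowerSeries.C (l : ℂ) = ((l : ℕ) : PowerSeries ℂ) := map_natCast _ l
    rw [hc]
    push_cast
    ring
  have h2 : (l + 1) * (m + 1) = ((l + 1) * m + 1) + l := by ring
  have h3 := congrArg (PowerSeries.coeff ((l + 1) * m))
    ((PowerSeries.derivative ℂ).leibniz b (ph U V m))
  rw [PowerSeries.coeff_derivative, ph_der hU hV, smul_eq_mul, smul_eq_mul, map_add,
    show b * (PowerSeries.C (E - m) * (PowerSeries.derivative ℂ U * ph U V (m + 1))) =
      PowerSeries.C (E - m) * (b * (PowerSeries.derivative ℂ U * ph U V (m + 1))) by ring,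
    PowerSeries.coeff_C_mul, mul_comm (ph U V m)] at h3
  rw [h1, h2, PowerSeries.coeff_X_pow_mul, map_add, PowerSeries.coeff_succ_X_mul,
    PowerSeries.coeff_smul]
  push_cast at h3
  set x := PowerSeries.coeff ((l + 1) * m + 1) (b * ph U V m)
  set y := PowerSeries.coeff ((l + 1) * m) (b * (PowerSeries.derivative ℂ U * ph U V (m + 1)))
  set z := PowerSeries.coeff ((l + 1) * m) (PowerSeries.derivative ℂ b * ph U V m)
  linear_combination h3 - x * hE

theorem t : StR4b := by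
  intro σ F k P hF hu hk hP
  obtain ⟨l, rfl⟩ : ∃ l, k = l + 1 := ⟨k - 1, by omega⟩
  have hU : PowerSeries.constantCoeff (P : PowerSeries ℂ) ≠ 0 := by
    rwa [Polynomial.constantCoeff_coe, ← Polynomial.coeff_zero_eq_eval_zero] at *
  set E : ℂ := -1 / ((l + 1 : ℕ) : ℂ) with hEd
  have hl : ((l : ℂ) + 1) ≠ 0 := by exact_mod_cast Nat.succ_ne_zero l
  have hE : ((l : ℂ) + 1) * E = -1 := by
    rw [hEd]
    push_cast
    field_simp
  obtain ⟨V, hV0, hV⟩ := ode2 E (P : PowerSeries ℂ) hU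
  have hder : ∀ i, pderiv i (Polynomial.aeval F (Polynomial.X ^ (l + 1) * P)) =
      Polynomial.aeval F (Polynomial.derivative (Polynomial.X ^ (l + 1) * P)) * pderiv i F := by
    intro i
    rw [Derivation.map_aeval, smul_eq_mul]
  have hco : ((Polynomial.derivative (Polynomial.X ^ (l + 1) * P) : Polynomial ℂ) : PowerSeries ℂ) =
      PowerSeries.derivative ℂ (PowerSeries.X ^ (l + 1) * (P : PowerSeries ℂ)) := by
    rw [← PowerSeries.derivative_coe, coe_Q]
  refine ⟨{c | ∃ A, Sq F A ∧ c = cc E (l + 1) (P : PowerSeries ℂ) V A}, ⟨?_, ?_, ?_, ?_, ?_⟩, ?_⟩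
  · rintro c ⟨A, hA, rfl⟩ h
    rw [cc_apply, mul_zero, ps_aeval hA, coe_Q, pow_succ', mul_assoc, mul_assoc, mul_assoc,
      PowerSeries.coeff_zero_X_mul, mul_zero]
  · rintro c ⟨A, hA, rfl⟩ m h
    rw [cc_apply, main_e2 _ hA P hP, cc_apply, Finset.prod_range_succ]
    ring
  · rintro c ⟨A, hA, rfl⟩ i h
    obtain ⟨j, rfl⟩ : ∃ j, l = j + 1 := ⟨l - 1, by omega⟩
    rw [cc_apply, mul_zero, hder, mul_assoc, ps_aeval hA, hco, PowerSeries.coeff_zero_eq_constantCoeff_apply,
      map_mul, map_mul, Derivation.leibniz, Derivation.leibniz_pow]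
    simp
  · rintro c ⟨A, hA, rfl⟩ i
    refine ⟨_, ⟨dA F A i, dA_sq hA i, rfl⟩, fun m h => ?_⟩
    have h1 := main_d2 (V := V) hU hV l hE (ps A (pderiv i F * h)) m
    rw [cc_apply, cc_apply, cc_apply, hder, mul_assoc, ps_aeval hA, hco, ps_dA, sub_mul, map_sub,
      ← h1, Finset.prod_range_succ]
    ring
  · rintro c ⟨A, hA, rfl⟩ i
    refine ⟨_, ⟨mA A i, mA_sq hA i, rfl⟩, fun m h => ?_⟩
    rw [cc_apply, cc_apply, ps_mA]
  · obtain ⟨A, hA, h1⟩ := exA hF hu
    refine ⟨_, ⟨A, hA, rfl⟩, ?_⟩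
    rw [cc_apply, Finset.prod_range_zero, one_mul, mul_zero,
      PowerSeries.coeff_zero_eq_constantCoeff_apply, map_mul,
      ← PowerSeries.coeff_zero_eq_constantCoeff_apply, coeff_ps, ph, pow_zero, mul_one, hV0, mul_one]
    exact h1

end
end Pool.Agent.N138.RF.R4b
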