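import Pool.Agent.N138.RF.Stm

set_option autoImplicit false

/-! # Job R5: periods and renaming of the variables -/

namespace Pool.Agent.N138.RF.R5

open MvPolynomial
open Pool.Agent.N138.SU Pool.Agent.N138.SV

theorem t : StR5 := by
  intro σ τ i F e hF
  obtain ⟨S, hS, c0, hc0, hne⟩ := hF
  have hr : ∀ f : MvPolynomial σ ℂ, rename i.symm (rename i f) = f := by
    intro f
    rw [rename_rename, Equiv.symm_comp_self, rename_id_apply]
  have hpF : ∀ k, rename i.symm (pderiv k (rename i F)) = pderiv (i.symm k) F := by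
    intro k
    obtain ⟨j, rfl⟩ := i.surjective k
    rw [pderiv_rename i.injective, hr, Equiv.symm_apply_apply]
  have hp : ∀ (k : τ) (h : MvPolynomial τ ℂ),
      rename i.symm (pderiv k h) = pderiv (i.symm k) (rename i.symm h) := by
    intro k h
    rw [pderiv_rename i.symm.injective]
  refine ⟨(fun c : ℕ → MvPolynomial σ ℂ →ₗ[ℂ] ℂ =>
    fun m => (c m).comp (rename i.symm : MvPolynomial τ ℂ →ₐ[ℂ] MvPolynomial σ ℂ).toLinearMap) '' S,
    ⟨?_, ?_, ?_, ?_, ?_⟩, _, ⟨c0, hc0, rfl⟩, ?_⟩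
  · rintro _ ⟨c, hc, rfl⟩ h
    show c 0 (rename i.symm (rename i F * h)) = 0
    rw [map_mul, hr]
    exact hS.e1 c hc _
  · rintro _ ⟨c, hc, rfl⟩ m h
    show c (m + 1) (rename i.symm (rename i F * h)) = ((m : ℂ) - e) * c m (rename i.symm h)
    rw [map_mul, hr]
    exact hS.e2 c hc m _
  · rintro _ ⟨c, hc, rfl⟩ k h
    show c 0 (rename i.symm (pderiv k (rename i F) * h)) = 0
    rw [map_mul, hpF]
    exact hS.d1 c hc _ _
  · rintro _ ⟨c, hc, rfl⟩ k
    obtain ⟨c', hc', h1⟩ := hS.d2 c hc (i.symm k)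
    refine ⟨_, ⟨c', hc', rfl⟩, fun m h => ?_⟩
    show c m (rename i.symm (pderiv k h)) - c (m + 1) (rename i.symm (pderiv k (rename i F) * h)) =
      c' m (rename i.symm h)
    rw [map_mul, hpF, hp]
    exact h1 m _
  · rintro _ ⟨c, hc, rfl⟩ k
    obtain ⟨c', hc', h1⟩ := hS.mu c hc (i.symm k)
    refine ⟨_, ⟨c', hc', rfl⟩, fun m h => ?_⟩
    show c m (rename i.symm (X k * h)) = c' m (rename i.symm h)
    rw [map_mul, rename_X]
    exact h1 m _
  · show c0 0 (rename i.symm 1) ≠ 0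
    rw [map_one]
    exact hne

end Pool.Agent.N138.RF.R5
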