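import Pool.Agent.N138.RF.S1

set_option autoImplicit false
set_option linter.unusedSectionVars false

/-! # Job S of project RF, second part: polynomials without critical points -/

namespace Pool.Agent.N138.RF.S2

open MeasureTheory
open Pool.Agent.W427.SMC
open Pool.Agent.N138.SU
open Pool.Agent.N138.RF.S1

attribute [local instance] msZ bsZ

variable {p : ℕ} [Fact p.Prime]

/-- Taylor formula (compare `SU/W1.lean`) -/
theorem taylor {R τ : Type} [CommRing R] [Fintype τ] (G : MvPolynomial τ R) (y z : τ → R) (q : R)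
    (hz : ∀ i, q ∣ z i) :
    q ^ 2 ∣ MvPolynomial.eval (fun i => y i + z i) G - MvPolynomial.eval y G -
      ∑ i, z i * MvPolynomial.eval y (MvPolynomial.pderiv i G) := by
  classical
  induction G using MvPolynomial.induction_on with
  | C a => simp
  | add f g hf hg =>
    obtain ⟨a, ha⟩ := hf
    obtain ⟨b, hb⟩ := hg
    refine ⟨a + b, ?_⟩
    have e1 : ∀ i, z i * MvPolynomial.eval y (MvPolynomial.pderiv i (f + g)) =
        z i * MvPolynomial.eval y (MvPolynomial.pderiv i f) +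
        z i * MvPolynomial.eval y (MvPolynomial.pderiv i g) := by
      intro i
      rw [map_add, map_add, mul_add]
    rw [Finset.sum_congr rfl fun i _ => e1 i, Finset.sum_add_distrib, mul_add, ← ha, ← hb,
      map_add, map_add]
    ring
  | mul_X f i hf =>
    obtain ⟨a, ha⟩ := hf
    have hs : q ∣ ∑ j, z j * MvPolynomial.eval y (MvPolynomial.pderiv j f) :=
      Finset.dvd_sum fun j _ => (hz j).mul_right _
    obtain ⟨b, hb⟩ := hs
    obtain ⟨c, hc⟩ := hz i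
    have e1 : ∀ j, z j * MvPolynomial.eval y (MvPolynomial.pderiv j (f * MvPolynomial.X i)) =
        y i * (z j * MvPolynomial.eval y (MvPolynomial.pderiv j f)) +
        (if j = i then z j * MvPolynomial.eval y f else 0) := by
      intro j
      rw [MvPolynomial.pderiv_mul, map_add, map_mul, map_mul, MvPolynomial.eval_X]
      by_cases h : j = i
      · subst h
        rw [MvPolynomial.pderiv_X_self, map_one, if_pos rfl]
        ring
      · rw [MvPolynomial.pderiv_X_of_ne (Ne.symm h), map_zero, if_neg h]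
        ring
    rw [Finset.sum_congr rfl fun j _ => e1 j, Finset.sum_add_distrib, ← Finset.mul_sum,
      Finset.sum_ite_eq' Finset.univ i, if_pos (Finset.mem_univ i)]
    simp only [map_mul, MvPolynomial.eval_X]
    refine ⟨a * y i + a * (z i) + b * c, ?_⟩
    have h1 : MvPolynomial.eval (fun i => y i + z i) f = MvPolynomial.eval y f + q * b + q ^ 2 * a := by
      rw [← ha, ← hb]; ring
    rw [h1, hb, hc]
    ring

section poly

variable {V : Type} [Fintype V]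

theorem inv_lt_one' : ((p : ℝ)⁻¹) < 1 := by
  have hp1 : (1 : ℝ) < p := by exact_mod_cast (Fact.out : p.Prime).one_lt
  exact inv_lt_one_of_one_lt₀ hp1

theorem inv_pos' : 0 < ((p : ℝ)⁻¹) := by
  have hp1 : (0 : ℝ) < p := by exact_mod_cast (Fact.out : p.Prime).pos
  exact inv_pos.2 hp1

/-- the values at congruent points -/
theorem congr_eval (Q : MvPolynomial V ℤ_[p]) (K : ℕ) (y z : V → ℤ_[p])
    (h : ∀ j, PadicInt.toZModPow K (z j) = PadicInt.toZModPow K (y j)) :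
    ‖MvPolynomial.eval z Q - MvPolynomial.eval y Q‖ ≤ ((p : ℝ)⁻¹) ^ K := by
  rw [← B3.toZ_iff, map_sub, sub_eq_zero, MvPolynomial.eval, MvPolynomial.eval,
    MvPolynomial.coe_eval₂Hom, MvPolynomial.coe_eval₂Hom, MvPolynomial.hom_eval₂,
    MvPolynomial.hom_eval₂]
  congr 1
  funext j
  exact h j

theorem norm_eq_of (a b : ℤ_[p]) (h : ‖a - b‖ < ‖b‖) : ‖a‖ = ‖b‖ := by
  have h1 : a = (a - b) + b := by ring
  rw [h1, PadicInt.norm_add_eq_max_of_ne h.ne]
  exact max_eq_right h.le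

/-- a polynomial without critical points multiplies the distances on lines by a constant -/
theorem dil (F : MvPolynomial V ℤ_[p]) (c K : ℕ) (hK : c ≤ K) (y : V → ℤ_[p]) (i : V)
    (hi : ((p : ℝ)⁻¹) ^ c < ‖MvPolynomial.eval y (MvPolynomial.pderiv i F)‖) (z : V → ℤ_[p])
    (hz : ∀ j, PadicInt.toZModPow K (z j) = PadicInt.toZModPow K (y j)) (t t' : ℤ_[p]) :
    ‖MvPolynomial.eval (mv K i t z) F - MvPolynomial.eval (mv K i t' z) F‖ =
      ((p : ℝ)⁻¹) ^ K * ‖MvPolynomial.eval y (MvPolynomial.pderiv i F)‖ * ‖t - t'‖ := by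
  classical
  have hKc : ((p : ℝ)⁻¹) ^ K ≤ ((p : ℝ)⁻¹) ^ c :=
    pow_le_pow_of_le_one inv_pos'.le inv_lt_one'.le hK
  obtain ⟨y', hy'⟩ : ∃ y' : V → ℤ_[p], y' = mv K i t' z := ⟨_, rfl⟩
  obtain ⟨A, hA⟩ : ∃ A, A = MvPolynomial.eval y' (MvPolynomial.pderiv i F) := ⟨_, rfl⟩
  have hcl : ∀ j, PadicInt.toZModPow K (y' j) = PadicInt.toZModPow K (y j) := by
    have h1 := (mv_cl K i t' z (fun j => PadicInt.toZModPow K (y j))).2 hz
    rw [hy']
    exact h1
  have hAn : ‖A‖ = ‖MvPolynomial.eval y (MvPolynomial.pderiv i F)‖ := by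
    rw [hA]
    apply norm_eq_of
    exact (congr_eval _ K y y' hcl).trans_lt (hKc.trans_lt hi)
  obtain ⟨q, hq⟩ : ∃ q : ℤ_[p], q = (p : ℤ_[p]) ^ K * (t - t') := ⟨_, rfl⟩
  obtain ⟨B, hB⟩ := taylor F y' (fun j => if j = i then q else 0) q (fun j => by
    split_ifs
    · exact dvd_rfl
    · exact dvd_zero _)
  have e1 : (fun j => y' j + (if j = i then q else 0)) = mv K i t z := by
    funext j
    rw [hy']
    simp only [mv]
    split_ifs
    · rw [hq]; ring
    · ring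
  have e2 : ∑ j, (if j = i then q else 0) * MvPolynomial.eval y' (MvPolynomial.pderiv j F) =
      q * A := by
    rw [Finset.sum_eq_single i]
    · rw [if_pos rfl, hA]
    · intro j _ hj
      rw [if_neg hj, zero_mul]
    · intro hn
      exact absurd (Finset.mem_univ _) hn
  rw [e1, e2] at hB
  have e3 : MvPolynomial.eval (mv K i t z) F - MvPolynomial.eval (mv K i t' z) F =
      q * A + q ^ 2 * B := by
    rw [← hB, ← hy']; ring
  have e4 : ‖q‖ = ((p : ℝ)⁻¹) ^ K * ‖t - t'‖ := by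
    rw [hq, norm_mul, norm_pow, PadicInt.norm_p]
  rw [e3]
  by_cases hq0 : q = 0
  · have h1 : ‖q‖ = 0 := by rw [hq0, norm_zero]
    rw [e4] at h1
    rw [hq0]
    have h2 : ((p : ℝ)⁻¹) ^ K * ‖MvPolynomial.eval y (MvPolynomial.pderiv i F)‖ * ‖t - t'‖ =
      (((p : ℝ)⁻¹) ^ K * ‖t - t'‖) * ‖MvPolynomial.eval y (MvPolynomial.pderiv i F)‖ := by ring
    rw [h2, h1]
    simp
  · have hqp : 0 < ‖q‖ := norm_pos_iff.2 hq0
    have hql : ‖q‖ ≤ ((p : ℝ)⁻¹) ^ K := by
      rw [e4]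
      calc ((p : ℝ)⁻¹) ^ K * ‖t - t'‖ ≤ ((p : ℝ)⁻¹) ^ K * 1 :=
            mul_le_mul_of_nonneg_left (PadicInt.norm_le_one _) (pow_nonneg inv_pos'.le _)
        _ = _ := mul_one _
    have hlt : ‖q ^ 2 * B‖ < ‖q * A‖ := by
      rw [norm_mul, norm_mul, norm_pow, sq]
      calc ‖q‖ * ‖q‖ * ‖B‖ ≤ ‖q‖ * ‖q‖ * 1 :=
            mul_le_mul_of_nonneg_left (PadicInt.norm_le_one _) (by positivity)
        _ = ‖q‖ * ‖q‖ := mul_one _
        _ < ‖q‖ * ‖A‖ := by
          apply mul_lt_mul_of_pos_left _ hqp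
          rw [hAn]
          exact hql.trans_lt (hKc.trans_lt hi)
    rw [norm_eq_of (q * A + q ^ 2 * B) (q * A) (by
      rw [add_sub_cancel_left]; exact hlt), norm_mul, hAn, e4]
    ring

/-- the gradient is bounded from below -/
theorem grad (F : MvPolynomial V ℤ_[p])
    (hF : ∀ y : V → ℤ_[p], ∃ i, MvPolynomial.eval y (MvPolynomial.pderiv i F) ≠ 0) :
    ∃ c : ℕ, ∀ y : V → ℤ_[p], ∃ i, ((p : ℝ)⁻¹) ^ c <
      ‖MvPolynomial.eval y (MvPolynomial.pderiv i F)‖ := by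
  have hc : Continuous fun y : V → ℤ_[p] =>
      ∑ i, ‖MvPolynomial.eval y (MvPolynomial.pderiv i F)‖ :=
    continuous_finsetSum _ fun i _ => (MvPolynomial.continuous_eval _).norm
  obtain ⟨y0, _, hmin⟩ := (isCompact_univ : IsCompact (Set.univ : Set (V → ℤ_[p]))).exists_isMinOn
    ⟨0, Set.mem_univ _⟩ hc.continuousOn
  have hpos : 0 < ∑ i, ‖MvPolynomial.eval y0 (MvPolynomial.pderiv i F)‖ := by
    obtain ⟨i, hi⟩ := hF y0
    exact Finset.sum_pos' (fun i _ => norm_nonneg _) ⟨i, Finset.mem_univ _, norm_pos_iff.2 hi⟩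
  obtain ⟨m, hm⟩ : ∃ m : ℕ, m = Fintype.card V := ⟨_, rfl⟩
  obtain ⟨c, hc2⟩ := exists_pow_lt_of_lt_one
    (show 0 < (∑ i, ‖MvPolynomial.eval y0 (MvPolynomial.pderiv i F)‖) / (m + 1) by positivity)
    (inv_lt_one' (p := p))
  refine ⟨c, fun y => ?_⟩
  by_contra hno
  push Not at hno
  have h1 : ∑ i, ‖MvPolynomial.eval y0 (MvPolynomial.pderiv i F)‖ ≤
      ∑ i, ‖MvPolynomial.eval y (MvPolynomial.pderiv i F)‖ := hmin (Set.mem_univ y)
  have h2 : ∑ i, ‖MvPolynomial.eval y (MvPolynomial.pderiv i F)‖ ≤ m * ((p : ℝ)⁻¹) ^ c := by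
    refine (Finset.sum_le_sum fun i _ => hno i).trans ?_
    rw [Finset.sum_const, Finset.card_univ, nsmul_eq_mul, hm]
  rw [lt_div_iff₀ (by positivity)] at hc2
  have h3 : (0 : ℝ) < ((p : ℝ)⁻¹) ^ c := pow_pos inv_pos' _
  nlinarith

/-- clearing the denominators -/
theorem clear (F : MvPolynomial V ℚ_[p]) : ∃ (s : ℕ) (F' : MvPolynomial V ℤ_[p]),
    MvPolynomial.map PadicInt.Coe.ringHom F' = MvPolynomial.C ((p : ℚ_[p]) ^ s) * F := by
  induction F using MvPolynomial.induction_on with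
  | C a =>
    obtain ⟨s, hs⟩ : ∃ s : ℕ, ‖(p : ℚ_[p]) ^ s * a‖ ≤ 1 := by
      obtain ⟨s, hs⟩ := exists_pow_lt_of_lt_one
        (show 0 < 1 / (‖a‖ + 1) by positivity) (inv_lt_one' (p := p))
      refine ⟨s, ?_⟩
      rw [norm_mul, norm_pow, Padic.norm_p]
      rw [lt_div_iff₀ (by positivity)] at hs
      have h3 : (0 : ℝ) < ((p : ℝ)⁻¹) ^ s := pow_pos inv_pos' _
      nlinarith
    obtain ⟨b, hb⟩ : ∃ b : ℤ_[p], (b : ℚ_[p]) = (p : ℚ_[p]) ^ s * a := ⟨⟨_, hs⟩, rfl⟩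
    refine ⟨s, MvPolynomial.C b, ?_⟩
    rw [MvPolynomial.map_C, ← MvPolynomial.C_mul, ← hb]
    rfl
  | add f g hf hg =>
    obtain ⟨s, f', hf'⟩ := hf
    obtain ⟨r, g', hg'⟩ := hg
    refine ⟨s + r, MvPolynomial.C ((p : ℤ_[p]) ^ r) * f' + MvPolynomial.C ((p : ℤ_[p]) ^ s) * g', ?_⟩
    rw [map_add, map_mul, map_mul, hf', hg', MvPolynomial.map_C, MvPolynomial.map_C, map_pow,
      map_pow, map_natCast]
    simp only [map_pow, map_natCast]
    ring
  | mul_X f i hf =>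
    obtain ⟨s, f', hf'⟩ := hf
    refine ⟨s, f' * MvPolynomial.X i, ?_⟩
    rw [map_mul, hf', MvPolynomial.map_X, mul_assoc]

theorem eval_map' (F' : MvPolynomial V ℤ_[p]) (x : V → ℤ_[p]) :
    MvPolynomial.eval (fun i => ((x i : ℤ_[p]) : ℚ_[p])) (MvPolynomial.map PadicInt.Coe.ringHom F') =
      ((MvPolynomial.eval x F' : ℤ_[p]) : ℚ_[p]) := by
  rw [MvPolynomial.eval_map]
  have h4 : MvPolynomial.eval₂ PadicInt.Coe.ringHom (fun i => ((x i : ℤ_[p]) : ℚ_[p])) F' =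
      PadicInt.Coe.ringHom (MvPolynomial.eval x F') := by
    rw [MvPolynomial.eval, MvPolynomial.coe_eval₂Hom, MvPolynomial.hom_eval₂]
    rfl
  rw [h4]
  rfl

/-- the main property: on every line through a ball -/
theorem key (F : MvPolynomial V ℚ_[p]) (φ : (V → ℤ_[p]) → ℤ_[p])
    (hφ : ∀ x, ((φ x : ℤ_[p]) : ℚ_[p]) = MvPolynomial.eval (fun i => ((x i : ℤ_[p]) : ℚ_[p])) F)
    (hF : ∀ x : V → ℤ_[p], ∃ i,
      MvPolynomial.eval (fun i => ((x i : ℤ_[p]) : ℚ_[p])) (MvPolynomial.pderiv i F) ≠ 0) :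
    Continuous φ ∧ ∃ K N : ℕ, ∀ y : V → ℤ_[p], ∃ i, ∀ z : V → ℤ_[p],
      (∀ j, PadicInt.toZModPow K (z j) = PadicInt.toZModPow K (y j)) →
      ∃ c : ℤ_[p], ((p : ℝ)⁻¹) ^ N < ‖c‖ ∧
        ∀ t t', ‖φ (mv K i t z) - φ (mv K i t' z)‖ = ‖c‖ * ‖t - t'‖ := by
  obtain ⟨s, F', hs⟩ := clear F
  have hp0 : (p : ℚ_[p]) ≠ 0 := by exact_mod_cast (Fact.out : p.Prime).ne_zero
  have h1 : ∀ x, (p : ℤ_[p]) ^ s * φ x = MvPolynomial.eval x F' := by
    intro x
    apply Subtype.ext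
    have h2 := eval_map' F' x
    rw [hs, map_mul, MvPolynomial.eval_C, ← hφ x] at h2
    rw [← h2]
    push_cast
    rfl
  have hF' : ∀ y : V → ℤ_[p], ∃ i, MvPolynomial.eval y (MvPolynomial.pderiv i F') ≠ 0 := by
    intro y
    obtain ⟨i, hi⟩ := hF y
    refine ⟨i, fun h0 => hi ?_⟩
    have h2 := eval_map' (MvPolynomial.pderiv i F') y
    rw [h0, ← MvPolynomial.pderiv_map, hs, MvPolynomial.pderiv_C_mul, map_mul,
      MvPolynomial.eval_C] at h2
    have h3 : ((0 : ℤ_[p]) : ℚ_[p]) = 0 := rfl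
    rw [h3] at h2
    exact (mul_eq_zero.1 h2).resolve_left (pow_ne_zero _ hp0)
  obtain ⟨c, hc⟩ := grad F' hF'
  have hpn : ∀ x : ℤ_[p], ‖(p : ℤ_[p]) ^ s * x‖ = ((p : ℝ)⁻¹) ^ s * ‖x‖ := by
    intro x
    rw [norm_mul, norm_pow, PadicInt.norm_p]
  have hps : 0 < ((p : ℝ)⁻¹) ^ s := pow_pos inv_pos' _
  refine ⟨?_, c, c + c, fun y => ?_⟩
  · -- continuity
    have hcE : Continuous fun x : V → ℤ_[p] => MvPolynomial.eval x F' :=
      MvPolynomial.continuous_eval _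
    have hcE2 : Continuous fun x : V → ℤ_[p] => (p : ℤ_[p]) ^ s * φ x := by
      simp only [h1]
      exact hcE
    have hemb : Continuous fun x : V → ℤ_[p] => (((p : ℤ_[p]) ^ s * φ x : ℤ_[p]) : ℚ_[p]) :=
      continuous_subtype_val.comp hcE2
    have h5 : Continuous fun x : V → ℤ_[p] => ((φ x : ℤ_[p]) : ℚ_[p]) := by
      have h6 : (fun x : V → ℤ_[p] => ((φ x : ℤ_[p]) : ℚ_[p])) = fun x =>
          ((p : ℚ_[p]) ^ s)⁻¹ * (((p : ℤ_[p]) ^ s * φ x : ℤ_[p]) : ℚ_[p]) := by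
        funext x
        push_cast
        rw [inv_mul_cancel_left₀ (pow_ne_zero _ hp0)]
      rw [h6]
      exact continuous_const.mul hemb
    exact continuous_induced_rng.2 h5
  · obtain ⟨i, hi⟩ := hc y
    refine ⟨i, fun z hz => ?_⟩
    have hd := dil F' c c le_rfl y i hi z hz
    have hd2 : ∀ t t', ‖φ (mv c i t z) - φ (mv c i t' z)‖ =
        ‖φ (mv c i 1 z) - φ (mv c i 0 z)‖ * ‖t - t'‖ := by
      intro t t'
      have e1 := hd t t'
      have e2 := hd 1 0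
      rw [← h1, ← h1, ← mul_sub, hpn] at e1 e2
      rw [sub_zero, norm_one, mul_one] at e2
      rw [← e2] at e1
      apply mul_left_cancel₀ hps.ne'
      rw [e1]
      ring
    refine ⟨φ (mv c i 1 z) - φ (mv c i 0 z), ?_, hd2⟩
    have e2 := hd 1 0
    rw [← h1, ← h1, ← mul_sub, hpn, sub_zero, norm_one, mul_one] at e2
    have h7 : ‖φ (mv c i 1 z) - φ (mv c i 0 z)‖ ≥
        ((p : ℝ)⁻¹) ^ s * ‖φ (mv c i 1 z) - φ (mv c i 0 z)‖ := by
      calc ‖φ (mv c i 1 z) - φ (mv c i 0 z)‖ = 1 * ‖φ (mv c i 1 z) - φ (mv c i 0 z)‖ :=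
            (one_mul _).symm
        _ ≥ _ := mul_le_mul_of_nonneg_right
            (pow_le_one₀ inv_pos'.le inv_lt_one'.le) (norm_nonneg _)
    refine lt_of_lt_of_le ?_ h7
    rw [e2, pow_add]
    exact mul_lt_mul_of_pos_left hi (pow_pos inv_pos' _)

variable (F : MvPolynomial V ℚ_[p]) (φ : (V → ℤ_[p]) → ℤ_[p])
    (hφ : ∀ x, ((φ x : ℤ_[p]) : ℚ_[p]) = MvPolynomial.eval (fun i => ((x i : ℤ_[p]) : ℚ_[p])) F)
    (hF : ∀ x : V → ℤ_[p], ∃ i,
      MvPolynomial.eval (fun i => ((x i : ℤ_[p]) : ℚ_[p])) (MvPolynomial.pderiv i F) ≠ 0)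

include hφ hF

/-- the invariance of the distribution -/
theorem lin (l : ℤ_[p]) : ∃ N : ℕ, ∀ v : ℤ_[p], ‖v - 1‖ ≤ ((p : ℝ)⁻¹) ^ N → ∀ h : ℤ_[p] → ℂ,
    Measurable h → (∃ B : ℝ, ∀ z, ‖h z‖ ≤ B) →
    ∫ y, h (v * (φ y - l)) ∂(Measure.pi fun _ : V => mu p) =
      ∫ y, h (φ y - l) ∂(Measure.pi fun _ : V => mu p) := by
  obtain ⟨hcont, K, N, hkey⟩ := key F φ hφ hF
  refine ⟨N + 1, fun v hv h hh hb => ?_⟩
  obtain ⟨B, hB⟩ := hb
  have hv1 : ‖v‖ = 1 := by
    have h1 : ‖v - 1‖ < ‖(1 : ℤ_[p])‖ := by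
      rw [norm_one]
      refine hv.trans_lt (pow_lt_one₀ inv_pos'.le inv_lt_one' (Nat.succ_ne_zero N))
    rw [norm_eq_of v 1 h1, norm_one]
  have hm1 : Measurable fun y : V → ℤ_[p] => h (v * (φ y - l)) :=
    hh.comp (continuous_const.mul (hcont.sub continuous_const)).measurable
  have hm2 : Measurable fun y : V → ℤ_[p] => h (φ y - l) :=
    hh.comp (hcont.sub continuous_const).measurable
  have hi1 : Integrable (fun y : V → ℤ_[p] => h (v * (φ y - l))) (Measure.pi fun _ : V => mu p) :=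
    Integrable.of_bound hm1.aestronglyMeasurable B (Filter.Eventually.of_forall fun y => hB _)
  have hi2 : Integrable (fun y : V → ℤ_[p] => h (φ y - l)) (Measure.pi fun _ : V => mu p) :=
    Integrable.of_bound hm2.aestronglyMeasurable B (Filter.Eventually.of_forall fun y => hB _)
  rw [← sub_eq_zero, ← integral_sub hi1 hi2]
  refine avg K (fun y : V → ℤ_[p] => h (v * (φ y - l)) - h (φ y - l)) (hm1.sub hm2) (B + B)
    (fun y => (norm_sub_le _ _).trans (add_le_add (hB _) (hB _))) fun y => ?_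
  obtain ⟨i, hi⟩ := hkey y
  refine ⟨i, fun z hz => ?_⟩
  obtain ⟨c, hc, hct⟩ := hi z hz
  have hc0 : c ≠ 0 := by
    rintro rfl
    rw [norm_zero] at hc
    exact absurd hc (not_lt.2 (pow_pos inv_pos' _).le)
  have hmv : Continuous fun t : ℤ_[p] => mv K i t z := by
    classical
    refine continuous_pi fun j => ?_
    unfold mv
    by_cases hj : j = i
    · simp only [if_pos hj]
      exact (continuous_const.mul continuous_id).add continuous_const
    · simp only [if_neg hj]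
      exact continuous_const
  have hn1 : Measurable fun t : ℤ_[p] => h (v * (φ (mv K i t z) - l)) :=
    hh.comp (continuous_const.mul ((hcont.comp hmv).sub continuous_const)).measurable
  have hn2 : Measurable fun t : ℤ_[p] => h (φ (mv K i t z) - l) :=
    hh.comp ((hcont.comp hmv).sub continuous_const).measurable
  rw [integral_sub (Integrable.of_bound hn1.aestronglyMeasurable B
    (Filter.Eventually.of_forall fun y => hB _)) (Integrable.of_bound hn2.aestronglyMeasurable B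
    (Filter.Eventually.of_forall fun y => hB _)), sub_eq_zero]
  refine line_inv (fun t => φ (mv K i t z) - l) c hc0 (fun t t' => ?_) v hv1 ?_ h hh
  · show ‖φ (mv K i t z) - l - (φ (mv K i t' z) - l)‖ = _
    rw [sub_sub_sub_cancel_right, hct]
  · refine hv.trans (le_trans ?_ hc.le)
    exact pow_le_pow_of_le_one inv_pos'.le inv_lt_one'.le (Nat.le_succ N)

/-- the exponential sums vanish -/
theorem es (l : ℤ_[p]) : ∃ e0 : ℕ, ∀ (e : ℕ) (u : ℤ_[p]), e0 ≤ e → ‖u‖ = 1 →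
    Es (Measure.pi fun _ : V => mu p) (fun y => φ y - l) e u = 0 := by
  obtain ⟨hcont, K, N, hkey⟩ := key F φ hφ hF
  refine ⟨N, fun e u he hu => ?_⟩
  unfold Es
  have hm : Measurable fun y : V → ℤ_[p] => psi p e (u * (φ y - l)) :=
    ((B3.psi_cont e).comp (continuous_const.mul (hcont.sub continuous_const))).measurable
  refine avg K (fun y : V → ℤ_[p] => psi p e (u * (φ y - l))) hm 1
    (fun y => (B3.psi_norm e _).le) fun y => ?_
  obtain ⟨i, hi⟩ := hkey y
  refine ⟨i, fun z hz => ?_⟩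
  obtain ⟨c, hc, hct⟩ := hi z hz
  have hc0 : c ≠ 0 := by
    rintro rfl
    rw [norm_zero] at hc
    exact absurd hc (not_lt.2 (pow_pos inv_pos' _).le)
  refine line_psi (fun t => φ (mv K i t z) - l) c hc0 (fun t t' => ?_) u hu e ?_
  · show ‖φ (mv K i t z) - l - (φ (mv K i t' z) - l)‖ = _
    rw [sub_sub_sub_cancel_right, hct]
  · exact (pow_le_pow_of_le_one inv_pos'.le inv_lt_one'.le he).trans_lt hc

/-- the components of the exponential sums vanish -/
theorem eh (l : ℤ_[p]) (χ : UC p) :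
    (fun e : ℕ => Eh (Measure.pi fun _ : V => mu p) (fun y => φ y - l) χ e) ∈
      Pool.Agent.Y230.PS.N0 := by
  obtain ⟨e0, he0⟩ := es F φ hφ hF l
  rw [Pool.Agent.Y230.PS.mem_N0]
  refine ⟨e0, fun e he => ?_⟩
  have hun : MeasurableSet (un p) := by
    have : un p = {u : ℤ_[p] | ‖u‖ = 1} := rfl
    rw [this]
    exact (isClosed_eq continuous_norm continuous_const).measurableSet
  unfold Eh
  rw [setIntegral_congr_fun (g := fun _ => (0 : ℂ)) hun fun u hu => ?_]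
  · simp
  · show (starRingEnd ℂ) (χ.X (u : ℚ_[p])) * Es _ _ e u = 0
    rw [he0 e u he hu, mul_zero]

end poly

end Pool.Agent.N138.RF.S2
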