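import Pool.Agent.N138.RF.Stm
import Pool.Agent.N138.RF.S2

set_option autoImplicit false

/-! # Job S of project RF: polynomials without critical points -/

namespace Pool.Agent.N138.RF.S

open MvPolynomial MeasureTheory
open Pool.Agent.W427.SMC (msZ bsZ mu)
open Pool.Agent.Y230.PT (msK bsK inc)
open Pool.Agent.Y230.PS (EP N0_EP)
open Pool.Agent.N138.SU Pool.Agent.N138.SV

attribute [local instance] msK bsK msZ bsZ

theorem t : StS := fun p _ V _ F φ hM hF l =>
  ⟨Pool.Agent.N138.RF.S2.lin F φ hM hF l,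
    fun χ => N0_EP _ (Pool.Agent.N138.RF.S2.eh F φ hM hF l χ)⟩

end Pool.Agent.N138.RF.S
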