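import Pool.Agent.N138.RF.Stm
import Pool.Agent.N138.SU.W1

set_option autoImplicit false

/-! # Job Wh: the exponential sums of weighted homogeneous polynomials with an isolated critical
point, all multiplicities are one -/

namespace Pool.Agent.N138.RF.Wh

section poly

open Polynomial
open Pool.Agent.Y230.PS

open Classical in
theorem ep_rec (c : ℕ → ℂ) (A : ℂ) (hA : A ≠ 0) (D e0 : ℕ) (hD : 0 < D)
    (h : ∀ e, e0 ≤ e → A * c (e + D) = c e) :
    c ∈ EP (fun T => if T ^ D = A then 1 else 0) := by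
  have hQ : (C A - X ^ D : ℂ[X]) ≠ 0 := by
    intro h0
    have h1 := congrArg (fun q : ℂ[X] => q.coeff 0) h0
    simp only [coeff_sub, coeff_C_zero, coeff_X_pow, coeff_zero] at h1
    rw [if_neg (by omega)] at h1
    simp at h1
    exact hA h1
  refine rat_EP _ (C A - X ^ D) hQ c
    (∑ n ∈ Finset.range (e0 + D), monomial n (PowerSeries.coeff n
      (((C A - X ^ D : ℂ[X]) : PowerSeries ℂ) * ser c))) ?_ ?_
  · ext n
    rw [Polynomial.coeff_coe, Polynomial.finsetSum_coeff]
    simp only [Polynomial.coeff_monomial]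
    rw [Finset.sum_ite_eq' (Finset.range (e0 + D)) n]
    by_cases hn : n < e0 + D
    · rw [if_pos (Finset.mem_range.2 hn)]
    · rw [if_neg (fun h => hn (Finset.mem_range.1 h))]
      rw [Polynomial.coe_sub, Polynomial.coe_C, Polynomial.coe_pow, Polynomial.coe_X, sub_mul,
        map_sub, PowerSeries.coeff_C_mul, PowerSeries.coeff_X_pow_mul', if_pos (by omega),
        coeff_ser, coeff_ser]
      have h1 := h (n - D) (by omega)
      rw [Nat.sub_add_cancel (by omega)] at h1
      rw [h1, sub_self]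
  · intro T hT
    by_cases hr : T ^ D = A
    · rw [if_pos hr]
      have h1 : (C A - X ^ D : ℂ[X]).rootMultiplicity T ≤ 1 := by
        by_contra hcon
        have h2 : 1 < (C A - X ^ D : ℂ[X]).rootMultiplicity T := by omega
        rw [Polynomial.one_lt_rootMultiplicity_iff_isRoot hQ] at h2
        have h3 := h2.2
        rw [Polynomial.IsRoot.def, Polynomial.derivative_sub, Polynomial.derivative_C,
          Polynomial.derivative_X_pow, zero_sub, Polynomial.eval_neg, Polynomial.eval_mul,
          Polynomial.eval_C, Polynomial.eval_pow, Polynomial.eval_X, neg_eq_zero, mul_eq_zero] at h3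
        rcases h3 with h3 | h3
        · have : D = 0 := by exact_mod_cast h3
          omega
        · exact pow_ne_zero (D - 1) hT h3
      exact_mod_cast h1
    · rw [if_neg hr]
      have h1 : (C A - X ^ D : ℂ[X]).rootMultiplicity T = 0 := by
        apply Polynomial.rootMultiplicity_eq_zero
        intro h2
        rw [Polynomial.IsRoot.def, Polynomial.eval_sub, Polynomial.eval_C, Polynomial.eval_pow,
          Polynomial.eval_X, sub_eq_zero] at h2
        exact hr h2.symm
      rw [h1]
      simp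

end poly

open MeasureTheory
open Pool.Agent.W427.SMC (msZ bsZ mu)
open Pool.Agent.N138.SU

attribute [local instance] msZ bsZ

variable {p : ℕ} [hp : Fact p.Prime] {τ : Type} [Fintype τ]

/-- the distribution is invariant -/
theorem lin (G : MvPolynomial τ ℤ_[p]) (w : τ → ℕ) (D : ℕ) (hD : 0 < D)
    (hG : G.IsWeightedHomogeneous w D) :
    ∃ N : ℕ, LIn (Measure.pi fun _ : τ => mu p) (fun y => MvPolynomial.eval y G) N := by
  obtain ⟨C, -, h⟩ := B2B.root p D hD
  refine ⟨C, fun v hv g hg _ => ?_⟩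
  obtain ⟨a, ha⟩ := h v hv
  have hf : Measurable fun y : τ → ℤ_[p] => g (MvPolynomial.eval y G) :=
    hg.comp (W1.cont_eval G).measurable
  have hm := W1.mp_pi (p := p) a w
  have h1 := integral_map (μ := Measure.pi fun _ : τ => mu p) hm.measurable.aemeasurable
    (f := fun y : τ → ℤ_[p] => g (MvPolynomial.eval y G)) hf.aestronglyMeasurable
  rw [hm.map_eq] at h1
  rw [h1]
  refine integral_congr_ae (Filter.Eventually.of_forall fun y => ?_)
  show g (v * MvPolynomial.eval y G) =
    g (MvPolynomial.eval (fun i => ((a ^ w i : ℤ_[p]ˣ) : ℤ_[p]) * y i) G)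
  congr 1
  have h2 := W1.eval_hom G w D hG (a : ℤ_[p]) y
  simp only [Units.val_pow_eq_pow_val]
  rw [h2, ha]

theorem t : StWh := by
  intro p hp τ _ G w D hw hD hG hz
  refine ⟨lin G w D hD hG, fun χ => ?_⟩
  obtain ⟨-, e0, he⟩ := W1.t p G w D hw hD hG hz
  have hp0 : ((p : ℂ) ^ (∑ i, w i)) ≠ 0 :=
    pow_ne_zero _ (by exact_mod_cast (Fact.out : p.Prime).ne_zero)
  refine ep_rec _ ((p : ℂ) ^ (∑ i, w i)) hp0 D e0 hD fun e hee => ?_
  show (p : ℂ) ^ (∑ i, w i) * Eh _ _ χ (e + D) = Eh _ _ χ e
  unfold Eh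
  rw [← integral_const_mul]
  refine setIntegral_congr_fun B2C.meas_un fun u hu => ?_
  have h1 := he e u hee hu
  show (p : ℂ) ^ (∑ i, w i) * ((starRingEnd ℂ) (χ.X (u : ℚ_[p])) * Es _ _ (e + D) u) =
    (starRingEnd ℂ) (χ.X (u : ℚ_[p])) * Es _ _ e u
  rw [← h1]
  ring

end Pool.Agent.N138.RF.Wh
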