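import Pool.Agent.N138.RF.E4
import Pool.Agent.N138.RF.C5
import Pool.Agent.N138.RF.D
import Pool.Agent.N138.RF.G1
import Pool.Agent.N138.RF.G2
import Pool.Agent.N138.RF.G3
import Pool.Agent.N138.RF.G4
import Pool.Agent.N138.RF.G5
import Pool.Agent.N138.RF.L1
import Pool.Agent.N138.RF.L2
import Pool.Agent.N138.RF.L3
import Pool.Agent.N138.RF.L4
import Pool.Agent.N138.RF.L5
import Pool.Agent.N138.RF.L6
import Pool.Agent.N138.RF.L7
import Pool.Agent.N138.RF.R0
import Pool.Agent.N138.RF.R1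
import Pool.Agent.N138.RF.R2
import Pool.Agent.N138.RF.R3
import Pool.Agent.N138.RF.R4
import Pool.Agent.N138.RF.R4b
import Pool.Agent.N138.RF.R5
import Pool.Agent.N138.RF.R6
import Pool.Agent.N138.RF.S
import Pool.Agent.N138.RF.Wh

set_option autoImplicit false

/-! # All the statements hold -/

namespace Pool.Agent.N138.RF

theorem hy3 : E3.Hy3 where
  r := {
    r5 := R5.t
    g1 := G1.t L1.t R0.t
    g2 := G2.t L2.t L3.t L4.t L5.t Du.t R1.t R2.t R3.t R5.t
    g3 := G3.t L6.t L7.t R4.t R4b.t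
    g4 := G4.t C5.t
    g5 := G5.t S.t Wh.t R6.t }
  d := D.t

end Pool.Agent.N138.RF
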