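import Pool.Agent.N138.SV.Cl2

set_option autoImplicit false

/-! # The formulas over the plane curves and the weighted homogeneous polynomials -/

namespace Pool.Agent.N138.RF

open MvPolynomial Pool.Agent.Y230.PS Pool.Agent.Y230.TH Pool.Agent.R852.PP Pool.Agent.N138.SU
open Pool.Agent.N138.SV

/-- The smallest class of polynomials `F`, in any finite set of variables `V`, with the following
properties. -/
inductive RO : (V : Type) → MvPolynomial V ℚ → Prop
  /-- it contains all nonconstant polynomials in two variables -/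
  | curve (f : MvPolynomial (Fin 2) ℚ) (hf : ∀ c : ℚ, f ≠ C c) : RO (Fin 2) f
  /-- it contains the weighted homogeneous polynomials with an isolated critical point -/
  | wh (τ : Type) [Fintype τ] [Nonempty τ] (G : MvPolynomial τ ℚ) (w : τ → ℕ) (D : ℕ)
      (hG : IsWH G w D) : RO τ G
  /-- the sums `F(x) + G(y)` -/
  | add (V W : Type) [Fintype V] [Fintype W] (F : MvPolynomial V ℚ) (G : MvPolynomial W ℚ)
      (hF : RO V F) (hG : RO W G) : RO (V ⊕ W) (rename Sum.inl F + rename Sum.inr G)
  /-- the products `F(x) G(y)` -/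
  | mul (V W : Type) [Fintype V] [Fintype W] (F : MvPolynomial V ℚ) (G : MvPolynomial W ℚ)
      (hF : RO V F) (hG : RO W G) : RO (V ⊕ W) (rename Sum.inl F * rename Sum.inr G)
  /-- the compositions `P(F(x))`, for every nonconstant polynomial `P` in one variable -/
  | comp (V : Type) [Fintype V] (F : MvPolynomial V ℚ) (P : Polynomial ℚ) (hP : 1 ≤ P.natDegree)
      (hF : RO V F) : RO V (Polynomial.aeval F P)
  /-- variables which do not occur may be dropped -/
  | drop (V κ : Type) [Fintype V] [Fintype κ] (F : MvPolynomial V ℚ)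
      (hF : RO (V ⊕ κ) (rename Sum.inl F)) : RO V F
  /-- the variables may be renamed -/
  | equiv (V W : Type) [Fintype V] [Fintype W] (i : V ≃ W) (F : MvPolynomial V ℚ)
      (hF : RO V F) : RO W (rename i F)

/-- The smallest classes of ideals, of polynomials, and of polynomials `F` for which the sums
`F(x) + G(y)` may be formed, with the following properties. They contain the classes `Cl2`, and the
formulas `RO`. A polynomial `F` is the family with the only member `F`, `hyp F`. -/
inductive Cl3 : Kd → FamQ → Prop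
  /-- the members of the class `Cl2` -/
  | cl (c : Kd) (A : FamQ) (h : Cl2 c A) : Cl3 c A
  /-- the formulas -/
  | ro (V : Type) [Fintype V] (F : MvPolynomial V ℚ) (h : RO V F) : Cl3 .susp (hyp F)
  /-- the sums `F(x) + G(y)`, `G` weighted homogeneous with an isolated critical point -/
  | add (V τ : Type) [Fintype V] [Fintype τ] [Nonempty τ] (F : MvPolynomial V ℚ)
      (G : MvPolynomial τ ℚ) (w : τ → ℕ) (D : ℕ) (hG : IsWH G w D)
      (hF : Cl3 .susp (hyp F)) : Cl3 .susp (hyp (addF F G))
  /-- the polynomials `∑ y_j f_j(x)` -/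
  | univ (A : FamQ) (hA : Cl3 .ideal A) : Cl3 .susp A.univ
  /-- the Thom-Sebastiani sums `∑ y_j f_j(x) + g(z)` -/
  | ts (c : Kd) (hc : c ≠ .ideal) (A : FamQ) (τ : Type) [Fintype τ] (g : MvPolynomial τ ℚ)
      (hA : Cl3 .ideal A) (hg : Cl3 c (hyp g)) : Cl3 c (tsum A τ g)
  /-- the product of two polynomials, or two ideals, in disjoint sets of variables -/
  | mul (c : Kd) (A B : FamQ) (hA : Cl3 c A) (hB : Cl3 c B) : Cl3 c (A.mul B)
  /-- variables which do not occur may be dropped -/
  | drop (c : Kd) (hc : c ≠ .ideal) (V κ : Type) [Fintype V] [Fintype κ] (g : MvPolynomial V ℚ)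
      (h : Cl3 c (hyp (rename Sum.inl g : MvPolynomial (V ⊕ κ) ℚ))) : Cl3 c (hyp g)
  /-- the variables and the generators may be indexed differently -/
  | equiv (c : Kd) (A B : FamQ) (i : A.σ ≃ B.σ) (k : A.ι ≃ B.ι)
      (h : ∀ j, B.f (k j) = rename i (A.f j)) (hA : Cl3 c A) : Cl3 c B
  /-- the third class is contained in the second one -/
  | poly (A : FamQ) (h : Cl3 .susp A) : Cl3 .poly A
  /-- the products of powers `h(x) ∏_t (∑_j y_{t, j} f_{t, j}(x)) ^ a_t`, if the ideal
  `h ∏_t (f_{t, j})_j ^ a_t` is in the class -/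
  | form (V : Type) [Fintype V] (m : ℕ) (r a : Fin m → ℕ) (hm : 0 < m) (ha : ∀ t, 0 < a t)
      (h : MvPolynomial V ℚ) (f : (t : Fin m) → Fin (r t) → MvPolynomial V ℚ)
      (hA : Cl3 .ideal (genQ a h f)) : Cl3 .poly (formQ a h f)
  /-- a polynomial is a principal ideal -/
  | prin (A : FamQ) (h : Cl3 .poly A) : Cl3 .ideal A
  /-- the powers of a polynomial -/
  | pow (V : Type) [Fintype V] (g : MvPolynomial V ℚ) (k : ℕ) (hk : k ≠ 0)
      (h : Cl3 .poly (hyp g)) : Cl3 .ideal (hyp (g ^ k))
  /-- the sum of two ideals in disjoint sets of variables -/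
  | sum (A B : FamQ) (hA : Cl3 .ideal A) (hB : Cl3 .ideal B) : Cl3 .ideal (A.sum B)
  /-- a polynomial `F` is in the second class if the ideal `(F)` is in the first one and `(s + 1) ^ 2`
  divides every Bernstein-Sato polynomial of `F` -/
  | up (V : Type) [Fintype V] (F : MvPolynomial V ℚ)
      (hm : ∀ b : Polynomial ℂ, Pool.Agent.H628R4.TP.IsBFunction (map (algebraMap ℚ ℂ) F) b →
        (Polynomial.X + 1) ^ 2 ∣ b)
      (h : Cl3 .ideal (hyp F)) : Cl3 .poly (hyp F)

end Pool.Agent.N138.RF
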