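import Pool.Agent.N138.SV.Stm
import Pool.Agent.N138.SV.B3
import Pool.Agent.N138.SU.Stm2
import Pool.Agent.N138.SU.Stm3

set_option autoImplicit false
set_option linter.unusedSectionVars false

/-! # Read-once formulas over plane curves: definitions -/

namespace Pool.Agent.N138.RF

open MvPolynomial MeasureTheory
open Pool.Agent.W427.SMC (msZ bsZ mu)
open Pool.Agent.Y230.PT (msK bsK inc)
open Pool.Agent.Y230.PS (EP)
open Pool.Agent.N138.SU Pool.Agent.N138.SV

attribute [local instance] msK bsK msZ bsZ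

section Tens

variable {σ τ : Type}

/-- the tensor product of two functionals -/
noncomputable def tens (a : MvPolynomial σ ℂ →ₗ[ℂ] ℂ) (b : MvPolynomial τ ℂ →ₗ[ℂ] ℂ) :
    MvPolynomial (σ ⊕ τ) ℂ →ₗ[ℂ] ℂ :=
  (basisMonomials (σ ⊕ τ) ℂ).constr ℂ fun s : σ ⊕ τ →₀ ℕ =>
    a (monomial (s.comapDomain Sum.inl Sum.inl_injective.injOn) 1) *
      b (monomial (s.comapDomain Sum.inr Sum.inr_injective.injOn) 1)

theorem prod_mon (u : σ →₀ ℕ) (v : τ →₀ ℕ) :
    (rename Sum.inl (monomial u (1 : ℂ)) * rename Sum.inr (monomial v (1 : ℂ)) :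
      MvPolynomial (σ ⊕ τ) ℂ) = monomial (Finsupp.sumElim u v) 1 := by
  have h : Finsupp.mapDomain Sum.inl u + Finsupp.mapDomain Sum.inr v = Finsupp.sumElim u v := by
    ext i
    rcases i with i | i
    · rw [Finsupp.add_apply, Finsupp.mapDomain_apply Sum.inl_injective,
        Finsupp.mapDomain_of_notMem_range _ _ (by simp)]
      simp
    · rw [Finsupp.add_apply, Finsupp.mapDomain_apply Sum.inr_injective,
        Finsupp.mapDomain_of_notMem_range _ _ (by simp)]
      simp
  rw [rename_monomial, rename_monomial, monomial_mul, mul_one, h]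

theorem tens_mon (a : MvPolynomial σ ℂ →ₗ[ℂ] ℂ) (b : MvPolynomial τ ℂ →ₗ[ℂ] ℂ)
    (u : σ →₀ ℕ) (v : τ →₀ ℕ) : tens a b (rename Sum.inl (monomial u (1 : ℂ)) *
      rename Sum.inr (monomial v (1 : ℂ))) = a (monomial u 1) * b (monomial v 1) := by
  rw [prod_mon]
  have h := (basisMonomials (σ ⊕ τ) ℂ).constr_basis ℂ (fun s : σ ⊕ τ →₀ ℕ =>
    a (monomial (s.comapDomain Sum.inl Sum.inl_injective.injOn) 1) *
      b (monomial (s.comapDomain Sum.inr Sum.inr_injective.injOn) 1)) (Finsupp.sumElim u v)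
  rw [coe_basisMonomials] at h
  unfold tens
  rw [h]
  congr 2
  · congr 1
    ext i
    simp
  · congr 1
    ext i
    simp

/-- two functionals which agree on the products are equal -/
theorem tens_ext {M : Type} [AddCommMonoid M] [Module ℂ M] {A B : MvPolynomial (σ ⊕ τ) ℂ →ₗ[ℂ] M}
    (h : ∀ (u : MvPolynomial σ ℂ) (v : MvPolynomial τ ℂ),
      A (rename Sum.inl u * rename Sum.inr v) = B (rename Sum.inl u * rename Sum.inr v)) :
    A = B := by
  refine (basisMonomials (σ ⊕ τ) ℂ).ext fun s => ?_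
  rw [coe_basisMonomials]
  have h1 := h (monomial (s.comapDomain Sum.inl Sum.inl_injective.injOn) 1)
    (monomial (s.comapDomain Sum.inr Sum.inr_injective.injOn) 1)
  rw [prod_mon] at h1
  have h2 : Finsupp.sumElim (s.comapDomain Sum.inl Sum.inl_injective.injOn)
      (s.comapDomain Sum.inr Sum.inr_injective.injOn) = s := by
    ext i
    rcases i with i | i <;> simp
  rw [h2] at h1
  exact h1

/-- the defining property of the tensor product -/
theorem tens_apply (a : MvPolynomial σ ℂ →ₗ[ℂ] ℂ) (b : MvPolynomial τ ℂ →ₗ[ℂ] ℂ)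
    (u : MvPolynomial σ ℂ) (v : MvPolynomial τ ℂ) :
    tens a b (rename Sum.inl u * rename Sum.inr v) = a u * b v := by
  induction u using MvPolynomial.induction_on' with
  | add u1 u2 h1 h2 => rw [map_add, add_mul, map_add, h1, h2, map_add, add_mul]
  | monomial s r =>
    induction v using MvPolynomial.induction_on' with
    | add v1 v2 h1 h2 => rw [map_add, mul_add, map_add, h1, h2, map_add, mul_add]
    | monomial t q =>
      have e1 : (monomial s r : MvPolynomial σ ℂ) = r • monomial s 1 := by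
        rw [smul_monomial, smul_eq_mul, mul_one]
      have e2 : (monomial t q : MvPolynomial τ ℂ) = q • monomial t 1 := by
        rw [smul_monomial, smul_eq_mul, mul_one]
      rw [e1, e2, map_smul, map_smul, map_smul, map_smul, smul_mul_smul_comm, map_smul, tens_mon,
        smul_eq_mul, smul_eq_mul, smul_eq_mul]
      ring

end Tens

/-- the multiplicities of the products `T_1 T_2` of two poles are controlled -/
def PC (m1 m2 m3 : ℂ → ℕ∞) : Prop :=
  ∀ T1 T2 : ℂ, T1 ≠ 0 → T2 ≠ 0 → ∀ a b : ℕ, 1 ≤ a → 1 ≤ b → (a : ℕ∞) ≤ m1 T1 →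
    (b : ℕ∞) ≤ m2 T2 → ((a + b - 1 : ℕ) : ℕ∞) ≤ m3 (T1 * T2)

section Pad

variable {p : ℕ} [Fact p.Prime] {Y : Type} [MeasurableSpace Y] (ν : Measure Y) (φ : Y → ℤ_[p])

/-- the distribution of `φ` is invariant under the multiplication by `v`, if `v` is near `1` -/
def LIn (N : ℕ) : Prop := ∀ v : ℤ_[p], ‖v - 1‖ ≤ ((p : ℝ)⁻¹) ^ N → ∀ h : ℤ_[p] → ℂ,
  Measurable h → (∃ B : ℝ, ∀ z, ‖h z‖ ≤ B) → ∫ y, h (v * φ y) ∂ν = ∫ y, h (φ y) ∂ν

/-- `φ` is good: its distribution is invariant under the multiplication by the numbers near `1`, and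
the components of the exponential sums have the multiplicities `m` -/
def Gd (m : ℂ → ℕ∞) : Prop :=
  (∃ N, LIn ν φ N) ∧ ∀ χ : UC p, (fun e : ℕ => Eh ν φ χ e) ∈ EP m

end Pad

section Glob

variable {p : ℕ} [Fact p.Prime]

/-- `φ` is the function of the polynomial `F` -/
def IsM {V : Type} (F : MvPolynomial V ℚ_[p]) (φ : (V → ℤ_[p]) → ℤ_[p]) : Prop :=
  ∀ x, inc p (φ x) = eval (fun i => inc p (x i)) F

/-- the function `φ` on the ball with the centre `a` and the radius `p ^ (-k)` -/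
noncomputable def bal {V : Type} (φ : (V → ℤ_[p]) → ℤ_[p]) (a : V → ℤ_[p]) (k : ℕ) (y : V → ℤ_[p]) : ℤ_[p] :=
  φ (fun i => a i + (p : ℤ_[p]) ^ k * y i)

/-- `F` is good: near every point `P`, the function `F - F(P)` is good on all balls, and the
multiplicities are given by the periods of `F - F(P)` -/
def GI (emb : ℚ_[p] →+* ℂ) {V : Type} [Fintype V] (F : MvPolynomial V ℚ_[p]) : Prop :=
  ∃ φ : (V → ℤ_[p]) → ℤ_[p], IsM F φ ∧ ∀ P : V → ℤ_[p], ∃ k0 : ℕ, ∀ (a : V → ℤ_[p]) (k : ℕ),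
    k0 ≤ k → (∀ i, ‖a i - P i‖ ≤ ((p : ℝ)⁻¹) ^ k0) →
    Gd (Measure.pi fun _ : V => mu p) (fun y => bal φ a k y - φ P)
      (mP p (map emb F - C (emb (inc p (φ P)))))

end Glob

end Pool.Agent.N138.RF
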