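import Pool.Agent.N138.RF.Stm
import Pool.Agent.N138.SV.Fin

set_option autoImplicit false
set_option linter.unusedSectionVars false
set_option linter.unusedVariables false

/-! # Good polynomials: dropping and renaming variables -/

namespace Pool.Agent.N138.RF.E1

open MeasureTheory Pool.Agent.W574.SM Pool.Agent.Y230.RE Pool.Agent.Y230.PL Polynomial
open Pool.Agent.Y230.PT Pool.Agent.Y465.TH Pool.Agent.Y230.PS Pool.Agent.Y230.TH
open Pool.Agent.W427.SMC (msZ bsZ mu tr' tr'_pos tr'_lt tr'_le Conv exists_s)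
open Pool.Agent.N138.SU Pool.Agent.N138.SV

variable {p : ℕ} [Fact p.Prime]

attribute [local instance] msK bsK msZ bsZ

/-- change of the probability space -/
theorem Gd_mp {Y Y' : Type} [MeasurableSpace Y] [MeasurableSpace Y'] {ν : Measure Y}
    {ν' : Measure Y'} [IsProbabilityMeasure ν] [IsProbabilityMeasure ν'] {Φ : Y → Y'}
    (hΦ : MeasurePreserving Φ ν ν') {ψ : Y' → ℤ_[p]} (hψ : Measurable ψ) (m : ℂ → ℕ∞) :
    Gd ν (fun y => ψ (Φ y)) m ↔ Gd ν' ψ m := by
  have h1 : ∀ N, LIn ν (fun y => ψ (Φ y)) N ↔ LIn ν' ψ N := by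
    intro N
    unfold LIn
    have h2 : ∀ h : ℤ_[p] → ℂ, Measurable h → ∫ y, h (ψ (Φ y)) ∂ν = ∫ y, h (ψ y) ∂ν' := by
      intro h hm
      rw [← hΦ.map_eq, integral_map hΦ.measurable.aemeasurable]
      exact (hm.comp hψ).aestronglyMeasurable
    have h3 : ∀ (v : ℤ_[p]) (h : ℤ_[p] → ℂ), Measurable h →
        ∫ y, h (v * ψ (Φ y)) ∂ν = ∫ y, h (v * ψ y) ∂ν' := fun v h hm =>
      h2 (fun z => h (v * z)) (hm.comp (measurable_const.mul measurable_id))
    constructor
    · intro H v hv h hm hB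
      rw [← h2 h hm, ← h3 v h hm]
      exact H v hv h hm hB
    · intro H v hv h hm hB
      beta_reduce
      rw [h2 h hm, h3 v h hm]
      exact H v hv h hm hB
  unfold Gd
  constructor
  · rintro ⟨⟨N, hN⟩, hE⟩
    refine ⟨⟨N, (h1 N).1 hN⟩, fun χ => ?_⟩
    refine (congrArg (· ∈ EP m) (funext fun e => ?_)).mp (hE χ)
    exact Eh_mp _ _ _ hΦ ψ hψ χ e
  · rintro ⟨⟨N, hN⟩, hE⟩
    refine ⟨⟨N, (h1 N).2 hN⟩, fun χ => ?_⟩
    refine (congrArg (· ∈ EP m) (funext fun e => ?_)).mp (hE χ)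
    exact (Eh_mp _ _ _ hΦ ψ hψ χ e).symm

theorem Gd_mono {Y : Type} [MeasurableSpace Y] {ν : Measure Y} {φ : Y → ℤ_[p]} {m m' : ℂ → ℕ∞}
    (h : ∀ T, T ≠ 0 → m T ≤ m' T) (h1 : Gd ν φ m) : Gd ν φ m' :=
  ⟨h1.1, fun χ => EP_mono h (h1.2 χ)⟩

theorem IsM_meas {V : Type} [Fintype V] {F : MvPolynomial V ℚ_[p]} {φ : (V → ℤ_[p]) → ℤ_[p]}
    (h : IsM F φ) : Measurable φ := by
  have h1 : Continuous (fun x => inc p (φ x)) := by
    have : (fun x => inc p (φ x)) = fun x : V → ℤ_[p] =>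
        MvPolynomial.eval (fun i => inc p (x i)) F := funext h
    rw [this]
    exact (MvPolynomial.continuous_eval _).comp (continuous_pi fun i =>
      (inc_emb p).continuous.comp (continuous_apply i))
  exact ((inc_emb p).isInducing.continuous_iff.2 h1).measurable

theorem bal_meas {V : Type} [Fintype V] {φ : (V → ℤ_[p]) → ℤ_[p]} (h : Measurable φ)
    (a : V → ℤ_[p]) (k : ℕ) (c : ℤ_[p]) : Measurable (fun y => bal φ a k y - c) := by
  have hc : Continuous (fun (y : V → ℤ_[p]) i => a i + (p : ℤ_[p]) ^ k * y i) :=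
    continuous_pi fun i => continuous_const.add (continuous_const.mul (continuous_apply i))
  exact (h.comp hc.measurable).sub measurable_const

theorem mP_mono {σ τ : Type} {f : MvPolynomial σ ℂ} {g : MvPolynomial τ ℂ}
    (h : ∀ e : ℂ, Per f e → Per g e) (T : ℂ) : mP p f T ≤ mP p g T := by
  by_cases h1 : 1 < ‖T‖ ∧ Per f ((rr p T : ℝ) : ℂ)
  · rw [mP_top h1.1 (h _ h1.2)]
    exact le_top
  · refine le_trans (le_of_eq ?_) bot_le
    unfold mP
    rw [if_neg h1]
    rfl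

/-- periods after dropping variables -/
theorem Per_drop {σ κ : Type} (g : MvPolynomial σ ℂ) (e : ℂ)
    (h : Per (MvPolynomial.rename Sum.inl g : MvPolynomial (σ ⊕ κ) ℂ) e) : Per g e := by
  obtain ⟨S, hS, c, hc, hc1⟩ := h
  refine ⟨(fun c m => (c m).comp (MvPolynomial.rename Sum.inl).toLinearMap) '' S,
    ⟨?_, ?_, ?_, ?_, ?_⟩, _, ⟨c, hc, rfl⟩, ?_⟩
  · rintro _ ⟨c, hc, rfl⟩ h
    have := hS.e1 c hc (MvPolynomial.rename Sum.inl h)
    rw [← map_mul] at this
    exact this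
  · rintro _ ⟨c, hc, rfl⟩ m h
    have := hS.e2 c hc m (MvPolynomial.rename Sum.inl h)
    rw [← map_mul] at this
    exact this
  · rintro _ ⟨c, hc, rfl⟩ i h
    have := hS.d1 c hc (Sum.inl i) (MvPolynomial.rename Sum.inl h)
    rw [MvPolynomial.pderiv_rename Sum.inl_injective, ← map_mul] at this
    exact this
  · rintro _ ⟨c, hc, rfl⟩ i
    obtain ⟨c', hc', h1⟩ := hS.d2 c hc (Sum.inl i)
    refine ⟨_, ⟨c', hc', rfl⟩, fun m h => ?_⟩
    have := h1 m (MvPolynomial.rename Sum.inl h)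
    rw [MvPolynomial.pderiv_rename Sum.inl_injective, MvPolynomial.pderiv_rename
      Sum.inl_injective, ← map_mul] at this
    exact this
  · rintro _ ⟨c, hc, rfl⟩ i
    obtain ⟨c', hc', h1⟩ := hS.mu c hc (Sum.inl i)
    refine ⟨_, ⟨c', hc', rfl⟩, fun m h => ?_⟩
    have := h1 m (MvPolynomial.rename Sum.inl h)
    rw [← MvPolynomial.rename_X, ← map_mul] at this
    exact this
  · change c 0 (MvPolynomial.rename Sum.inl 1) ≠ 0
    rw [map_one]
    exact hc1

/-- **Dropping variables.** -/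
theorem GI_drop (emb : ℚ_[p] →+* ℂ) {V κ : Type} [Fintype V] [Fintype κ]
    (F : MvPolynomial V ℚ_[p])
    (h : GI emb (MvPolynomial.rename Sum.inl F : MvPolynomial (V ⊕ κ) ℚ_[p])) : GI emb F := by
  obtain ⟨φ', hM, hloc⟩ := h
  set φ : (V → ℤ_[p]) → ℤ_[p] := fun x => φ' (Sum.elim x fun _ => 0) with hφ
  have hMφ : IsM F φ := by
    intro x
    rw [hφ]
    beta_reduce
    rw [hM, MvPolynomial.eval_rename]
    rfl
  have hφ' : ∀ z : V ⊕ κ → ℤ_[p], φ' z = φ (fun i => z (Sum.inl i)) := by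
    intro z
    apply inc_inj
    rw [hM, hMφ, MvPolynomial.eval_rename]
    rfl
  refine ⟨φ, hMφ, fun P => ?_⟩
  obtain ⟨k0, hk0⟩ := hloc (Sum.elim P fun _ => 0)
  refine ⟨k0, fun a k hk ha => ?_⟩
  have h1 := hk0 (Sum.elim a fun _ => 0) k hk (by
    rintro (i | i)
    · exact ha i
    · simp)
  have h2 : (fun y : V ⊕ κ → ℤ_[p] => bal φ' (Sum.elim a fun _ => 0) k y -
      φ' (Sum.elim P fun _ => 0)) =
      fun y => bal φ a k (fun i => y (Sum.inl i)) - φ P := by
    funext y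
    unfold bal
    rw [hφ']
    rfl
  rw [h2] at h1
  have h3 := measurePreserving_sumPiEquivProdPi (X := fun _ : V ⊕ κ => ℤ_[p])
    (fun _ => mu p)
  have h4 := (measurePreserving_fst (μ := Measure.pi fun _ : V => mu p)
    (ν := Measure.pi fun _ : κ => mu p)).comp h3
  have h5 := (Gd_mp h4 (bal_meas (IsM_meas hMφ) a k (φ P)) _).1 h1
  refine Gd_mono (fun T _ => ?_) h5
  refine mP_mono (fun e he => Per_drop (κ := κ) _ e ?_) T
  rw [map_sub, MvPolynomial.rename_C, ← MvPolynomial.map_rename]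
  exact he

/-- **Renaming variables.** -/
theorem GI_equiv (hR5 : StR5) (emb : ℚ_[p] →+* ℂ) {V W : Type} [Fintype V] [Fintype W]
    (i : V ≃ W) (F : MvPolynomial V ℚ_[p]) (h : GI emb F) :
    GI emb (MvPolynomial.rename i F) := by
  obtain ⟨φ, hM, hloc⟩ := h
  set φ' : (W → ℤ_[p]) → ℤ_[p] := fun x => φ (fun a => x (i a)) with hφ
  have hMφ : IsM (MvPolynomial.rename i F) φ' := by
    intro x
    rw [hφ]
    beta_reduce
    rw [hM, MvPolynomial.eval_rename]
    rfl
  refine ⟨φ', hMφ, fun P => ?_⟩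
  obtain ⟨k0, hk0⟩ := hloc (fun a => P (i a))
  refine ⟨k0, fun a k hk ha => ?_⟩
  have h1 := hk0 (fun b => a (i b)) k hk fun b => ha (i b)
  set Φ := MeasurableEquiv.piCongrLeft (fun _ : W => ℤ_[p]) i with hΦ
  have hΦi : ∀ x a, Φ x (i a) = x a := fun x a => by
    rw [hΦ]
    exact Equiv.piCongrLeft_apply_apply (fun _ : W => ℤ_[p]) i x a
  have h3 := measurePreserving_piCongrLeft (fun _ : W => mu p) i
  have h4 : (fun y : V → ℤ_[p] => bal φ' a k (Φ y) - φ' P) =
      fun y => bal φ (fun b => a (i b)) k y - φ (fun a => P (i a)) := by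
    funext y
    unfold bal
    rw [hφ]
    beta_reduce
    simp only [hΦi]
  have h5 := (Gd_mp h3 (bal_meas (IsM_meas hMφ) a k (φ' P)) (mP p (MvPolynomial.map emb F -
    MvPolynomial.C (emb (inc p (φ fun a => P (i a))))))).1 (by
      refine (congrArg (fun q => Gd (Measure.pi fun _ : V => mu p) q (mP p (MvPolynomial.map emb F -
        MvPolynomial.C (emb (inc p (φ fun a => P (i a))))))) h4).mpr h1)
  refine Gd_mono (fun T _ => ?_) h5
  refine mP_mono (fun e he => ?_) T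
  have h6 := hR5 i _ e he
  rw [map_sub, MvPolynomial.rename_C, ← MvPolynomial.map_rename] at h6
  exact h6

end Pool.Agent.N138.RF.E1
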