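import Pool.Agent.N138.RF.E1
import Pool.Agent.N138.RF.Cl3
import Pool.Agent.N138.SU.Cls5

set_option autoImplicit false
set_option linter.unusedSectionVars false
set_option linter.unusedVariables false

/-! # The formulas are good -/

namespace Pool.Agent.N138.RF.E2

open MeasureTheory Pool.Agent.W574.SM Pool.Agent.Y230.RE Pool.Agent.Y230.PL Polynomial
open Pool.Agent.Y230.PT Pool.Agent.Y465.TH Pool.Agent.Y230.PS Pool.Agent.Y230.TH
open Pool.Agent.W427.SMC (msZ bsZ mu tr' tr'_pos tr'_lt tr'_le Conv exists_s)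
open Pool.Agent.N138.SU Pool.Agent.N138.SV

variable {p : ℕ} [Fact p.Prime]

attribute [local instance] msK bsK msZ bsZ

section nc

theorem nc_wh {τ : Type} [Fintype τ] [Nonempty τ] {G : MvPolynomial τ ℚ} {w : τ → ℕ} {D : ℕ}
    (hG : IsWH G w D) (c : ℚ) : G ≠ MvPolynomial.C c := by
  rintro rfl
  have h := hG.iso (fun _ => 1) fun i => by rw [MvPolynomial.pderiv_C, map_zero]
  obtain ⟨i⟩ := ‹Nonempty τ›
  exact one_ne_zero (congrFun h i)

theorem nc_add {V W : Type} {F : MvPolynomial V ℚ} {G : MvPolynomial W ℚ}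
    (hF : ∀ c, F ≠ MvPolynomial.C c) (c : ℚ) :
    (MvPolynomial.rename Sum.inl F + MvPolynomial.rename Sum.inr G : MvPolynomial (V ⊕ W) ℚ) ≠
      MvPolynomial.C c := by
  intro h
  have h1 := congrArg (MvPolynomial.aeval (Sum.elim (fun i => (MvPolynomial.X i : MvPolynomial V ℚ))
    fun _ => 0)) h
  rw [map_add, MvPolynomial.aeval_rename, MvPolynomial.aeval_rename] at h1
  have e1 : (Sum.elim (fun i => (MvPolynomial.X i : MvPolynomial V ℚ)) fun _ : W => 0) ∘ Sum.inl =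
    MvPolynomial.X := rfl
  have e2 : (Sum.elim (fun i => (MvPolynomial.X i : MvPolynomial V ℚ)) fun _ : W => 0) ∘ Sum.inr =
    fun _ => 0 := rfl
  rw [e1, e2, MvPolynomial.aeval_X_left, AlgHom.id_apply] at h1
  have e3 : MvPolynomial.aeval (fun _ : W => (0 : MvPolynomial V ℚ)) G =
      MvPolynomial.C (MvPolynomial.constantCoeff G) :=
    MvPolynomial.aeval_zero' (S₁ := MvPolynomial V ℚ) G
  have e4 : MvPolynomial.aeval (Sum.elim (fun i => (MvPolynomial.X i : MvPolynomial V ℚ))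
    fun _ : W => 0) (MvPolynomial.C c) = MvPolynomial.C c := MvPolynomial.aeval_C _ c
  rw [e3, e4] at h1
  apply hF (c - MvPolynomial.constantCoeff G)
  rw [map_sub]
  exact eq_sub_of_add_eq h1

theorem nc_mul {V W : Type} {F : MvPolynomial V ℚ} {G : MvPolynomial W ℚ}
    (hF : ∀ c, F ≠ MvPolynomial.C c) (hG : G ≠ 0) (c : ℚ) :
    (MvPolynomial.rename Sum.inl F * MvPolynomial.rename Sum.inr G : MvPolynomial (V ⊕ W) ℚ) ≠
      MvPolynomial.C c := by
  intro h
  obtain ⟨Q, hQ⟩ : ∃ Q : W → ℚ, MvPolynomial.eval Q G ≠ 0 := by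
    by_contra hn
    push Not at hn
    exact hG (MvPolynomial.funext fun x => by rw [hn x, map_zero])
  have h1 := congrArg (MvPolynomial.aeval (Sum.elim (fun i => (MvPolynomial.X i : MvPolynomial V ℚ))
    fun j => MvPolynomial.C (Q j))) h
  rw [map_mul, MvPolynomial.aeval_rename, MvPolynomial.aeval_rename] at h1
  have e1 : (Sum.elim (fun i => (MvPolynomial.X i : MvPolynomial V ℚ))
    fun j : W => MvPolynomial.C (Q j)) ∘ Sum.inl = MvPolynomial.X := rfl
  have e2 : (Sum.elim (fun i => (MvPolynomial.X i : MvPolynomial V ℚ))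
    fun j : W => MvPolynomial.C (Q j)) ∘ Sum.inr = fun j => MvPolynomial.C (Q j) := rfl
  rw [e1, e2, MvPolynomial.aeval_X_left, AlgHom.id_apply] at h1
  have e3 : MvPolynomial.aeval (fun j : W => (MvPolynomial.C (Q j) : MvPolynomial V ℚ)) G =
      MvPolynomial.C (MvPolynomial.eval Q G) := by
    have := MvPolynomial.aeval_algebraMap_apply (MvPolynomial V ℚ) Q G
    exact this
  have e4 : MvPolynomial.aeval (Sum.elim (fun i => (MvPolynomial.X i : MvPolynomial V ℚ))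
    fun j : W => MvPolynomial.C (Q j)) (MvPolynomial.C c) = MvPolynomial.C c :=
    MvPolynomial.aeval_C _ c
  rw [e3, e4] at h1
  apply hF (c * (MvPolynomial.eval Q G)⁻¹)
  rw [map_mul, ← h1, mul_assoc, ← map_mul, mul_inv_cancel₀ hQ, map_one, mul_one]

theorem nc_comp {V : Type} {F : MvPolynomial V ℚ} {P : ℚ[X]} (hP : 1 ≤ P.natDegree)
    (hF : ∀ c, F ≠ MvPolynomial.C c) (c : ℚ) :
    Polynomial.aeval F P ≠ MvPolynomial.C c := by
  intro h
  set R : ℚ[X] := P - C c with hR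
  have hR0 : R ≠ 0 := by
    intro h0
    have h1 : P = C c := sub_eq_zero.1 h0
    rw [h1, natDegree_C] at hP
    omega
  have h1 : ∏ r ∈ R.roots.toFinset, (F - MvPolynomial.C r) = 0 := by
    refine MvPolynomial.funext fun x => ?_
    rw [map_prod, map_zero, Finset.prod_eq_zero_iff]
    refine ⟨MvPolynomial.eval x F, ?_, ?_⟩
    · rw [Multiset.mem_toFinset, mem_roots hR0, IsRoot, hR, eval_sub, eval_C]
      have h2 := congrArg (MvPolynomial.eval x) h
      rw [MvPolynomial.eval_C] at h2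
      have h3 : MvPolynomial.eval x (Polynomial.aeval F P) = P.eval (MvPolynomial.eval x F) := by
        have h4 := Polynomial.hom_eval₂ P (algebraMap ℚ (MvPolynomial V ℚ))
          (MvPolynomial.eval x) F
        have h5 : (MvPolynomial.eval x).comp (algebraMap ℚ (MvPolynomial V ℚ)) = RingHom.id ℚ :=
          RingHom.ext_rat _ _
        rw [h5] at h4
        exact h4
      rw [← h3, h2, sub_self]
    · rw [map_sub, MvPolynomial.eval_C, sub_self]
  rw [Finset.prod_eq_zero_iff] at h1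
  obtain ⟨r, _, hr⟩ := h1
  exact hF r (sub_eq_zero.1 hr)

end nc

section int

/-- integral models of the polynomials in one variable -/
theorem exists_Q (P : ℚ[X]) (K1 : ℕ) : ∃ K0 : ℕ, ∀ K, K0 ≤ K → ∃ Q : ℤ_[p][X],
    Q.map PadicInt.Coe.ringHom = C ((p : ℚ_[p]) ^ K) *
      (P.map (algebraMap ℚ ℚ_[p])).comp (C (((p : ℚ_[p]) ^ K1)⁻¹) * X) := by
  induction P using Polynomial.induction_on' with
  | add P1 P2 h1 h2 =>
    obtain ⟨K0, h1⟩ := h1
    obtain ⟨K0', h2⟩ := h2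
    refine ⟨max K0 K0', fun K hK => ?_⟩
    obtain ⟨Q1, hQ1⟩ := h1 K ((le_max_left _ _).trans hK)
    obtain ⟨Q2, hQ2⟩ := h2 K ((le_max_right _ _).trans hK)
    exact ⟨Q1 + Q2, by rw [Polynomial.map_add, Polynomial.map_add, add_comp, hQ1, hQ2, mul_add]⟩
  | monomial n a =>
    have hp : (1 : ℝ) < p := by exact_mod_cast (Fact.out : p.Prime).one_lt
    obtain ⟨K0, hK0⟩ := pow_unbounded_of_one_lt
      ‖(algebraMap ℚ ℚ_[p] a) * (((p : ℚ_[p]) ^ K1)⁻¹) ^ n‖ hp
    refine ⟨K0, fun K hK => ?_⟩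
    have h1 : ‖(p : ℚ_[p]) ^ K * (algebraMap ℚ ℚ_[p] a * (((p : ℚ_[p]) ^ K1)⁻¹) ^ n)‖ ≤ 1 := by
      rw [norm_mul, norm_pow, Padic.norm_p, inv_pow, inv_mul_le_iff₀ (by positivity), mul_one]
      exact hK0.le.trans (pow_le_pow_right₀ hp.le hK)
    obtain ⟨z, hz⟩ : ∃ z : ℤ_[p], PadicInt.Coe.ringHom z =
      (p : ℚ_[p]) ^ K * (algebraMap ℚ ℚ_[p] a * (((p : ℚ_[p]) ^ K1)⁻¹) ^ n) := ⟨⟨_, h1⟩, rfl⟩
    refine ⟨C z * X ^ n, ?_⟩
    rw [Polynomial.map_mul, Polynomial.map_pow, map_C, map_X, map_monomial, monomial_comp, hz,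
      mul_pow, ← C_pow, C_mul, C_mul]
    ring

theorem natDegree_Q {P : ℚ[X]} {K1 K : ℕ} {Q : ℤ_[p][X]} (h : Q.map PadicInt.Coe.ringHom =
    C ((p : ℚ_[p]) ^ K) * (P.map (algebraMap ℚ ℚ_[p])).comp (C (((p : ℚ_[p]) ^ K1)⁻¹) * X)) :
    Q.natDegree = P.natDegree := by
  have hp0 : (p : ℚ_[p]) ≠ 0 := by exact_mod_cast (Fact.out : p.Prime).ne_zero
  have h1 : (Q.map (PadicInt.Coe.ringHom (p := p))).natDegree = Q.natDegree :=
    natDegree_map_eq_of_injective (fun x y hxy => inc_inj hxy) Q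
  rw [← h1, h, natDegree_C_mul (pow_ne_zero _ hp0), natDegree_comp, natDegree_map,
    natDegree_C_mul (inv_ne_zero (pow_ne_zero _ hp0)), natDegree_X, mul_one]

end int

/-- all the statements -/
structure HyR : Prop where
  r5 : StR5
  g1 : StG1
  g2 : StG2
  g3 : StG3
  g4 : StG4
  g5 : StG5

theorem gi_ro (H : HyR) (emb : ℚ_[p] →+* ℂ) {V : Type} {F : MvPolynomial V ℚ} (h : RO V F) :
    (∀ c, F ≠ MvPolynomial.C c) ∧ ∀ [Fintype V], ∃ K0 : ℕ, ∀ K, K0 ≤ K →
      GI emb (MvPolynomial.C ((p : ℚ_[p]) ^ K) * MvPolynomial.map (algebraMap ℚ ℚ_[p]) F) := by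
  have hp0 : (p : ℚ_[p]) ≠ 0 := by exact_mod_cast (Fact.out : p.Prime).ne_zero
  have hnc : ∀ {V : Type} {F : MvPolynomial V ℚ}, (∀ c, F ≠ MvPolynomial.C c) → ∀ (K : ℕ) c,
      MvPolynomial.C ((p : ℚ_[p]) ^ K) * MvPolynomial.map (algebraMap ℚ ℚ_[p]) F ≠
        MvPolynomial.C c := by
    intro V F hF K c h
    have hpK : (p : ℚ_[p]) ^ K ≠ 0 := pow_ne_zero _ hp0
    apply map_nc (algebraMap ℚ ℚ_[p]) F hF (((p : ℚ_[p]) ^ K)⁻¹ * c)
    rw [map_mul, ← h, ← mul_assoc, ← map_mul, inv_mul_cancel₀ hpK, map_one, one_mul]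
  induction h with
  | curve f hf =>
    refine ⟨hf, fun {inst} => ?_⟩
    obtain rfl : inst = Fin.fintype 2 := Subsingleton.elim _ _
    obtain ⟨K, φ, hφ⟩ := exists_IsV (p := p) f
    refine ⟨K, fun K' hK' => ?_⟩
    refine H.g4 p emb _ (fun x => (p : ℤ_[p]) ^ (K' - K) * φ x) (fun x => ?_) (hnc hf K')
    rw [inc_mul, inc_p, hφ x, map_mul, MvPolynomial.eval_C, ← mul_assoc, ← pow_add,
      Nat.sub_add_cancel hK']
  | @wh τ i1 i2 G w D hG =>
    refine ⟨nc_wh hG, fun {inst} => ?_⟩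
    obtain ⟨K, hK⟩ := exists_model (p := p) G
    refine ⟨K, fun K' hK' => ?_⟩
    obtain ⟨Gz, hGz⟩ := hK K' hK'
    have hpK : (p : ℚ_[p]) ^ K' ≠ 0 := pow_ne_zero _ hp0
    rw [← hGz]
    have hpd : ∀ i, MvPolynomial.map PadicInt.Coe.ringHom (MvPolynomial.pderiv i Gz) =
        MvPolynomial.C ((p : ℚ_[p]) ^ K') *
          MvPolynomial.map (algebraMap ℚ ℚ_[p]) (MvPolynomial.pderiv i G) := by
      intro i
      rw [← MvPolynomial.pderiv_map, hGz, MvPolynomial.pderiv_C_mul, MvPolynomial.pderiv_map]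
    obtain rfl : inst = i1 := Subsingleton.elim _ _
    refine H.g5 p emb Gz w D hG.pos hG.posD ?_ ?_ ?_
    · intro m hm
      apply hG.hom
      intro h0
      apply hm
      have h2 := congrArg (MvPolynomial.coeff m) hGz
      rw [MvPolynomial.coeff_map, MvPolynomial.coeff_C_mul, MvPolynomial.coeff_map, h0, map_zero,
        mul_zero] at h2
      exact inc_inj (by rw [inc_zero]; exact h2)
    · intro i
      have h2 := congrArg MvPolynomial.constantCoeff (hpd i)
      rw [map_mul, MvPolynomial.constantCoeff_map, MvPolynomial.constantCoeff_map, hG.crit i,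
        map_zero, mul_zero] at h2
      exact inc_inj (by rw [inc_zero]; exact h2)
    · intro z hz
      refine hG.iso z fun i => ?_
      have hemb : emb.comp (algebraMap ℚ ℚ_[p]) = algebraMap ℚ ℂ := RingHom.ext_rat _ _
      have h2 := hz i
      rw [MvPolynomial.pderiv_map, ← MvPolynomial.map_map, hpd i, map_mul, MvPolynomial.map_C,
        MvPolynomial.map_map, hemb, map_mul, MvPolynomial.eval_C] at h2
      have h3 := (mul_eq_zero.1 h2).resolve_left fun h0 => hpK ((map_eq_zero emb).1 h0)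
      rw [MvPolynomial.eval_map] at h3
      exact h3
  | add V W F G hF hG ihF ihG =>
    refine ⟨nc_add ihF.1, fun {inst} => ?_⟩
    obtain rfl : inst = _ := Subsingleton.elim inst (instFintypeSum V W)
    obtain ⟨K1, h1⟩ := ihF.2
    obtain ⟨K2, h2⟩ := ihG.2
    refine ⟨max K1 K2, fun K hK => ?_⟩
    have h3 := H.g1 p emb _ _ (h1 K ((le_max_left _ _).trans hK))
      (h2 K ((le_max_right _ _).trans hK))
    rw [map_mul, map_mul, MvPolynomial.rename_C, MvPolynomial.rename_C, ← mul_add,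
      ← MvPolynomial.map_rename, ← MvPolynomial.map_rename, ← map_add] at h3
    exact h3
  | mul V W F G hF hG ihF ihG =>
    have hG0 : G ≠ 0 := fun h0 => ihG.1 0 (by rw [h0, map_zero])
    refine ⟨nc_mul ihF.1 hG0, fun {inst} => ?_⟩
    obtain rfl : inst = _ := Subsingleton.elim inst (instFintypeSum V W)
    obtain ⟨K1, h1⟩ := ihF.2
    obtain ⟨K2, h2⟩ := ihG.2
    refine ⟨K1 + K2, fun K hK => ?_⟩
    have h3 := H.g2 p emb _ _ (hnc ihF.1 K1) (hnc ihG.1 (K - K1)) (h1 K1 le_rfl)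
      (h2 (K - K1) (by omega))
    rw [map_mul, map_mul, MvPolynomial.rename_C, MvPolynomial.rename_C, mul_mul_mul_comm,
      ← MvPolynomial.map_rename, ← MvPolynomial.map_rename, ← map_mul, ← map_mul, ← pow_add,
      Nat.add_sub_cancel' (by omega)] at h3
    exact h3
  | comp V F P hP hF ihF =>
    refine ⟨nc_comp hP ihF.1, fun {inst} => ?_⟩
    obtain ⟨K1, h1⟩ := ihF.2
    obtain ⟨K0, hQ⟩ := exists_Q (p := p) P K1
    refine ⟨K0, fun K hK => ?_⟩
    obtain ⟨Q, hQ⟩ := hQ K hK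
    have h3 := H.g3 p emb _ Q (hnc ihF.1 K1) (by rw [natDegree_Q hQ]; exact hP) (h1 K1 le_rfl)
    rw [hQ] at h3
    have h4 : Polynomial.aeval (MvPolynomial.C ((p : ℚ_[p]) ^ K1) *
        MvPolynomial.map (algebraMap ℚ ℚ_[p]) F) (C ((p : ℚ_[p]) ^ K) *
        (P.map (algebraMap ℚ ℚ_[p])).comp (C (((p : ℚ_[p]) ^ K1)⁻¹) * X)) =
        MvPolynomial.C ((p : ℚ_[p]) ^ K) * MvPolynomial.map (algebraMap ℚ ℚ_[p])
          (Polynomial.aeval F P) := by
      have hpK : (p : ℚ_[p]) ^ K1 ≠ 0 := pow_ne_zero _ hp0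
      rw [map_mul, Polynomial.aeval_C, Polynomial.aeval_comp, map_mul, Polynomial.aeval_C,
        Polynomial.aeval_X]
      have h5 : algebraMap ℚ_[p] (MvPolynomial V ℚ_[p]) ((p : ℚ_[p]) ^ K1)⁻¹ *
          (MvPolynomial.C ((p : ℚ_[p]) ^ K1) * MvPolynomial.map (algebraMap ℚ ℚ_[p]) F) =
          MvPolynomial.map (algebraMap ℚ ℚ_[p]) F := by
        rw [MvPolynomial.algebraMap_eq, ← mul_assoc, ← map_mul, inv_mul_cancel₀ hpK, map_one,
          one_mul]
      rw [h5, MvPolynomial.algebraMap_eq]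
      congr 1
      have h6 := Polynomial.hom_eval₂ P (algebraMap ℚ (MvPolynomial V ℚ))
        (MvPolynomial.map (algebraMap ℚ ℚ_[p])) F
      have h7 : (MvPolynomial.map (algebraMap ℚ ℚ_[p])).comp (algebraMap ℚ (MvPolynomial V ℚ)) =
          (algebraMap ℚ_[p] (MvPolynomial V ℚ_[p])).comp (algebraMap ℚ ℚ_[p]) :=
        RingHom.ext_rat _ _
      rw [h7, ← Polynomial.eval₂_map] at h6
      exact h6.symm
    rw [h4] at h3
    exact h3
  | drop V κ F hF ihF =>
    refine ⟨fun c h => ihF.1 c (by rw [h, MvPolynomial.rename_C]), fun {inst} => ?_⟩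
    obtain ⟨K0, h1⟩ := ihF.2
    refine ⟨K0, fun K hK => E1.GI_drop (κ := κ) emb _ ?_⟩
    have h2 := h1 K hK
    rw [map_mul, MvPolynomial.rename_C, ← MvPolynomial.map_rename]
    exact h2
  | equiv V W i F hF ihF =>
    refine ⟨fun c h => ihF.1 c ?_, fun {inst} => ?_⟩
    · have h1 := congrArg (MvPolynomial.rename i.symm) h
      rw [MvPolynomial.rename_rename, MvPolynomial.rename_C] at h1
      simpa using h1
    · obtain ⟨K0, h1⟩ := ihF.2
      refine ⟨K0, fun K hK => ?_⟩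
      have h2 := E1.GI_equiv H.r5 emb i _ (h1 K hK)
      rw [map_mul, MvPolynomial.rename_C, ← MvPolynomial.map_rename] at h2
      exact h2

end Pool.Agent.N138.RF.E2
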