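import Pool.Agent.N138.RF.Stm
import Pool.Agent.N138.SV.Fin

set_option autoImplicit false
set_option linter.unusedSectionVars false
set_option linter.unusedVariables false

/-! # The exponential sums of the good polynomials -/

namespace Pool.Agent.N138.RF.G6

open MeasureTheory Pool.Agent.W574.SM Pool.Agent.Y230.RE Pool.Agent.Y230.PL Polynomial
open Pool.Agent.Y230.PT Pool.Agent.Y465.TH Pool.Agent.Y230.PS Pool.Agent.Y230.TH
open Pool.Agent.W427.SMC (msZ bsZ mu tr' tr'_pos tr'_lt tr'_le Conv exists_s)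
open Pool.Agent.N138.SU Pool.Agent.N138.SV

variable {p : ℕ} [Fact p.Prime]

attribute [local instance] msK bsK msZ bsZ

/-- **Good polynomials.** -/
theorem main (hD : StD) (emb : ℚ_[p] →+* ℂ) {V : Type} [Fintype V] (F : MvPolynomial V ℚ) (K : ℕ)
    (h : GI emb (MvPolynomial.C ((p : ℚ_[p]) ^ K) *
      MvPolynomial.map (algebraMap ℚ ℚ_[p]) F)) : XW w2 p F := by
  obtain ⟨φ, hM, hloc⟩ := h
  have h0 : IsV F K φ := by
    intro x
    rw [hM x, map_mul, MvPolynomial.eval_C]
  refine XW_of K φ h0 fun χ => ?_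
  have hφm : Measurable φ := h0.meas
  choose k0 hk0 using hloc
  obtain ⟨S, hS1, hS2⟩ := hD p k0
  have hp1 : ((p : ℝ)⁻¹) < 1 := inv_lt_one_of_one_lt₀ (by
    exact_mod_cast (Fact.out : p.Prime).one_lt)
  have hp0 : 0 < ((p : ℝ)⁻¹) := inv_pos.2 (by exact_mod_cast (Fact.out : p.Prime).pos)
  have hGd : ∀ a ∈ S, Gd (Measure.pi fun _ : V => mu p) (fun y => bal φ a.1 a.2 y - φ a.1)
      (mP p (MvPolynomial.map emb (MvPolynomial.C ((p : ℚ_[p]) ^ K) *
        MvPolynomial.map (algebraMap ℚ ℚ_[p]) F) - MvPolynomial.C (emb (inc p (φ a.1))))) := by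
    intro a ha
    refine hk0 a.1 a.1 a.2 (hS1 a ha) fun i => ?_
    rw [sub_self, norm_zero]
    exact (pow_pos hp0 _).le
  have hbm : ∀ (a : (V → ℤ_[p]) × ℕ), Measurable (fun y => bal φ a.1 a.2 y - φ a.1) := by
    intro a
    have hc : Continuous (fun (y : V → ℤ_[p]) i => a.1 i + (p : ℤ_[p]) ^ a.2 * y i) :=
      continuous_pi fun i => continuous_const.add (continuous_const.mul (continuous_apply i))
    exact (hφm.comp hc.measurable).sub measurable_const
  set E : ((V → ℤ_[p]) × ℕ) → ℕ → ℤ_[p] → ℂ := fun a =>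
    Es (Measure.pi fun _ : V => mu p) (fun y => bal φ a.1 a.2 y - φ a.1) with hE
  set cc : ((V → ℤ_[p]) × ℕ) → ℂ := fun a => ((p : ℂ)⁻¹) ^ (Fintype.card V * a.2) with hcc
  set G : ((V → ℤ_[p]) × ℕ) → ℕ → ℤ_[p] → ℂ := fun a e u =>
    psi p e (u * φ a.1) * E a e u with hG
  have hGm : ∀ a e, Measurable (G a e) := by
    intro a e
    exact Measurable.mul ((Pool.Agent.N138.SU.B3.psi_meas e).comp
      (measurable_id.mul measurable_const)) (Es_meas _ _ (hbm a) e)
  have hGb : ∀ a e u, ‖G a e u‖ ≤ 1 := by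
    intro a e u
    rw [hG]
    beta_reduce
    rw [norm_mul, Pool.Agent.N138.SU.B3.psi_norm, one_mul]
    exact Es_norm _ _ e u
  have hdec : ∀ (e : ℕ) (u : ℤ_[p]), Es (Measure.pi fun _ : V => mu p) φ e u =
      ∑ a ∈ S, cc a * G a e u := by
    intro e u
    have h1 := hS2 (fun x => psi p e (u * φ x))
      ((Pool.Agent.N138.SU.B3.psi_meas e).comp (measurable_const.mul hφm))
      ⟨1, fun z => (Pool.Agent.N138.SU.B3.psi_norm e _).le⟩
    have h2 : Es (Measure.pi fun _ : V => mu p) φ e u =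
      ∫ x, psi p e (u * φ x) ∂(Measure.pi fun _ : V => mu p) := rfl
    rw [h2, h1]
    refine Finset.sum_congr rfl fun a _ => ?_
    rw [hcc, hG, hE]
    beta_reduce
    congr 1
    unfold Es
    rw [← integral_const_mul]
    refine integral_congr_ae (Filter.Eventually.of_forall fun y => ?_)
    beta_reduce
    rw [← Pool.Agent.N138.SU.B3.psi_add]
    unfold bal
    congr 1
    ring
  have hEh : (fun e : ℕ => Eh (Measure.pi fun _ : V => mu p) φ χ e) =
      ∑ a ∈ S, cc a • (fun e => hat (G a) χ e) := by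
    funext e
    rw [Finset.sum_apply]
    have h1 := hat_sum S cc G e (fun a _ => hGm a e) (fun a _ => hGb a e) χ
    simp only [Pi.smul_apply, smul_eq_mul]
    rw [← h1]
    unfold Pool.Agent.N138.SU.Eh hat
    refine integral_congr_ae (Filter.Eventually.of_forall fun u => ?_)
    beta_reduce
    rw [hdec]
  rw [hEh]
  refine Submodule.sum_mem _ fun a ha => Submodule.smul_mem _ _ ?_
  obtain ⟨⟨N, hN⟩, hEP⟩ := hGd a ha
  have hLC : LC N (E a) := by
    intro e u v hv
    have h1 := hN v hv (fun z => psi p e (u * z))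
      ((Pool.Agent.N138.SU.B3.psi_meas e).comp (measurable_const.mul measurable_id))
      ⟨1, fun z => (Pool.Agent.N138.SU.B3.psi_norm e _).le⟩
    rw [hE]
    unfold Es
    simp only [mul_assoc]
    exact h1
  by_cases hL : φ a.1 = 0
  swap
  · exact N0_EP _ (D2.t p N (E a) hLC (φ a.1) hL χ)
  have h2 : (fun e => hat (G a) χ e) =
      fun e => Eh (Measure.pi fun _ : V => mu p) (fun y => bal φ a.1 a.2 y - φ a.1) χ e := by
    funext e
    unfold Pool.Agent.N138.SU.Eh hat
    refine integral_congr_ae (Filter.Eventually.of_forall fun u => ?_)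
    rw [hG]
    beta_reduce
    rw [hL, mul_zero, Pool.Agent.N138.SU.B3.psi_zero, one_mul, hE]
    beta_reduce
    rw [hL]
  rw [h2]
  refine EP_mono (fun T hT => ?_) (hEP χ)
  rw [hL, inc_zero, map_zero, map_zero, sub_zero]
  by_cases h3 : 1 < ‖T‖ ∧ Per (MvPolynomial.map emb (MvPolynomial.C ((p : ℚ_[p]) ^ K) *
      MvPolynomial.map (algebraMap ℚ ℚ_[p]) F)) ((rr p T : ℝ) : ℂ)
  swap
  · refine le_trans (le_of_eq ?_) bot_le
    unfold mP
    rw [if_neg h3]
    rfl
  obtain ⟨h6, h7⟩ := h3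
  have hpK : (p : ℚ_[p]) ^ K ≠ 0 :=
    pow_ne_zero _ (by exact_mod_cast (Fact.out : p.Prime).ne_zero)
  have hφ' : emb.comp (algebraMap ℚ ℚ_[p]) = algebraMap ℚ ℂ := RingHom.ext_rat _ _
  have h8 : Per (MvPolynomial.map (algebraMap ℚ ℂ) F) ((rr p T : ℝ) : ℂ) := by
    refine A3.t _ (emb ((p : ℚ_[p]) ^ K)) 1 (fun _ => 0) _ (fun h0 => hpK ((map_eq_zero emb).1 h0))
      one_ne_zero ?_
    have e1 : (fun i : V => MvPolynomial.C (1 : ℂ) * MvPolynomial.X i +
        MvPolynomial.C ((fun _ : V => (0 : ℂ)) i)) = MvPolynomial.X := by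
      funext i
      simp
    rw [e1, MvPolynomial.aeval_X_left, AlgHom.id_apply]
    rw [map_mul, MvPolynomial.map_C, MvPolynomial.map_map, hφ'] at h7
    exact h7
  have h9 : ((rr p T : ℝ) : ℂ) ≠ 0 := by
    have hp : (1 : ℝ) < p := by exact_mod_cast (Fact.out : p.Prime).one_lt
    have h10 : rr p T < 0 := by
      unfold rr
      rw [neg_div, neg_lt_zero]
      exact div_pos (Real.log_pos h6) (Real.log_pos hp)
    exact_mod_cast h10.ne
  have h11 : FK (hyp F) ((rr p T : ℝ) : ℂ) (1 + dl ((rr p T : ℝ) : ℂ)) := by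
    intro b hb
    obtain ⟨b', hb', hb2⟩ := A1.t _ _ h9 h8 b (Pool.Agent.Y229.isB_of_single _ b hb)
    rw [hb']
    apply dvd_dl
    rw [pow_one]
    exact dvd_iff_isRoot.2 hb2
  refine le_trans le_top ?_
  unfold Pool.Agent.Y230.PS.tr
  rw [if_neg (not_le.2 h6)]
  exact le_mW (w := w2) h11

end Pool.Agent.N138.RF.G6
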