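import Pool.Agent.N138.RF.E2
import Pool.Agent.N138.RF.G6
import Pool.Agent.N138.RF.Cl3
import Pool.Agent.N138.SV.Fin
import Pool.Agent.N138.SU.Fin
import Pool.Agent.N138.SU.W3

set_option autoImplicit false
set_option linter.unusedSectionVars false
set_option linter.unusedVariables false

/-! # The zeta functions of the class with the formulas -/

namespace Pool.Agent.N138.RF.E3

open MeasureTheory MvPolynomial Pool.Agent.W427.SMC Pool.Agent.Y230.PT Pool.Agent.Y230.PS
open Pool.Agent.Y230.TH Pool.Agent.R852.PP Pool.Agent.N138.SU Pool.Agent.N138.SV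
open Pool.Agent.N138.RF
open scoped ENNReal
open Pool.Agent.Y230.RE Pool.Agent.W574.SM Pool.Agent.W574.RO Pool.Agent.W574.CN

attribute [local instance] msZ bsZ

variable {p : ℕ} [Fact p.Prime]

/-- all the statements -/
structure Hy3 : Prop where
  r : E2.HyR
  d : StD

/-- the formulas -/
theorem XG_ro (H : Hy3) {V : Type} [Fintype V] (F : MvPolynomial V ℚ) (h : RO V F) :
    XG w2 p F := by
  obtain ⟨emb⟩ := exists_emb p
  obtain ⟨h2, h3⟩ := E2.gi_ro (p := p) H.r emb h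
  obtain ⟨K0, hK⟩ := h3
  have h1 : XW w2 p F := G6.main H.d emb F K0 (hK K0 le_rfl)
  exact ⟨fun h0 => h2 0 (by rw [h0, map_zero]), FR_of_XW (FK_nc _ h2) h1, h1⟩

/-- **The zeta functions and the exponential sums of the class.** -/
theorem cl3_main (H : Hy3) (c : Kd) (A : FamQ)
    (h : Cl3 c A) : (∃ j, A.f j ≠ 0) ∧
      FR p (if c = Kd.ideal then mI w2 p A else rG p (wH w2 p) A)
        (Pool.Agent.Y230.PS.FF (A.toP p)) ∧
      (c = Kd.susp → ∀ j, XG w2 p (A.f j)) := by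
  classical
  have h1 : StW1 := W1.t
  have h2 : StW2 := W2.t
  have h3 : StW3 := W3.t
  have h4 : StW4b := W4b.t W4a.t
  have hw : IsW w2 := isW_2
  have hM : IsMltP p false (mI w2 p) (rG p (wH w2 p)) := isMltW_2
  induction h with
  | cl c A h => exact cl2_main hy c A h
  | ro V F h =>
    have h5 : XG w2 p F := XG_ro H F h
    exact ⟨⟨(0 : Fin 1), h5.1⟩, h5.2.1, fun _ _ => h5⟩
  | add V τ F G wt D hG hF ih =>
    have h5 := ih.2.2 rfl (0 : Fin 1)
    have h6 : XG w2 p (addF F G) := ⟨addF_ne h5.1 hG,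
      FR_of_XW (FK_addF1 h3 h4 hG h5.1) (XW_addF h1 h2 h3 h4 hG h5.1 h5.2.2),
      XW_addF h1 h2 h3 h4 hG h5.1 h5.2.2⟩
    exact ⟨⟨(0 : Fin 1), h6.1⟩, h6.2.1, fun _ _ => h6⟩
  | univ A hA ihA =>
    have h5 : FR p (rG p (wH w2 p) A.univ) (Pool.Agent.Y230.PS.FF (A.univ.toP p)) := by
      rw [toP_univ]
      exact FR_univK ⟨ihA.1.choose⟩ _ _ _ (fun T hT => hM.base.univ A T hT ihA.1) ihA.2.1
    refine ⟨univ_ne A ihA.1, h5, fun _ j => ⟨?_, h5, XW_univ A ihA.1 ihA.2.1⟩⟩
    obtain ⟨j', hj'⟩ := univ_ne A ihA.1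
    exact hj'
  | ts c hc A τ g hA hg ihA ihg =>
    have hg0 : g ≠ 0 := by
      obtain ⟨j, hj⟩ := ihg.1
      exact hj
    have h5 : FR p (mI w2 p A) (Pool.Agent.Y230.PS.FF (A.toP p)) := by simpa using ihA.2.1
    have h6 : FR p (rG p (wH w2 p) (hyp g)) (Pool.Agent.Y230.PS.FF ((hyp g).toP p)) := by
      have := ihg.2.1
      rwa [if_neg hc] at this
    have h7 : FR p (rG p (wH w2 p) (tsum A τ g)) (Pool.Agent.Y230.PS.FF ((tsum A τ g).toP p)) := by
      rw [toP_ts]
      have hι : Nonempty A.ι := ⟨ihA.1.choose⟩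
      exact FR_ts Pool.Agent.Y287.TH.tZ _ _ _ _ _ (hM.base.ts A τ g ihA.1 hg0)
        (hM.base.one A τ g ihA.1 hg0) h5 h6
    refine ⟨ts_ne A τ g hg0, by rw [if_neg hc]; exact h7, fun hcs j => ?_⟩
    refine ⟨?_, h7, XW_ts hw A g ihA.1 hg0 h5 (ihg.2.2 hcs (0 : Fin 1)).2.2⟩
    obtain ⟨j', hj'⟩ := ts_ne A τ g hg0
    exact hj'
  | mul c A B hA hB ihA ihB =>
    have h5 : FR p (if c = Kd.ideal then mI w2 p (A.mul B) else rG p (wH w2 p) (A.mul B))
        (Pool.Agent.Y230.PS.FF ((A.mul B).toP p)) := by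
      rw [toP_mul]
      have h1 := ihA.2.1
      have h2 := ihB.2.1
      by_cases hc : c = Kd.ideal
      · rw [if_pos hc] at h1 h2 ⊢
        refine (FR.mul h1 h2 (fun T hT => hM.base.base.mul A B T hT ihA.1 ihB.1)).congr
          fun s hs => ?_
        rw [FF_mulK]
      · rw [if_neg hc] at h1 h2 ⊢
        refine (FR.mul h1 h2 (fun T hT => hM.base.mul A B T hT ihA.1 ihB.1)).congr fun s hs => ?_
        rw [FF_mulK]
    refine ⟨mul_ne A B ihA.1 ihB.1, h5, fun hc j => ?_⟩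
    have h6 := ihA.2.2 hc j.1
    have h7 := ihB.2.2 hc j.2
    refine ⟨?_, FRw_mulF hw h6.1 h7.1 h6.2.1 h7.2.1,
      XW_mul hw h6.1 h7.1 h6.2.1 h7.2.1 h6.2.2 h7.2.2⟩
    refine mul_ne_zero (fun h0 => h6.1 ?_) (fun h0 => h7.1 ?_)
    · exact rename_injective _ Sum.inl_injective (by rw [h0, map_zero])
    · exact rename_injective _ Sum.inr_injective (by rw [h0, map_zero])
  | drop c hc V κ g h ih =>
    have hg0 : g ≠ 0 := by
      rintro rfl
      obtain ⟨j, hj⟩ := ih.1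
      exact hj (map_zero _)
    have h5 : FR p (rG p (wH w2 p) (hyp g)) (Pool.Agent.Y230.PS.FF ((hyp g).toP p)) := by
      have h1 := ih.2.1
      rw [if_neg hc] at h1
      refine (h1.mono (hM.base.drop V κ g)).congr fun s hs => ?_
      have h2 := FF_drop (κ := κ) (map (algebraMap ℚ ℚ_[p]) g) s
      refine Eq.trans ?_ h2
      congr 1
      funext j
      exact map_rename _ _ _
    exact ⟨⟨(0 : Fin 1), hg0⟩, by rw [if_neg hc]; exact h5, fun hcs j =>
      ⟨hg0, h5, XW_drop g (ih.2.2 hcs (0 : Fin 1)).2.2⟩⟩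
  | equiv c A B i k h hA ihA =>
    have h3 : ∀ s : ℝ, Pool.Agent.Y230.PS.FF (A.toP p) s = Pool.Agent.Y230.PS.FF (B.toP p) s :=
      fun s => by
      rw [FF_equiv i k (A.toP p) (B.toP p) (fun j => ?_) s]
      change map (algebraMap ℚ ℚ_[p]) (B.f (k j)) = _
      rw [h, map_rename]
      rfl
    refine ⟨equiv_ne A B i k h ihA.1, ?_, fun hc j => ?_⟩
    · have h1 := ihA.2.1
      by_cases hc : c = Kd.ideal
      · rw [if_pos hc] at h1 ⊢
        exact (h1.mono fun T hT => hM.base.base.equiv A B i k h T hT).congr fun s hs => h3 s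
      · rw [if_neg hc] at h1 ⊢
        exact (h1.mono fun T hT => hM.base.equiv A B i k h T hT).congr fun s hs => h3 s
    · have h5 := ihA.2.2 hc (k.symm j)
      have h6 : B.f j = rename i (A.f (k.symm j)) := by
        rw [← h, Equiv.apply_symm_apply]
      rw [h6]
      refine ⟨fun h0 => h5.1 (rename_injective _ i.injective (by rw [h0, map_zero])), ?_,
        XW_equiv i _ h5.2.2⟩
      refine (h5.2.1.mono fun T hT => hM.base.equiv (hyp (A.f (k.symm j)))
        (hyp (rename i (A.f (k.symm j)))) i (Equiv.refl _) (fun _ => rfl) T hT).congr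
        fun s hs => ?_
      rw [FF_equiv i (Equiv.refl _) ((hyp (A.f (k.symm j))).toP p)
        ((hyp (rename i (A.f (k.symm j)))).toP p) (fun j => ?_) s]
      exact map_rename _ _ _
  | poly A h ih => exact ⟨ih.1, by simpa using ih.2.1, fun hc => by cases hc⟩
  | form V m r a hm ha h f hA ihA =>
    have hne : ∃ J, genP a h f J ≠ 0 := ihA.1
    obtain ⟨hh, hf⟩ := genQ_ne a h f ha hne
    refine ⟨⟨(0 : Fin 1), formP_ne a h f hne ha⟩, ?_, fun hc => by cases hc⟩
    have h1 : FR p (mI w2 p (genQ a h f)) (Pool.Agent.Y230.PS.FF ((genQ a h f).toP p)) := by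
      simpa using ihA.2.1
    rw [genQ_toP] at h1
    rw [formQ_toP, if_neg (by decide)]
    exact FR_formK a (fun t => ⟨(hf t).choose⟩) _ _ _ _
      (fun T hT => hM.form V m r a h f hm ha hne T hT) h1
  | prin A h ih =>
    have h1 : FR p (rG p (wH w2 p) A) (Pool.Agent.Y230.PS.FF (A.toP p)) := by simpa using ih.2.1
    exact ⟨ih.1, by simpa using h1.mono (hM.base.hyp A), fun hc => by cases hc⟩
  | pow V g k hk h ih =>
    have hg : g ≠ 0 := by
      obtain ⟨j, hj⟩ := ih.1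
      exact hj
    have h1 : FR p (rG p (wH w2 p) (hyp g)) (Pool.Agent.Y230.PS.FF ((hyp g).toP p)) := by
      simpa using ih.2.1
    refine ⟨⟨(0 : Fin 1), pow_ne_zero k hg⟩, ?_, fun hc => by cases hc⟩
    rw [if_pos rfl]
    exact pow_case hk (fun T => hM.pow V g hg k hk T) (h1.mono (hM.base.hyp _))
  | sum A B hA hB ihA ihB =>
    refine ⟨sum_ne A B ihA.1, ?_, fun hc => by cases hc⟩
    rw [toP_sum, if_pos rfl]
    have h1 : FR p (mI w2 p A) (Pool.Agent.Y230.PS.FF (A.toP p)) := by simpa using ihA.2.1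
    have h2 : FR p (mI w2 p B) (Pool.Agent.Y230.PS.FF (B.toP p)) := by simpa using ihB.2.1
    exact FR_sumK _ _ _ _ _ (hM.base.base.sum A B) h1 h2
  | up V F hm h ih =>
    refine ⟨ih.1, ?_, fun hc => by cases hc⟩
    have h1 : FR p (mI w2 p (hyp F)) (Pool.Agent.Y230.PS.FF ((hyp F).toP p)) := by
      simpa using ih.2.1
    rw [if_neg (by decide)]
    exact h1.mono fun T _ => up_le F hm T


end Pool.Agent.N138.RF.E3
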