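import Pool.Agent.N138.RF.Defs
import Pool.Agent.Y230.TH.Seq

set_option autoImplicit false
set_option linter.unusedSectionVars false

/-! # General lemmas on good distributions and good polynomials -/

namespace Pool.Agent.N138.RF

open MvPolynomial MeasureTheory
open Pool.Agent.W427.SMC (msZ bsZ mu)
open Pool.Agent.Y230.PT (msK bsK inc inc_emb rr)
open Pool.Agent.Y230.PS (EP)
open Pool.Agent.N138.SU Pool.Agent.N138.SV

attribute [local instance] msK bsK msZ bsZ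

section Dist

variable {p : ℕ} [Fact p.Prime] {Y Y' : Type} [MeasurableSpace Y] [MeasurableSpace Y']
  {ν : Measure Y} {ν' : Measure Y'}

/-- monotonicity in the multiplicities -/
theorem Gd.mono {φ : Y → ℤ_[p]} {m m' : ℂ → ℕ∞} (h : Gd ν φ m) (hm : ∀ T, T ≠ 0 → m T ≤ m' T) :
    Gd ν φ m' :=
  ⟨h.1, fun χ => Pool.Agent.Y230.TH.EP_mono hm (h.2 χ)⟩

theorem LIn.mono {φ : Y → ℤ_[p]} {N N' : ℕ} (h : LIn ν φ N) (hN : N ≤ N') : LIn ν φ N' := by
  intro v hv
  refine h v (hv.trans (pow_le_pow_of_le_one (by positivity) ?_ hN))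
  have h1 : (1 : ℝ) < p := by exact_mod_cast (Fact.out : p.Prime).one_lt
  exact inv_le_one_of_one_le₀ h1.le

/-- transport along measure preserving maps: the integrals -/
theorem int_map {Φ : Y → Y'} (hΦ : MeasurePreserving Φ ν ν') (hΦ2 : MeasurableEmbedding Φ)
    (g : Y' → ℂ) : ∫ y, g (Φ y) ∂ν = ∫ z, g z ∂ν' :=
  hΦ.integral_comp hΦ2 g

theorem LIn_map {Φ : Y → Y'} (hΦ : MeasurePreserving Φ ν ν') (hΦ2 : MeasurableEmbedding Φ)
    (f : Y' → ℤ_[p]) (N : ℕ) : LIn ν (fun y => f (Φ y)) N ↔ LIn ν' f N := by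
  unfold LIn
  refine forall_congr' fun v => forall_congr' fun _ => forall_congr' fun h =>
    forall_congr' fun _ => forall_congr' fun _ => ?_
  rw [int_map hΦ hΦ2 (fun z => h (v * f z)), int_map hΦ hΦ2 (fun z => h (f z))]

theorem Eh_map {Φ : Y → Y'} (hΦ : MeasurePreserving Φ ν ν') (hΦ2 : MeasurableEmbedding Φ)
    (f : Y' → ℤ_[p]) (χ : UC p) (e : ℕ) : Eh ν (fun y => f (Φ y)) χ e = Eh ν' f χ e := by
  unfold Eh Es
  have h : ∀ u : ℤ_[p], ∫ y, psi p e (u * f (Φ y)) ∂ν = ∫ z, psi p e (u * f z) ∂ν' :=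
    fun u => int_map hΦ hΦ2 (fun z => psi p e (u * f z))
  simp only [h]

/-- transport along measure preserving maps -/
theorem Gd_map {Φ : Y → Y'} (hΦ : MeasurePreserving Φ ν ν') (hΦ2 : MeasurableEmbedding Φ)
    (f : Y' → ℤ_[p]) (m : ℂ → ℕ∞) : Gd ν (fun y => f (Φ y)) m ↔ Gd ν' f m := by
  unfold Gd
  simp only [LIn_map hΦ hΦ2, Eh_map hΦ hΦ2]

/-- transport along a measure preserving measurable equivalence -/
theorem Gd_equiv (Φ : Y ≃ᵐ Y') (hΦ : MeasurePreserving Φ ν ν')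
    (f : Y' → ℤ_[p]) (m : ℂ → ℕ∞) : Gd ν (fun y => f (Φ y)) m ↔ Gd ν' f m :=
  Gd_map hΦ Φ.measurableEmbedding f m

/-- the product of two spaces of integral points -/
theorem Gd_sumPi {V W : Type} [Fintype V] [Fintype W]
    (f : (V → ℤ_[p]) × (W → ℤ_[p]) → ℤ_[p]) (m : ℂ → ℕ∞) :
    Gd (Measure.pi fun _ : V ⊕ W => mu p)
      (fun y => f (fun i => y (Sum.inl i), fun i => y (Sum.inr i))) m ↔
    Gd ((Measure.pi fun _ : V => mu p).prod (Measure.pi fun _ : W => mu p)) f m := by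
  have h7 := measurePreserving_sumPiEquivProdPi (X := fun _ : V ⊕ W => ℤ_[p]) (fun _ => mu p)
  exact Gd_equiv _ h7 f m

/-- renaming of the coordinates -/
theorem Gd_pi_equiv {V W : Type} [Fintype V] [Fintype W] (i : V ≃ W)
    (f : (V → ℤ_[p]) → ℤ_[p]) (m : ℂ → ℕ∞) :
    Gd (Measure.pi fun _ : W => mu p) (fun y => f (fun v => y (i v))) m ↔
    Gd (Measure.pi fun _ : V => mu p) f m := by
  have h7 := measurePreserving_arrowCongr' (fun _ : W => mu p) (fun _ : V => mu p) i.symm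
    (MeasurableEquiv.refl ℤ_[p]) (fun _ => MeasurePreserving.id _)
  exact Gd_equiv _ h7 f m

end Dist

section Poly

variable {p : ℕ} [Fact p.Prime] {V W : Type}

theorem IsM.unique {F : MvPolynomial V ℚ_[p]} {φ φ' : (V → ℤ_[p]) → ℤ_[p]} (h : IsM F φ)
    (h' : IsM F φ') : φ = φ' := by
  funext x
  exact (inc_emb p).injective ((h x).trans (h' x).symm)

theorem IsM.cont {F : MvPolynomial V ℚ_[p]} {φ : (V → ℤ_[p]) → ℤ_[p]} (h : IsM F φ) :
    Continuous φ := by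
  have h1 : Continuous (fun x => inc p (φ x)) := by
    have : (fun x => inc p (φ x)) = fun x : V → ℤ_[p] => eval (fun i => inc p (x i)) F := funext h
    rw [this]
    exact (MvPolynomial.continuous_eval _).comp (continuous_pi fun i =>
      (inc_emb p).continuous.comp (continuous_apply i))
  exact (inc_emb p).isInducing.continuous_iff.2 h1

theorem IsM.meas [Fintype V] {F : MvPolynomial V ℚ_[p]} {φ : (V → ℤ_[p]) → ℤ_[p]} (h : IsM F φ) :
    Measurable φ := h.cont.measurable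

theorem IsM.rename_inl {F : MvPolynomial V ℚ_[p]} {φ : (V → ℤ_[p]) → ℤ_[p]} (h : IsM F φ) :
    IsM (rename Sum.inl F : MvPolynomial (V ⊕ W) ℚ_[p]) (fun x => φ (fun i => x (Sum.inl i))) := by
  intro x
  rw [eval_rename]
  exact h _

theorem IsM.rename_inr {G : MvPolynomial W ℚ_[p]} {φ : (W → ℤ_[p]) → ℤ_[p]} (h : IsM G φ) :
    IsM (rename Sum.inr G : MvPolynomial (V ⊕ W) ℚ_[p]) (fun x => φ (fun i => x (Sum.inr i))) := by
  intro x
  rw [eval_rename]
  exact h _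

theorem IsM.add {F G : MvPolynomial V ℚ_[p]} {φ ψ : (V → ℤ_[p]) → ℤ_[p]} (h : IsM F φ)
    (h' : IsM G ψ) : IsM (F + G) (fun x => φ x + ψ x) := by
  intro x
  rw [map_add, ← h x, ← h' x]
  exact PadicInt.coe_add _ _

theorem IsM.mul {F G : MvPolynomial V ℚ_[p]} {φ ψ : (V → ℤ_[p]) → ℤ_[p]} (h : IsM F φ)
    (h' : IsM G ψ) : IsM (F * G) (fun x => φ x * ψ x) := by
  intro x
  rw [map_mul, ← h x, ← h' x]
  exact PadicInt.coe_mul _ _

theorem IsM.C (c : ℤ_[p]) : IsM (MvPolynomial.C (inc p c) : MvPolynomial V ℚ_[p]) (fun _ => c) := by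
  intro x
  rw [eval_C]

theorem IsM.sub {F G : MvPolynomial V ℚ_[p]} {φ ψ : (V → ℤ_[p]) → ℤ_[p]} (h : IsM F φ)
    (h' : IsM G ψ) : IsM (F - G) (fun x => φ x - ψ x) := by
  intro x
  rw [map_sub, ← h x, ← h' x]
  exact PadicInt.coe_sub _ _

theorem bal_cont {φ : (V → ℤ_[p]) → ℤ_[p]} (h : Continuous φ) (a : V → ℤ_[p]) (k : ℕ) :
    Continuous (bal φ a k) := by
  unfold bal
  exact h.comp (continuous_pi fun i => continuous_const.add (continuous_const.mul (continuous_apply i)))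

theorem bal_meas [Fintype V] {φ : (V → ℤ_[p]) → ℤ_[p]} (h : Measurable φ) (a : V → ℤ_[p]) (k : ℕ) :
    Measurable (bal φ a k) := by
  unfold bal
  exact h.comp (measurable_pi_lambda _ fun i => by fun_prop)

theorem inv_p_le (p : ℕ) [Fact p.Prime] : ((p : ℝ)⁻¹) ≤ 1 := by
  have h1 : (1 : ℝ) < p := by exact_mod_cast (Fact.out : p.Prime).one_lt
  exact inv_le_one_of_one_le₀ h1.le

theorem inv_p_pow_le (p : ℕ) [Fact p.Prime] {k l : ℕ} (h : k ≤ l) :
    ((p : ℝ)⁻¹) ^ l ≤ ((p : ℝ)⁻¹) ^ k :=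
  pow_le_pow_of_le_one (by positivity) (inv_p_le p) h

end Poly

section Per

variable {p : ℕ} [Fact p.Prime]

theorem rr_mul {T1 T2 : ℂ} (h1 : T1 ≠ 0) (h2 : T2 ≠ 0) : rr p (T1 * T2) = rr p T1 + rr p T2 := by
  unfold rr
  rw [norm_mul, Real.log_mul (norm_ne_zero_iff.2 h1) (norm_ne_zero_iff.2 h2)]
  ring

theorem rr_pow (T : ℂ) (k : ℕ) : rr p (T ^ k) = k * rr p T := by
  unfold rr
  rw [norm_pow, Real.log_pow]
  ring

theorem rr_p : rr p (p : ℂ) = -1 := by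
  have hp : (1 : ℝ) < p := by exact_mod_cast (Fact.out : p.Prime).one_lt
  unfold rr
  rw [Complex.norm_natCast, neg_div, div_self (Real.log_pos hp).ne']

theorem mP_zero {τ : Type} (g : MvPolynomial τ ℂ) {T : ℂ} (h : ‖T‖ ≤ 1) : mP p g T = 0 := by
  unfold mP
  rw [if_neg fun h2 => absurd h2.1 (not_lt.2 h)]

/-- the multiplicities of the products of two poles -/
theorem PC_mP {σ τ υ : Type} {g1 : MvPolynomial σ ℂ} {g2 : MvPolynomial τ ℂ}
    {g3 : MvPolynomial υ ℂ} (h : ∀ e1 e2 : ℂ, Per g1 e1 → Per g2 e2 → Per g3 (e1 + e2)) :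
    PC (mP p g1) (mP p g2) (mP p g3) := by
  intro T1 T2 h1 h2 a b ha hb h3 h4
  obtain ⟨k1, k2⟩ := mP_le ha h3
  obtain ⟨k3, k4⟩ := mP_le hb h4
  rw [mP_top]
  · exact le_top
  · rw [norm_mul]
    exact one_lt_mul_of_lt_of_le k1 k3.le
  · rw [rr_mul h1 h2]
    push_cast
    exact h _ _ k2 k4

end Per

end Pool.Agent.N138.RF
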