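import Mathlib

set_option autoImplicit false

/-! # Periods of a product near nonzero values: the core (helper701) -/

namespace Pool.Agent.N138.RF.R1Core

open MvPolynomial

/-! ## Sums -/

/-- the term with the index `k` -/
noncomputable def tm (μ lam : ℂ) (a b : ℕ → ℕ → ℂ) (k n : ℕ) : ℂ :=
  (-1) ^ k / (k.factorial : ℂ) *
    ∑ x ∈ Finset.HasAntidiagonal.antidiagonal (n + k), μ ^ x.1 * lam ^ x.2 * (a k x.1 * b k x.2)

/-- the sum -/
noncomputable def Ph (μ lam : ℂ) (a b : ℕ → ℕ → ℂ) (n : ℕ) : ℂ :=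
  ∑ k ∈ Finset.range (n + 1), tm μ lam a b k n

/-- vanishing below the diagonal -/
def Vn (a : ℕ → ℕ → ℂ) : Prop := ∀ k i, i < k → a k i = 0

/-- the shift -/
def sh (a : ℕ → ℕ → ℂ) : ℕ → ℕ → ℂ := fun k i => a (k + 1) i

theorem Vn.sh {a : ℕ → ℕ → ℂ} (h : Vn a) : Vn (sh a) := fun k i hi => h (k + 1) i (by omega)

theorem tm_zero {μ lam : ℂ} {a b : ℕ → ℕ → ℂ} (ha : Vn a) (hb : Vn b) {k n : ℕ} (h : n < k) :
    tm μ lam a b k n = 0 := by
  unfold tm
  rw [Finset.sum_eq_zero, mul_zero]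
  intro x hx
  rw [Finset.HasAntidiagonal.mem_antidiagonal] at hx
  by_cases h1 : x.1 < k
  · rw [ha k x.1 h1, zero_mul, mul_zero]
  · rw [hb k x.2 (by omega), mul_zero, mul_zero]

theorem ph_eq {μ lam : ℂ} {a b : ℕ → ℕ → ℂ} (ha : Vn a) (hb : Vn b) {n N : ℕ} (h : n + 1 ≤ N) :
    Ph μ lam a b n = ∑ k ∈ Finset.range N, tm μ lam a b k n := by
  unfold Ph
  refine Finset.sum_subset (Finset.range_mono h) fun k _ hk => ?_
  rw [Finset.mem_range] at hk
  exact tm_zero ha hb (by omega)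

theorem ph_swap (μ lam : ℂ) (a b : ℕ → ℕ → ℂ) (n : ℕ) : Ph μ lam a b n = Ph lam μ b a n := by
  unfold Ph tm
  refine Finset.sum_congr rfl fun k _ => ?_
  congr 1
  rw [← Finset.Nat.sum_antidiagonal_swap]
  refine Finset.sum_congr rfl fun x _ => ?_
  simp only [Prod.fst_swap, Prod.snd_swap]
  ring

theorem tm_swap (μ lam : ℂ) (a b : ℕ → ℕ → ℂ) (k n : ℕ) : tm μ lam a b k n = tm lam μ b a k n := by
  unfold tm
  congr 1
  rw [← Finset.Nat.sum_antidiagonal_swap]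
  refine Finset.sum_congr rfl fun x _ => ?_
  simp only [Prod.fst_swap, Prod.snd_swap]
  ring

theorem cl1 {μ lam m e : ℂ} (hm : m * μ = 1) {a b : ℕ → ℕ → ℂ} (ha0 : ∀ k, a (k + 1) 0 = 0)
    (ha : ∀ k i, a (k + 1) (i + 1) = ((i : ℂ) - e) * a k i) (k n : ℕ) :
    m * tm μ lam (sh a) b k (n + 1) = (-1) ^ k / (k.factorial : ℂ) *
      ∑ x ∈ Finset.HasAntidiagonal.antidiagonal (n + k), μ ^ x.1 * lam ^ x.2 * (((x.1 : ℂ) - e) * (a k x.1 * b k x.2)) := by
  unfold tm sh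
  rw [show n + 1 + k = (n + k) + 1 by ring, Finset.Nat.sum_antidiagonal_succ, ha0, zero_mul,
    mul_zero, zero_add, mul_left_comm, Finset.mul_sum]
  congr 1
  refine Finset.sum_congr rfl fun x _ => ?_
  simp only
  rw [ha, pow_succ]
  linear_combination (μ ^ x.1 * lam ^ x.2 * (((x.1 : ℂ) - e) * (a k x.1 * b k x.2))) * hm

theorem cl3 (μ lam : ℂ) (a b : ℕ → ℕ → ℂ) (k n : ℕ) :
    tm μ lam (sh a) (sh b) k (n + 1) = -(((k + 1 : ℕ) : ℂ) * tm μ lam a b (k + 1) n) := by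
  unfold tm sh
  rw [show n + 1 + k = n + (k + 1) by ring, Nat.factorial_succ]
  have h1 : ((k.factorial : ℕ) : ℂ) ≠ 0 := by exact_mod_cast k.factorial_ne_zero
  have h2 : (((k + 1 : ℕ)) : ℂ) ≠ 0 := by exact_mod_cast k.succ_ne_zero
  rw [Nat.cast_mul, pow_succ]
  field_simp

/-- the Euler identity -/
theorem euler {μ lam m l e1 e2 : ℂ} (hm : m * μ = 1) (hl : l * lam = 1) {a b : ℕ → ℕ → ℂ}
    (hav : Vn a) (hbv : Vn b) (ha0 : ∀ k, a (k + 1) 0 = 0)
    (ha : ∀ k i, a (k + 1) (i + 1) = ((i : ℂ) - e1) * a k i) (hb0 : ∀ k, b (k + 1) 0 = 0)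
    (hb : ∀ k i, b (k + 1) (i + 1) = ((i : ℂ) - e2) * b k i) (n : ℕ) :
    m * Ph μ lam (sh a) b (n + 1) + l * Ph μ lam a (sh b) (n + 1) +
      Ph μ lam (sh a) (sh b) (n + 1) = ((n : ℂ) - (e1 + e2)) * Ph μ lam a b n := by
  rw [ph_eq hav.sh hbv (N := n + 2) le_rfl, ph_eq hav hbv.sh (N := n + 2) le_rfl,
    ph_eq hav.sh hbv.sh (N := n + 2) le_rfl, ph_eq hav hbv (n := n) (N := n + 2) (by omega)]
  have h3 : ∑ k ∈ Finset.range (n + 2), tm μ lam (sh a) (sh b) k (n + 1) =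
      -∑ k ∈ Finset.range (n + 2), (k : ℂ) * tm μ lam a b k n := by
    have e : ∑ k ∈ Finset.range (n + 2), ((k + 1 : ℕ) : ℂ) * tm μ lam a b (k + 1) n =
        ∑ k ∈ Finset.range (n + 2), (k : ℂ) * tm μ lam a b k n := by
      have h4 := Finset.sum_range_succ' (fun k : ℕ => (k : ℂ) * tm μ lam a b k n) (n + 2)
      rw [Finset.sum_range_succ, tm_zero hav hbv (k := n + 2) (n := n) (by omega)] at h4
      simp only [mul_zero, add_zero, Nat.cast_zero, zero_mul] at h4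
      exact h4.symm
    rw [← e, ← Finset.sum_neg_distrib]
    exact Finset.sum_congr rfl fun k _ => cl3 μ lam a b k n
  rw [h3, Finset.mul_sum, Finset.mul_sum, Finset.mul_sum, ← Finset.sum_add_distrib,
    ← Finset.sum_neg_distrib, ← Finset.sum_add_distrib]
  refine Finset.sum_congr rfl fun k _ => ?_
  rw [cl1 hm ha0 ha, tm_swap μ lam a (sh b), cl1 hl hb0 hb]
  have e5 : ∑ x ∈ Finset.HasAntidiagonal.antidiagonal (n + k), lam ^ x.1 * μ ^ x.2 *
      (((x.1 : ℂ) - e2) * (b k x.1 * a k x.2)) = ∑ x ∈ Finset.HasAntidiagonal.antidiagonal (n + k),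
      μ ^ x.1 * lam ^ x.2 * (((x.2 : ℂ) - e2) * (a k x.1 * b k x.2)) := by
    rw [← Finset.Nat.sum_antidiagonal_swap]
    refine Finset.sum_congr rfl fun x _ => ?_
    simp only [Prod.fst_swap, Prod.snd_swap]
    ring
  rw [e5, ← mul_add, ← Finset.sum_add_distrib]
  have e6 : ∑ x ∈ Finset.HasAntidiagonal.antidiagonal (n + k), (μ ^ x.1 * lam ^ x.2 *
      (((x.1 : ℂ) - e1) * (a k x.1 * b k x.2)) + μ ^ x.1 * lam ^ x.2 *
      (((x.2 : ℂ) - e2) * (a k x.1 * b k x.2))) = ((n : ℂ) + k - (e1 + e2)) *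
      ∑ x ∈ Finset.HasAntidiagonal.antidiagonal (n + k), μ ^ x.1 * lam ^ x.2 * (a k x.1 * b k x.2) := by
    rw [Finset.mul_sum]
    refine Finset.sum_congr rfl fun x hx => ?_
    rw [Finset.HasAntidiagonal.mem_antidiagonal] at hx
    have h7 : (x.1 : ℂ) + x.2 = n + k := by exact_mod_cast hx
    linear_combination (μ ^ x.1 * lam ^ x.2 * (a k x.1 * b k x.2)) * h7
  rw [e6]
  unfold tm
  ring

/-- the identity for the derivatives -/
theorem deri {μ lam m : ℂ} (hm : m * μ = 1) {a a' dd b : ℕ → ℕ → ℂ}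
    (hav : Vn a) (hav' : Vn a') (hdv : Vn dd) (hbv : Vn b) (hd0 : ∀ k, dd k 0 = 0)
    (h : ∀ k i, a k i = dd k (i + 1) + a' k i - (k : ℂ) * dd (k - 1) i) (n : ℕ) :
    Ph μ lam a b n - (m * Ph μ lam dd b (n + 1) + Ph μ lam dd (sh b) (n + 1)) = Ph μ lam a' b n := by
  rw [ph_eq hav hbv (n := n) (N := n + 3) (by omega), ph_eq hdv hbv (N := n + 3) (by omega),
    ph_eq hdv hbv.sh (N := n + 2) le_rfl, ph_eq hav' hbv (n := n) (N := n + 3) (by omega)]
  set pb : ℕ → ℂ := fun k => -((-1) ^ k / (k.factorial : ℂ) * ((k : ℂ) *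
    ∑ x ∈ Finset.HasAntidiagonal.antidiagonal (n + k), μ ^ x.1 * lam ^ x.2 * (dd (k - 1) x.1 * b k x.2))) with hpb
  have h1 : ∀ k, tm μ lam a b k n = tm μ lam a' b k n + m * tm μ lam dd b k (n + 1) + pb k := by
    intro k
    have e1 : m * tm μ lam dd b k (n + 1) = (-1) ^ k / (k.factorial : ℂ) *
        ∑ x ∈ Finset.HasAntidiagonal.antidiagonal (n + k), μ ^ x.1 * lam ^ x.2 * (dd k (x.1 + 1) * b k x.2) := by
      unfold tm
      rw [show n + 1 + k = (n + k) + 1 by ring, Finset.Nat.sum_antidiagonal_succ, hd0, zero_mul,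
        mul_zero, zero_add, mul_left_comm, Finset.mul_sum]
      congr 1
      refine Finset.sum_congr rfl fun x _ => ?_
      simp only
      rw [pow_succ]
      linear_combination (μ ^ x.1 * lam ^ x.2 * (dd k (x.1 + 1) * b k x.2)) * hm
    rw [e1, hpb]
    simp only
    unfold tm
    rw [← mul_add, ← sub_eq_add_neg, ← mul_sub]
    congr 1
    rw [← Finset.sum_add_distrib, Finset.mul_sum, ← Finset.sum_sub_distrib]
    refine Finset.sum_congr rfl fun x _ => ?_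
    rw [h]
    ring
  have h2 : ∑ k ∈ Finset.range (n + 3), pb k =
      ∑ k ∈ Finset.range (n + 2), tm μ lam dd (sh b) k (n + 1) := by
    rw [Finset.sum_range_succ']
    have e0 : pb 0 = 0 := by
      rw [hpb]
      simp
    rw [e0, add_zero]
    refine Finset.sum_congr rfl fun k _ => ?_
    rw [hpb]
    simp only
    unfold tm sh
    rw [show n + 1 + k = n + (k + 1) by ring, Nat.factorial_succ, Nat.add_sub_cancel]
    have h3 : ((k.factorial : ℕ) : ℂ) ≠ 0 := by exact_mod_cast k.factorial_ne_zero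
    have h4 : (((k + 1 : ℕ)) : ℂ) ≠ 0 := by exact_mod_cast k.succ_ne_zero
    rw [Nat.cast_mul, pow_succ]
    field_simp
  rw [Finset.sum_congr rfl fun k _ => h1 k, Finset.sum_add_distrib, Finset.sum_add_distrib, h2,
    Finset.mul_sum]
  ring

/-! ## Functionals -/

section Tens

variable {σ τ : Type}

/-- the tensor product of two functionals -/
noncomputable def ten (a : MvPolynomial σ ℂ →ₗ[ℂ] ℂ) (b : MvPolynomial τ ℂ →ₗ[ℂ] ℂ) :
    MvPolynomial (σ ⊕ τ) ℂ →ₗ[ℂ] ℂ :=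
  (basisMonomials (σ ⊕ τ) ℂ).constr ℂ fun s : σ ⊕ τ →₀ ℕ =>
    a (monomial (s.comapDomain Sum.inl Sum.inl_injective.injOn) 1) *
      b (monomial (s.comapDomain Sum.inr Sum.inr_injective.injOn) 1)

theorem prod_mon (u : σ →₀ ℕ) (v : τ →₀ ℕ) :
    (rename Sum.inl (monomial u (1 : ℂ)) * rename Sum.inr (monomial v (1 : ℂ)) :
      MvPolynomial (σ ⊕ τ) ℂ) = monomial (Finsupp.sumElim u v) 1 := by
  have h : Finsupp.mapDomain Sum.inl u + Finsupp.mapDomain Sum.inr v = Finsupp.sumElim u v := by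
    ext i
    rcases i with i | i
    · rw [Finsupp.add_apply, Finsupp.mapDomain_apply Sum.inl_injective,
        Finsupp.mapDomain_of_notMem_range _ _ (by simp)]
      simp
    · rw [Finsupp.add_apply, Finsupp.mapDomain_apply Sum.inr_injective,
        Finsupp.mapDomain_of_notMem_range _ _ (by simp)]
      simp
  rw [rename_monomial, rename_monomial, monomial_mul, mul_one, h]

theorem ten_mon (a : MvPolynomial σ ℂ →ₗ[ℂ] ℂ) (b : MvPolynomial τ ℂ →ₗ[ℂ] ℂ)
    (u : σ →₀ ℕ) (v : τ →₀ ℕ) : ten a b (rename Sum.inl (monomial u (1 : ℂ)) *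
      rename Sum.inr (monomial v (1 : ℂ))) = a (monomial u 1) * b (monomial v 1) := by
  rw [prod_mon]
  have h := (basisMonomials (σ ⊕ τ) ℂ).constr_basis ℂ (fun s : σ ⊕ τ →₀ ℕ =>
    a (monomial (s.comapDomain Sum.inl Sum.inl_injective.injOn) 1) *
      b (monomial (s.comapDomain Sum.inr Sum.inr_injective.injOn) 1)) (Finsupp.sumElim u v)
  rw [coe_basisMonomials] at h
  unfold ten
  rw [h]
  congr 2
  · congr 1
    ext i
    simp
  · congr 1
    ext i
    simp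

/-- two functionals which agree on the products are equal -/
theorem ten_ext {A B : MvPolynomial (σ ⊕ τ) ℂ →ₗ[ℂ] ℂ}
    (h : ∀ (u : MvPolynomial σ ℂ) (v : MvPolynomial τ ℂ),
      A (rename Sum.inl u * rename Sum.inr v) = B (rename Sum.inl u * rename Sum.inr v)) :
    A = B := by
  refine (basisMonomials (σ ⊕ τ) ℂ).ext fun s => ?_
  rw [coe_basisMonomials]
  have h1 := h (monomial (s.comapDomain Sum.inl Sum.inl_injective.injOn) 1)
    (monomial (s.comapDomain Sum.inr Sum.inr_injective.injOn) 1)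
  rw [prod_mon] at h1
  have h2 : Finsupp.sumElim (s.comapDomain Sum.inl Sum.inl_injective.injOn)
      (s.comapDomain Sum.inr Sum.inr_injective.injOn) = s := by
    ext i
    rcases i with i | i <;> simp
  rw [h2] at h1
  exact h1

/-- the defining property of the tensor product -/
theorem ten_apply (a : MvPolynomial σ ℂ →ₗ[ℂ] ℂ) (b : MvPolynomial τ ℂ →ₗ[ℂ] ℂ)
    (u : MvPolynomial σ ℂ) (v : MvPolynomial τ ℂ) :
    ten a b (rename Sum.inl u * rename Sum.inr v) = a u * b v := by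
  induction u using MvPolynomial.induction_on' with
  | add u1 u2 h1 h2 => rw [map_add, add_mul, map_add, h1, h2, map_add, add_mul]
  | monomial s r =>
    induction v using MvPolynomial.induction_on' with
    | add v1 v2 h1 h2 => rw [map_add, mul_add, map_add, h1, h2, map_add, mul_add]
    | monomial t q =>
      have e1 : (monomial s r : MvPolynomial σ ℂ) = r • monomial s 1 := by
        rw [smul_monomial, smul_eq_mul, mul_one]
      have e2 : (monomial t q : MvPolynomial τ ℂ) = q • monomial t 1 := by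
        rw [smul_monomial, smul_eq_mul, mul_one]
      rw [e1, e2, map_smul, map_smul, map_smul, map_smul, smul_mul_smul_comm, map_smul, ten_mon,
        smul_eq_mul, smul_eq_mul, smul_eq_mul]
      ring

variable (F : MvPolynomial σ ℂ) (G : MvPolynomial τ ℂ) (μ lam : ℂ)

/-- the functionals of the product -/
noncomputable def Cf (c1 : ℕ → MvPolynomial σ ℂ →ₗ[ℂ] ℂ) (c2 : ℕ → MvPolynomial τ ℂ →ₗ[ℂ] ℂ)
    (n : ℕ) : MvPolynomial (σ ⊕ τ) ℂ →ₗ[ℂ] ℂ :=
  ∑ k ∈ Finset.range (n + 1), ((-1) ^ k / (k.factorial : ℂ)) •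
    ∑ x ∈ Finset.HasAntidiagonal.antidiagonal (n + k), (μ ^ x.1 * lam ^ x.2) •
      ten ((c1 x.1).comp (LinearMap.mulLeft ℂ (F ^ k))) ((c2 x.2).comp (LinearMap.mulLeft ℂ (G ^ k)))

/-- the numbers -/
noncomputable def nb {ρ : Type} (H : MvPolynomial ρ ℂ) (c : ℕ → MvPolynomial ρ ℂ →ₗ[ℂ] ℂ)
    (u : MvPolynomial ρ ℂ) : ℕ → ℕ → ℂ := fun k i => c i (H ^ k * u)

theorem Cf_apply (c1 : ℕ → MvPolynomial σ ℂ →ₗ[ℂ] ℂ) (c2 : ℕ → MvPolynomial τ ℂ →ₗ[ℂ] ℂ)
    (n : ℕ) (u : MvPolynomial σ ℂ) (v : MvPolynomial τ ℂ) :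
    Cf F G μ lam c1 c2 n (rename Sum.inl u * rename Sum.inr v) =
      Ph μ lam (nb F c1 u) (nb G c2 v) n := by
  unfold Cf Ph tm nb
  rw [LinearMap.sum_apply]
  refine Finset.sum_congr rfl fun k _ => ?_
  rw [LinearMap.smul_apply, LinearMap.sum_apply, smul_eq_mul]
  congr 1
  refine Finset.sum_congr rfl fun x _ => ?_
  rw [LinearMap.smul_apply, smul_eq_mul, ten_apply]
  rfl

end Tens

section One

variable {ρ : Type} {H : MvPolynomial ρ ℂ} {e : ℂ} {c : ℕ → MvPolynomial ρ ℂ →ₗ[ℂ] ℂ}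

theorem nb_vn (h1 : ∀ h, c 0 (H * h) = 0)
    (h2 : ∀ (m : ℕ) h, c (m + 1) (H * h) = ((m : ℂ) - e) * c m h) (u : MvPolynomial ρ ℂ) :
    Vn (nb H c u) := by
  intro k
  induction k with
  | zero => intro i hi; omega
  | succ k ih =>
    intro i hi
    unfold nb
    rw [pow_succ', mul_assoc]
    rcases i with _ | i
    · exact h1 _
    · rw [h2]
      have := ih i (by omega)
      unfold nb at this
      rw [this, mul_zero]

theorem nb_sh (u : MvPolynomial ρ ℂ) : nb H c (H * u) = sh (nb H c u) := by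
  funext k i
  show c i (H ^ k * (H * u)) = c i (H ^ (k + 1) * u)
  rw [pow_succ, mul_assoc]

theorem nb_0 (h1 : ∀ h, c 0 (H * h) = 0) (u : MvPolynomial ρ ℂ) (k : ℕ) :
    nb H c u (k + 1) 0 = 0 := by
  unfold nb
  rw [pow_succ', mul_assoc]
  exact h1 _

theorem nb_s (h2 : ∀ (m : ℕ) h, c (m + 1) (H * h) = ((m : ℂ) - e) * c m h)
    (u : MvPolynomial ρ ℂ) (k i : ℕ) :
    nb H c u (k + 1) (i + 1) = ((i : ℂ) - e) * nb H c u k i := by
  unfold nb
  rw [pow_succ', mul_assoc]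
  exact h2 _ _

end One

section Two

variable {σ τ : Type}

theorem pd_inl_inl (i : σ) (u : MvPolynomial σ ℂ) :
    pderiv (Sum.inl i : σ ⊕ τ) (rename Sum.inl u) = rename Sum.inl (pderiv i u) :=
  pderiv_rename Sum.inl_injective i u

theorem pd_inr_inr (i : τ) (u : MvPolynomial τ ℂ) :
    pderiv (Sum.inr i : σ ⊕ τ) (rename Sum.inr u) = rename Sum.inr (pderiv i u) :=
  pderiv_rename Sum.inr_injective i u

theorem pd_inl_inr (i : σ) (v : MvPolynomial τ ℂ) :
    pderiv (Sum.inl i : σ ⊕ τ) (rename Sum.inr v) = 0 := by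
  classical
  apply pderiv_eq_zero_of_notMem_vars
  intro h
  obtain ⟨x, _, hx⟩ := Finset.mem_image.1 (vars_rename _ _ h)
  exact Sum.inr_ne_inl hx

theorem pd_inr_inl (i : τ) (v : MvPolynomial σ ℂ) :
    pderiv (Sum.inr i : σ ⊕ τ) (rename Sum.inl v) = 0 := by
  classical
  apply pderiv_eq_zero_of_notMem_vars
  intro h
  obtain ⟨x, _, hx⟩ := Finset.mem_image.1 (vars_rename _ _ h)
  exact Sum.inl_ne_inr hx

/-- the polynomial -/
noncomputable def KK (F : MvPolynomial σ ℂ) (G : MvPolynomial τ ℂ) (m l : ℂ) :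
    MvPolynomial (σ ⊕ τ) ℂ :=
  C m * rename Sum.inl F + C l * rename Sum.inr G + rename Sum.inl F * rename Sum.inr G

theorem kk_mul (F : MvPolynomial σ ℂ) (G : MvPolynomial τ ℂ) (m l : ℂ) (u : MvPolynomial σ ℂ)
    (v : MvPolynomial τ ℂ) : KK F G m l * (rename Sum.inl u * rename Sum.inr v) =
      m • (rename Sum.inl (F * u) * rename Sum.inr v) +
      l • (rename Sum.inl u * rename Sum.inr (G * v)) +
      rename Sum.inl (F * u) * rename Sum.inr (G * v) := by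
  unfold KK
  rw [smul_eq_C_mul, smul_eq_C_mul, map_mul, map_mul]
  ring

theorem pk_inl (F : MvPolynomial σ ℂ) (G : MvPolynomial τ ℂ) (m l : ℂ) (i : σ)
    (u : MvPolynomial σ ℂ) (v : MvPolynomial τ ℂ) :
    pderiv (Sum.inl i) (KK F G m l) * (rename Sum.inl u * rename Sum.inr v) =
      m • (rename Sum.inl (pderiv i F * u) * rename Sum.inr v) +
      rename Sum.inl (pderiv i F * u) * rename Sum.inr (G * v) := by
  unfold KK
  rw [map_add, map_add, pderiv_mul, pderiv_mul, pderiv_mul, pderiv_C, pderiv_C, pd_inl_inl,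
    pd_inl_inr, smul_eq_C_mul, map_mul, map_mul]
  ring

theorem pk_inr (F : MvPolynomial σ ℂ) (G : MvPolynomial τ ℂ) (m l : ℂ) (i : τ)
    (u : MvPolynomial σ ℂ) (v : MvPolynomial τ ℂ) :
    pderiv (Sum.inr i) (KK F G m l) * (rename Sum.inl u * rename Sum.inr v) =
      l • (rename Sum.inl u * rename Sum.inr (pderiv i G * v)) +
      rename Sum.inl (F * u) * rename Sum.inr (pderiv i G * v) := by
  unfold KK
  rw [map_add, map_add, pderiv_mul, pderiv_mul, pderiv_mul, pderiv_C, pderiv_C, pd_inr_inr,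
    pd_inr_inl, smul_eq_C_mul, map_mul, map_mul]
  ring

end Two

section Main

variable {σ τ : Type} {F : MvPolynomial σ ℂ} {G : MvPolynomial τ ℂ} {m l μ lam e1 e2 : ℂ}
  {c1 c1' : ℕ → MvPolynomial σ ℂ →ₗ[ℂ] ℂ} {c2 c2' : ℕ → MvPolynomial τ ℂ →ₗ[ℂ] ℂ}

theorem cf_zero (u : MvPolynomial σ ℂ) (v : MvPolynomial τ ℂ) :
    Cf F G μ lam c1 c2 0 (rename Sum.inl u * rename Sum.inr v) = c1 0 u * c2 0 v := by
  rw [Cf_apply]
  unfold Ph tm nb
  simp

theorem cf_e1 (h1 : ∀ h, c1 0 (F * h) = 0) (h2 : ∀ h, c2 0 (G * h) = 0)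
    (h : MvPolynomial (σ ⊕ τ) ℂ) : Cf F G μ lam c1 c2 0 (KK F G m l * h) = 0 := by
  have key : (Cf F G μ lam c1 c2 0).comp (LinearMap.mulLeft ℂ (KK F G m l)) = 0 := by
    refine ten_ext fun u v => ?_
    rw [LinearMap.comp_apply, LinearMap.mulLeft_apply, kk_mul, map_add, map_add, map_smul,
      map_smul, cf_zero, cf_zero, cf_zero, h1, h2, LinearMap.zero_apply]
    simp
  exact LinearMap.congr_fun key h

theorem cf_e2 (hm : m * μ = 1) (hl : l * lam = 1) (h1 : ∀ h, c1 0 (F * h) = 0)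
    (h2 : ∀ (n : ℕ) h, c1 (n + 1) (F * h) = ((n : ℂ) - e1) * c1 n h)
    (h3 : ∀ h, c2 0 (G * h) = 0)
    (h4 : ∀ (n : ℕ) h, c2 (n + 1) (G * h) = ((n : ℂ) - e2) * c2 n h) (n : ℕ)
    (h : MvPolynomial (σ ⊕ τ) ℂ) : Cf F G μ lam c1 c2 (n + 1) (KK F G m l * h) =
      ((n : ℂ) - (e1 + e2)) * Cf F G μ lam c1 c2 n h := by
  have key : (Cf F G μ lam c1 c2 (n + 1)).comp (LinearMap.mulLeft ℂ (KK F G m l)) =
      ((n : ℂ) - (e1 + e2)) • Cf F G μ lam c1 c2 n := by
    refine ten_ext fun u v => ?_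
    rw [LinearMap.comp_apply, LinearMap.mulLeft_apply, kk_mul, map_add, map_add, map_smul,
      map_smul, LinearMap.smul_apply, Cf_apply, Cf_apply, Cf_apply, Cf_apply, nb_sh, nb_sh,
      smul_eq_mul, smul_eq_mul, smul_eq_mul]
    exact euler hm hl (nb_vn h1 h2 u) (nb_vn h3 h4 v) (nb_0 h1 u) (nb_s h2 u) (nb_0 h3 v)
      (nb_s h4 v) n
  exact LinearMap.congr_fun key h

theorem cf_d1l {i : σ} (h1 : ∀ h, c1 0 (pderiv i F * h) = 0)
    (h : MvPolynomial (σ ⊕ τ) ℂ) :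
    Cf F G μ lam c1 c2 0 (pderiv (Sum.inl i) (KK F G m l) * h) = 0 := by
  have key : (Cf F G μ lam c1 c2 0).comp
      (LinearMap.mulLeft ℂ (pderiv (Sum.inl i) (KK F G m l))) = 0 := by
    refine ten_ext fun u v => ?_
    rw [LinearMap.comp_apply, LinearMap.mulLeft_apply, pk_inl, map_add, map_smul, cf_zero,
      cf_zero, h1, LinearMap.zero_apply]
    simp
  exact LinearMap.congr_fun key h

theorem cf_d1r {i : τ} (h1 : ∀ h, c2 0 (pderiv i G * h) = 0)
    (h : MvPolynomial (σ ⊕ τ) ℂ) :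
    Cf F G μ lam c1 c2 0 (pderiv (Sum.inr i) (KK F G m l) * h) = 0 := by
  have key : (Cf F G μ lam c1 c2 0).comp
      (LinearMap.mulLeft ℂ (pderiv (Sum.inr i) (KK F G m l))) = 0 := by
    refine ten_ext fun u v => ?_
    rw [LinearMap.comp_apply, LinearMap.mulLeft_apply, pk_inr, map_add, map_smul, cf_zero,
      cf_zero, h1, LinearMap.zero_apply]
    simp
  exact LinearMap.congr_fun key h

/-- the numbers of a derivative -/
theorem nb_pd {ρ : Type} {H : MvPolynomial ρ ℂ} {c c' : ℕ → MvPolynomial ρ ℂ →ₗ[ℂ] ℂ} {i : ρ}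
    (hd : ∀ (m : ℕ) h, c m (pderiv i h) - c (m + 1) (pderiv i H * h) = c' m h)
    (u : MvPolynomial ρ ℂ) (k j : ℕ) : nb H c (pderiv i u) k j =
      nb H c (pderiv i H * u) k (j + 1) + nb H c' u k j -
        (k : ℂ) * nb H c (pderiv i H * u) (k - 1) j := by
  unfold nb
  have h1 := hd j (H ^ k * u)
  have h2 : pderiv i (H ^ k * u) = C (k : ℂ) * (H ^ (k - 1) * (pderiv i H * u)) +
      H ^ k * pderiv i u := by
    rw [pderiv_mul, pderiv_pow]
    simp only [map_natCast]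
    ring
  rw [h2, map_add, C_mul', map_smul, smul_eq_mul] at h1
  have h3 : pderiv i H * (H ^ k * u) = H ^ k * (pderiv i H * u) := by ring
  rw [h3] at h1
  linear_combination h1

theorem cf_d2l (hm : m * μ = 1) {i : σ} (h1 : ∀ h, c1 0 (F * h) = 0)
    (h2 : ∀ (n : ℕ) h, c1 (n + 1) (F * h) = ((n : ℂ) - e1) * c1 n h)
    (h1' : ∀ h, c1' 0 (F * h) = 0)
    (h2' : ∀ (n : ℕ) h, c1' (n + 1) (F * h) = ((n : ℂ) - e1) * c1' n h)
    (h3 : ∀ h, c2 0 (G * h) = 0)
    (h4 : ∀ (n : ℕ) h, c2 (n + 1) (G * h) = ((n : ℂ) - e2) * c2 n h)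
    (hd1 : ∀ h, c1 0 (pderiv i F * h) = 0)
    (hd : ∀ (m : ℕ) h, c1 m (pderiv i h) - c1 (m + 1) (pderiv i F * h) = c1' m h) (n : ℕ)
    (h : MvPolynomial (σ ⊕ τ) ℂ) : Cf F G μ lam c1 c2 n (pderiv (Sum.inl i) h) -
      Cf F G μ lam c1 c2 (n + 1) (pderiv (Sum.inl i) (KK F G m l) * h) =
      Cf F G μ lam c1' c2 n h := by
  have key : (Cf F G μ lam c1 c2 n).comp (pderiv (Sum.inl i)).toLinearMap -
      (Cf F G μ lam c1 c2 (n + 1)).comp
        (LinearMap.mulLeft ℂ (pderiv (Sum.inl i) (KK F G m l))) = Cf F G μ lam c1' c2 n := by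
    refine ten_ext fun u v => ?_
    rw [LinearMap.sub_apply, LinearMap.comp_apply, LinearMap.comp_apply, LinearMap.mulLeft_apply,
      pk_inl, map_add, map_smul]
    have e0 : (pderiv (Sum.inl i) : Derivation ℂ (MvPolynomial (σ ⊕ τ) ℂ) _).toLinearMap
        (rename Sum.inl u * rename Sum.inr v) = rename Sum.inl (pderiv i u) * rename Sum.inr v := by
      show pderiv (Sum.inl i) (rename Sum.inl u * rename Sum.inr v) = _
      rw [pderiv_mul, pd_inl_inl, pd_inl_inr, mul_zero, add_zero]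
    rw [e0, Cf_apply, Cf_apply, Cf_apply, Cf_apply, nb_sh, smul_eq_mul]
    refine deri hm (nb_vn h1 h2 _) (nb_vn h1' h2' u) (nb_vn h1 h2 _) (nb_vn h3 h4 v) ?_
      (nb_pd hd u) n
    intro k
    unfold nb
    rw [mul_left_comm]
    exact hd1 _
  exact LinearMap.congr_fun key h

theorem cf_d2r (hl : l * lam = 1) {i : τ} (h1 : ∀ h, c1 0 (F * h) = 0)
    (h2 : ∀ (n : ℕ) h, c1 (n + 1) (F * h) = ((n : ℂ) - e1) * c1 n h)
    (h3 : ∀ h, c2 0 (G * h) = 0)
    (h4 : ∀ (n : ℕ) h, c2 (n + 1) (G * h) = ((n : ℂ) - e2) * c2 n h)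
    (h3' : ∀ h, c2' 0 (G * h) = 0)
    (h4' : ∀ (n : ℕ) h, c2' (n + 1) (G * h) = ((n : ℂ) - e2) * c2' n h)
    (hd1 : ∀ h, c2 0 (pderiv i G * h) = 0)
    (hd : ∀ (m : ℕ) h, c2 m (pderiv i h) - c2 (m + 1) (pderiv i G * h) = c2' m h) (n : ℕ)
    (h : MvPolynomial (σ ⊕ τ) ℂ) : Cf F G μ lam c1 c2 n (pderiv (Sum.inr i) h) -
      Cf F G μ lam c1 c2 (n + 1) (pderiv (Sum.inr i) (KK F G m l) * h) =
      Cf F G μ lam c1 c2' n h := by
  have key : (Cf F G μ lam c1 c2 n).comp (pderiv (Sum.inr i)).toLinearMap -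
      (Cf F G μ lam c1 c2 (n + 1)).comp
        (LinearMap.mulLeft ℂ (pderiv (Sum.inr i) (KK F G m l))) = Cf F G μ lam c1 c2' n := by
    refine ten_ext fun u v => ?_
    rw [LinearMap.sub_apply, LinearMap.comp_apply, LinearMap.comp_apply, LinearMap.mulLeft_apply,
      pk_inr, map_add, map_smul]
    have e0 : (pderiv (Sum.inr i) : Derivation ℂ (MvPolynomial (σ ⊕ τ) ℂ) _).toLinearMap
        (rename Sum.inl u * rename Sum.inr v) = rename Sum.inl u * rename Sum.inr (pderiv i v) := by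
      show pderiv (Sum.inr i) (rename Sum.inl u * rename Sum.inr v) = _
      rw [pderiv_mul, pd_inr_inl, pd_inr_inr, zero_mul, zero_add]
    rw [e0, Cf_apply, Cf_apply, Cf_apply, Cf_apply, nb_sh, smul_eq_mul, ph_swap μ lam _ _ n,
      ph_swap μ lam (nb F c1 u) (nb G c2 (pderiv i G * v)), ph_swap μ lam (sh (nb F c1 u)),
      ph_swap μ lam (nb F c1 u) (nb G c2' v)]
    refine deri hl (nb_vn h3 h4 _) (nb_vn h3' h4' v) (nb_vn h3 h4 _) (nb_vn h1 h2 u) ?_
      (nb_pd hd v) n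
    intro k
    unfold nb
    rw [mul_left_comm]
    exact hd1 _
  exact LinearMap.congr_fun key h

theorem cf_mul {i : σ} (hd : ∀ (m : ℕ) h, c1 m (X i * h) = c1' m h) (n : ℕ)
    (h : MvPolynomial (σ ⊕ τ) ℂ) : Cf F G μ lam c1 c2 n (X (Sum.inl i) * h) =
      Cf F G μ lam c1' c2 n h := by
  have key : (Cf F G μ lam c1 c2 n).comp (LinearMap.mulLeft ℂ (X (Sum.inl i))) =
      Cf F G μ lam c1' c2 n := by
    refine ten_ext fun u v => ?_
    have e0 : (X (Sum.inl i) : MvPolynomial (σ ⊕ τ) ℂ) * (rename Sum.inl u * rename Sum.inr v) =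
        rename Sum.inl (X i * u) * rename Sum.inr v := by
      rw [map_mul, rename_X, mul_assoc]
    rw [LinearMap.comp_apply, LinearMap.mulLeft_apply, e0, Cf_apply, Cf_apply]
    congr 1
    funext k j
    unfold nb
    rw [mul_left_comm, hd]
  exact LinearMap.congr_fun key h

theorem cf_mur {i : τ} (hd : ∀ (m : ℕ) h, c2 m (X i * h) = c2' m h) (n : ℕ)
    (h : MvPolynomial (σ ⊕ τ) ℂ) : Cf F G μ lam c1 c2 n (X (Sum.inr i) * h) =
      Cf F G μ lam c1 c2' n h := by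
  have key : (Cf F G μ lam c1 c2 n).comp (LinearMap.mulLeft ℂ (X (Sum.inr i))) =
      Cf F G μ lam c1 c2' n := by
    refine ten_ext fun u v => ?_
    have e0 : (X (Sum.inr i) : MvPolynomial (σ ⊕ τ) ℂ) * (rename Sum.inl u * rename Sum.inr v) =
        rename Sum.inl u * rename Sum.inr (X i * v) := by
      rw [map_mul, rename_X, mul_left_comm]
    rw [LinearMap.comp_apply, LinearMap.mulLeft_apply, e0, Cf_apply, Cf_apply]
    congr 1
    funext k j
    unfold nb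
    rw [mul_left_comm, hd]
  exact LinearMap.congr_fun key h

theorem kk_eq (F : MvPolynomial σ ℂ) (G : MvPolynomial τ ℂ) (l m : ℂ) :
    (rename Sum.inl F * rename Sum.inr G - C (l * m) : MvPolynomial (σ ⊕ τ) ℂ) =
      KK (F - C l) (G - C m) m l := by
  unfold KK
  rw [map_sub, map_sub, rename_C, rename_C, map_mul]
  ring

end Main

end Pool.Agent.N138.RF.R1Core
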