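import Pool.Agent.N138.RF.Stm
import Pool.Agent.N138.RF.R1Core

set_option autoImplicit false

/-! # Periods of a product near nonzero values (job R1, helper701) -/

namespace Pool.Agent.N138.RF.R1

open MvPolynomial
open Pool.Agent.N138.SV
open Pool.Agent.N138.RF.R1Core

theorem t : StR1 := by
  intro σ τ F G l m e1 e2 hl hm h1 h2
  obtain ⟨S1, hS1, a, ha, ha0⟩ := h1
  obtain ⟨S2, hS2, b, hb, hb0⟩ := h2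
  rw [kk_eq]
  have hm' : m * m⁻¹ = 1 := mul_inv_cancel₀ hm
  have hl' : l * l⁻¹ = 1 := mul_inv_cancel₀ hl
  refine ⟨{c | ∃ c1 ∈ S1, ∃ c2 ∈ S2, c = Cf (F - C l) (G - C m) m⁻¹ l⁻¹ c1 c2},
    ⟨?_, ?_, ?_, ?_, ?_⟩, Cf (F - C l) (G - C m) m⁻¹ l⁻¹ a b, ⟨a, ha, b, hb, rfl⟩, ?_⟩
  · rintro _ ⟨c1, h1, c2, h2, rfl⟩ h
    exact cf_e1 (hS1.e1 c1 h1) (hS2.e1 c2 h2) h
  · rintro _ ⟨c1, h1, c2, h2, rfl⟩ n h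
    exact cf_e2 hm' hl' (hS1.e1 c1 h1) (hS1.e2 c1 h1) (hS2.e1 c2 h2) (hS2.e2 c2 h2) n h
  · rintro _ ⟨c1, h1, c2, h2, rfl⟩ (i | i) h
    · exact cf_d1l (hS1.d1 c1 h1 i) h
    · exact cf_d1r (hS2.d1 c2 h2 i) h
  · rintro _ ⟨c1, h1, c2, h2, rfl⟩ (i | i)
    · obtain ⟨c1', h1', hd⟩ := hS1.d2 c1 h1 i
      exact ⟨_, ⟨c1', h1', c2, h2, rfl⟩, fun n h => cf_d2l hm' (hS1.e1 c1 h1) (hS1.e2 c1 h1)
        (hS1.e1 c1' h1') (hS1.e2 c1' h1') (hS2.e1 c2 h2) (hS2.e2 c2 h2) (hS1.d1 c1 h1 i) hd n h⟩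
    · obtain ⟨c2', h2', hd⟩ := hS2.d2 c2 h2 i
      exact ⟨_, ⟨c1, h1, c2', h2', rfl⟩, fun n h => cf_d2r hl' (hS1.e1 c1 h1) (hS1.e2 c1 h1)
        (hS2.e1 c2 h2) (hS2.e2 c2 h2) (hS2.e1 c2' h2') (hS2.e2 c2' h2') (hS2.d1 c2 h2 i) hd n h⟩
  · rintro _ ⟨c1, h1, c2, h2, rfl⟩ (i | i)
    · obtain ⟨c1', h1', hd⟩ := hS1.mu c1 h1 i
      exact ⟨_, ⟨c1', h1', c2, h2, rfl⟩, fun n h => cf_mul hd n h⟩
    · obtain ⟨c2', h2', hd⟩ := hS2.mu c2 h2 i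
      exact ⟨_, ⟨c1, h1, c2', h2', rfl⟩, fun n h => cf_mur hd n h⟩
  · have e : (1 : MvPolynomial (σ ⊕ τ) ℂ) = rename Sum.inl 1 * rename Sum.inr 1 := by
      rw [map_one, map_one, mul_one]
    rw [e, cf_zero]
    exact mul_ne_zero ha0 hb0

end Pool.Agent.N138.RF.R1
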