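import Pool.Agent.N138.SU.B3

set_option autoImplicit false
set_option linter.unusedSectionVars false

/-! # Job S of project RF, first part: functions which are dilations on lines -/

namespace Pool.Agent.N138.RF.S1

open MeasureTheory
open Pool.Agent.W427.SMC
open Pool.Agent.N138.SU

attribute [local instance] msZ bsZ

variable {p : ℕ} [Fact p.Prime]

/-! ### Isometries (compare `SV/C0.lean`) -/

/-- isometries of a compact metric space are onto -/
theorem isom_onto {X : Type*} [MetricSpace X] [CompactSpace X] (f : X → X) (hf : Isometry f) :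
    Function.Surjective f := by
  by_contra hns
  rw [Function.Surjective] at hns
  push Not at hns
  obtain ⟨x, hx⟩ := hns
  have hcl : IsClosed (Set.range f) := (isCompact_range hf.continuous).isClosed
  have hxn : x ∉ Set.range f := by
    rintro ⟨a, ha⟩
    exact hx a ha
  obtain ⟨ε, hε, hb⟩ := Metric.isOpen_iff.1 hcl.isOpen_compl x hxn
  have hit : ∀ n : ℕ, Isometry (f^[n]) := fun n => by
    induction n with
    | zero => exact isometry_id
    | succ n ih => rw [Function.iterate_succ]; exact ih.comp hf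
  have hfar : ∀ m n : ℕ, m < n → ε ≤ dist (f^[n] x) (f^[m] x) := by
    intro m n hmn
    obtain ⟨k, rfl⟩ := Nat.exists_eq_add_of_lt hmn
    have e1 : f^[m + k + 1] x = f^[m] (f (f^[k] x)) := by
      rw [← Function.iterate_succ_apply' f k x, ← Function.iterate_add_apply]
      rfl
    rw [e1, (hit m).dist_eq]
    by_contra hlt
    push Not at hlt
    exact hb (Metric.mem_ball.2 hlt) ⟨_, rfl⟩
  obtain ⟨a, φ, hφ, hlim⟩ := CompactSpace.tendsto_subseq (fun n => f^[n] x)
  have hc := hlim.cauchySeq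
  obtain ⟨N, hN⟩ := Metric.cauchySeq_iff'.1 hc ε hε
  have := hN (N + 1) (Nat.le_succ N)
  have h2 := hfar (φ N) (φ (N + 1)) (hφ (Nat.lt_succ_self N))
  simp only [Function.comp] at this
  linarith

theorem cb_eq {a b : ℤ_[p]} {r : ℝ} (h : b ∈ Metric.closedBall a r) :
    Metric.closedBall a r = Metric.closedBall b r := by
  have : IsUltrametricDist ℤ_[p] := inferInstance
  exact (IsUltrametricDist.closedBall_eq_of_mem h)

theorem mu_cb (a b : ℤ_[p]) (r : ℝ) : mu p (Metric.closedBall a r) = mu p (Metric.closedBall b r) := by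
  have h := measure_preimage_add (mu p) (b - a) (Metric.closedBall b r)
  rw [← h]
  congr 1
  ext z
  simp only [Set.mem_preimage, Metric.mem_closedBall, dist_eq_norm]
  rw [show b - a + z - b = z - a by ring]

theorem gen : (msZ p) = MeasurableSpace.generateFrom
    {S : Set ℤ_[p] | ∃ (c : ℤ_[p]) (r : ℝ), 0 < r ∧ S = Metric.closedBall c r} := by
  have hB : TopologicalSpace.IsTopologicalBasis
      {S : Set ℤ_[p] | ∃ (c : ℤ_[p]) (r : ℝ), 0 < r ∧ S = Metric.closedBall c r} := by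
    refine TopologicalSpace.isTopologicalBasis_of_isOpen_of_nhds ?_ ?_
    · rintro S ⟨c, r, hr, rfl⟩
      exact IsUltrametricDist.isOpen_closedBall c hr.ne'
    · intro a U ha hU
      obtain ⟨ε, hε, hε2⟩ := Metric.isOpen_iff.1 hU a ha
      refine ⟨_, ⟨a, ε / 2, half_pos hε, rfl⟩, ?_, ?_⟩
      · exact Metric.mem_closedBall_self (half_pos hε).le
      · exact (Metric.closedBall_subset_ball (half_lt_self hε)).trans hε2
  exact hB.borel_eq_generateFrom

theorem map_isom (ψ : ℤ_[p] → ℤ_[p]) (hψ : Isometry ψ) : (mu p).map ψ = mu p := by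
  have hm : Measurable ψ := hψ.continuous.measurable
  have hf : IsFiniteMeasure ((mu p).map ψ) := inferInstance
  refine ext_of_generate_finite _ gen ?_ ?_ ?_
  · rintro S ⟨c, r, hr, rfl⟩ T ⟨c', r', hr', rfl⟩ ⟨x, hx, hx'⟩
    refine ⟨x, min r r', lt_min hr hr', ?_⟩
    rw [cb_eq hx, cb_eq hx']
    rcases le_total r r' with h | h
    · rw [min_eq_left h]
      exact Set.inter_eq_self_of_subset_left (Metric.closedBall_subset_closedBall h)
    · rw [min_eq_right h]
      exact Set.inter_eq_self_of_subset_right (Metric.closedBall_subset_closedBall h)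
  · rintro S ⟨c, r, hr, rfl⟩
    obtain ⟨b, rfl⟩ := isom_onto ψ hψ c
    rw [Measure.map_apply hm Metric.isClosed_closedBall.measurableSet, hψ.preimage_closedBall]
    exact mu_cb _ _ _
  · rw [Measure.map_apply hm MeasurableSet.univ, Set.preimage_univ]

theorem int_isom (ψ : ℤ_[p] → ℤ_[p]) (hψ : Isometry ψ) (H : ℤ_[p] → ℂ) (hH : Measurable H) :
    ∫ t, H (ψ t) ∂(mu p) = ∫ t, H t ∂(mu p) := by
  conv_rhs => rw [← map_isom ψ hψ]
  rw [integral_map hψ.continuous.measurable.aemeasurable hH.aestronglyMeasurable]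

theorem meas_aff' (a b : ℤ_[p]) : Measurable fun t : ℤ_[p] => a + b * t :=
  (continuous_const.add (continuous_const.mul continuous_id)).measurable

theorem dvd_of (c x : ℤ_[p]) (hc : c ≠ 0) (h1 : ‖x‖ ≤ ‖c‖) : c ∣ x := by
  have hcv : ‖c‖ = (p : ℝ) ^ (-(c.valuation : ℤ)) := PadicInt.norm_eq_zpow_neg_valuation hc
  rw [hcv, PadicInt.norm_le_pow_iff_mem_span_pow, Ideal.mem_span_singleton] at h1
  have h2 : c ∣ (p : ℤ_[p]) ^ c.valuation := by
    have h3 := PadicInt.unitCoeff_spec hc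
    refine ⟨(((PadicInt.unitCoeff hc)⁻¹ : ℤ_[p]ˣ) : ℤ_[p]), ?_⟩
    have h4 : ((PadicInt.unitCoeff hc : ℤ_[p]ˣ) : ℤ_[p]) *
        (((PadicInt.unitCoeff hc)⁻¹ : ℤ_[p]ˣ) : ℤ_[p]) = 1 := by simp
    have h5 : c * (((PadicInt.unitCoeff hc)⁻¹ : ℤ_[p]ˣ) : ℤ_[p]) =
        ((PadicInt.unitCoeff hc : ℤ_[p]ˣ) : ℤ_[p]) * (p : ℤ_[p]) ^ c.valuation *
          (((PadicInt.unitCoeff hc)⁻¹ : ℤ_[p]ˣ) : ℤ_[p]) :=
      congrArg (fun z => z * (((PadicInt.unitCoeff hc)⁻¹ : ℤ_[p]ˣ) : ℤ_[p])) h3
    rw [h5]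
    linear_combination (-(p : ℤ_[p]) ^ c.valuation) * h4
  exact h2.trans h1

/-- the distribution of a function which multiplies the distances by a constant -/
theorem line (G : ℤ_[p] → ℤ_[p]) (c : ℤ_[p]) (hc : c ≠ 0)
    (hG : ∀ t t', ‖G t - G t'‖ = ‖c‖ * ‖t - t'‖) (H : ℤ_[p] → ℂ) (hH : Measurable H) :
    ∫ t, H (G t) ∂(mu p) = ∫ t, H (G 0 + c * t) ∂(mu p) := by
  have hc0 : 0 < ‖c‖ := norm_pos_iff.2 hc
  have hdvd : ∀ t, c ∣ G t - G 0 := by
    intro t
    refine dvd_of c _ hc ?_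
    rw [hG]
    calc ‖c‖ * ‖t - 0‖ ≤ ‖c‖ * 1 := mul_le_mul_of_nonneg_left (PadicInt.norm_le_one _) hc0.le
      _ = ‖c‖ := mul_one _
  choose ψ hψ using hdvd
  have i1 : Isometry ψ := Isometry.of_dist_eq fun t t' => by
    rw [dist_eq_norm, dist_eq_norm]
    have h1 : c * (ψ t - ψ t') = G t - G t' := by
      rw [mul_sub, ← hψ, ← hψ]; ring
    have h2 := congrArg norm h1
    rw [norm_mul, hG] at h2
    exact mul_left_cancel₀ hc0.ne' h2
  have h := int_isom ψ i1 (fun z => H (G 0 + c * z)) (hH.comp (meas_aff' _ _))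
  rw [← h]
  refine integral_congr_ae (Filter.Eventually.of_forall fun t => ?_)
  show H (G t) = H (G 0 + c * ψ t)
  rw [← hψ]
  congr 1
  ring

/-- invariance under the multiplication by numbers near `1` -/
theorem line_inv (G : ℤ_[p] → ℤ_[p]) (c : ℤ_[p]) (hc : c ≠ 0)
    (hG : ∀ t t', ‖G t - G t'‖ = ‖c‖ * ‖t - t'‖) (v : ℤ_[p]) (hv : ‖v‖ = 1) (hv2 : ‖v - 1‖ ≤ ‖c‖)
    (H : ℤ_[p] → ℂ) (hH : Measurable H) :
    ∫ t, H (v * G t) ∂(mu p) = ∫ t, H (G t) ∂(mu p) := by
  have hc0 : 0 < ‖c‖ := norm_pos_iff.2 hc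
  rw [line (fun t => v * G t) c hc (fun t t' => by
    show ‖v * G t - v * G t'‖ = _
    rw [← mul_sub, norm_mul, hv, one_mul, hG]) H hH]
  have hd : c ∣ (v - 1) * G 0 := by
    refine dvd_of c _ hc ?_
    rw [norm_mul]
    calc ‖v - 1‖ * ‖G 0‖ ≤ ‖c‖ * 1 :=
          mul_le_mul hv2 (PadicInt.norm_le_one _) (norm_nonneg _) hc0.le
      _ = ‖c‖ := mul_one _
  obtain ⟨s, hs⟩ := hd
  rw [line G c hc hG H hH]
  have h2 := integral_add_left_eq_self (μ := mu p) (fun t => H (G 0 + c * t)) s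
  rw [← h2]
  refine integral_congr_ae (Filter.Eventually.of_forall fun t => ?_)
  show H (v * G 0 + c * t) = H (G 0 + c * (s + t))
  congr 1
  linear_combination hs

/-- the exponential sums vanish -/
theorem line_psi (G : ℤ_[p] → ℤ_[p]) (c : ℤ_[p]) (hc : c ≠ 0)
    (hG : ∀ t t', ‖G t - G t'‖ = ‖c‖ * ‖t - t'‖) (u : ℤ_[p]) (hu : ‖u‖ = 1) (e : ℕ)
    (he : ((p : ℝ)⁻¹) ^ e < ‖c‖) : ∫ t, psi p e (u * G t) ∂(mu p) = 0 := by
  have h1 : Measurable fun z : ℤ_[p] => psi p e (u * z) :=
    (B3.psi_meas e).comp (continuous_const.mul continuous_id).measurable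
  rw [line G c hc hG (fun z => psi p e (u * z)) h1]
  have h2 : ∀ t : ℤ_[p], psi p e (u * (G 0 + c * t)) = psi p e (u * G 0) * psi p e (t * (u * c)) := by
    intro t
    rw [← B3.psi_add]
    congr 1
    ring
  simp only [h2]
  rw [integral_const_mul, B3.int_char, if_neg, mul_zero]
  rw [norm_mul, hu, one_mul]
  exact not_le.2 he

section pi

variable {V : Type} [Fintype V]

/-- the residue class of `w` modulo `p ^ K` -/
def cl (K : ℕ) (w : V → ZMod (p ^ K)) : Set (V → ℤ_[p]) :=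
  {y | ∀ j, PadicInt.toZModPow K (y j) = w j}

theorem meas_cl (K : ℕ) (w : V → ZMod (p ^ K)) : MeasurableSet (cl K w) := by
  have h1 : cl K w = ⋂ j, (fun y : V → ℤ_[p] => y j) ⁻¹' {z | PadicInt.toZModPow K z = w j} := by
    ext y; simp [cl]
  rw [h1]
  refine MeasurableSet.iInter fun j => (measurable_pi_apply j) ?_
  have : NeZero (p ^ K) := ⟨pow_ne_zero K (Fact.out : p.Prime).ne_zero⟩
  have h2 : {z : ℤ_[p] | PadicInt.toZModPow K z = w j} =
      {z : ℤ_[p] | ‖z - ((w j).val : ℤ_[p])‖ ≤ ((p : ℝ)⁻¹) ^ K} := by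
    ext z
    rw [Set.mem_ofPred_eq, Set.mem_ofPred_eq, ← B3.toZ_iff, map_sub, map_natCast,
      ZMod.natCast_zmod_val, sub_eq_zero]
  rw [h2]
  exact (isClosed_le (continuous_id.sub continuous_const).norm continuous_const).measurableSet

/-- moving the coordinate `i` -/
noncomputable def mv (K : ℕ) (i : V) (t : ℤ_[p]) (y : V → ℤ_[p]) : V → ℤ_[p] :=
  open Classical in fun j => (if j = i then (p : ℤ_[p]) ^ K * t else 0) + y j

theorem mv_cl (K : ℕ) (i : V) (t : ℤ_[p]) (y : V → ℤ_[p]) (w : V → ZMod (p ^ K)) :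
    mv K i t y ∈ cl K w ↔ y ∈ cl K w := by
  refine forall_congr' fun j => ?_
  have h0 : PadicInt.toZModPow K ((p : ℤ_[p]) ^ K * t) = 0 := by
    rw [← RingHom.mem_ker, PadicInt.ker_toZModPow, Ideal.mem_span_singleton]
    exact dvd_mul_right _ _
  unfold mv
  rw [map_add]
  split_ifs
  · rw [h0, zero_add]
  · rw [map_zero, zero_add]

theorem mv_meas (K : ℕ) (i : V) :
    Measurable fun r : ℤ_[p] × (V → ℤ_[p]) => mv K i r.1 r.2 := by
  classical
  refine measurable_pi_lambda _ fun j => ?_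
  unfold mv
  have h2 : Measurable fun r : ℤ_[p] × (V → ℤ_[p]) => r.2 j :=
    (measurable_pi_apply j).comp measurable_snd
  by_cases h : j = i
  · simp only [if_pos h]
    have h1 : Measurable fun r : ℤ_[p] × (V → ℤ_[p]) => (p : ℤ_[p]) ^ K * r.1 :=
      ((continuous_const.mul continuous_id).measurable).comp measurable_fst
    exact h1.add h2
  · simp only [if_neg h, zero_add]
    exact h2

/-- if the averages over lines vanish, then the integral vanishes -/
theorem avg (K : ℕ) (g : (V → ℤ_[p]) → ℂ) (hg : Measurable g) (B : ℝ) (hB : ∀ y, ‖g y‖ ≤ B)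
    (h : ∀ y : V → ℤ_[p], ∃ i, ∀ z : V → ℤ_[p],
      (∀ j, PadicInt.toZModPow K (z j) = PadicInt.toZModPow K (y j)) →
      ∫ t, g (mv K i t z) ∂(mu p) = 0) :
    ∫ y, g y ∂(Measure.pi fun _ : V => mu p) = 0 := by
  classical
  have : NeZero (p ^ K) := ⟨pow_ne_zero K (Fact.out : p.Prime).ne_zero⟩
  have h0 : ∀ y : V → ℤ_[p], g y = ∑ w : V → ZMod (p ^ K), (cl K w).indicator g y := by
    intro y
    rw [Finset.sum_eq_single (fun j => PadicInt.toZModPow K (y j))]
    · rw [Set.indicator_of_mem]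
      intro j
      rfl
    · intro w _ hw
      rw [Set.indicator_of_notMem]
      intro hy
      exact hw (funext fun j => (hy j).symm)
    · intro hn
      exact absurd (Finset.mem_univ _) hn
  have hB0 : 0 ≤ B := (norm_nonneg _).trans (hB 0)
  have hm : ∀ w : V → ZMod (p ^ K), Measurable ((cl K w).indicator g) := fun w =>
    hg.indicator (meas_cl K w)
  have hb : ∀ (w : V → ZMod (p ^ K)) (y : V → ℤ_[p]), ‖(cl K w).indicator g y‖ ≤ B := by
    intro w y
    by_cases hy : y ∈ cl K w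
    · rw [Set.indicator_of_mem hy]; exact hB y
    · rw [Set.indicator_of_notMem hy, norm_zero]; exact hB0
  have hint : ∀ w : V → ZMod (p ^ K), Integrable ((cl K w).indicator g)
      (Measure.pi fun _ : V => mu p) := fun w =>
    Integrable.of_bound (hm w).aestronglyMeasurable B (Filter.Eventually.of_forall (hb w))
  rw [integral_congr_ae (Filter.Eventually.of_forall h0), integral_finsetSum _ fun w _ => hint w]
  refine Finset.sum_eq_zero fun w _ => ?_
  by_cases hw : ∃ y, y ∈ cl (p := p) K w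
  · obtain ⟨y0, hy0⟩ := hw
    obtain ⟨i, hi⟩ := h y0
    obtain ⟨F, hF⟩ : ∃ F : (V → ℤ_[p]) → ℂ, F = (cl K w).indicator g := ⟨_, rfl⟩
    rw [← hF]
    have hFm : Measurable F := by rw [hF]; exact hm w
    have hFb : ∀ y, ‖F y‖ ≤ B := by rw [hF]; exact hb w
    have hint2 : Integrable (fun r : ℤ_[p] × (V → ℤ_[p]) => F (mv K i r.1 r.2))
        ((mu p).prod (Measure.pi fun _ : V => mu p)) :=
      Integrable.of_bound (hFm.comp (mv_meas K i)).aestronglyMeasurable B
        (Filter.Eventually.of_forall fun r => hFb _)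
    have h1 : ∫ t : ℤ_[p], ∫ y : V → ℤ_[p], F (mv K i t y)
        ∂(Measure.pi fun _ : V => mu p) ∂(mu p) = ∫ y, F y ∂(Measure.pi fun _ : V => mu p) := by
      have h2 : ∀ t : ℤ_[p], ∫ y : V → ℤ_[p], F (mv K i t y)
          ∂(Measure.pi fun _ : V => mu p) = ∫ y, F y ∂(Measure.pi fun _ : V => mu p) := by
        intro t
        exact integral_add_left_eq_self (μ := Measure.pi fun _ : V => mu p) F
          (fun j => if j = i then (p : ℤ_[p]) ^ K * t else 0)
      simp only [h2]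
      simp
    rw [← h1, integral_integral_swap hint2]
    have h3 : ∀ y : V → ℤ_[p], ∫ t : ℤ_[p], F (mv K i t y) ∂(mu p) = 0 := by
      intro y
      by_cases hy : y ∈ cl K w
      · have h4 : ∀ t : ℤ_[p], F (mv K i t y) = g (mv K i t y) := by
          intro t
          rw [hF, Set.indicator_of_mem ((mv_cl K i t y w).2 hy)]
        simp only [h4]
        exact hi y fun j => (hy j).trans (hy0 j).symm
      · have h4 : ∀ t : ℤ_[p], F (mv K i t y) = 0 := by
          intro t
          rw [hF, Set.indicator_of_notMem fun hh => hy ((mv_cl K i t y w).1 hh)]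
        simp only [h4]
        simp
    simp only [h3]
    simp
  · push Not at hw
    have h4 : ∀ y : V → ℤ_[p], (cl K w).indicator g y = 0 := fun y =>
      Set.indicator_of_notMem (hw y) _
    simp only [h4]
    simp

end pi

end Pool.Agent.N138.RF.S1
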